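import Pool.Agent.W_420c7c_h51.CntA1

set_option autoImplicit false

/-!
# Evaluations and contractions
-/

namespace Pool.Agent.W_420c7c_h51

open Finset

/-- `∑_w f w x^a y^b` -/
def ev {S : Type} [CommRing S] (D : Finset (ℕ × ℕ)) (f : ℕ × ℕ → ℤ) (x y : S) : S :=
  ∑ w ∈ D, (f w : S) * x ^ w.1 * y ^ w.2

/-- contraction -/
def contr (c : ℕ × ℕ) (f : ℕ × ℕ → ℤ) : ℕ × ℕ → ℤ := fun w => f (c.1 + 2 * w.1, c.2 + 2 * w.2)

/-- multiplication by a sign pattern modulo `2` -/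
def tw (t : Bool × Bool → SignType) (f : ℕ × ℕ → ℤ) : ℕ × ℕ → ℤ :=
  fun w => ((t (w.1.bodd, w.2.bodd) : SignType) : ℤ) * f w

theorem vv_eq_ev (p m : ℕ) (D : Finset (ℕ × ℕ)) (f : ℕ × ℕ → ℤ) :
    vv p m D f = ev D f (p : ℤ) (m : ℤ) := by
  unfold vv ev mon
  refine Finset.sum_congr rfl fun w _ => ?_
  push_cast
  ring

/-- the pattern of the twist by `(e1, e2)`, `e1, e2 = ± 1` (`true`: `+1`) -/
def pat (e : Bool × Bool) : Bool × Bool → SignType :=
  fun b => (if b.1 && !e.1 then -1 else 1) * (if b.2 && !e.2 then -1 else 1)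

/-- the sign -/
def sg (e : Bool) : ℤ := if e then 1 else -1

end Pool.Agent.W_420c7c_h51
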