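import Pool.Agent.W_420c7c_h51.ArA0

set_option autoImplicit false

/-!
# The family of operations
-/

namespace Pool.Agent.W_420c7c_h51

open Finset

/-- PROOF. `k = 0`, `ρ = (0, 0)`, `s = 1`. -/
theorem OPS_self (d : ℕ × ℕ → ℤ) : d ∈ OPS d := by
  refine ⟨0, (0, 0), fun _ => 1, by simp, by simp, ?_⟩
  funext w
  simp [op]

private lemma ArA1_bodd {c w : ℕ} (hc : c < 2) : (c + 2 * w).bodd = Nat.bodd c := by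
  simp [Nat.bodd_add, Nat.bodd_mul]

private lemma ArA1_lt {r c k : ℕ} (hr : r < 2 ^ k) (hc : c < 2) : r + 2 ^ k * c < 2 ^ (k + 1) := by
  have : 2 ^ k * c ≤ 2 ^ k * 1 := Nat.mul_le_mul_left _ (by omega)
  rw [pow_succ]
  omega

/-- PROOF. `op k ρ s d (c + 2 w) = s(c) d (ρ + 2^k c + 2^(k+1) w)` (`Nat.bodd` of `c + 2 w` is that of `c`). -/
theorem OPS_contr {d f : ℕ × ℕ → ℤ} (hf : f ∈ OPS d) {c : ℕ × ℕ} (h1 : c.1 < 2) (h2 : c.2 < 2) :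
    contr c f ∈ OPS d := by
  obtain ⟨k, ρ, s, hρ1, hρ2, rfl⟩ := hf
  refine ⟨k + 1, (ρ.1 + 2 ^ k * c.1, ρ.2 + 2 ^ k * c.2), fun _ => s (c.1.bodd, c.2.bodd),
    ArA1_lt hρ1 h1, ArA1_lt hρ2 h2, ?_⟩
  funext w
  have e1 : ρ.1 + 2 ^ k * (c.1 + 2 * w.1) = ρ.1 + 2 ^ k * c.1 + 2 ^ (k + 1) * w.1 := by ring
  have e2 : ρ.2 + 2 ^ k * (c.2 + 2 * w.2) = ρ.2 + 2 ^ k * c.2 + 2 ^ (k + 1) * w.2 := by ring
  simp only [contr, op, ArA1_bodd h1, ArA1_bodd h2, e1, e2]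

theorem OPS_tw {d f : ℕ × ℕ → ℤ} (hf : f ∈ OPS d) (t : Bool × Bool → SignType) :
    tw t f ∈ OPS d := by
  obtain ⟨k, ρ, s, hρ1, hρ2, rfl⟩ := hf
  refine ⟨k, ρ, fun b => t b * s b, hρ1, hρ2, ?_⟩
  funext w
  simp only [tw, op, SignType.coe_mul]
  push_cast
  ring

private lemma ArA1_sign (s : SignType) : |((s : SignType) : ℤ)| ≤ 1 := by
  cases s <;> simp

theorem OPS_bound {d f : ℕ × ℕ → ℤ} {B : ℤ} (hd : ∀ w, |d w| ≤ B) (hf : f ∈ OPS d) (w : ℕ × ℕ) :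
    |f w| ≤ B := by
  obtain ⟨k, ρ, s, hρ1, hρ2, rfl⟩ := hf
  have h1 := ArA1_sign (s (w.1.bodd, w.2.bodd))
  have h2 := hd (ρ.1 + 2 ^ k * w.1, ρ.2 + 2 ^ k * w.2)
  simp only [op, Int.cast_id, abs_mul]
  calc _ ≤ 1 * |d (ρ.1 + 2 ^ k * w.1, ρ.2 + 2 ^ k * w.2)| :=
        mul_le_mul_of_nonneg_right h1 (abs_nonneg _)
    _ ≤ B := by simpa using h2

/-- PROOF. `Dl_down`. -/
theorem OPS_supp {p m : ℕ} (hp : 3 ≤ p) (hm : 3 ≤ m) {A : ℝ} {d f : ℕ × ℕ → ℤ}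
    (hd : ∀ w, d w ≠ 0 → w ∈ Dl p m A) (hf : f ∈ OPS d) (w : ℕ × ℕ) (hw : f w ≠ 0) :
    w ∈ Dl p m A := by
  obtain ⟨k, ρ, s, hρ1, hρ2, rfl⟩ := hf
  have h1 : d (ρ.1 + 2 ^ k * w.1, ρ.2 + 2 ^ k * w.2) ≠ 0 := by
    intro h0
    apply hw
    simp [op, h0]
  have h2 := hd _ h1
  exact (Dl_down hp hm h2).1

end Pool.Agent.W_420c7c_h51
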