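import Pool.Agent.W_420c7c_h51.ArA0

set_option autoImplicit false

/-!
# Evaluations
-/

namespace Pool.Agent.W_420c7c_h51

open Finset

private lemma ArA2_class {S : Type} [CommRing S] {p m : ℕ} (hp : 3 ≤ p) (hm : 3 ≤ m) {A : ℝ}
    (g : ℕ × ℕ → S) (hg : ∀ w, g w ≠ 0 → w ∈ Dl p m A) (c1 c2 : ℕ) (h1 : c1 < 2) (h2 : c2 < 2) :
    ∑ w ∈ Dl p m A, g (c1 + 2 * w.1, c2 + 2 * w.2) =
      ∑ w ∈ Dl p m A, if w.1 % 2 = c1 ∧ w.2 % 2 = c2 then g w else 0 := by
  rw [← Finset.sum_filter]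
  refine Finset.sum_bij_ne_zero (fun w _ _ => (c1 + 2 * w.1, c2 + 2 * w.2)) ?_ ?_ ?_ ?_
  · intro w _ hne
    rw [mem_filter]
    refine ⟨hg _ hne, ?_, ?_⟩
    · show (c1 + 2 * w.1) % 2 = c1
      omega
    · show (c2 + 2 * w.2) % 2 = c2
      omega
  · intro a _ _ b _ _ hab
    have h3 := congrArg Prod.fst hab
    have h4 := congrArg Prod.snd hab
    simp only at h3 h4
    exact Prod.ext (by omega) (by omega)
  · intro w hw hne
    rw [mem_filter] at hw
    obtain ⟨hwD, h3, h4⟩ := hw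
    have h5 : (c1 + 2 * (w.1 / 2), c2 + 2 * (w.2 / 2)) = w :=
      Prod.ext (by simp only; omega) (by simp only; omega)
    refine ⟨(w.1 / 2, w.2 / 2), ?_, ?_, h5⟩
    · refine (Dl_down hp hm (k := 1) (ρ := (c1, c2)) ?_).1
      simp only [pow_one]
      rw [h5]
      exact hwD
    · simp only
      rw [h5]
      exact hne
  · intro w _ _
    rfl

/-- PROOF. `w = c + 2 w'` uniquely with `c ∈ {0,1}^2`; `f` vanishes outside `Dl p m A`, and `w' ∈ Dl p m A` if
`c + 2 w' ∈ Dl p m A`. -/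
theorem ev_split {S : Type} [CommRing S] {p m : ℕ} (hp : 3 ≤ p) (hm : 3 ≤ m) {A : ℝ}
    {f : ℕ × ℕ → ℤ} (hf : ∀ w, f w ≠ 0 → w ∈ Dl p m A) (x y : S) :
    ev (Dl p m A) f x y =
      ev (Dl p m A) (contr (0, 0) f) (x ^ 2) (y ^ 2) +
      x * ev (Dl p m A) (contr (1, 0) f) (x ^ 2) (y ^ 2) +
      y * ev (Dl p m A) (contr (0, 1) f) (x ^ 2) (y ^ 2) +
      x * y * ev (Dl p m A) (contr (1, 1) f) (x ^ 2) (y ^ 2) := by
  set g : ℕ × ℕ → S := fun w => (f w : S) * x ^ w.1 * y ^ w.2 with hgdef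
  have hg : ∀ w, g w ≠ 0 → w ∈ Dl p m A := by
    intro w hw
    apply hf
    intro h0
    apply hw
    simp [hgdef, h0]
  have e00 : ev (Dl p m A) (contr (0, 0) f) (x ^ 2) (y ^ 2) =
      ∑ w ∈ Dl p m A, g (0 + 2 * w.1, 0 + 2 * w.2) := by
    unfold ev contr
    refine Finset.sum_congr rfl fun w _ => ?_
    simp only [hgdef]
    rw [pow_add, pow_add, pow_mul, pow_mul]
    ring
  have e10 : x * ev (Dl p m A) (contr (1, 0) f) (x ^ 2) (y ^ 2) =
      ∑ w ∈ Dl p m A, g (1 + 2 * w.1, 0 + 2 * w.2) := by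
    unfold ev contr
    rw [Finset.mul_sum]
    refine Finset.sum_congr rfl fun w _ => ?_
    simp only [hgdef]
    rw [pow_add, pow_add, pow_mul, pow_mul]
    ring
  have e01 : y * ev (Dl p m A) (contr (0, 1) f) (x ^ 2) (y ^ 2) =
      ∑ w ∈ Dl p m A, g (0 + 2 * w.1, 1 + 2 * w.2) := by
    unfold ev contr
    rw [Finset.mul_sum]
    refine Finset.sum_congr rfl fun w _ => ?_
    simp only [hgdef]
    rw [pow_add, pow_add, pow_mul, pow_mul]
    ring
  have e11 : x * y * ev (Dl p m A) (contr (1, 1) f) (x ^ 2) (y ^ 2) =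
      ∑ w ∈ Dl p m A, g (1 + 2 * w.1, 1 + 2 * w.2) := by
    unfold ev contr
    rw [Finset.mul_sum]
    refine Finset.sum_congr rfl fun w _ => ?_
    simp only [hgdef]
    rw [pow_add, pow_add, pow_mul, pow_mul]
    ring
  rw [e00, e10, e01, e11, ArA2_class hp hm g hg 0 0 (by norm_num) (by norm_num),
    ArA2_class hp hm g hg 1 0 (by norm_num) (by norm_num),
    ArA2_class hp hm g hg 0 1 (by norm_num) (by norm_num),
    ArA2_class hp hm g hg 1 1 (by norm_num) (by norm_num),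
    ← Finset.sum_add_distrib, ← Finset.sum_add_distrib, ← Finset.sum_add_distrib]
  unfold ev
  refine Finset.sum_congr rfl fun w _ => ?_
  rcases Nat.mod_two_eq_zero_or_one w.1 with h1 | h1 <;>
    rcases Nat.mod_two_eq_zero_or_one w.2 with h2 | h2 <;> simp [h1, h2, hgdef]

private lemma ArA2_sg_pow (e : Bool) (a : ℕ) :
    (sg e) ^ a = if a.bodd && !e then -1 else 1 := by
  cases e with
  | true => simp [sg]
  | false =>
    simp only [sg, Bool.not_false, Bool.and_true, Bool.false_eq_true, if_false]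
    rcases Nat.even_or_odd a with h | h
    · have hb : a.bodd = false := by
        rcases hh : a.bodd with _ | _
        · rfl
        · have := Nat.mod_two_of_bodd a
          rw [hh] at this
          rw [Nat.even_iff] at h
          simp at this
          omega
      rw [h.neg_one_pow, hb]
      simp
    · have hb : a.bodd = true := by
        rcases hh : a.bodd with _ | _
        · have := Nat.mod_two_of_bodd a
          rw [hh] at this
          rw [Nat.odd_iff] at h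
          simp at this
          omega
        · rfl
      rw [h.neg_one_pow, hb]
      simp

private lemma ArA2_pat (e : Bool × Bool) (b : Bool × Bool) :
    ((pat e b : SignType) : ℤ) =
      (if b.1 && !e.1 then -1 else 1) * (if b.2 && !e.2 then -1 else 1) := by
  obtain ⟨e1, e2⟩ := e
  obtain ⟨b1, b2⟩ := b
  cases e1 <;> cases e2 <;> cases b1 <;> cases b2 <;> rfl

theorem ev_pat (D : Finset (ℕ × ℕ)) (f : ℕ × ℕ → ℤ) (e : Bool × Bool) (x y : ℤ) :
    ev D f (sg e.1 * x) (sg e.2 * y) = ev D (tw (pat e) f) x y := by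
  unfold ev tw
  refine Finset.sum_congr rfl fun w _ => ?_
  rw [ArA2_pat, mul_pow, mul_pow, ArA2_sg_pow, ArA2_sg_pow]
  push_cast
  ring

/-- a twist does not vanish -/
theorem tw_pat_ne {f : ℕ × ℕ → ℤ} (e : Bool × Bool) (w : ℕ × ℕ) :
    tw (pat e) f w ≠ 0 ↔ f w ≠ 0 := by
  have h : ((pat e (w.1.bodd, w.2.bodd) : SignType) : ℤ) ≠ 0 := by
    rw [ArA2_pat]
    split_ifs <;> norm_num
  unfold tw
  constructor
  · intro h1 h2
    exact h1 (by rw [h2, mul_zero])
  · intro h1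
    exact mul_ne_zero h h1

/-- evaluations at congruent integers are congruent -/
theorem ev_congr (D : Finset (ℕ × ℕ)) (f : ℕ × ℕ → ℤ) {r x y x' y' : ℤ} (hx : r ∣ x - x')
    (hy : r ∣ y - y') : r ∣ ev D f x y - ev D f x' y' := by
  have hx' : x' ≡ x [ZMOD r] := (Int.modEq_iff_dvd).2 hx
  have hy' : y' ≡ y [ZMOD r] := (Int.modEq_iff_dvd).2 hy
  unfold ev
  rw [← Finset.sum_sub_distrib]
  refine Finset.dvd_sum fun w _ => ?_
  refine (Int.modEq_iff_dvd).1 ?_
  exact ((Int.ModEq.refl _).mul (hx'.pow _)).mul (hy'.pow _)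

/-- PROOF. Triangle inequality, `|x|^a |y|^b ≤ exp (lv p m w) ≤ exp ℓ`. -/
theorem ev_bound {p m : ℕ} (hp : 3 ≤ p) (hm : 3 ≤ m) {A : ℝ} {f : ℕ × ℕ → ℤ} {ℓ : ℝ}
    (hB : ∀ w, |f w| ≤ 12) (hl : ∀ w, f w ≠ 0 → lv p m w ≤ ℓ) {x y : ℤ} (hx : |x| ≤ p)
    (hy : |y| ≤ m) :
    |(ev (Dl p m A) f x y : ℝ)| ≤ 12 * (Dl p m A).card * Real.exp ℓ := by
  have hx' : |(x : ℝ)| ≤ p := by
    have : ((|x| : ℤ) : ℝ) ≤ ((p : ℤ) : ℝ) := by exact_mod_cast hx
    simpa [Int.cast_abs] using this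
  have hy' : |(y : ℝ)| ≤ m := by
    have : ((|y| : ℤ) : ℝ) ≤ ((m : ℤ) : ℝ) := by exact_mod_cast hy
    simpa [Int.cast_abs] using this
  have hterm : ∀ w ∈ Dl p m A, |(((f w : ℤ) * x ^ w.1 * y ^ w.2 : ℤ) : ℝ)| ≤
      12 * Real.exp ℓ := by
    intro w _
    rcases eq_or_ne (f w) 0 with h0 | h0
    · rw [h0]
      simp only [zero_mul, Int.cast_zero, abs_zero]
      positivity
    · have h1 : |((f w : ℤ) : ℝ)| ≤ 12 := by
        have : ((|f w| : ℤ) : ℝ) ≤ ((12 : ℤ) : ℝ) := by exact_mod_cast hB w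
        simpa [Int.cast_abs] using this
      have h2 : |(x : ℝ)| ^ w.1 * |(y : ℝ)| ^ w.2 ≤ Real.exp ℓ := by
        have h3 : |(x : ℝ)| ^ w.1 * |(y : ℝ)| ^ w.2 ≤ (mon p m w : ℝ) := by
          unfold mon
          push_cast
          gcongr
        have h4 : (0 : ℝ) < (mon p m w : ℝ) := by
          unfold mon
          have h5 : 0 < p := by omega
          have h6 : 0 < m := by omega
          positivity
        have h7 : (mon p m w : ℝ) ≤ Real.exp ℓ := by
          rw [← Real.exp_log h4, log_mon hp hm]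
          exact Real.exp_le_exp.2 (hl w h0)
        linarith
      push_cast
      rw [abs_mul, abs_mul, abs_pow, abs_pow, mul_assoc]
      exact mul_le_mul h1 h2 (by positivity) (by norm_num)
  calc |(ev (Dl p m A) f x y : ℝ)|
      = |∑ w ∈ Dl p m A, (((f w : ℤ) * x ^ w.1 * y ^ w.2 : ℤ) : ℝ)| := by
        unfold ev
        congr 1
        refine Finset.sum_congr rfl fun w _ => ?_
        push_cast
        ring
    _ ≤ ∑ w ∈ Dl p m A, |(((f w : ℤ) * x ^ w.1 * y ^ w.2 : ℤ) : ℝ)| :=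
        Finset.abs_sum_le_sum_abs _ _
    _ ≤ ∑ _w ∈ Dl p m A, 12 * Real.exp ℓ := Finset.sum_le_sum hterm
    _ = 12 * (Dl p m A).card * Real.exp ℓ := by
        rw [Finset.sum_const, nsmul_eq_mul]
        ring

end Pool.Agent.W_420c7c_h51
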