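import Pool.Agent.W_420c7c_h51.ArA1
import Pool.Agent.W_420c7c_h51.ArA2

set_option autoImplicit false

/-!
# The setting of the arithmetic part
-/

namespace Pool.Agent.W_420c7c_h51

open Finset

/-- `R₃`, `R₁` are sets of primes `3` resp. `1` modulo `4` for which the relations of the family `OPS d` hold in
characteristic zero, so that they vanish modulo `r` at the even powers (`R₃`, `R₁`) and at the odd powers (`R₁`) -/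
structure Ctx (p m : ℕ) (A : ℝ) (d : ℕ × ℕ → ℤ) (R₃ R₁ : Finset ℕ) : Prop where
  hp : p.Prime
  hp3 : 5 ≤ p
  hm : 5 ≤ m
  hsq : Squarefree m
  hpm : ¬ p ∣ m
  h3p : ¬ 3 ∣ p
  h3m : ¬ 3 ∣ m
  hd : ∀ w, d w ≠ 0 → w ∈ Dl p m A
  hB : ∀ w, |d w| ≤ 12
  hR3 : ∀ r ∈ R₃, r.Prime ∧ r % 4 = 3 ∧ 1000 ≤ r ∧ ¬ r ∣ p * m
  hR1 : ∀ r ∈ R₁, r.Prime ∧ r % 4 = 1 ∧ 1000 ≤ r ∧ ¬ r ∣ p * m
  hvan0 : ∀ g ∈ OPS d, vv p m (Dl p m A) g = 0 → ∀ r, r ∈ R₃ ∨ r ∈ R₁ → ∀ k, Even k →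
    ¬ (r : ℤ) ∣ 2 ^ k - 1 → (r : ℤ) ∣ ev (Dl p m A) g ((p : ℤ) ^ k) ((m : ℤ) ^ k)
  hvan1 : ∀ g ∈ OPS d, vv p m (Dl p m A) g = 0 → ∀ r ∈ R₁, ∀ k, Odd k →
    ¬ (r : ℤ) ∣ 2 ^ k + 1 → (r : ℤ) ∣ ev (Dl p m A) g (sgn3 p ^ k) (sgn3 m ^ k)

/-- `f` is a nonzero element of the family vanishing at `(p, m)`, of level at most `ℓ`, and no nonzero element of the
family of level less than `ℓ` vanishes at `(p, m)` -/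
structure Mn (p m : ℕ) (A : ℝ) (d : ℕ × ℕ → ℤ) (ℓ : ℝ) (f : ℕ × ℕ → ℤ) : Prop where
  hf : f ∈ OPS d
  hne : ∃ w, f w ≠ 0
  hv : vv p m (Dl p m A) f = 0
  hl : ∀ w, f w ≠ 0 → lv p m w ≤ ℓ
  hpos : 0 < ℓ
  hmin : ∀ g ∈ OPS d, (∃ w, g w ≠ 0) → (∀ w, g w ≠ 0 → lv p m w < ℓ) →
    vv p m (Dl p m A) g ≠ 0

/-- the conclusion of all cases -/
def Concl (p m : ℕ) (A : ℝ) (R : Finset ℕ) (ℓ c : ℝ) : Prop :=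
  ∃ V : ℤ, V ≠ 0 ∧ (∀ r ∈ R, (r : ℤ) ∣ V) ∧
    |(V : ℝ)| ≤ (24 * (Dl p m A).card) ^ 8 * Real.exp (c * ℓ)

end Pool.Agent.W_420c7c_h51
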