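import Pool.Agent.W_420c7c_h51.ArB0

set_option autoImplicit false

/-!
# Primes `3` modulo `4`
-/

namespace Pool.Agent.W_420c7c_h51

open Finset

private theorem ArB1_key {r : ℕ} (hr : r.Prime) (h4 : r % 4 = 3) :
    ∃ k1 k2 : ℕ, Even k1 ∧ Even k2 ∧ ∀ x : ℕ, ¬ r ∣ x → ∃ e : Bool,
      (r : ℤ) ∣ (x : ℤ) ^ k1 - sg e * x ∧ (r : ℤ) ∣ ((x : ℤ) ^ k2) ^ 2 - sg e * x := by
  have : Fact r.Prime := ⟨hr⟩
  obtain ⟨i, hi⟩ : ∃ i, r = 4 * i + 3 := ⟨r / 4, by omega⟩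
  -- `j = 2 i + 1`, `r - 1 = 2 j`
  have hpow : ∀ x : ℕ, ¬ r ∣ x → ((x : ZMod r)) ^ (2 * (2 * i + 1)) = 1 := by
    intro x hx
    have hx0 : (x : ZMod r) ≠ 0 := by
      rw [Ne, ZMod.natCast_eq_zero_iff]
      exact hx
    have := ZMod.pow_card_sub_one_eq_one hx0
    have h2 : r - 1 = 2 * (2 * i + 1) := by omega
    rwa [h2] at this
  have hsgn : ∀ x : ℕ, ¬ r ∣ x → ∃ e : Bool, ((x : ZMod r)) ^ (2 * i + 1) = ((sg e : ℤ) : ZMod r) := by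
    intro x hx
    have h1 := hpow x hx
    have h2 : ((x : ZMod r) ^ (2 * i + 1) - 1) * ((x : ZMod r) ^ (2 * i + 1) + 1) = 0 := by
      have : (x : ZMod r) ^ (2 * (2 * i + 1)) = ((x : ZMod r) ^ (2 * i + 1)) ^ 2 := by
        rw [← pow_mul]; ring_nf
      rw [this] at h1
      linear_combination h1
    rcases mul_eq_zero.mp h2 with h | h
    · refine ⟨true, ?_⟩
      simp only [sg, if_true, Int.cast_one]
      linear_combination h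
    · refine ⟨false, ?_⟩
      simp only [sg, Bool.false_eq_true, if_false, Int.cast_neg, Int.cast_one]
      linear_combination h
  refine ⟨2 * i + 2, if Even (i + 1) then i + 1 else i + 1 + (2 * i + 1), ⟨i + 1, by ring⟩, ?_, ?_⟩
  · split_ifs with h
    · exact h
    · rw [Nat.not_even_iff_odd] at h
      exact h.add_odd ⟨i, rfl⟩
  · intro x hx
    obtain ⟨e, he⟩ := hsgn x hx
    refine ⟨e, ?_, ?_⟩
    · rw [← ZMod.intCast_zmod_eq_zero_iff_dvd] 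
      push_cast
      have : (x : ZMod r) ^ (2 * i + 2) = (x : ZMod r) ^ (2 * i + 1) * x := by ring
      rw [this, he]
      ring
    · rw [← ZMod.intCast_zmod_eq_zero_iff_dvd]
      push_cast
      have : ((x : ZMod r) ^ (if Even (i + 1) then i + 1 else i + 1 + (2 * i + 1))) ^ 2 =
          (x : ZMod r) ^ (2 * i + 1) * x := by
        split_ifs with h
        · rw [← pow_mul]; ring
        · have : ((x : ZMod r) ^ (i + 1 + (2 * i + 1))) ^ 2 =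
            (x : ZMod r) ^ (2 * i + 1) * x * (x : ZMod r) ^ (2 * (2 * i + 1)) := by
            rw [← pow_mul]; ring
          rw [this, hpow x hx, mul_one]
      rw [this, he]
      ring

/-- Primes `3` modulo `4`. PROOF. `r ≡ 3 (mod 4)`. `k₁ = (r+1)/2` is even and `x^k₁ ≡ (x/r) x` (Euler's criterion,
`ZMod.euler_criterion`/`legendreSym.eq_pow`); `k₂ = (r+1)/4` if this is even, else `(r+1)/4 + (r-1)/2`; `k₂` is even,
`2 k₂ ≡ (r+1)/2 mod (r-1)`, so `s = x^k₂` satisfies `s^2 ≡ x^k₁ ≡ (x/r) x` for `x = p, m` and `x = 2`: `2^k₁ ≡ ± 2`,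
`(2^k₂)^2 ≡ ± 2`, so `2^k₁, 2^k₂` are not `1` (`r ≥ 1000`). Apply `hvan0`, `ev_congr`. -/
theorem chars {p m : ℕ} {A : ℝ} {d : ℕ × ℕ → ℤ} {R₃ R₁ : Finset ℕ} (h : Ctx p m A d R₃ R₁)
    {r : ℕ} (hr : r ∈ R₃) : ∃ (e : Bool × Bool) (sp sm : ℤ),
      (r : ℤ) ∣ sp ^ 2 - sg e.1 * p ∧ (r : ℤ) ∣ sm ^ 2 - sg e.2 * m ∧
      ¬ (r : ℤ) ∣ sp ∧ ¬ (r : ℤ) ∣ sm ∧
      ∀ g ∈ OPS d, vv p m (Dl p m A) g = 0 →
        (r : ℤ) ∣ ev (Dl p m A) g (sg e.1 * p) (sg e.2 * m) ∧ (r : ℤ) ∣ ev (Dl p m A) g sp sm := by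
  obtain ⟨hrp, h4, h1000, hndvd⟩ := h.hR3 r hr
  have hrZ : Prime (r : ℤ) := Nat.prime_iff_prime_int.mp hrp
  obtain ⟨k1, k2, hk1, hk2, hk⟩ := ArB1_key hrp h4
  have hp : ¬ r ∣ p := fun hd => hndvd (hd.mul_right m)
  have hm : ¬ r ∣ m := fun hd => hndvd (hd.mul_left p)
  have h2 : ¬ r ∣ 2 := fun hd => by
    have := Nat.le_of_dvd (by norm_num) hd
    omega
  obtain ⟨e1, hp1, hp2⟩ := hk p hp
  obtain ⟨e2, hm1, hm2⟩ := hk m hm
  obtain ⟨e3, h21, h22⟩ := hk 2 h2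
  -- small multiples of `r`
  have hsmall : ∀ z : ℤ, z ≠ 0 → |z| ≤ 3 → ¬ (r : ℤ) ∣ z := by
    intro z hz hz3 hd
    have := Int.le_of_dvd (abs_pos.mpr hz) ((dvd_abs _ _).mpr hd)
    omega
  have hno : ∀ y : ℤ, (r : ℤ) ∣ y - sg e3 * (2 : ℕ) → ¬ (r : ℤ) ∣ y - 1 := by
    intro y h1 h3
    have h5 : (r : ℤ) ∣ (y - 1) - (y - sg e3 * (2 : ℕ)) := dvd_sub h3 h1
    have h6 : (y - 1) - (y - sg e3 * (2 : ℕ)) = sg e3 * 2 - 1 := by push_cast; ring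
    rw [h6] at h5
    refine hsmall _ ?_ ?_ h5
    · cases e3 <;> simp [sg]
    · cases e3 <;> simp [sg]
  have hn1 : ¬ (r : ℤ) ∣ 2 ^ k1 - 1 := by
    have := hno _ h21
    simpa using this
  have hn2 : ¬ (r : ℤ) ∣ 2 ^ k2 - 1 := by
    intro hd
    have := hno _ h22
    apply this
    have h7 : (((2 : ℕ) : ℤ) ^ k2) ^ 2 - 1 = (2 ^ k2 - 1) * (2 ^ k2 + 1) := by push_cast; ring
    rw [h7]
    exact hd.mul_right _
  have hnp : ∀ (x k : ℕ), ¬ r ∣ x → ¬ (r : ℤ) ∣ (x : ℤ) ^ k := by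
    intro x k hx hd
    have := hrZ.dvd_of_dvd_pow hd
    exact hx (by exact_mod_cast this)
  refine ⟨(e1, e2), (p : ℤ) ^ k2, (m : ℤ) ^ k2, hp2, hm2, hnp p k2 hp, hnp m k2 hm, ?_⟩
  intro g hg hv
  refine ⟨?_, h.hvan0 g hg hv r (Or.inl hr) k2 hk2 hn2⟩
  have hA := h.hvan0 g hg hv r (Or.inl hr) k1 hk1 hn1
  have hB := ev_congr (Dl p m A) g hp1 hm1
  have := dvd_sub hA hB
  simpa using this

end Pool.Agent.W_420c7c_h51
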