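import Pool.Agent.W_420c7c_h51.ArB0

set_option autoImplicit false

/-!
# Contractions of the minimal element
-/

namespace Pool.Agent.W_420c7c_h51

open Finset

private lemma ArB2_lv_nonneg {p m : ℕ} (w : ℕ × ℕ) : 0 ≤ lv p m w := by
  have h1 : 0 ≤ Real.log (p : ℝ) := Real.log_natCast_nonneg p
  have h2 : 0 ≤ Real.log (m : ℝ) := Real.log_natCast_nonneg m
  unfold lv
  positivity

private lemma ArB2_level {p m : ℕ} {A : ℝ} {d : ℕ × ℕ → ℤ} {ℓ : ℝ} {f : ℕ × ℕ → ℤ}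
    (hf : Mn p m A d ℓ f) {c : ℕ × ℕ} (w : ℕ × ℕ) (hw : contr c f w ≠ 0) :
    lv p m w ≤ (ℓ - lv p m c) / 2 := by
  have h1 := hf.hl _ hw
  have h2 : lv p m (c.1 + 2 * w.1, c.2 + 2 * w.2) = lv p m c + 2 * lv p m w := by
    unfold lv
    push_cast
    ring
  rw [h2] at h1
  linarith

private lemma ArB2_abs (e : Bool) (n : ℕ) : |sg e * (n : ℤ)| ≤ n := by
  cases e <;> simp [sg]

/-- PROOF. `contr c f` has an element `w` in its support iff `f (c + 2 w) ≠ 0`, and then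
`lv p m c + 2 lv p m w ≤ ℓ`, so `lv p m w ≤ (ℓ - lv p m c)/2 < ℓ`. With `ev_pat`, `OPS_contr`, `OPS_tw`, `hmin`. -/
theorem contr_ev_ne {p m : ℕ} {A : ℝ} {d : ℕ × ℕ → ℤ} {R₃ R₁ : Finset ℕ}
    (h : Ctx p m A d R₃ R₁) {ℓ : ℝ}
    {f : ℕ × ℕ → ℤ} (hf : Mn p m A d ℓ f) {c : ℕ × ℕ} (h1 : c.1 < 2) (h2 : c.2 < 2)
    (hne : ∃ w, contr c f w ≠ 0) (e : Bool × Bool) :
    ev (Dl p m A) (contr c f) (sg e.1 * p : ℤ) (sg e.2 * m : ℤ) ≠ 0 := by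
  rw [ev_pat, ← vv_eq_ev]
  refine hf.hmin _ (OPS_tw (OPS_contr hf.hf h1 h2) _) ?_ ?_
  · obtain ⟨w, hw⟩ := hne
    exact ⟨w, (tw_pat_ne e w).2 hw⟩
  · intro w hw
    have h3 := ArB2_level hf w ((tw_pat_ne e w).1 hw)
    have h4 := ArB2_lv_nonneg (p := p) (m := m) c
    have h5 := hf.hpos
    linarith

/-- PROOF. `ev_bound` for `contr c f` with the level `(ℓ - lv p m c)/2`, multiplied by `exp (lv p m c / 2)`. -/
theorem contr_ev_bound {p m : ℕ} {A : ℝ} {d : ℕ × ℕ → ℤ} {R₃ R₁ : Finset ℕ}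
    (h : Ctx p m A d R₃ R₁)
    {ℓ : ℝ} {f : ℕ × ℕ → ℤ} (hf : Mn p m A d ℓ f) {c : ℕ × ℕ} (h1 : c.1 < 2) (h2 : c.2 < 2)
    (e : Bool × Bool) :
    |(ev (Dl p m A) (contr c f) (sg e.1 * p : ℤ) (sg e.2 * m : ℤ) : ℝ)| *
      Real.exp (lv p m c / 2) ≤ 12 * (Dl p m A).card * Real.exp (ℓ / 2) := by
  have h3 : 3 ≤ p := le_trans (by norm_num) h.hp3
  have h4 : 3 ≤ m := le_trans (by norm_num) h.hm
  have h5 := ev_bound (A := A) h3 h4 (f := contr c f) (ℓ := (ℓ - lv p m c) / 2)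
    (fun w => OPS_bound h.hB (OPS_contr hf.hf h1 h2) w) (fun w hw => ArB2_level hf w hw)
    (ArB2_abs e.1 p) (ArB2_abs e.2 m)
  calc _ ≤ 12 * (Dl p m A).card * Real.exp ((ℓ - lv p m c) / 2) * Real.exp (lv p m c / 2) :=
        mul_le_mul_of_nonneg_right h5 (Real.exp_pos _).le
    _ = 12 * (Dl p m A).card * Real.exp (ℓ / 2) := by
        rw [mul_assoc, ← Real.exp_add]
        congr 2
        ring

end Pool.Agent.W_420c7c_h51
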