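import Pool.Agent.W_420c7c_h51.Defs

set_option autoImplicit false

/-!
# The norm form of `ℚ(√P, √M)`
-/

namespace Pool.Agent.W_420c7c_h51

open Finset

/-- the product of `a ± b √P ± c √M + (±)(±) d √P √M` over the four signs -/
def nf (P M a b c d : ℤ) : ℤ :=
  (a ^ 2 + M * c ^ 2 - P * b ^ 2 - P * M * d ^ 2) ^ 2 - 4 * M * (a * c - P * b * d) ^ 2

private lemma sq_zero (P : ℕ) (hP : ¬ IsSquare P) (a b : ℤ) (h : a ^ 2 = P * b ^ 2) :
    a = 0 ∧ b = 0 := by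
  by_cases hb : b = 0
  · subst hb
    refine ⟨?_, rfl⟩
    have h1 : a ^ 2 = 0 := by rw [h]; ring
    exact pow_eq_zero_iff (two_ne_zero) |>.1 h1
  · exfalso
    have h1 : b ^ 2 ∣ a ^ 2 := ⟨P, by rw [h]; ring⟩
    have h2 : b ∣ a := (Int.pow_dvd_pow_iff two_ne_zero).1 h1
    obtain ⟨k, rfl⟩ := h2
    have h3 : b ^ 2 * (k ^ 2 - P) = 0 := by linear_combination h
    have h4 : k ^ 2 - P = 0 := by
      rcases mul_eq_zero.1 h3 with h5 | h5
      · exact absurd (pow_eq_zero_iff (two_ne_zero) |>.1 h5) hb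
      · exact h5
    refine hP ⟨k.natAbs, ?_⟩
    have h5 : ((k.natAbs * k.natAbs : ℕ) : ℤ) = k ^ 2 := by
      rw [sq]
      exact Int.natAbs_mul_self
    have h6 : ((P : ℕ) : ℤ) = ((k.natAbs * k.natAbs : ℕ) : ℤ) := by rw [h5]; linarith
    exact_mod_cast h6

/-- PROOF. If `nf = 0` then, `M` being no square, `ac = P b d` and `a^2 + M c^2 = P (b^2 + M d^2)`, so in `ℝ`
`(a + c √M)^2 = P (b + d √M)^2`, `a + c √M = ± √P (b + d √M)`. If `b + d √M ≠ 0` then `√P = x + y √M` with rational `x, y` (multiply by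
the conjugate, `b^2 - M d^2 ≠ 0`), `P = x^2 + M y^2 + 2 x y √M`, `x y = 0`; `y = 0`: `P` is a square; `x = 0`: `P M = (M y)^2` is a
square. So `b = d = 0`, `a = c = 0`. -/
theorem nf_ne (P M : ℕ) (hP : ¬ IsSquare P) (hM : ¬ IsSquare M) (hPM : ¬ IsSquare (P * M))
    (a b c d : ℤ) (h : ¬ (a = 0 ∧ b = 0 ∧ c = 0 ∧ d = 0)) : nf P M a b c d ≠ 0 := by
  intro h0
  unfold nf at h0
  have hM0 : (M : ℤ) ≠ 0 := by
    intro h1
    have h2 : M = 0 := by exact_mod_cast h1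
    exact hM (h2 ▸ ⟨0, rfl⟩)
  obtain ⟨e1, e2⟩ := sq_zero M hM (a ^ 2 + M * c ^ 2 - P * b ^ 2 - P * M * d ^ 2)
    (2 * (a * c - P * b * d)) (by linear_combination h0)
  have e3 : a * c - P * b * d = 0 := by
    rcases mul_eq_zero.1 e2 with h1 | h1
    · norm_num at h1
    · exact h1
  have e4 : (a ^ 2 - M * c ^ 2 - P * (b ^ 2 - M * d ^ 2)) *
      (a ^ 2 - M * c ^ 2 + P * (b ^ 2 - M * d ^ 2)) = 0 := by
    linear_combination (a ^ 2 + M * c ^ 2 + P * b ^ 2 + P * M * d ^ 2) * e1 -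
      4 * M * (a * c + P * b * d) * e3
  rcases mul_eq_zero.1 e4 with e5 | e5
  · have f1 : a ^ 2 = P * b ^ 2 := by linarith
    obtain ⟨rfl, rfl⟩ := sq_zero P hP a b f1
    have f2 : (M : ℤ) * (c ^ 2 - P * d ^ 2) = 0 := by linear_combination e1
    have f3 : c ^ 2 = P * d ^ 2 := by
      rcases mul_eq_zero.1 f2 with h1 | h1
      · exact absurd h1 hM0
      · linarith
    obtain ⟨rfl, rfl⟩ := sq_zero P hP c d f3
    exact h ⟨rfl, rfl, rfl, rfl⟩
  · have f1 : a ^ 2 = ((P * M : ℕ) : ℤ) * d ^ 2 := by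
      push_cast
      linarith
    obtain ⟨rfl, rfl⟩ := sq_zero (P * M) hPM a d f1
    have f2 : (M * c) ^ 2 = ((P * M : ℕ) : ℤ) * b ^ 2 := by
      push_cast
      linear_combination (M : ℤ) * e1
    obtain ⟨f3, rfl⟩ := sq_zero (P * M) hPM (M * c) b f2
    have f4 : c = 0 := by
      rcases mul_eq_zero.1 f3 with h1 | h1
      · exact absurd h1 hM0
      · exact h1
    exact h ⟨rfl, rfl, f4, rfl⟩

/-- PROOF. Modulo `r` the number is the product of the four conjugates with `√P = s`, `√M = t`. -/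
theorem nf_dvd (P M a b c d s t r : ℤ) (hs : r ∣ s ^ 2 - P) (ht : r ∣ t ^ 2 - M)
    (h : r ∣ a + s * b + t * c + s * t * d) : r ∣ nf P M a b c d := by
  have h1 : r ∣ nf (s ^ 2) (t ^ 2) a b c d := by
    refine h.trans ⟨(a - s * b + t * c - s * t * d) * (a + s * b - t * c - s * t * d) *
      (a - s * b - t * c + s * t * d), ?_⟩
    unfold nf
    ring
  have e1 : s ^ 2 ≡ P [ZMOD r] := (Int.modEq_iff_dvd.2 hs).symm
  have e2 : t ^ 2 ≡ M [ZMOD r] := (Int.modEq_iff_dvd.2 ht).symm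
  have h2 : nf (s ^ 2) (t ^ 2) a b c d ≡ nf P M a b c d [ZMOD r] := by
    unfold nf
    gcongr
  exact (Int.modEq_zero_iff_dvd).1 (h2.symm.trans (Int.modEq_zero_iff_dvd.2 h1))

/-- PROOF. `|nf| ≤ (|a| + |b| √P + |c| √M + |d| √P √M)^4` (each of the four real factors). -/
theorem nf_bound (P M : ℕ) (a b c d : ℤ) (K : ℝ) (ha : |(a : ℝ)| ≤ K)
    (hb : |(b : ℝ)| * Real.sqrt P ≤ K) (hc : |(c : ℝ)| * Real.sqrt M ≤ K)
    (hd : |(d : ℝ)| * Real.sqrt P * Real.sqrt M ≤ K) :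
    |(nf P M a b c d : ℝ)| ≤ (4 * K) ^ 4 := by
  have hs : Real.sqrt P ^ 2 = P := Real.sq_sqrt (by positivity)
  have ht : Real.sqrt M ^ 2 = M := Real.sq_sqrt (by positivity)
  have s0 : 0 ≤ Real.sqrt P := Real.sqrt_nonneg _
  have t0 : 0 ≤ Real.sqrt M := Real.sqrt_nonneg _
  set s := Real.sqrt P
  set t := Real.sqrt M
  have hb' : |(b : ℝ) * s| ≤ K := by rw [abs_mul, abs_of_nonneg s0]; exact hb
  have hc' : |(c : ℝ) * t| ≤ K := by rw [abs_mul, abs_of_nonneg t0]; exact hc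
  have hd' : |(d : ℝ) * s * t| ≤ K := by
    rw [abs_mul, abs_mul, abs_of_nonneg s0, abs_of_nonneg t0]; exact hd
  have e : (nf P M a b c d : ℝ) = (a + b * s + c * t + d * s * t) *
      (a - b * s + c * t - d * s * t) * (a + b * s - c * t - d * s * t) *
      (a - b * s - c * t + d * s * t) := by
    unfold nf
    push_cast
    rw [← hs, ← ht]
    ring
  rw [abs_le] at ha hb' hc' hd'
  have f1 : |(a + b * s + c * t + d * s * t : ℝ)| ≤ 4 * K := by
    rw [abs_le]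
    constructor <;> linarith [ha.1, ha.2, hb'.1, hb'.2, hc'.1, hc'.2, hd'.1, hd'.2]
  have f2 : |(a - b * s + c * t - d * s * t : ℝ)| ≤ 4 * K := by
    rw [abs_le]
    constructor <;> linarith [ha.1, ha.2, hb'.1, hb'.2, hc'.1, hc'.2, hd'.1, hd'.2]
  have f3 : |(a + b * s - c * t - d * s * t : ℝ)| ≤ 4 * K := by
    rw [abs_le]
    constructor <;> linarith [ha.1, ha.2, hb'.1, hb'.2, hc'.1, hc'.2, hd'.1, hd'.2]
  have f4 : |(a - b * s - c * t + d * s * t : ℝ)| ≤ 4 * K := by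
    rw [abs_le]
    constructor <;> linarith [ha.1, ha.2, hb'.1, hb'.2, hc'.1, hc'.2, hd'.1, hd'.2]
  rw [e, abs_mul, abs_mul, abs_mul]
  have K0 : 0 ≤ 4 * K := (abs_nonneg _).trans f1
  have g1 := mul_le_mul f1 f2 (abs_nonneg _) K0
  have g2 := mul_le_mul g1 f3 (abs_nonneg _) (by positivity)
  have g3 := mul_le_mul g2 f4 (abs_nonneg _) (by positivity)
  refine g3.trans (le_of_eq ?_)
  ring

/-- PROOF. `a^2 = P b^2`, `P` no square. -/
theorem sq_ne (P : ℕ) (hP : ¬ IsSquare P) (a b : ℤ) (h : ¬ (a = 0 ∧ b = 0)) :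
    a ^ 2 - P * b ^ 2 ≠ 0 := by
  intro h0
  exact h (sq_zero P hP a b (by linarith))

end Pool.Agent.W_420c7c_h51
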