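import Pool.Agent.W_420c7c_h51.ArE2
import Pool.Agent.W_420c7c_h51.ArB2
import Pool.Agent.W_420c7c_h51.ArN

set_option autoImplicit false

/-!
# Case C1
-/

namespace Pool.Agent.W_420c7c_h51

open Finset

private theorem ArC1_prime_sq {p : ℕ} (hp : p.Prime) : ¬ IsSquare p := by
  rintro ⟨k, hk⟩
  exact (Nat.not_prime_mul (by rintro rfl; exact hp.ne_one (by simpa using hk))
    (by rintro rfl; exact hp.ne_one (by simpa using hk))) (hk ▸ hp)

private theorem ArC1_sqfree {m : ℕ} (hm : 1 < m) (h : Squarefree m) : ¬ IsSquare m := by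
  rintro ⟨k, hk⟩
  have h1 : IsUnit k := h k (hk ▸ dvd_refl _)
  rw [Nat.isUnit_iff] at h1
  subst h1
  omega

private theorem ArC1_cast (D : Finset (ℕ × ℕ)) (f : ℕ × ℕ → ℤ) (x y : ℤ) :
    ((ev D f x y : ℤ) : ℝ) = ev D f (x : ℝ) (y : ℝ) := by
  unfold ev
  push_cast
  rfl

/-- PROOF. `V = nf p m a b c e' * V₁ V₂ V₃`, where `a, b, c, e'` are `ev (contr c f) p m` for `c = (0,0), (1,0), (0,1), (1,1)`, and
`V₁, V₂, V₃` are `ev f (± p) (± m)` for the three sign patterns `≠ (+,+)`. Nonzero: `nf_ne` (`p`, `m`, `p m` are no squares: `p`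
prime, `m > 1` squarefree, `p m` squarefree; some contraction of `f` is not zero, `contr_ev_ne`) and `h`. Let `r ∈ R₃ ∪ R₁`, and
apply `dich`. First alternative: `r` divides the factor `ev f (sg e.1 p) (sg e.2 m)`. Second alternative:
`0 ≡ ev f sp sm = a' + sp b' + sm c' + sp sm e''` (`ev_split`) with `a' = ev (contr (0,0) f) (sp^2) (sm^2) ≡ a` etc. (`ev_congr`), so
`nf_dvd`. Bound: `contr_ev_bound` and `nf_bound` with `K = 12 N exp (ℓ/2)` give `|nf| ≤ (48 N)^4 exp (2 ℓ)`; `ev_bound` for the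
others; `48^4 * 12^3 ≤ 24^8`, `N ≥ 1`. -/
theorem case1 {p m : ℕ} {A : ℝ} {d : ℕ × ℕ → ℤ} {R₃ R₁ : Finset ℕ}
    (hc : Ctx p m A d R₃ R₁) {ℓ : ℝ}
    {f : ℕ × ℕ → ℤ} (hf : Mn p m A d ℓ f)
    (h : ∀ e : Bool × Bool, e ≠ (true, true) →
      ev (Dl p m A) f (sg e.1 * p : ℤ) (sg e.2 * m : ℤ) ≠ 0) : Concl p m A (R₃ ∪ R₁) ℓ 5 := by
  have hp3 : 3 ≤ p := le_trans (by norm_num) hc.hp3
  have hm3 : 3 ≤ m := le_trans (by norm_num) hc.hm
  have hsupp : ∀ w, f w ≠ 0 → w ∈ Dl p m A := fun w hw => OPS_supp hp3 hm3 hc.hd hf.hf w hw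
  have hB : ∀ w, |f w| ≤ 12 := fun w => OPS_bound hc.hB hf.hf w
  obtain ⟨w0, hw0⟩ := hf.hne
  have hN : 1 ≤ (Dl p m A).card := card_pos.2 ⟨w0, hsupp w0 hw0⟩
  set D := Dl p m A with hD
  have hNr : (1 : ℝ) ≤ (D.card : ℝ) := by exact_mod_cast hN
  -- the factors
  set a := ev D (contr (0, 0) f) (p : ℤ) (m : ℤ) with ha
  set b := ev D (contr (1, 0) f) (p : ℤ) (m : ℤ) with hb
  set c := ev D (contr (0, 1) f) (p : ℤ) (m : ℤ) with hcc
  set e' := ev D (contr (1, 1) f) (p : ℤ) (m : ℤ) with he'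
  set V₁ := ev D f (sg false * p : ℤ) (sg true * m : ℤ) with hV1
  set V₂ := ev D f (sg true * p : ℤ) (sg false * m : ℤ) with hV2
  set V₃ := ev D f (sg false * p : ℤ) (sg false * m : ℤ) with hV3
  have hst : ∀ x : ℤ, sg true * x = x := fun x => by simp [sg]
  have hcne : ∀ {c : ℕ × ℕ}, c.1 < 2 → c.2 < 2 → (∃ w, contr c f w ≠ 0) →
      ev D (contr c f) (p : ℤ) (m : ℤ) ≠ 0 := by
    intro c h1 h2 h3
    have h4 := contr_ev_ne hc hf h1 h2 h3 (true, true)
    simpa [hst] using h4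
  have hcb : ∀ {c : ℕ × ℕ}, c.1 < 2 → c.2 < 2 →
      |((ev D (contr c f) (p : ℤ) (m : ℤ) : ℤ) : ℝ)| * Real.exp (lv p m c / 2) ≤
        12 * D.card * Real.exp (ℓ / 2) := by
    intro c h1 h2
    have h4 := contr_ev_bound hc hf h1 h2 (true, true)
    rw [hst, hst] at h4
    rw [ArC1_cast]
    exact h4
  have hP : ¬ IsSquare p := ArC1_prime_sq hc.hp
  have hM : ¬ IsSquare m := ArC1_sqfree (by have := hc.hm; omega) hc.hsq
  have hPM : ¬ IsSquare (p * m) := by
    refine ArC1_sqfree ?_ ?_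
    · have := hc.hp3
      have := hc.hm
      nlinarith
    · rw [Nat.squarefree_mul ((Nat.Prime.coprime_iff_not_dvd hc.hp).2 hc.hpm)]
      exact ⟨hc.hp.squarefree, hc.hsq⟩
  have hnf : nf p m a b c e' ≠ 0 := by
    refine nf_ne p m hP hM hPM a b c e' ?_
    rintro ⟨z1, z2, z3, z4⟩
    have hw : contr (w0.1 % 2, w0.2 % 2) f (w0.1 / 2, w0.2 / 2) ≠ 0 := by
      unfold contr
      simp only [Nat.mod_add_div]
      exact hw0
    have h1 := hcne (c := (w0.1 % 2, w0.2 % 2)) (Nat.mod_lt _ (by norm_num))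
      (Nat.mod_lt _ (by norm_num)) ⟨_, hw⟩
    rcases Nat.mod_two_eq_zero_or_one w0.1 with h2 | h2 <;>
      rcases Nat.mod_two_eq_zero_or_one w0.2 with h3 | h3 <;> rw [h2, h3] at h1
    · exact h1 z1
    · exact h1 z3
    · exact h1 z2
    · exact h1 z4
  refine ⟨nf p m a b c e' * (V₁ * V₂ * V₃), ?_, ?_, ?_⟩
  · refine mul_ne_zero hnf (mul_ne_zero (mul_ne_zero ?_ ?_) ?_)
    · exact h (false, true) (by decide)
    · exact h (true, false) (by decide)
    · exact h (false, false) (by decide)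
  · intro r hr
    rw [mem_union] at hr
    rcases dich hc hr with ⟨e, he, h1⟩ | ⟨sp, sm, h1, h2, h3⟩
    · have h2 := h1 f hf.hf hf.hv
      refine dvd_mul_of_dvd_right ?_ _
      rcases e with ⟨e1, e2⟩
      cases e1 <;> cases e2
      · exact dvd_mul_of_dvd_right h2 _
      · exact dvd_mul_of_dvd_left (dvd_mul_of_dvd_left h2 _) _
      · exact dvd_mul_of_dvd_left (dvd_mul_of_dvd_right h2 _) _
      · exact absurd rfl he
    · refine dvd_mul_of_dvd_left ?_ _
      refine nf_dvd p m a b c e' sp sm r h1 h2 ?_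
      have h4 := h3 f hf.hf hf.hv
      rw [ev_split hp3 hm3 hsupp sp sm] at h4
      have k1 := ev_congr D (contr (0, 0) f) h1 h2
      have k2 := ev_congr D (contr (1, 0) f) h1 h2
      have k3 := ev_congr D (contr (0, 1) f) h1 h2
      have k4 := ev_congr D (contr (1, 1) f) h1 h2
      have k5 := dvd_sub h4 (dvd_add (dvd_add (dvd_add k1 (dvd_mul_of_dvd_right k2 sp))
        (dvd_mul_of_dvd_right k3 sm)) (dvd_mul_of_dvd_right k4 (sp * sm)))
      have k6 : a + sp * b + sm * c + sp * sm * e' =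
          (ev D (contr (0, 0) f) (sp ^ 2) (sm ^ 2) +
            sp * ev D (contr (1, 0) f) (sp ^ 2) (sm ^ 2) +
            sm * ev D (contr (0, 1) f) (sp ^ 2) (sm ^ 2) +
            sp * sm * ev D (contr (1, 1) f) (sp ^ 2) (sm ^ 2)) -
          (ev D (contr (0, 0) f) (sp ^ 2) (sm ^ 2) - a +
            sp * (ev D (contr (1, 0) f) (sp ^ 2) (sm ^ 2) - b) +
            sm * (ev D (contr (0, 1) f) (sp ^ 2) (sm ^ 2) - c) +
            sp * sm * (ev D (contr (1, 1) f) (sp ^ 2) (sm ^ 2) - e')) := by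
        ring
      rw [k6]
      exact k5
  · have hlp : Real.exp (Real.log p / 2) = Real.sqrt p := by
      rw [Real.sqrt_eq_rpow, Real.rpow_def_of_pos (by exact_mod_cast hc.hp.pos)]
      congr 1
      ring
    have hlm : Real.exp (Real.log m / 2) = Real.sqrt m := by
      rw [Real.sqrt_eq_rpow, Real.rpow_def_of_pos (by exact_mod_cast (by omega : 0 < m))]
      congr 1
      ring
    have b1 := hcb (c := (0, 0)) (by norm_num) (by norm_num)
    have b2 := hcb (c := (1, 0)) (by norm_num) (by norm_num)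
    have b3 := hcb (c := (0, 1)) (by norm_num) (by norm_num)
    have b4 := hcb (c := (1, 1)) (by norm_num) (by norm_num)
    have l1 : lv p m (0, 0) = 0 := by simp [lv]
    have l2 : lv p m (1, 0) = Real.log p := by simp [lv]
    have l3 : lv p m (0, 1) = Real.log m := by simp [lv]
    have l4 : lv p m (1, 1) = Real.log p + Real.log m := by simp [lv]
    rw [l1, zero_div, Real.exp_zero, mul_one] at b1
    rw [l2, hlp] at b2
    rw [l3, hlm] at b3
    rw [l4, add_div, Real.exp_add, hlp, hlm, ← mul_assoc] at b4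
    have hn := nf_bound p m a b c e' _ b1 b2 b3 b4
    have hs : ∀ (e : Bool) (x : ℕ), |sg e * (x : ℤ)| ≤ x := by
      intro e x
      cases e <;> simp [sg]
    have hv : ∀ e : Bool × Bool, |((ev D f (sg e.1 * p : ℤ) (sg e.2 * m : ℤ) : ℤ) : ℝ)| ≤
        12 * D.card * Real.exp ℓ := by
      intro e
      rw [ArC1_cast]
      exact ev_bound hp3 hm3 hB hf.hl (hs _ _) (hs _ _)
    have v1 : |(V₁ : ℝ)| ≤ 12 * D.card * Real.exp ℓ := hv (false, true)
    have v2 : |(V₂ : ℝ)| ≤ 12 * D.card * Real.exp ℓ := hv (true, false)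
    have v3 : |(V₃ : ℝ)| ≤ 12 * D.card * Real.exp ℓ := hv (false, false)
    have hE : Real.exp (ℓ / 2) ^ 4 = Real.exp (2 * ℓ) := by
      rw [← Real.exp_nat_mul]
      congr 1
      push_cast
      ring
    have hE2 : Real.exp (2 * ℓ) * (Real.exp ℓ * Real.exp ℓ * Real.exp ℓ) = Real.exp (5 * ℓ) := by
      rw [← Real.exp_add, ← Real.exp_add, ← Real.exp_add]
      congr 1
      ring
    push_cast
    rw [abs_mul, abs_mul, abs_mul]
    have h12 : (0 : ℝ) ≤ 12 * D.card * Real.exp ℓ := by positivity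
    have hprod : |(V₁ : ℝ)| * |(V₂ : ℝ)| * |(V₃ : ℝ)| ≤
        (12 * D.card * Real.exp ℓ) * (12 * D.card * Real.exp ℓ) * (12 * D.card * Real.exp ℓ) :=
      mul_le_mul (mul_le_mul v1 v2 (abs_nonneg _) h12) v3 (abs_nonneg _) (mul_nonneg h12 h12)
    have hall := mul_le_mul hn hprod (by positivity) (by positivity)
    refine hall.trans ?_
    have e1 : (4 * (12 * (D.card : ℝ) * Real.exp (ℓ / 2))) ^ 4 * ((12 * D.card * Real.exp ℓ) *
        (12 * D.card * Real.exp ℓ) * (12 * D.card * Real.exp ℓ)) =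
        48 ^ 4 * 12 ^ 3 * (D.card : ℝ) ^ 7 * Real.exp (5 * ℓ) := by
      rw [← hE2, ← hE]
      ring
    rw [e1]
    refine mul_le_mul_of_nonneg_right ?_ (Real.exp_pos _).le
    have e2 : (D.card : ℝ) ^ 7 ≤ (D.card : ℝ) ^ 8 := pow_le_pow_right₀ hNr (by norm_num)
    have e3 : (0 : ℝ) ≤ (D.card : ℝ) ^ 8 := by positivity
    rw [mul_pow]
    nlinarith

end Pool.Agent.W_420c7c_h51
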