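import Pool.Agent.W_420c7c_h51.ArB1
import Pool.Agent.W_420c7c_h51.ArB2
import Pool.Agent.W_420c7c_h51.ArN

set_option autoImplicit false

/-!
# Case C2, `f` supported on `b ≡ b₀ (mod 2)`
-/

namespace Pool.Agent.W_420c7c_h51

open Finset

private lemma ArC2a_ev_zero {S : Type} [CommRing S] (D : Finset (ℕ × ℕ)) {g : ℕ × ℕ → ℤ}
    (hg : ∀ w, g w = 0) (x y : S) : ev D g x y = 0 := by
  unfold ev
  apply Finset.sum_eq_zero
  intro w _
  rw [hg w]
  simp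

private lemma ArC2a_split {S : Type} [CommRing S] {p m : ℕ} (hp : 3 ≤ p) (hm : 3 ≤ m) {A : ℝ}
    {f : ℕ × ℕ → ℤ} (hf : ∀ w, f w ≠ 0 → w ∈ Dl p m A) {β : ℕ} (hβ : β < 2)
    (hs : ∀ w, f w ≠ 0 → w.2 % 2 = β) (x y : S) :
    ev (Dl p m A) f x y = y ^ β * (ev (Dl p m A) (contr (0, β) f) (x ^ 2) (y ^ 2) +
      x * ev (Dl p m A) (contr (1, β) f) (x ^ 2) (y ^ 2)) := by
  rw [ev_split hp hm hf]
  have key : ∀ i γ : ℕ, γ < 2 → γ ≠ β → ∀ w, contr (i, γ) f w = 0 := by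
    intro i γ hγ hne w
    by_contra hc
    have h1 := hs _ hc
    simp only at h1
    omega
  interval_cases β
  · rw [ArC2a_ev_zero _ (key 0 1 (by norm_num) (by norm_num)),
      ArC2a_ev_zero _ (key 1 1 (by norm_num) (by norm_num))]
    ring
  · rw [ArC2a_ev_zero _ (key 0 0 (by norm_num) (by norm_num)),
      ArC2a_ev_zero _ (key 1 0 (by norm_num) (by norm_num))]
    ring

private lemma ArC2a_contr_exists {f : ℕ × ℕ → ℤ} {β : ℕ} (hs : ∀ w, f w ≠ 0 → w.2 % 2 = β)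
    (hne : ∃ w, f w ≠ 0) : ∃ i, i < 2 ∧ ∃ w, contr (i, β) f w ≠ 0 := by
  obtain ⟨w, hw⟩ := hne
  refine ⟨w.1 % 2, Nat.mod_lt _ (by norm_num), (w.1 / 2, w.2 / 2), ?_⟩
  have h1 : w.1 % 2 + 2 * (w.1 / 2) = w.1 := by omega
  have h2 : β + 2 * (w.2 / 2) = w.2 := by
    have := hs w hw
    omega
  unfold contr
  simp only
  rw [h1, h2]
  exact hw

private lemma ArC2a_cast (D : Finset (ℕ × ℕ)) (f : ℕ × ℕ → ℤ) (x y : ℤ) :
    ((ev D f x y : ℤ) : ℝ) = ev D f (x : ℝ) (y : ℝ) := by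
  unfold ev
  push_cast
  rfl

/-- the factor `V±` -/
private def ArC2a_V (p m : ℕ) (D : Finset (ℕ × ℕ)) (β : ℕ) (f : ℕ × ℕ → ℤ) (ε : Bool) : ℤ :=
  ev D (contr (0, β) f) (p : ℤ) (sg ε * m : ℤ) ^ 2 -
    p * ev D (contr (1, β) f) (p : ℤ) (sg ε * m : ℤ) ^ 2

private lemma ArC2a_V_ne {p m : ℕ} {A : ℝ} {d : ℕ × ℕ → ℤ} {R₃ R₁ : Finset ℕ}
    (hc : Ctx p m A d R₃ R₁) {ℓ : ℝ}
    {f : ℕ × ℕ → ℤ} (hf : Mn p m A d ℓ f) {β : ℕ} (hβ : β < 2)
    (hs : ∀ w, f w ≠ 0 → w.2 % 2 = β) (ε : Bool) :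
    ArC2a_V p m (Dl p m A) β f ε ≠ 0 := by
  unfold ArC2a_V
  apply sq_ne p (Nat.Prime.prime hc.hp).irreducible.not_isSquare
  rintro ⟨h0, h1⟩
  obtain ⟨i, hi, hw⟩ := ArC2a_contr_exists hs hf.hne
  have h2 := contr_ev_ne hc hf (c := (i, β)) hi hβ hw (true, ε)
  have h3 : sg (true, ε).1 = 1 := rfl
  rw [h3, one_mul] at h2
  interval_cases i
  · exact h2 h0
  · exact h2 h1

private lemma ArC2a_V_bound {p m : ℕ} {A : ℝ} {d : ℕ × ℕ → ℤ} {R₃ R₁ : Finset ℕ}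
    (hc : Ctx p m A d R₃ R₁) {ℓ : ℝ}
    {f : ℕ × ℕ → ℤ} (hf : Mn p m A d ℓ f) {β : ℕ} (hβ : β < 2) (ε : Bool) :
    |(ArC2a_V p m (Dl p m A) β f ε : ℝ)| ≤
      2 * (12 * (Dl p m A).card) ^ 2 * Real.exp ℓ := by
  have hp1 : (1 : ℝ) ≤ p := by
    have := hc.hp3
    exact_mod_cast (by omega : 1 ≤ p)
  have hm1 : (1 : ℝ) ≤ m := by
    have := hc.hm
    exact_mod_cast (by omega : 1 ≤ m)
  have hlp : 0 ≤ Real.log p := Real.log_nonneg hp1
  have hlm : 0 ≤ Real.log m := Real.log_nonneg hm1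
  have h0 := contr_ev_bound hc hf (c := (0, β)) (by norm_num) hβ (true, ε)
  have h1 := contr_ev_bound hc hf (c := (1, β)) (by norm_num) hβ (true, ε)
  have h3 : sg (true, ε).1 = 1 := rfl
  rw [h3, one_mul] at h0 h1
  set G0 : ℝ := (ev (Dl p m A) (contr (0, β) f) (p : ℤ) (sg ε * m : ℤ) : ℝ) with hG0
  set G1 : ℝ := (ev (Dl p m A) (contr (1, β) f) (p : ℤ) (sg ε * m : ℤ) : ℝ) with hG1
  set B : ℝ := 12 * (Dl p m A).card * Real.exp (ℓ / 2) with hB
  have hB0 : 0 ≤ B := by positivity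
  have e0 : (1 : ℝ) ≤ Real.exp (lv p m (0, β) / 2) := by
    apply Real.one_le_exp
    unfold lv
    positivity
  have e1 : Real.sqrt p ≤ Real.exp (lv p m (1, β) / 2) := by
    have hpp : (0 : ℝ) < p := by linarith
    have : Real.sqrt p = Real.exp (Real.log p / 2) := by
      rw [Real.sqrt_eq_rpow, Real.rpow_def_of_pos hpp]
      congr 1
      ring
    rw [this]
    apply Real.exp_le_exp.2
    unfold lv
    have : (0 : ℝ) ≤ β * Real.log m := by positivity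
    push_cast
    linarith
  have b0 : |G0| ≤ B := by
    calc |G0| = |G0| * 1 := (mul_one _).symm
      _ ≤ |G0| * Real.exp (lv p m (0, β) / 2) := mul_le_mul_of_nonneg_left e0 (abs_nonneg _)
      _ ≤ B := h0
  have b1 : |G1| * Real.sqrt p ≤ B :=
    (mul_le_mul_of_nonneg_left e1 (abs_nonneg _)).trans h1
  have s0 : G0 ^ 2 ≤ B ^ 2 := by
    rw [← sq_abs G0]
    exact pow_le_pow_left₀ (abs_nonneg _) b0 2
  have s1 : (p : ℝ) * G1 ^ 2 ≤ B ^ 2 := by
    have : (|G1| * Real.sqrt p) ^ 2 ≤ B ^ 2 :=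
      pow_le_pow_left₀ (by positivity) b1 2
    rw [mul_pow, sq_abs, Real.sq_sqrt (by linarith)] at this
    linarith
  have hV : (ArC2a_V p m (Dl p m A) β f ε : ℝ) = G0 ^ 2 - p * G1 ^ 2 := by
    unfold ArC2a_V
    rw [Int.cast_sub, Int.cast_mul, Int.cast_pow, Int.cast_pow, ArC2a_cast, ArC2a_cast,
      hG0, hG1, Int.cast_natCast]
  rw [hV]
  have hBB : B ^ 2 = (12 * (Dl p m A).card) ^ 2 * Real.exp ℓ := by
    rw [hB, mul_pow, ← Real.exp_nat_mul]
    congr 2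
    push_cast
    ring
  have hp0 : (0 : ℝ) ≤ p * G1 ^ 2 := by positivity
  have hG00 : (0 : ℝ) ≤ G0 ^ 2 := by positivity
  rw [abs_le]
  constructor
  · nlinarith [sq_nonneg B]
  · nlinarith [sq_nonneg B]

/-- PROOF. `V = ev f (-p) m * V₊ V₋`, `V± = G₀^2 - p G₁^2`, `G i = ev (contr (i, b₀) f) p (± m)`. Nonzero: `sq_ne`, one of the two
contractions is not zero (`f ≠ 0`), `contr_ev_ne`. Let `r ∈ R₃`, `e, sp, sm` from `chars`. If `e.1 = false`: `r` divides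
`ev f (-p) (sg e.2 m) = (sg e.2)^b₀ ev f (-p) m` (all `w.2 ≡ b₀`). If `e.1 = true`: by `ev_split` (the other two contractions vanish)
`0 ≡ ev f sp sm = sm^b₀ (ev (contr (0,b₀) f) (sp^2) (sm^2) + sp ev (contr (1,b₀) f) (sp^2) (sm^2))`, `r ∤ sm`, so
`r ∣ G₀ + sp G₁` with the sign `sg e.2`, `r ∣ G₀^2 - p G₁^2`. Bound: `contr_ev_bound`: `|G₀|, √p |G₁| ≤ 12 N exp (ℓ/2)` (the factor
`exp (lv (0, b₀)/2)` is `≥ 1`), so `|V±| ≤ 2 (12 N)^2 exp ℓ`. In total `≤ 4 (12 N)^5 exp (3 ℓ)`. -/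
theorem case2a {p m : ℕ} {A : ℝ} {d : ℕ × ℕ → ℤ} {R₃ R₁ : Finset ℕ}
    (hc : Ctx p m A d R₃ R₁) {ℓ : ℝ}
    {f : ℕ × ℕ → ℤ} (hf : Mn p m A d ℓ f) (b : Bool) (hs : ∀ w, f w ≠ 0 → w.2.bodd = b)
    (h : ev (Dl p m A) f (-p : ℤ) (m : ℤ) ≠ 0) : Concl p m A R₃ ℓ 3 := by
  have hp3 : 3 ≤ p := by
    have := hc.hp3
    omega
  have hm3 : 3 ≤ m := by
    have := hc.hm
    omega
  have hs' : ∀ w, f w ≠ 0 → w.2 % 2 = b.toNat := by
    intro w hw
    rw [Nat.mod_two_of_bodd, hs w hw]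
  have hβ : b.toNat < 2 := by
    cases b <;> simp
  have hsupp := OPS_supp hp3 hm3 hc.hd hf.hf
  refine ⟨ev (Dl p m A) f (-p : ℤ) (m : ℤ) *
    (ArC2a_V p m (Dl p m A) b.toNat f true * ArC2a_V p m (Dl p m A) b.toNat f false),
    mul_ne_zero h (mul_ne_zero (ArC2a_V_ne hc hf hβ hs' true) (ArC2a_V_ne hc hf hβ hs' false)),
    ?_, ?_⟩
  · intro r hr
    obtain ⟨e, sp, sm, h1, h2, h3, h4, h5⟩ := chars hc hr
    obtain ⟨h6, h7⟩ := h5 f hf.hf hf.hv
    have hrp : Prime (r : ℤ) := Nat.prime_iff_prime_int.1 (hc.hR3 r hr).1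
    rcases e with ⟨e1, e2⟩
    cases e1 with
    | false =>
      apply Dvd.dvd.mul_right
      have hsg : sg ((false, e2) : Bool × Bool).1 = -1 := rfl
      rw [hsg, neg_one_mul] at h6
      have h8 : ev (Dl p m A) f (-p : ℤ) (sg e2 * m : ℤ) =
          sg e2 ^ b.toNat * ev (Dl p m A) f (-p : ℤ) (m : ℤ) := by
        unfold ev
        rw [Finset.mul_sum]
        apply Finset.sum_congr rfl
        intro w _
        by_cases hw : f w = 0
        · simp [hw]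
        · have h9 := hs' w hw
          have h10 : sg e2 ^ w.2 = sg e2 ^ b.toNat := by
            have h11 : w.2 = b.toNat + 2 * (w.2 / 2) := by omega
            have h12 : sg e2 ^ 2 = 1 := by
              cases e2 <;> rfl
            conv_lhs => rw [h11, pow_add, pow_mul, h12, one_pow, mul_one]
          rw [mul_pow, h10]
          ring
      have h6' : (r : ℤ) ∣ ev (Dl p m A) f (-p : ℤ) (sg e2 * m : ℤ) := h6
      rw [h8] at h6'
      rcases hrp.dvd_or_dvd h6' with h13 | h13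
      · exfalso
        have h14 := hrp.dvd_of_dvd_pow h13
        have h15 : IsUnit (sg e2) := by
          cases e2
          · exact ⟨-1, rfl⟩
          · exact ⟨1, rfl⟩
        exact hrp.not_isUnit (isUnit_of_dvd_unit h14 h15)
      · exact h13
    | true =>
      apply Dvd.dvd.mul_left
      have hsg : sg ((true, e2) : Bool × Bool).1 = 1 := rfl
      rw [hsg, one_mul] at h1
      have h1' : (r : ℤ) ∣ sp ^ 2 - p := h1
      have h2' : (r : ℤ) ∣ sm ^ 2 - sg e2 * m := h2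
      rw [ArC2a_split hp3 hm3 hsupp hβ hs' sp sm] at h7
      have h8 : (r : ℤ) ∣ ev (Dl p m A) (contr (0, b.toNat) f) (sp ^ 2) (sm ^ 2) +
          sp * ev (Dl p m A) (contr (1, b.toNat) f) (sp ^ 2) (sm ^ 2) := by
        rcases hrp.dvd_or_dvd h7 with h9 | h9
        · exact absurd (hrp.dvd_of_dvd_pow h9) h4
        · exact h9
      have h10 := ev_congr (Dl p m A) (contr (0, b.toNat) f) h1' h2'
      have h11 := ev_congr (Dl p m A) (contr (1, b.toNat) f) h1' h2'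
      have h12 : (r : ℤ) ∣ ArC2a_V p m (Dl p m A) b.toNat f e2 := by
        unfold ArC2a_V
        set G0 := ev (Dl p m A) (contr (0, b.toNat) f) (p : ℤ) (sg e2 * m : ℤ)
        set G1 := ev (Dl p m A) (contr (1, b.toNat) f) (p : ℤ) (sg e2 * m : ℤ)
        set H0 := ev (Dl p m A) (contr (0, b.toNat) f) (sp ^ 2) (sm ^ 2)
        set H1 := ev (Dl p m A) (contr (1, b.toNat) f) (sp ^ 2) (sm ^ 2)
        have h13 : (r : ℤ) ∣ G0 + sp * G1 := by
          have h14 : G0 + sp * G1 = (H0 + sp * H1) - (H0 - G0) - sp * (H1 - G1) := by ring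
          rw [h14]
          exact dvd_sub (dvd_sub h8 h10) (Dvd.dvd.mul_left h11 _)
        have h15 : G0 ^ 2 - p * G1 ^ 2 = (G0 + sp * G1) * (G0 - sp * G1) + (sp ^ 2 - p) * G1 ^ 2 := by
          ring
        rw [h15]
        exact dvd_add (Dvd.dvd.mul_right h13 _) (Dvd.dvd.mul_right h1' _)
      cases e2
      · exact Dvd.dvd.mul_left h12 _
      · exact Dvd.dvd.mul_right h12 _
  · obtain ⟨w0, hw0⟩ := hf.hne
    have hN : (1 : ℝ) ≤ (Dl p m A).card := by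
      have : 0 < (Dl p m A).card := Finset.card_pos.2 ⟨w0, hsupp w0 hw0⟩
      exact_mod_cast this
    have hB : ∀ w, |f w| ≤ 12 := OPS_bound hc.hB hf.hf
    have b1 := ev_bound (A := A) hp3 hm3 hB hf.hl (x := (-p : ℤ)) (y := (m : ℤ))
      (by simp) (by simp)
    have b2 := ArC2a_V_bound hc hf hβ true
    have b3 := ArC2a_V_bound hc hf hβ false
    rw [Int.cast_mul, Int.cast_mul, abs_mul, abs_mul, ArC2a_cast]
    set N : ℝ := ((Dl p m A).card : ℝ)
    have hE : Real.exp (3 * ℓ) = Real.exp ℓ * (Real.exp ℓ * Real.exp ℓ) := by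
      rw [← Real.exp_add, ← Real.exp_add]
      congr 1
      ring
    calc |ev (Dl p m A) f (((-p : ℤ) : ℤ) : ℝ) (((m : ℤ) : ℤ) : ℝ)| *
          (|(ArC2a_V p m (Dl p m A) b.toNat f true : ℝ)| *
            |(ArC2a_V p m (Dl p m A) b.toNat f false : ℝ)|)
        ≤ (12 * N * Real.exp ℓ) * ((2 * (12 * N) ^ 2 * Real.exp ℓ) *
            (2 * (12 * N) ^ 2 * Real.exp ℓ)) := by
          apply mul_le_mul b1 _ (by positivity) (by positivity)
          exact mul_le_mul b2 b3 (abs_nonneg _) (by positivity)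
      _ = 4 * (12 * N) ^ 5 * Real.exp (3 * ℓ) := by
          rw [hE]
          ring
      _ ≤ (24 * N) ^ 8 * Real.exp (3 * ℓ) := by
          apply mul_le_mul_of_nonneg_right _ (Real.exp_pos _).le
          have h1 : (1 : ℝ) ≤ 12 * N := by linarith
          have h2 : (12 * N) ^ 5 ≤ (12 * N) ^ 8 := pow_le_pow_right₀ h1 (by norm_num)
          have h3 : (24 * N) ^ 8 = 256 * (12 * N) ^ 8 := by ring
          rw [h3]
          have h4 : (0 : ℝ) ≤ (12 * N) ^ 8 := by positivity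
          linarith

end Pool.Agent.W_420c7c_h51
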