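import Pool.Agent.W_420c7c_h51.ArB1
import Pool.Agent.W_420c7c_h51.ArB2
import Pool.Agent.W_420c7c_h51.ArN

set_option autoImplicit false

/-!
# Case C2, `f` supported on `a ≡ a₀ (mod 2)`
-/

namespace Pool.Agent.W_420c7c_h51

open Finset

/-- the evaluation at `(- x, y)` of a function supported on `a ≡ a₀ (mod 2)` -/
private lemma arC2b_neg (D : Finset (ℕ × ℕ)) (f : ℕ × ℕ → ℤ) (a e : Bool)
    (hs : ∀ w, f w ≠ 0 → w.1.bodd = a) (x y : ℤ) {r : ℤ} (h : r ∣ ev D f (sg e * x) y) :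
    r ∣ ev D f x y := by
  have h1 : ev D f (sg e * x) y = sg e ^ a.toNat * ev D f x y := by
    unfold ev
    rw [Finset.mul_sum]
    refine Finset.sum_congr rfl fun w _ => ?_
    by_cases hw : f w = 0
    · simp [hw]
    · have h2 := hs w hw
      have h3 : sg e ^ w.1 = sg e ^ a.toNat := by
        rw [← Nat.bodd_add_div2 w.1, h2, pow_add, pow_mul]
        have h4 : sg e ^ 2 = 1 := by
          cases e <;> simp [sg]
        rw [h4, one_pow, mul_one]
      rw [mul_pow, h3]
      ring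
  rw [h1] at h
  have h4 : (sg e ^ a.toNat) * (sg e ^ a.toNat) = 1 := by
    rw [← mul_pow]
    have h5 : sg e * sg e = 1 := by
      cases e <;> simp [sg]
    rw [h5, one_pow]
  have h6 : ev D f x y = sg e ^ a.toNat * (sg e ^ a.toNat * ev D f x y) := by
    rw [← mul_assoc, h4, one_mul]
  rw [h6]
  exact h.mul_left _

private lemma arC2b_zero (D : Finset (ℕ × ℕ)) (x y : ℤ) (g : ℕ × ℕ → ℤ) (hg : ∀ w, g w = 0) :
    ev D g x y = 0 := by
  unfold ev
  exact Finset.sum_eq_zero fun w _ => by simp [hg w]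

private lemma arC2b_cast (D : Finset (ℕ × ℕ)) (f : ℕ × ℕ → ℤ) (x y : ℤ) :
    ((ev D f x y : ℤ) : ℝ) = ev D f (x : ℝ) (y : ℝ) := by
  unfold ev
  push_cast
  rfl

private lemma arC2b_notSq {m : ℕ} (hm : 5 ≤ m) (hsq : Squarefree m) : ¬ IsSquare m := by
  rintro ⟨t, ht⟩
  have h1 : IsUnit t := hsq t ⟨1, by rw [mul_one]; exact ht⟩
  rw [Nat.isUnit_iff] at h1
  subst h1
  omega

/-- the two contractions, with a sign -/
private lemma arC2b_V {p m : ℕ} {A : ℝ} {d : ℕ × ℕ → ℤ} {R₃ R₁ : Finset ℕ}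
    (hc : Ctx p m A d R₃ R₁) {ℓ : ℝ}
    {f : ℕ × ℕ → ℤ} (hf : Mn p m A d ℓ f) (a : Bool) (hs : ∀ w, f w ≠ 0 → w.1.bodd = a)
    (e : Bool) (G₀ G₁ : ℤ)
    (h0 : G₀ = ev (Dl p m A) (contr (a.toNat, 0) f) (sg (e, true).1 * p : ℤ)
      (sg (e, true).2 * m : ℤ))
    (h1 : G₁ = ev (Dl p m A) (contr (a.toNat, 1) f) (sg (e, true).1 * p : ℤ)
      (sg (e, true).2 * m : ℤ)) :
    G₀ ^ 2 - m * G₁ ^ 2 ≠ 0 ∧
      |((G₀ ^ 2 - m * G₁ ^ 2 : ℤ) : ℝ)| ≤
        2 * (12 * (Dl p m A).card) ^ 2 * Real.exp ℓ := by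
  have ha : a.toNat < 2 := by cases a <;> simp
  constructor
  · refine sq_ne m (arC2b_notSq hc.hm hc.hsq) G₀ G₁ ?_
    rintro ⟨e0, e1⟩
    obtain ⟨w, hw⟩ := hf.hne
    have h2 := hs w hw
    have h3 := Nat.bodd_add_div2 w.1
    have h4 := Nat.bodd_add_div2 w.2
    rw [h2] at h3
    cases hb : w.2.bodd with
    | false =>
      rw [hb] at h4
      refine contr_ev_ne hc hf (c := (a.toNat, 0)) ha (by norm_num)
        ⟨(w.1.div2, w.2.div2), ?_⟩ (e, true) (h0 ▸ e0)
      unfold contr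
      simp only [Bool.toNat_false, zero_add] at h4
      simp only [h3, zero_add, h4]
      exact hw
    | true =>
      rw [hb] at h4
      refine contr_ev_ne hc hf (c := (a.toNat, 1)) ha (by norm_num)
        ⟨(w.1.div2, w.2.div2), ?_⟩ (e, true) (h1 ▸ e1)
      unfold contr
      simp only [Bool.toNat_true] at h4
      simp only [h3, h4]
      exact hw
  · have b0 := contr_ev_bound hc hf (c := (a.toNat, 0)) ha (by norm_num) (e, true)
    have b1 := contr_ev_bound hc hf (c := (a.toNat, 1)) ha (by norm_num) (e, true)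
    rw [← arC2b_cast, ← h0] at b0
    rw [← arC2b_cast, ← h1] at b1
    have hp0 : (1 : ℝ) ≤ p := by exact_mod_cast (by have := hc.hp3; omega : 1 ≤ p)
    have hm0 : (1 : ℝ) ≤ m := by exact_mod_cast (by have := hc.hm; omega : 1 ≤ m)
    have hlp := Real.log_nonneg hp0
    have hlm := Real.log_nonneg hm0
    set N : ℝ := 12 * (Dl p m A).card with hN
    have hl0 : (1 : ℝ) ≤ Real.exp (lv p m (a.toNat, 0) / 2) := by
      rw [Real.one_le_exp_iff]
      unfold lv
      have : (0 : ℝ) ≤ (a.toNat : ℝ) := Nat.cast_nonneg _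
      simp only [Nat.cast_zero, zero_mul, add_zero]
      positivity
    have hl1 : Real.sqrt m ≤ Real.exp (lv p m (a.toNat, 1) / 2) := by
      have e1 : Real.sqrt m = Real.exp (Real.log m / 2) := by
        rw [← Real.log_sqrt (by linarith), Real.exp_log (Real.sqrt_pos.2 (by linarith))]
      rw [e1, Real.exp_le_exp]
      unfold lv
      have : (0 : ℝ) ≤ (a.toNat : ℝ) * Real.log p := by positivity
      simp only [Nat.cast_one, one_mul]
      linarith
    have c0 : |(G₀ : ℝ)| ≤ N * Real.exp (ℓ / 2) := by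
      refine le_trans ?_ b0
      exact le_mul_of_one_le_right (abs_nonneg _) hl0
    have c1 : |(G₁ : ℝ)| * Real.sqrt m ≤ N * Real.exp (ℓ / 2) :=
      le_trans (mul_le_mul_of_nonneg_left hl1 (abs_nonneg _)) b1
    have d0 : (G₀ : ℝ) ^ 2 ≤ N ^ 2 * Real.exp ℓ := by
      have : |(G₀ : ℝ)| ^ 2 ≤ (N * Real.exp (ℓ / 2)) ^ 2 := pow_le_pow_left₀ (abs_nonneg _) c0 2
      rw [sq_abs, mul_pow, ← Real.exp_nat_mul] at this
      convert this using 3
      push_cast
      ring
    have d1 : (m : ℝ) * (G₁ : ℝ) ^ 2 ≤ N ^ 2 * Real.exp ℓ := by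
      have : (|(G₁ : ℝ)| * Real.sqrt m) ^ 2 ≤ (N * Real.exp (ℓ / 2)) ^ 2 :=
        pow_le_pow_left₀ (by positivity) c1 2
      rw [mul_pow, sq_abs, Real.sq_sqrt (by linarith), mul_pow, ← Real.exp_nat_mul] at this
      rw [mul_comm (m : ℝ)]
      convert this using 3
      push_cast
      ring
    push_cast
    have e0 : (0 : ℝ) ≤ (G₀ : ℝ) ^ 2 := sq_nonneg _
    have e1 : (0 : ℝ) ≤ (m : ℝ) * (G₁ : ℝ) ^ 2 := by positivity
    rw [abs_le]
    constructor <;> linarith

/-- PROOF. As `case2a` with the roles of `p` and `m` exchanged: `V = ev f p (-m) * V₊ V₋`, `V± = G₀^2 - m G₁^2`,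
`G i = ev (contr (a₀, i) f) (± p) m`; `m` is no square (`m > 1` squarefree). For `e.2 = false`: `r ∣ ev f (sg e.1 p) (-m)`; for
`e.2 = true`: `0 ≡ ev f sp sm = sp^a₀ (.. + sm ..)`. -/
theorem case2b {p m : ℕ} {A : ℝ} {d : ℕ × ℕ → ℤ} {R₃ R₁ : Finset ℕ}
    (hc : Ctx p m A d R₃ R₁) {ℓ : ℝ}
    {f : ℕ × ℕ → ℤ} (hf : Mn p m A d ℓ f) (a : Bool) (hs : ∀ w, f w ≠ 0 → w.1.bodd = a)
    (h : ev (Dl p m A) f (p : ℤ) (-m : ℤ) ≠ 0) : Concl p m A R₃ ℓ 3 := by
  have hN := hf.hne
  have hOsupp : ∀ w, f w ≠ 0 → w ∈ Dl p m A := fun w hw =>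
    OPS_supp (by have := hc.hp3; omega) (by have := hc.hm; omega) hc.hd hf.hf w hw
  have ha : a.toNat < 2 := by cases a <;> simp
  -- the numbers
  set D := Dl p m A with hD
  set N : ℝ := (D.card : ℝ) with hNdef
  set G : Bool → ℕ → ℤ := fun e i => ev D (contr (a.toNat, i) f) (sg (e, true).1 * p : ℤ)
    (sg (e, true).2 * m : ℤ) with hG
  have hV := fun e => arC2b_V hc hf a hs e (G e 0) (G e 1) rfl rfl
  refine ⟨ev D f (p : ℤ) (-m : ℤ) * ((G true 0 ^ 2 - m * G true 1 ^ 2) *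
    (G false 0 ^ 2 - m * G false 1 ^ 2)), ?_, ?_, ?_⟩
  · exact mul_ne_zero h (mul_ne_zero (hV true).1 (hV false).1)
  · intro r hr
    have hrp : Prime (r : ℤ) := Nat.prime_iff_prime_int.1 (hc.hR3 r hr).1
    obtain ⟨e, sp, sm, h1, h2, h3, h4, h5⟩ := chars hc hr
    obtain ⟨h6, h7⟩ := h5 f hf.hf hf.hv
    cases he2 : e.2 with
    | false =>
      refine Dvd.dvd.mul_right ?_ _
      rw [he2] at h6
      have h8 := arC2b_neg D f a e.1 hs p (sg false * m) h6
      have h9 : (sg false * m : ℤ) = -m := by simp [sg]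
      rwa [h9] at h8
    | true =>
      refine Dvd.dvd.mul_left ?_ _
      -- the congruence for the contractions
      have hcg : ∀ i, (r : ℤ) ∣ ev D (contr (a.toNat, i) f) (sp ^ 2) (sm ^ 2) - G e.1 i := by
        intro i
        refine ev_congr D _ ?_ ?_
        · exact h1
        · have := h2
          rw [he2] at this
          exact this
      have hE : (r : ℤ) ∣ ev D (contr (a.toNat, 0) f) (sp ^ 2) (sm ^ 2) +
          sm * ev D (contr (a.toNat, 1) f) (sp ^ 2) (sm ^ 2) := by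
        have h8 := ev_split (by have := hc.hp3; omega : 3 ≤ p) (by have := hc.hm; omega : 3 ≤ m)
          hOsupp sp sm
        rw [← hD] at h8
        rw [h8] at h7
        have hz : ∀ (c : ℕ × ℕ), c.1 < 2 → c.1 ≠ a.toNat → ∀ w, contr c f w = 0 := by
          intro c hc1 hc2 w
          by_contra hne
          apply hc2
          have h9 := hs _ hne
          simp only [Nat.bodd_add, Nat.bodd_mul, Nat.bodd_two, Bool.false_and,
            Bool.xor_false] at h9
          rw [← h9]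
          have h10 : c.1 = 0 ∨ c.1 = 1 := by omega
          rcases h10 with h10 | h10 <;> rw [h10] <;> rfl
        cases a with
        | false =>
          rw [arC2b_zero D _ _ (contr (1, 0) f) (hz (1, 0) (by norm_num) (by simp)),
            arC2b_zero D _ _ (contr (1, 1) f) (hz (1, 1) (by norm_num) (by simp))] at h7
          simpa using h7
        | true =>
          rw [arC2b_zero D _ _ (contr (0, 0) f) (hz (0, 0) (by norm_num) (by simp)),
            arC2b_zero D _ _ (contr (0, 1) f) (hz (0, 1) (by norm_num) (by simp))] at h7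
          have h11 : (r : ℤ) ∣ sp * (ev D (contr (1, 0) f) (sp ^ 2) (sm ^ 2) +
              sm * ev D (contr (1, 1) f) (sp ^ 2) (sm ^ 2)) := by
            have e1 : sp * (ev D (contr (1, 0) f) (sp ^ 2) (sm ^ 2) +
              sm * ev D (contr (1, 1) f) (sp ^ 2) (sm ^ 2)) =
              0 + sp * ev D (contr (1, 0) f) (sp ^ 2) (sm ^ 2) + sm * 0 +
                sp * sm * ev D (contr (1, 1) f) (sp ^ 2) (sm ^ 2) := by ring
            rw [e1]
            exact h7
          exact (hrp.dvd_or_dvd h11).resolve_left h3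
      have hGG : (r : ℤ) ∣ G e.1 0 + sm * G e.1 1 := by
        have e1 : G e.1 0 + sm * G e.1 1 =
            (ev D (contr (a.toNat, 0) f) (sp ^ 2) (sm ^ 2) +
              sm * ev D (contr (a.toNat, 1) f) (sp ^ 2) (sm ^ 2)) -
            (ev D (contr (a.toNat, 0) f) (sp ^ 2) (sm ^ 2) - G e.1 0) -
            sm * (ev D (contr (a.toNat, 1) f) (sp ^ 2) (sm ^ 2) - G e.1 1) := by ring
        rw [e1]
        exact dvd_sub (dvd_sub hE (hcg 0)) ((hcg 1).mul_left _)
      have hVr : (r : ℤ) ∣ G e.1 0 ^ 2 - m * G e.1 1 ^ 2 := by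
        have h12 : (r : ℤ) ∣ sm ^ 2 - m := by
          have := h2
          rw [he2] at this
          simpa [sg] using this
        have e1 : G e.1 0 ^ 2 - m * G e.1 1 ^ 2 =
            (G e.1 0 + sm * G e.1 1) * (G e.1 0 - sm * G e.1 1) +
            (sm ^ 2 - m) * G e.1 1 ^ 2 := by ring
        rw [e1]
        exact dvd_add (hGG.mul_right _) (h12.mul_right _)
      cases he1 : e.1 with
      | true =>
        rw [he1] at hVr
        exact hVr.mul_right _
      | false =>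
        rw [he1] at hVr
        exact hVr.mul_left _
  · have hb : |((ev D f (p : ℤ) (-m : ℤ) : ℤ) : ℝ)| ≤ 12 * N * Real.exp ℓ := by
      rw [arC2b_cast]
      refine ev_bound (by have := hc.hp3; omega) (by have := hc.hm; omega)
        (OPS_bound hc.hB hf.hf) hf.hl ?_ ?_
      · simp
      · simp
    have b1 := (hV true).2
    have b2 := (hV false).2
    rw [← hD, ← hNdef] at b1 b2
    have hN0 : 0 ≤ N := Nat.cast_nonneg _
    have hE0 : 0 < Real.exp ℓ := Real.exp_pos _
    have hN58 : N ^ 5 ≤ N ^ 8 := by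
      rcases Nat.eq_zero_or_pos D.card with h0 | h0
      · rw [hNdef, h0]
        simp
      · have : (1 : ℝ) ≤ N := by
          rw [hNdef]
          exact_mod_cast h0
        exact pow_le_pow_right₀ this (by norm_num)
    rw [Int.cast_mul, Int.cast_mul, abs_mul, abs_mul]
    calc |((ev D f (p : ℤ) (-m : ℤ) : ℤ) : ℝ)| * (|((G true 0 ^ 2 - m * G true 1 ^ 2 : ℤ) : ℝ)| *
          |((G false 0 ^ 2 - m * G false 1 ^ 2 : ℤ) : ℝ)|)
        ≤ (12 * N * Real.exp ℓ) * ((2 * (12 * N) ^ 2 * Real.exp ℓ) *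
          (2 * (12 * N) ^ 2 * Real.exp ℓ)) := by
          gcongr
      _ = 4 * 12 ^ 5 * N ^ 5 * Real.exp (3 * ℓ) := by
          have : Real.exp (3 * ℓ) = Real.exp ℓ * (Real.exp ℓ * Real.exp ℓ) := by
            rw [← Real.exp_add, ← Real.exp_add]
            congr 1
            ring
          rw [this]
          ring
      _ ≤ 24 ^ 8 * N ^ 8 * Real.exp (3 * ℓ) := by
          have h13 : (4 * 12 ^ 5 : ℝ) * N ^ 5 ≤ 24 ^ 8 * N ^ 8 := by
            calc (4 * 12 ^ 5 : ℝ) * N ^ 5 ≤ 24 ^ 8 * N ^ 5 := by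
                  have : 0 ≤ N ^ 5 := by positivity
                  nlinarith
              _ ≤ 24 ^ 8 * N ^ 8 := by
                  have : (0 : ℝ) < 24 ^ 8 := by norm_num
                  exact mul_le_mul_of_nonneg_left hN58 this.le
          exact mul_le_mul_of_nonneg_right h13 (Real.exp_pos _).le
      _ = (24 * N) ^ 8 * Real.exp (3 * ℓ) := by ring

end Pool.Agent.W_420c7c_h51
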