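import Pool.Agent.W_420c7c_h51.ArB1
import Pool.Agent.W_420c7c_h51.ArB2
import Pool.Agent.W_420c7c_h51.ArN

set_option autoImplicit false

/-!
# Case C2, `f` supported on `a + b ≡ c₀ (mod 2)`
-/

namespace Pool.Agent.W_420c7c_h51

open Finset

private theorem ArC2c_sg (e : Bool) : sg e * sg e = 1 := by
  cases e <;> simp [sg]

private theorem ArC2c_exp {p m : ℕ} (hp : 0 < p) (hm : 0 < m) (w : ℕ × ℕ) :
    Real.exp (lv p m w) = (p : ℝ) ^ w.1 * (m : ℝ) ^ w.2 := by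
  have hp' : (0 : ℝ) < p := by exact_mod_cast hp
  have hm' : (0 : ℝ) < m := by exact_mod_cast hm
  unfold lv
  rw [Real.exp_add, Real.exp_nat_mul, Real.exp_nat_mul, Real.exp_log hp', Real.exp_log hm']

private theorem ArC2c_cast (D : Finset (ℕ × ℕ)) (f : ℕ × ℕ → ℤ) (x y : ℤ) :
    ev D f (x : ℝ) (y : ℝ) = ((ev D f x y : ℤ) : ℝ) := by
  unfold ev
  push_cast
  rfl

private theorem ArC2c_neg (n : ℕ) : (-1 : ℤ) ^ n = if n.bodd then -1 else 1 := by
  induction n with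
  | zero => simp
  | succ n ih =>
    rw [pow_succ, ih, Nat.bodd_succ]
    cases n.bodd <;> simp

/-- the square of the bound for the contractions -/
private theorem ArC2c_sq {p m : ℕ} {A : ℝ} {d : ℕ × ℕ → ℤ} {R₃ R₁ : Finset ℕ}
    (h : Ctx p m A d R₃ R₁) {ℓ : ℝ} {f : ℕ × ℕ → ℤ} (hf : Mn p m A d ℓ f) {c : ℕ × ℕ}
    (h1 : c.1 < 2) (h2 : c.2 < 2) (e : Bool) :
    (p : ℝ) ^ c.1 * (m : ℝ) ^ c.2 *
      ((ev (Dl p m A) (contr c f) (sg e * p : ℤ) (sg e * m : ℤ) : ℤ) : ℝ) ^ 2 ≤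
      (12 * (Dl p m A).card) ^ 2 * Real.exp ℓ := by
  have hb := contr_ev_bound h hf h1 h2 (e, e)
  simp only at hb
  rw [ArC2c_cast] at hb
  have h0 : 0 ≤ |((ev (Dl p m A) (contr c f) (sg e * p : ℤ) (sg e * m : ℤ) : ℤ) : ℝ)| *
      Real.exp (lv p m c / 2) := by positivity
  have hs := pow_le_pow_left₀ h0 hb 2
  rw [mul_pow, mul_pow, sq_abs] at hs
  have e1 : Real.exp (lv p m c / 2) ^ 2 = Real.exp (lv p m c) := by
    rw [← Real.exp_nat_mul]
    congr 1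
    push_cast
    ring
  have e2 : Real.exp (ℓ / 2) ^ 2 = Real.exp ℓ := by
    rw [← Real.exp_nat_mul]
    congr 1
    push_cast
    ring
  have hp0 := h.hp3
  have hm0 := h.hm
  rw [e1, e2, ArC2c_exp (by omega) (by omega)] at hs
  linarith

private theorem ArC2c_pm {p m : ℕ} {A : ℝ} {d : ℕ × ℕ → ℤ} {R₃ R₁ : Finset ℕ}
    (h : Ctx p m A d R₃ R₁) : ¬ IsSquare (p * m) := by
  rintro ⟨x, hx⟩
  have hpx : p ∣ x * x := ⟨m, hx.symm⟩
  have hpx' : p ∣ x := by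
    rcases (h.hp.dvd_mul).1 hpx with h1 | h1 <;> exact h1
  obtain ⟨y, rfl⟩ := hpx'
  have h2 : p * m = p * (p * (y * y)) := by
    rw [hx]
    ring
  have h3 : m = p * (y * y) := Nat.eq_of_mul_eq_mul_left h.hp.pos h2
  exact h.hpm ⟨y * y, h3⟩

/-- the factors -/
private theorem ArC2c_fac {p m : ℕ} {A : ℝ} {d : ℕ × ℕ → ℤ} {R₃ R₁ : Finset ℕ}
    (hc : Ctx p m A d R₃ R₁) {ℓ : ℝ}
    {f : ℕ × ℕ → ℤ} (hf : Mn p m A d ℓ f) (c : Bool)
    (hs : ∀ w, f w ≠ 0 → (w.1 + w.2).bodd = c) (e : Bool) :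
    ∃ W : ℤ, W ≠ 0 ∧ |(W : ℝ)| ≤ (12 * (Dl p m A).card) ^ 2 * Real.exp ℓ ∧
      ∀ r sp sm : ℤ, r ∣ sp ^ 2 - sg e * p → r ∣ sm ^ 2 - sg e * m →
        r ∣ ev (Dl p m A) f sp sm → r ∣ W := by
  have hp3 := hc.hp3
  have hm3 := hc.hm
  have hp0 : (0 : ℝ) ≤ p := Nat.cast_nonneg _
  have hm0 : (0 : ℝ) ≤ m := Nat.cast_nonneg _
  have hss := ArC2c_sg e
  have hz : ∀ c0 : ℕ × ℕ, (c0.1 + c0.2).bodd ≠ c → ∀ x y : ℤ,
      ev (Dl p m A) (contr c0 f) x y = 0 := by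
    intro c0 hc0 x y
    unfold ev
    apply sum_eq_zero
    intro w _
    have h0 : contr c0 f w = 0 := by
      by_contra hne
      have h1 := hs _ hne
      apply hc0
      rw [← h1]
      simp [Nat.bodd_add, Nat.bodd_mul]
    rw [h0]
    simp
  have hsupp : ∀ w, f w ≠ 0 → w ∈ Dl p m A := fun w hw =>
    OPS_supp (by omega) (by omega) hc.hd hf.hf w hw
  obtain ⟨w0, hw0⟩ := hf.hne
  have hw0c : (w0.1 + w0.2).bodd = c := hs _ hw0
  have hpar : contr (w0.1 % 2, w0.2 % 2) f (w0.1 / 2, w0.2 / 2) ≠ 0 := by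
    unfold contr
    simp only [Nat.mod_add_div]
    exact hw0
  have hbodd : ∀ n : ℕ, n.bodd = decide (n % 2 = 1) := by
    intro n
    rw [Nat.mod_two_of_bodd]
    cases n.bodd <;> simp
  have hsplit : ∀ sp sm : ℤ, ev (Dl p m A) f sp sm = _ := fun sp sm =>
    ev_split (show 3 ≤ p by omega) (show 3 ≤ m by omega) hsupp sp sm
  cases c with
  | false =>
    obtain ⟨G0, hG0⟩ : ∃ G0 : ℤ,
        G0 = ev (Dl p m A) (contr (0, 0) f) (sg e * p : ℤ) (sg e * m : ℤ) := ⟨_, rfl⟩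
    obtain ⟨G1, hG1⟩ : ∃ G1 : ℤ,
        G1 = ev (Dl p m A) (contr (1, 1) f) (sg e * p : ℤ) (sg e * m : ℤ) := ⟨_, rfl⟩
    have b0 := ArC2c_sq hc hf (c := (0, 0)) (by norm_num) (by norm_num) e
    have b1 := ArC2c_sq hc hf (c := (1, 1)) (by norm_num) (by norm_num) e
    rw [← hG0] at b0
    rw [← hG1] at b1
    simp only [pow_zero, pow_one, one_mul] at b0 b1
    refine ⟨G0 ^ 2 - ((p * m : ℕ) : ℤ) * G1 ^ 2, ?_, ?_, ?_⟩
    · apply sq_ne _ (ArC2c_pm hc)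
      rintro ⟨z0, z1⟩
      have hcase : (w0.1 % 2, w0.2 % 2) = (0, 0) ∨ (w0.1 % 2, w0.2 % 2) = (1, 1) := by
        rw [hbodd] at hw0c
        have h1 : ¬ (w0.1 + w0.2) % 2 = 1 := by simpa using hw0c
        rcases Nat.mod_two_eq_zero_or_one w0.1 with h2 | h2 <;>
          rcases Nat.mod_two_eq_zero_or_one w0.2 with h3 | h3
        · left; rw [h2, h3]
        · exfalso; omega
        · exfalso; omega
        · right; rw [h2, h3]
      rcases hcase with h1 | h1 <;> rw [h1] at hpar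
      · exact contr_ev_ne hc hf (c := (0, 0)) (by norm_num) (by norm_num) ⟨_, hpar⟩ (e, e)
          (by rw [← z0, hG0])
      · exact contr_ev_ne hc hf (c := (1, 1)) (by norm_num) (by norm_num) ⟨_, hpar⟩ (e, e)
          (by rw [← z1, hG1])
    · push_cast
      rw [abs_le]
      have q0 : (0 : ℝ) ≤ (G0 : ℝ) ^ 2 := sq_nonneg _
      have q1 : (0 : ℝ) ≤ (p : ℝ) * m * (G1 : ℝ) ^ 2 := by positivity
      constructor <;> linarith
    · intro r sp sm hsp hsm hr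
      rw [hsplit, hz (1, 0) (by simp), hz (0, 1) (by simp), mul_zero, mul_zero, add_zero,
        add_zero] at hr
      have c0 := ev_congr (Dl p m A) (contr (0, 0) f) hsp hsm
      have c1 := ev_congr (Dl p m A) (contr (1, 1) f) hsp hsm
      rw [← hG0] at c0
      rw [← hG1] at c1
      obtain ⟨X0, hX0⟩ : ∃ X0 : ℤ, X0 = ev (Dl p m A) (contr (0, 0) f) (sp ^ 2) (sm ^ 2) :=
        ⟨_, rfl⟩
      obtain ⟨X1, hX1⟩ : ∃ X1 : ℤ, X1 = ev (Dl p m A) (contr (1, 1) f) (sp ^ 2) (sm ^ 2) :=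
        ⟨_, rfl⟩
      rw [← hX0] at c0 hr
      rw [← hX1] at c1 hr
      have a1 : r ∣ G0 + sp * sm * G1 := by
        have h1 : G0 + sp * sm * G1 = (X0 + sp * sm * X1) - (X0 - G0) - sp * sm * (X1 - G1) := by
          ring
        rw [h1]
        exact dvd_sub (dvd_sub hr c0) (Dvd.dvd.mul_left c1 _)
      have h2 : G0 ^ 2 - ((p * m : ℕ) : ℤ) * G1 ^ 2 = (G0 + sp * sm * G1) * (G0 - sp * sm * G1) +
          (sp ^ 2 - sg e * p) * (sm ^ 2 * G1 ^ 2) + (sm ^ 2 - sg e * m) * (sg e * p * G1 ^ 2) := by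
        push_cast
        linear_combination ((p : ℤ) * m * G1 ^ 2) * hss
      rw [h2]
      exact dvd_add (dvd_add (Dvd.dvd.mul_right a1 _) (Dvd.dvd.mul_right hsp _))
        (Dvd.dvd.mul_right hsm _)
  | true =>
    obtain ⟨G0, hG0⟩ : ∃ G0 : ℤ,
        G0 = ev (Dl p m A) (contr (1, 0) f) (sg e * p : ℤ) (sg e * m : ℤ) := ⟨_, rfl⟩
    obtain ⟨G1, hG1⟩ : ∃ G1 : ℤ,
        G1 = ev (Dl p m A) (contr (0, 1) f) (sg e * p : ℤ) (sg e * m : ℤ) := ⟨_, rfl⟩
    have b0 := ArC2c_sq hc hf (c := (1, 0)) (by norm_num) (by norm_num) e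
    have b1 := ArC2c_sq hc hf (c := (0, 1)) (by norm_num) (by norm_num) e
    rw [← hG0] at b0
    rw [← hG1] at b1
    simp only [pow_zero, pow_one, one_mul, mul_one] at b0 b1
    refine ⟨(p : ℤ) * G0 ^ 2 - (m : ℤ) * G1 ^ 2, ?_, ?_, ?_⟩
    · intro hzero
      have hand : (p : ℤ) * G0 = 0 ∧ G1 = 0 := by
        by_contra hn
        apply sq_ne (p * m) (ArC2c_pm hc) _ _ hn
        push_cast
        linear_combination (p : ℤ) * hzero
      have z1 := hand.2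
      have z0 : G0 = 0 := by
        rcases mul_eq_zero.1 hand.1 with h1 | h1
        · exfalso
          have : p = 0 := by exact_mod_cast h1
          omega
        · exact h1
      have hcase : (w0.1 % 2, w0.2 % 2) = (1, 0) ∨ (w0.1 % 2, w0.2 % 2) = (0, 1) := by
        rw [hbodd] at hw0c
        have h1 : (w0.1 + w0.2) % 2 = 1 := by simpa using hw0c
        rcases Nat.mod_two_eq_zero_or_one w0.1 with h2 | h2 <;>
          rcases Nat.mod_two_eq_zero_or_one w0.2 with h3 | h3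
        · exfalso; omega
        · right; rw [h2, h3]
        · left; rw [h2, h3]
        · exfalso; omega
      rcases hcase with h1 | h1 <;> rw [h1] at hpar
      · exact contr_ev_ne hc hf (c := (1, 0)) (by norm_num) (by norm_num) ⟨_, hpar⟩ (e, e)
          (by rw [← z0, hG0])
      · exact contr_ev_ne hc hf (c := (0, 1)) (by norm_num) (by norm_num) ⟨_, hpar⟩ (e, e)
          (by rw [← z1, hG1])
    · push_cast
      rw [abs_le]
      have q0 : (0 : ℝ) ≤ (p : ℝ) * (G0 : ℝ) ^ 2 := by positivity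
      have q1 : (0 : ℝ) ≤ (m : ℝ) * (G1 : ℝ) ^ 2 := by positivity
      constructor <;> linarith
    · intro r sp sm hsp hsm hr
      rw [hsplit, hz (0, 0) (by simp), hz (1, 1) (by simp), mul_zero, zero_add,
        add_zero] at hr
      have c0 := ev_congr (Dl p m A) (contr (1, 0) f) hsp hsm
      have c1 := ev_congr (Dl p m A) (contr (0, 1) f) hsp hsm
      rw [← hG0] at c0
      rw [← hG1] at c1
      obtain ⟨X0, hX0⟩ : ∃ X0 : ℤ, X0 = ev (Dl p m A) (contr (1, 0) f) (sp ^ 2) (sm ^ 2) :=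
        ⟨_, rfl⟩
      obtain ⟨X1, hX1⟩ : ∃ X1 : ℤ, X1 = ev (Dl p m A) (contr (0, 1) f) (sp ^ 2) (sm ^ 2) :=
        ⟨_, rfl⟩
      rw [← hX0] at c0 hr
      rw [← hX1] at c1 hr
      have a1 : r ∣ sp * G0 + sm * G1 := by
        have h1 : sp * G0 + sm * G1 = (sp * X0 + sm * X1) - sp * (X0 - G0) - sm * (X1 - G1) := by
          ring
        rw [h1]
        exact dvd_sub (dvd_sub hr (Dvd.dvd.mul_left c0 _)) (Dvd.dvd.mul_left c1 _)
      have h2 : (p : ℤ) * G0 ^ 2 - (m : ℤ) * G1 ^ 2 =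
          (sp * G0 + sm * G1) * (sg e * (sp * G0 - sm * G1)) -
          (sp ^ 2 - sg e * p) * (sg e * G0 ^ 2) + (sm ^ 2 - sg e * m) * (sg e * G1 ^ 2) := by
        linear_combination (-(p : ℤ) * G0 ^ 2 + (m : ℤ) * G1 ^ 2) * hss
      rw [h2]
      exact dvd_add (dvd_sub (Dvd.dvd.mul_right a1 _) (Dvd.dvd.mul_right hsp _))
        (Dvd.dvd.mul_right hsm _)

/-- PROOF. `V = ev f (-p) m * V₊ V₋`. If `c = false` (`a + b` even): `V± = G₀₀^2 - p m G₁₁^2`, if `c = true`: `V± = (p G₁₀)^2 - p m G₀₁^2`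
(which is `p (p G₁₀^2 - m G₀₁^2)`), `G_c = ev (contr c f) (± p) (± m)` with the same sign in both places. Nonzero: `sq_ne` for `p m`
(squarefree, `> 1`), `contr_ev_ne`. Let `r ∈ R₃`, `e, sp, sm` from `chars`. If `e.1 ≠ e.2`: `ev f (-p) m` and `ev f p (-m)` agree up to
sign on this support and `r` divides one of them. If `e.1 = e.2 = ρ`: `ev_split`, `c = false`: `0 ≡ G₀₀ + sp sm G₁₁`,
`(sp sm)^2 ≡ ρ^2 p m = p m`; `c = true`: `0 ≡ sp G₁₀ + sm G₀₁`, so `ρ p G₁₀^2 ≡ ρ m G₀₁^2`. Bound: `contr_ev_bound`: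
`|G₀₀|, √(p m) |G₁₁|, √p |G₁₀|, √m |G₀₁| ≤ 12 N exp (ℓ/2)`; for `c = true` use `V± / p = p G₁₀^2 - m G₀₁^2` as the factor instead,
`|.| ≤ 2 (12 N)^2 exp ℓ`. -/
theorem case2c {p m : ℕ} {A : ℝ} {d : ℕ × ℕ → ℤ} {R₃ R₁ : Finset ℕ}
    (hc : Ctx p m A d R₃ R₁) {ℓ : ℝ}
    {f : ℕ × ℕ → ℤ} (hf : Mn p m A d ℓ f) (c : Bool)
    (hs : ∀ w, f w ≠ 0 → (w.1 + w.2).bodd = c)
    (h : ev (Dl p m A) f (-p : ℤ) (m : ℤ) ≠ 0) : Concl p m A R₃ ℓ 3 := by
  obtain ⟨W1, hW1, bW1, dW1⟩ := ArC2c_fac hc hf c hs true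
  obtain ⟨W2, hW2, bW2, dW2⟩ := ArC2c_fac hc hf c hs false
  have hp3 := hc.hp3
  have hm3 := hc.hm
  have hfB : ∀ w, |f w| ≤ 12 := OPS_bound hc.hB hf.hf
  have hb := ev_bound (show 3 ≤ p by omega) (show 3 ≤ m by omega) (A := A) hfB hf.hl
    (x := (-p : ℤ)) (y := (m : ℤ)) (by simp) (by simp)
  rw [ArC2c_cast] at hb
  refine ⟨ev (Dl p m A) f (-p : ℤ) (m : ℤ) * (W1 * W2), mul_ne_zero h (mul_ne_zero hW1 hW2),
    ?_, ?_⟩
  · intro r hr
    obtain ⟨e, sp, sm, h1, h2, -, -, h3⟩ := chars hc hr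
    obtain ⟨h4, h5⟩ := h3 f hf.hf hf.hv
    obtain ⟨e1, e2⟩ := e
    simp only at h1 h2 h4
    cases e1 <;> cases e2
    · exact Dvd.dvd.mul_left (Dvd.dvd.mul_left (dW2 r sp sm h1 h2 h5) _) _
    · have h6 : (sg false * p : ℤ) = -p := by simp [sg]
      have h7 : (sg true * m : ℤ) = m := by simp [sg]
      rw [h6, h7] at h4
      exact Dvd.dvd.mul_right h4 _
    · have h6 : (sg true * p : ℤ) = p := by simp [sg]
      have h7 : (sg false * m : ℤ) = -m := by simp [sg]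
      rw [h6, h7] at h4
      have h8 : ∃ s : ℤ, ev (Dl p m A) f (-p : ℤ) (m : ℤ) =
          s * ev (Dl p m A) f (p : ℤ) (-m : ℤ) := by
        refine ⟨if c then -1 else 1, ?_⟩
        unfold ev
        rw [mul_sum]
        refine sum_congr rfl fun w _ => ?_
        by_cases hw : f w = 0
        · rw [hw]
          simp
        · have hwc := hs w hw
          have h9 : (-1 : ℤ) ^ w.1 = (if c then -1 else 1) * (-1) ^ w.2 := by
            rw [← hwc, ArC2c_neg, ArC2c_neg, Nat.bodd_add]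
            cases w.1.bodd <;> cases w.2.bodd <;> simp
          rw [neg_pow (p : ℤ), neg_pow (m : ℤ), h9]
          ring
      obtain ⟨s, hs8⟩ := h8
      rw [hs8]
      exact Dvd.dvd.mul_right (Dvd.dvd.mul_left h4 _) _
    · exact Dvd.dvd.mul_left (Dvd.dvd.mul_right (dW1 r sp sm h1 h2 h5) _) _
  · obtain ⟨N, hN⟩ : ∃ N : ℝ, N = ((Dl p m A).card : ℝ) := ⟨_, rfl⟩
    have hN0 : 0 ≤ N := by
      rw [hN]
      exact Nat.cast_nonneg _
    have hN1 : N = 0 ∨ 1 ≤ N := by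
      rcases Nat.eq_zero_or_pos (Dl p m A).card with h1 | h1
      · left
        rw [hN, h1]
        simp
      · right
        rw [hN]
        exact_mod_cast h1
    rw [← hN] at hb bW1 bW2 ⊢
    push_cast
    rw [abs_mul, abs_mul]
    have hE : Real.exp (3 * ℓ) = Real.exp ℓ * (Real.exp ℓ * Real.exp ℓ) := by
      rw [← Real.exp_add, ← Real.exp_add]
      congr 1
      ring
    have hE0 : 0 < Real.exp ℓ := Real.exp_pos _
    have hmul := mul_le_mul hb (mul_le_mul bW1 bW2 (abs_nonneg _) (by positivity))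
      (by positivity) (by positivity)
    refine hmul.trans ?_
    rw [hE]
    have h5 : (12 * N) ^ 5 ≤ (24 * N) ^ 8 := by
      rcases hN1 with h1 | h1
      · rw [h1]
        simp
      · calc (12 * N) ^ 5 ≤ (24 * N) ^ 5 := pow_le_pow_left₀ (by positivity) (by linarith) 5
          _ ≤ (24 * N) ^ 8 := pow_le_pow_right₀ (by linarith) (by norm_num)
    calc 12 * N * Real.exp ℓ * ((12 * N) ^ 2 * Real.exp ℓ * ((12 * N) ^ 2 * Real.exp ℓ))
        = (12 * N) ^ 5 * (Real.exp ℓ * (Real.exp ℓ * Real.exp ℓ)) := by ring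
      _ ≤ (24 * N) ^ 8 * (Real.exp ℓ * (Real.exp ℓ * Real.exp ℓ)) :=
          mul_le_mul_of_nonneg_right h5 (by positivity)

end Pool.Agent.W_420c7c_h51
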