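import Pool.Agent.W_420c7c_h51.ArB1
import Pool.Agent.W_420c7c_h51.ArB2

set_option autoImplicit false

/-!
# Case C3
-/

namespace Pool.Agent.W_420c7c_h51

open Finset

private theorem ArC3_contr_zero {f : ℕ × ℕ → ℤ} {a b : Bool}
    (hs : ∀ w, f w ≠ 0 → w.1.bodd = a ∧ w.2.bodd = b) {c : ℕ × ℕ}
    (hc : ¬ (c.1.bodd = a ∧ c.2.bodd = b)) : contr c f = 0 := by
  funext w
  by_contra hne
  have h := hs _ hne
  simp only [Nat.bodd_add, Nat.bodd_mul, Nat.bodd_two, Bool.false_and, Bool.xor_false] at h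
  exact hc h

private theorem ArC3_ev_zero {S : Type} [CommRing S] (D : Finset (ℕ × ℕ)) (x y : S) :
    ev D (0 : ℕ × ℕ → ℤ) x y = 0 := by
  simp [ev]

private theorem ArC3_split {p m : ℕ} (hp : 3 ≤ p) (hm : 3 ≤ m) {A : ℝ}
    {f : ℕ × ℕ → ℤ} (hf : ∀ w, f w ≠ 0 → w ∈ Dl p m A) {a b : Bool}
    (hs : ∀ w, f w ≠ 0 → w.1.bodd = a ∧ w.2.bodd = b) (x y : ℤ) :
    ev (Dl p m A) f x y =
      x ^ a.toNat * y ^ b.toNat * ev (Dl p m A) (contr (a.toNat, b.toNat) f) (x ^ 2) (y ^ 2) := by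
  rw [ev_split hp hm hf]
  cases a <;> cases b <;>
    simp only [Bool.toNat_false, Bool.toNat_true, pow_zero, pow_one, one_mul, mul_one]
  · rw [ArC3_contr_zero (c := (1, 0)) hs (by simp), ArC3_contr_zero (c := (0, 1)) hs (by simp),
      ArC3_contr_zero (c := (1, 1)) hs (by simp), ArC3_ev_zero]
    ring
  · rw [ArC3_contr_zero (c := (1, 0)) hs (by simp), ArC3_contr_zero (c := (0, 0)) hs (by simp),
      ArC3_contr_zero (c := (1, 1)) hs (by simp), ArC3_ev_zero]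
    ring
  · rw [ArC3_contr_zero (c := (0, 0)) hs (by simp), ArC3_contr_zero (c := (0, 1)) hs (by simp),
      ArC3_contr_zero (c := (1, 1)) hs (by simp), ArC3_ev_zero]
    ring
  · rw [ArC3_contr_zero (c := (1, 0)) hs (by simp), ArC3_contr_zero (c := (0, 1)) hs (by simp),
      ArC3_contr_zero (c := (0, 0)) hs (by simp), ArC3_ev_zero]
    ring

private theorem ArC3_cast (D : Finset (ℕ × ℕ)) (f : ℕ × ℕ → ℤ) (x y : ℤ) :
    ((ev D f x y : ℤ) : ℝ) = ev D f (x : ℝ) (y : ℝ) := by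
  simp [ev]

/-- PROOF. `f` is supported on `c + 2 ℕ²`, `c = (a₀, b₀)`; `g = contr c f ≠ 0`. `V = ∏_e ev g (sg e.1 p) (sg e.2 m)`, the product over
the four `e : Bool × Bool`, not zero by `contr_ev_ne`. `r ∈ R₃`, `e, sp, sm` from `chars`: `0 ≡ ev f sp sm = sp^a₀ sm^b₀
ev g (sp^2) (sm^2) ≡ sp^a₀ sm^b₀ ev g (sg e.1 p) (sg e.2 m)` (`ev_split`, the other contractions vanish), `r ∤ sp, sm`. Bound:
`(12 N)^4 exp (2 ℓ)` (`contr_ev_bound`, `exp (lv c/2) ≥ 1`). -/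
theorem case3 {p m : ℕ} {A : ℝ} {d : ℕ × ℕ → ℤ} {R₃ R₁ : Finset ℕ}
    (hc : Ctx p m A d R₃ R₁) {ℓ : ℝ}
    {f : ℕ × ℕ → ℤ} (hf : Mn p m A d ℓ f) (a b : Bool)
    (hs : ∀ w, f w ≠ 0 → w.1.bodd = a ∧ w.2.bodd = b) : Concl p m A R₃ ℓ 3 := by
  have hp3 : 3 ≤ p := by have := hc.hp3; omega
  have hm3 : 3 ≤ m := by have := hc.hm; omega
  have hsupp : ∀ w, f w ≠ 0 → w ∈ Dl p m A := fun w hw =>
    OPS_supp hp3 hm3 hc.hd hf.hf w hw
  obtain ⟨w₀, hw₀⟩ := hf.hne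
  have hc1 : a.toNat < 2 := by cases a <;> simp
  have hc2 : b.toNat < 2 := by cases b <;> simp
  have hne : ∃ w, contr (a.toNat, b.toNat) f w ≠ 0 := by
    obtain ⟨h1, h2⟩ := hs w₀ hw₀
    refine ⟨(w₀.1.div2, w₀.2.div2), ?_⟩
    have e1 : a.toNat + 2 * w₀.1.div2 = w₀.1 := by rw [← h1]; exact Nat.bodd_add_div2 _
    have e2 : b.toNat + 2 * w₀.2.div2 = w₀.2 := by rw [← h2]; exact Nat.bodd_add_div2 _
    simp only [contr, e1, e2]
    exact hw₀
  have hN : (1 : ℝ) ≤ (Dl p m A).card := by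
    have : 0 < (Dl p m A).card := card_pos.mpr ⟨w₀, hsupp w₀ hw₀⟩
    exact_mod_cast this
  have hlvc : 0 ≤ lv p m (a.toNat, b.toNat) := by
    unfold lv
    have h1 : 0 ≤ Real.log p := Real.log_natCast_nonneg p
    have h2 : 0 ≤ Real.log m := Real.log_natCast_nonneg m
    positivity
  refine ⟨∏ e : Bool × Bool, ev (Dl p m A) (contr (a.toNat, b.toNat) f) (sg e.1 * p : ℤ)
    (sg e.2 * m : ℤ), ?_, ?_, ?_⟩
  · exact prod_ne_zero_iff.mpr fun e _ => contr_ev_ne hc hf hc1 hc2 hne e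
  · intro r hr
    obtain ⟨e, sp, sm, h1, h2, h3, h4, h5⟩ := chars hc hr
    have hrp : Prime (r : ℤ) := Nat.prime_iff_prime_int.mp (hc.hR3 r hr).1
    have h6 := (h5 f hf.hf hf.hv).2
    rw [ArC3_split hp3 hm3 hsupp hs] at h6
    have h7 : (r : ℤ) ∣ ev (Dl p m A) (contr (a.toNat, b.toNat) f) (sp ^ 2) (sm ^ 2) := by
      rcases hrp.dvd_or_dvd h6 with h | h
      · exfalso
        rcases hrp.dvd_or_dvd h with h | h
        · exact h3 (hrp.dvd_of_dvd_pow h)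
        · exact h4 (hrp.dvd_of_dvd_pow h)
      · exact h
    have h8 := ev_congr (Dl p m A) (contr (a.toNat, b.toNat) f) h1 h2
    have h9 : (r : ℤ) ∣ ev (Dl p m A) (contr (a.toNat, b.toNat) f) (sg e.1 * p : ℤ)
        (sg e.2 * m : ℤ) := (dvd_sub_right h7).mp h8
    exact h9.trans (dvd_prod_of_mem _ (mem_univ e))
  · rw [Int.cast_prod, abs_prod]
    have hb : ∀ e ∈ (univ : Finset (Bool × Bool)),
        |((ev (Dl p m A) (contr (a.toNat, b.toNat) f) (sg e.1 * p : ℤ) (sg e.2 * m : ℤ) : ℤ) : ℝ)|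
          ≤ 12 * (Dl p m A).card * Real.exp (ℓ / 2) := by
      intro e _
      have hcb := contr_ev_bound hc hf (c := (a.toNat, b.toNat)) hc1 hc2 e
      rw [ArC3_cast]
      refine le_trans ?_ hcb
      exact le_mul_of_one_le_right (abs_nonneg _)
        (Real.one_le_exp (by linarith))
    refine (prod_le_prod (fun e _ => abs_nonneg _) hb).trans ?_
    rw [prod_const, card_univ, Fintype.card_prod, Fintype.card_bool]
    have e1 : (12 * ((Dl p m A).card : ℝ) * Real.exp (ℓ / 2)) ^ (2 * 2) =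
        (12 * ((Dl p m A).card : ℝ)) ^ 4 * Real.exp (2 * ℓ) := by
      rw [mul_pow, ← Real.exp_nat_mul]
      congr 2
      push_cast
      ring
    rw [e1]
    refine mul_le_mul ?_ (Real.exp_le_exp.mpr (by linarith [hf.hpos])) (Real.exp_pos _).le
      (by positivity)
    calc (12 * ((Dl p m A).card : ℝ)) ^ 4 ≤ (24 * ((Dl p m A).card : ℝ)) ^ 4 := by
          gcongr; norm_num
      _ ≤ (24 * ((Dl p m A).card : ℝ)) ^ 8 :=
          pow_le_pow_right₀ (by linarith) (by norm_num)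

end Pool.Agent.W_420c7c_h51
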