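import Pool.Agent.W_420c7c_h51.ArB2

set_option autoImplicit false

/-!
# The minimal element
-/

namespace Pool.Agent.W_420c7c_h51

open Finset

private lemma ArD1_lv_nonneg {p m : ℕ} (hp : 5 ≤ p) (hm : 5 ≤ m) (w : ℕ × ℕ) : 0 ≤ lv p m w := by
  have h1 : 0 ≤ Real.log p := Real.log_nonneg (by exact_mod_cast (by omega : 1 ≤ p))
  have h2 : 0 ≤ Real.log m := Real.log_nonneg (by exact_mod_cast (by omega : 1 ≤ m))
  unfold lv
  positivity

private lemma ArD1_lv_zero {p m : ℕ} (hp : 5 ≤ p) (hm : 5 ≤ m) {w : ℕ × ℕ} (h : lv p m w ≤ 0) :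
    w = (0, 0) := by
  have h1 : 0 < Real.log p := Real.log_pos (by exact_mod_cast (by omega : 1 < p))
  have h2 : 0 < Real.log m := Real.log_pos (by exact_mod_cast (by omega : 1 < m))
  unfold lv at h
  have ha : 0 ≤ (w.1 : ℝ) * Real.log p := by positivity
  have hb : 0 ≤ (w.2 : ℝ) * Real.log m := by positivity
  have ha0 : (w.1 : ℝ) * Real.log p = 0 := by linarith
  have hb0 : (w.2 : ℝ) * Real.log m = 0 := by linarith
  have e1 : w.1 = 0 := by
    rcases mul_eq_zero.1 ha0 with h | h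
    · exact_mod_cast h
    · exact absurd h h1.ne'
  have e2 : w.2 = 0 := by
    rcases mul_eq_zero.1 hb0 with h | h
    · exact_mod_cast h
    · exact absurd h h2.ne'
  exact Prod.ext e1 e2

/-- a nonzero function with support in `D` has a point of its support of the largest level -/
private lemma ArD1_top {p m : ℕ} {D : Finset (ℕ × ℕ)} {f : ℕ × ℕ → ℤ}
    (hD : ∀ w, f w ≠ 0 → w ∈ D) (hne : ∃ w, f w ≠ 0) :
    ∃ w ∈ D, f w ≠ 0 ∧ ∀ w', f w' ≠ 0 → lv p m w' ≤ lv p m w := by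
  classical
  obtain ⟨w0, hw0⟩ := hne
  obtain ⟨w, hw, hmax⟩ := (D.filter (fun w => f w ≠ 0)).exists_max_image (lv p m)
    ⟨w0, by simp [hD w0 hw0, hw0]⟩
  rw [mem_filter] at hw
  exact ⟨w, hw.1, hw.2, fun w' hw' => hmax w' (by simp [hD w' hw', hw'])⟩

/-- PROOF. The levels of the nonzero elements of `OPS d` that vanish at `(p, m)` lie in the finite set of the `lv p m w`,
`w ∈ Dl p m A` (maximum over the support); take an element with the smallest maximum `ℓ`. `ℓ > 0`: else the support is `{(0,0)}` and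
`vv f = f (0,0) ≠ 0`. -/
theorem exists_mn {p m : ℕ} {A : ℝ} {d : ℕ × ℕ → ℤ} {R₃ R₁ : Finset ℕ}
    (hc : Ctx p m A d R₃ R₁)
    (hne : ∃ w, d w ≠ 0) (hv : vv p m (Dl p m A) d = 0) :
    ∃ ℓ f, Mn p m A d ℓ f ∧ ℓ ≤ A := by
  classical
  have hp3 : 3 ≤ p := by have := hc.hp3; omega
  have hm3 : 3 ≤ m := by have := hc.hm; omega
  set D := Dl p m A with hDdef
  set Q : ℕ × ℕ → Prop := fun w => ∃ f ∈ OPS d, f w ≠ 0 ∧ vv p m D f = 0 ∧
    ∀ w', f w' ≠ 0 → lv p m w' ≤ lv p m w with hQ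
  obtain ⟨w0, hw0D, hw0, hw0m⟩ := ArD1_top (p := p) (m := m) hc.hd hne
  obtain ⟨w, hw, hmin⟩ := (D.filter Q).exists_min_image (lv p m)
    ⟨w0, by
      rw [mem_filter]
      exact ⟨hw0D, d, OPS_self d, hw0, hv, hw0m⟩⟩
  rw [mem_filter] at hw
  obtain ⟨hwD, f, hf, hfw, hfv, hfm⟩ := hw
  refine ⟨lv p m w, f, ⟨hf, ⟨w, hfw⟩, hfv, hfm, ?_, ?_⟩, ?_⟩
  · by_contra hle
    rw [not_lt] at hle
    have hz : ∀ w', f w' ≠ 0 → w' = (0, 0) := fun w' hw' =>
      ArD1_lv_zero hc.hp3 hc.hm ((hfm w' hw').trans hle)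
    have hw00 : w = (0, 0) := hz w hfw
    have hsum : vv p m D f = f w * (mon p m w : ℤ) := by
      unfold vv
      refine Finset.sum_eq_single_of_mem w hwD fun b _ hb => ?_
      have : f b = 0 := by
        by_contra hb0
        exact hb ((hz b hb0).trans hw00.symm)
      rw [this, zero_mul]
    rw [hsum, hw00] at hfv
    simp only [mon, pow_zero, mul_one, Nat.cast_one] at hfv
    rw [hw00] at hfw
    exact hfw hfv
  · intro g hg hgne hglt hgv
    obtain ⟨w1, hw1D, hw1, hw1m⟩ := ArD1_top (p := p) (m := m) (OPS_supp hp3 hm3 hc.hd hg) hgne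
    have h1 := hmin w1 (by
      rw [mem_filter]
      exact ⟨hw1D, g, hg, hw1, hgv, hw1m⟩)
    exact absurd (hglt w1 hw1) (not_lt.2 h1)
  · have := hwD
    rw [hDdef, Dl, mem_filter] at this
    exact this.2

/-- PROOF. If a part of `f` (`tw t f` with values of `t` in `{0, 1}`) is not zero and vanishes at `(p, m)`, it is again minimal. -/
theorem Mn.part {p m : ℕ} {A : ℝ} {d : ℕ × ℕ → ℤ} {ℓ : ℝ} {f : ℕ × ℕ → ℤ}
    (hf : Mn p m A d ℓ f) (t : Bool × Bool → SignType) (hne : ∃ w, tw t f w ≠ 0)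
    (hv : vv p m (Dl p m A) (tw t f) = 0) : Mn p m A d ℓ (tw t f) := by
  refine ⟨OPS_tw hf.hf t, hne, hv, fun w hw => hf.hl w fun h0 => hw ?_, hf.hpos, hf.hmin⟩
  simp [tw, h0]

end Pool.Agent.W_420c7c_h51
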