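import Pool.Agent.W_420c7c_h51.ArD1
import Pool.Agent.W_420c7c_h51.ArC1
import Pool.Agent.W_420c7c_h51.ArC2a
import Pool.Agent.W_420c7c_h51.ArC2b
import Pool.Agent.W_420c7c_h51.ArC2c
import Pool.Agent.W_420c7c_h51.ArC3

set_option autoImplicit false

/-!
# All cases
-/

namespace Pool.Agent.W_420c7c_h51

open Finset

private theorem ad2_sgpow (a : Bool) (n : ℕ) :
    (sg a) ^ n = if (n.bodd && !a) = true then (-1 : ℤ) else 1 := by
  cases a with
  | true => simp [sg]
  | false =>
    induction n with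
    | zero => simp
    | succ n ih =>
      rw [pow_succ, ih, Nat.bodd_succ]
      cases n.bodd <;> simp [sg]

private theorem ad2_split {p m : ℕ} {A : ℝ} {d : ℕ × ℕ → ℤ} {ℓ : ℝ} {f : ℕ × ℕ → ℤ}
    (hf : Mn p m A d ℓ f) (e : Bool × Bool)
    (h0 : ev (Dl p m A) f (sg e.1 * p : ℤ) (sg e.2 * m : ℤ) = 0) :
    ∃ (b : Bool) (f' : ℕ × ℕ → ℤ), Mn p m A d ℓ f' ∧
      ∀ w, f' w ≠ 0 → Bool.xor (w.1.bodd && !e.1) (w.2.bodd && !e.2) = b ∧ f w ≠ 0 := by
  have hv := hf.hv
  have key : ∀ b : Bool, vv p m (Dl p m A)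
      (tw (fun x => if Bool.xor (x.1 && !e.1) (x.2 && !e.2) = b then 1 else 0) f) = 0 := by
    intro b
    have h2 : 2 * vv p m (Dl p m A)
        (tw (fun x => if Bool.xor (x.1 && !e.1) (x.2 && !e.2) = b then 1 else 0) f)
        = vv p m (Dl p m A) f
          + (if b then -1 else 1) * ev (Dl p m A) f (sg e.1 * p : ℤ) (sg e.2 * m : ℤ) := by
      unfold vv ev tw
      rw [Finset.mul_sum, Finset.mul_sum, ← Finset.sum_add_distrib]
      apply Finset.sum_congr rfl
      intro w _
      rw [mul_pow, mul_pow, ad2_sgpow, ad2_sgpow]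
      unfold mon
      push_cast
      generalize w.1.bodd = x
      generalize w.2.bodd = y
      generalize e.1 = e1
      generalize e.2 = e2
      cases x <;> cases y <;> cases e1 <;> cases e2 <;> cases b <;> simp <;> ring
    rw [hv, h0] at h2
    simpa using h2
  obtain ⟨w0, hw0⟩ := hf.hne
  refine ⟨Bool.xor (w0.1.bodd && !e.1) (w0.2.bodd && !e.2), _,
    hf.part _ ⟨w0, ?_⟩ (key (Bool.xor (w0.1.bodd && !e.1) (w0.2.bodd && !e.2))), ?_⟩
  · unfold tw
    simpa using hw0
  · intro w hw
    unfold tw at hw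
    have h1 := left_ne_zero_of_mul hw
    have h2 := right_ne_zero_of_mul hw
    refine ⟨?_, h2⟩
    by_contra h3
    apply h1
    show ((if Bool.xor (w.1.bodd && !e.1) (w.2.bodd && !e.2) =
      Bool.xor (w0.1.bodd && !e.1) (w0.2.bodd && !e.2) then (1 : SignType) else 0 : SignType) : ℤ) = 0
    rw [if_neg h3]
    simp

/-- PROOF. `exists_mn`. If no `ev f (sg e.1 p) (sg e.2 m)`, `e ≠ (true, true)`, vanishes: `case1`. Otherwise, `ev f p m = 0` too,
so the parts of `f` on the two cosets of the kernel of the sign character `e` both vanish at `(p, m)`; one of them is not zero,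
replace `f` by it (`Mn.part`). For `e = (true, false)` `f` is now supported on `b ≡ b₀`: if `ev f (-p) m ≠ 0` use `case2a`, else the
two parts of `f` with `a` even resp. odd vanish at `(p, m)`, one is not zero: `case3`. Similarly `e = (false, true)` (`case2b`) and
`e = (false, false)` (`case2c`). -/
theorem all_cases {p m : ℕ} {A : ℝ} {d : ℕ × ℕ → ℤ} {R₃ R₁ : Finset ℕ}
    (hc : Ctx p m A d R₃ R₁)
    (hne : ∃ w, d w ≠ 0) (hv : vv p m (Dl p m A) d = 0) :
    ∃ ℓ, ℓ ≤ A ∧ (Concl p m A (R₃ ∪ R₁) ℓ 5 ∨ Concl p m A R₃ ℓ 3) := by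
  obtain ⟨ℓ, f, hf, hl⟩ := exists_mn hc hne hv
  refine ⟨ℓ, hl, ?_⟩
  by_cases h : ∀ e : Bool × Bool, e ≠ (true, true) →
      ev (Dl p m A) f (sg e.1 * p : ℤ) (sg e.2 * m : ℤ) ≠ 0
  · exact Or.inl (case1 hc hf h)
  right
  push Not at h
  obtain ⟨e, he, h0⟩ := h
  obtain ⟨b, f', hf', hs'⟩ := ad2_split hf e h0
  rcases e with ⟨e1, e2⟩
  cases e1 with
  | true =>
    cases e2 with
    | true => exact absurd rfl he
    | false =>
      have hsb : ∀ w, f' w ≠ 0 → w.2.bodd = b := by
        intro w hw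
        have := (hs' w hw).1
        simpa using this
      by_cases h1 : ev (Dl p m A) f' (-p : ℤ) (m : ℤ) ≠ 0
      · exact case2a hc hf' b hsb h1
      · push Not at h1
        obtain ⟨a, g, hg, hsg⟩ := ad2_split hf' (false, true) (by simpa [sg] using h1)
        refine case3 hc hg a b ?_
        intro w hw
        have h3 := hsg w hw
        refine ⟨by simpa using h3.1, hsb w h3.2⟩
  | false =>
    cases e2 with
    | true =>
      have hsa : ∀ w, f' w ≠ 0 → w.1.bodd = b := by
        intro w hw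
        have := (hs' w hw).1
        simpa using this
      by_cases h1 : ev (Dl p m A) f' (p : ℤ) (-m : ℤ) ≠ 0
      · exact case2b hc hf' b hsa h1
      · push Not at h1
        obtain ⟨a, g, hg, hsg⟩ := ad2_split hf' (true, false) (by simpa [sg] using h1)
        refine case3 hc hg b a ?_
        intro w hw
        have h3 := hsg w hw
        refine ⟨hsa w h3.2, by simpa using h3.1⟩
    | false =>
      have hsc : ∀ w, f' w ≠ 0 → (w.1 + w.2).bodd = b := by
        intro w hw
        have := (hs' w hw).1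
        rw [Nat.bodd_add]
        simpa using this
      by_cases h1 : ev (Dl p m A) f' (-p : ℤ) (m : ℤ) ≠ 0
      · exact case2c hc hf' b hsc h1
      · push Not at h1
        obtain ⟨a, g, hg, hsg⟩ := ad2_split hf' (false, true) (by simpa [sg] using h1)
        refine case3 hc hg a (Bool.xor a b) ?_
        intro w hw
        have h3 := hsg w hw
        have h4 : w.1.bodd = a := by simpa using h3.1
        have h5 := hsc w h3.2
        rw [Nat.bodd_add, h4] at h5
        refine ⟨h4, ?_⟩
        rw [← h5]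
        cases a <;> cases w.2.bodd <;> rfl

end Pool.Agent.W_420c7c_h51
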