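import Pool.Agent.W_420c7c_h51.ArD2

set_option autoImplicit false

/-!
# The arithmetic part: conclusion
-/

namespace Pool.Agent.W_420c7c_h51

open Finset

private theorem ad3_sum {p m : ℕ} {A : ℝ} {R : Finset ℕ} {ℓ c : ℝ} (hR : ∀ r ∈ R, r.Prime)
    (h : Concl p m A R ℓ c) (hl : ℓ ≤ A) (hc : 0 ≤ c) :
    ∑ r ∈ R, Real.log r ≤ c * A + 8 * Real.log (24 * (Dl p m A).card) := by
  obtain ⟨V, hV, hdv, hle⟩ := h
  have h1 : ∏ r ∈ R, r ∣ V.natAbs := by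
    refine Finset.prod_primes_dvd _ (fun r hr => (hR r hr).prime) fun r hr => ?_
    have := hdv r hr
    exact Int.natCast_dvd.mp this
  have h2 : ∏ r ∈ R, r ≤ V.natAbs := Nat.le_of_dvd (Int.natAbs_pos.mpr hV) h1
  have h3 : ((∏ r ∈ R, r : ℕ) : ℝ) ≤ |(V : ℝ)| := by
    have h4 : ((∏ r ∈ R, r : ℕ) : ℝ) ≤ (V.natAbs : ℝ) := by exact_mod_cast h2
    rwa [Nat.cast_natAbs, Int.cast_abs] at h4
  have hpos : ∀ r ∈ R, (0 : ℝ) < r := fun r hr => by exact_mod_cast (hR r hr).pos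
  have h5 : (0 : ℝ) < ((∏ r ∈ R, r : ℕ) : ℝ) := by
    rw [Nat.cast_prod]
    exact Finset.prod_pos hpos
  have h6 : ∑ r ∈ R, Real.log r = Real.log ((∏ r ∈ R, r : ℕ) : ℝ) := by
    rw [Nat.cast_prod, Real.log_prod (fun r hr => (hpos r hr).ne')]
  have hX8 : (24 * ((Dl p m A).card : ℝ)) ^ 8 ≠ 0 := by
    intro h0
    have h7 := h3.trans hle
    rw [h0, zero_mul] at h7
    linarith
  have hX : 24 * ((Dl p m A).card : ℝ) ≠ 0 := fun h0 => hX8 (by rw [h0]; norm_num)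
  rw [h6]
  calc Real.log ((∏ r ∈ R, r : ℕ) : ℝ)
      ≤ Real.log ((24 * ((Dl p m A).card : ℝ)) ^ 8 * Real.exp (c * ℓ)) :=
        Real.log_le_log h5 (h3.trans hle)
    _ = 8 * Real.log (24 * (Dl p m A).card) + c * ℓ := by
        rw [Real.log_mul hX8 (Real.exp_ne_zero _), Real.log_exp, Real.log_pow]
        norm_num
    _ ≤ c * A + 8 * Real.log (24 * (Dl p m A).card) := by
        have := mul_le_mul_of_nonneg_left hl hc
        linarith

/-- PROOF. `all_cases`; distinct primes dividing `V ≠ 0`: `∏ r ≤ |V|`; take logarithms. -/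
theorem arith {p m : ℕ} {A : ℝ} {d : ℕ × ℕ → ℤ} {R₃ R₁ : Finset ℕ}
    (hc : Ctx p m A d R₃ R₁) (hA : 0 ≤ A)
    (hne : ∃ w, d w ≠ 0) (hv : vv p m (Dl p m A) d = 0) :
    ∑ r ∈ R₃ ∪ R₁, Real.log r ≤ 5 * A + 8 * Real.log (24 * (Dl p m A).card) ∨
    ∑ r ∈ R₃, Real.log r ≤ 3 * A + 8 * Real.log (24 * (Dl p m A).card) := by
  obtain ⟨ℓ, hl, h | h⟩ := all_cases hc hne hv
  · left
    refine ad3_sum (fun r hr => ?_) h hl (by norm_num)
    rcases Finset.mem_union.1 hr with h1 | h1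
    · exact (hc.hR3 r h1).1
    · exact (hc.hR1 r h1).1
  · right
    exact ad3_sum (fun r hr => (hc.hR3 r hr).1) h hl (by norm_num)

end Pool.Agent.W_420c7c_h51
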