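import Pool.Agent.W_420c7c_h51.ArA0

set_option autoImplicit false

/-!
# Exponents for primes `1` modulo `4`
-/

namespace Pool.Agent.W_420c7c_h51

open Finset

private lemma ArE1_dvd (r : ℕ) (a : ℤ) : (r : ℤ) ∣ a ↔ ((a : ℤ) : ZMod r) = 0 :=
  (ZMod.intCast_zmod_eq_zero_iff_dvd a r).symm

private lemma ArE1_four {r : ℕ} (h5 : 5 ≤ r) (h : (4 : ZMod r) = 1) : False := by
  have h1 : ((3 : ℤ) : ZMod r) = 0 := by
    have h2 : (4 : ZMod r) - 1 = 0 := by rw [h, sub_self]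
    have h3 : ((3 : ℤ) : ZMod r) = 4 - 1 := by
      push_cast
      norm_num
    rw [h3, h2]
  rw [← ArE1_dvd] at h1
  have h2 := Int.le_of_dvd (by norm_num) h1
  omega

private lemma ArE1_odd {r : ℕ} (h5 : 5 ≤ r) {q : ℕ} (h1 : (2 : ZMod r) ^ (1 + q) = 1)
    (h2 : (2 : ZMod r) ^ (1 + 3 * q) = 1) : False := by
  apply ArE1_four h5
  have h3 : (2 : ZMod r) ^ (2 * q) = 1 := by
    have h4 : (2 : ZMod r) ^ (1 + 3 * q) = (2 : ZMod r) ^ (1 + q) * (2 : ZMod r) ^ (2 * q) := by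
      rw [← pow_add]
      congr 1
      ring
    rw [h2, h1, one_mul] at h4
    exact h4.symm
  have h5 : ((2 : ZMod r) ^ (1 + q)) ^ 2 = 4 * (2 : ZMod r) ^ (2 * q) := by
    rw [← pow_mul, show (1 + q) * 2 = 2 + 2 * q by ring, pow_add]
    norm_num
  rw [h1, h3] at h5
  simpa using h5.symm

private lemma ArE1_even {r : ℕ} (h5 : 5 ≤ r) {q : ℕ} (h1 : (2 : ZMod r) ^ (1 + q) = -1)
    (h2 : (2 : ZMod r) ^ (1 + 3 * q) = -1) : False := by
  apply ArE1_four h5
  have h3 : (2 : ZMod r) ^ (2 * q) = 1 := by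
    have h4 : (2 : ZMod r) ^ (1 + 3 * q) = (2 : ZMod r) ^ (1 + q) * (2 : ZMod r) ^ (2 * q) := by
      rw [← pow_add]
      congr 1
      ring
    rw [h2, h1, neg_one_mul, neg_inj] at h4
    exact h4.symm
  have h5 : ((2 : ZMod r) ^ (1 + q)) ^ 2 = 4 * (2 : ZMod r) ^ (2 * q) := by
    rw [← pow_mul, show (1 + q) * 2 = 2 + 2 * q by ring, pow_add]
    norm_num
  rw [h1, h3] at h5
  simpa using h5.symm

private lemma ArE1_fin {r q k : ℕ} {x : ℤ} (hr : r.Prime)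
    (h2 : (x : ZMod r) ^ (2 * q) = 1) (hk : k = 1 + q ∨ k = 1 + 3 * q) :
    (r : ℤ) ∣ x ^ k - sg (decide ((x : ZMod r) ^ q = 1)) * x := by
  have hF : Fact r.Prime := Fact.mk hr
  rw [ArE1_dvd]
  have h3 : (x : ZMod r) ^ k = (x : ZMod r) ^ q * x := by
    rcases hk with rfl | rfl
    · rw [pow_add, pow_one, mul_comm]
    · rw [show 1 + 3 * q = 1 + 2 * q + q by ring, pow_add, pow_add, h2, pow_one, mul_one, mul_comm]
  have h4 : (x : ZMod r) ^ q = 1 ∨ (x : ZMod r) ^ q = -1 := by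
    apply sq_eq_one_iff.1
    rw [← pow_mul, mul_comm]
    exact h2
  push_cast
  rw [h3]
  by_cases h1 : (x : ZMod r) ^ q = 1
  · simp [h1, sg]
  · have h5 := h4.resolve_left h1
    have h6 : decide ((x : ZMod r) ^ q = 1) = false := by simpa using h1
    rw [h6, h5]
    simp [sg]

/-- In a finite cyclic group context. PROOF. `F = ZMod r`, `r - 1 = 2^e h`, `h` odd; `x^h`, `y^h` have orders `2^a`, `2^b`; let `i = max a b`.
If `i = 0`: `x^h = y^h = 1`, take `k` even with `2 k ≡ 1 (mod h)`, and `k + 2 h` has the same properties; then `x^(2k) = x`,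
`y^(2k) = y`. If `2^k = 1 = 2^(k + 2h)` then the order of `2` divides `gcd (k, 2h)`, which divides `2` (`gcd (k, h) = 1`), so `r ∣ 3`.
If `i ≥ 1`: `k = 1 + 2^(i-1) h` or `k + 2^i h`: `x^k = ± x`, `y^k = ± y`, not both signs `+` (`x^(2^(i-1) h)`, `y^(2^(i-1) h)` have square
`1` and are not both `1`). If `i = 1`, `k` is even; if `2^k = 1` for both choices, the order of `2` divides `gcd (k, 2 h) ∣ 2`. If `i ≥ 2`,
`k` is odd; if `2^k = -1` for both choices, then `2^(2k) = 1` and `2^(2^i h) = 1`, the order of `2` divides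
`gcd (2 k, 2^i h) = 2 gcd (k, 2^(i-1) h) = 2`. Again `r ∣ 3`, impossible. -/
theorem exp_exists (r : ℕ) (hr : r.Prime) (h4 : r % 4 = 1) (h5 : 5 ≤ r) (x y : ℤ)
    (hx : ¬ (r : ℤ) ∣ x) (hy : ¬ (r : ℤ) ∣ y) :
    (∃ k, Even k ∧ ¬ (r : ℤ) ∣ 2 ^ k - 1 ∧ (r : ℤ) ∣ (x ^ k) ^ 2 - x ∧ (r : ℤ) ∣ (y ^ k) ^ 2 - y) ∨
    ∃ (e : Bool × Bool) (k : ℕ), e ≠ (true, true) ∧
      (Even k ∧ ¬ (r : ℤ) ∣ 2 ^ k - 1 ∨ Odd k ∧ ¬ (r : ℤ) ∣ 2 ^ k + 1) ∧
      (r : ℤ) ∣ x ^ k - sg e.1 * x ∧ (r : ℤ) ∣ y ^ k - sg e.2 * y := by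
  have hF : Fact r.Prime := Fact.mk hr
  obtain ⟨a, h, hodd, hrh⟩ := Nat.exists_eq_two_pow_mul_odd (n := r - 1) (by omega)
  have hX0 : (x : ZMod r) ≠ 0 := fun h0 => hx ((ArE1_dvd r x).2 h0)
  have hY0 : (y : ZMod r) ≠ 0 := fun h0 => hy ((ArE1_dvd r y).2 h0)
  have hex : ∃ i, (x : ZMod r) ^ (2 ^ i * h) = 1 ∧ (y : ZMod r) ^ (2 ^ i * h) = 1 := by
    refine ⟨a, ?_, ?_⟩
    · rw [← hrh]
      exact ZMod.pow_card_sub_one_eq_one hX0
    · rw [← hrh]
      exact ZMod.pow_card_sub_one_eq_one hY0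
  have hspec := Nat.find_spec hex
  have hmin := fun j hj => Nat.find_min (m := j) hex hj
  generalize Nat.find hex = i at hspec hmin
  rcases Nat.eq_zero_or_pos i with hi | hi
  · left
    subst hi
    rw [pow_zero, one_mul] at hspec
    obtain ⟨hXh, hYh⟩ := hspec
    obtain ⟨k, c, hke, hkc⟩ : ∃ k c, Even k ∧ 2 * k = c * h + 1 := by
      obtain ⟨t, rfl⟩ := hodd
      rcases Nat.even_or_odd (t + 1) with ht | ht
      · exact ⟨t + 1, 1, ht, by ring⟩
      · refine ⟨3 * t + 2, 3, ?_, by ring⟩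
        have h6 : 3 * t + 2 = (t + 1) + (2 * t + 1) := by ring
        rw [h6]
        exact ht.add_odd (odd_two_mul_add_one t)
    have hval : ∀ j, 2 * j = c * h + 1 ∨ 2 * j = (c + 4) * h + 1 → ∀ z : ℤ,
        (z : ZMod r) ^ h = 1 → (r : ℤ) ∣ (z ^ j) ^ 2 - z := by
      intro j hj z hz
      rw [ArE1_dvd]
      push_cast
      rw [← pow_mul, mul_comm j 2]
      rcases hj with hj | hj
      · rw [hj, pow_succ, mul_comm c h, pow_mul, hz, one_pow, one_mul, sub_self]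
      · rw [hj, pow_succ, mul_comm (c + 4) h, pow_mul, hz, one_pow, one_mul, sub_self]
    have hk' : 2 * (k + 2 * h) = (c + 4) * h + 1 := by
      rw [mul_add, hkc]
      ring
    by_cases h1 : (2 : ZMod r) ^ k = 1
    · refine ⟨k + 2 * h, hke.add (even_two_mul h), ?_, hval _ (Or.inr hk') x hXh,
        hval _ (Or.inr hk') y hYh⟩
      rw [ArE1_dvd]
      push_cast
      intro h2
      have h3 : (2 : ZMod r) ^ (2 * h) = 1 := by
        have h7 : (2 : ZMod r) ^ (k + 2 * h) = 1 := sub_eq_zero.1 h2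
        rw [pow_add, h1, one_mul] at h7
        exact h7
      have h7 : ((2 : ZMod r) ^ k) ^ 4 = 4 * ((2 : ZMod r) ^ (2 * h)) ^ c := by
        rw [← pow_mul, show k * 4 = 2 * (2 * k) by ring, hkc,
          show 2 * (c * h + 1) = 2 + 2 * h * c by ring, pow_add, ← pow_mul]
        norm_num
      rw [h1, h3, one_pow, one_pow, mul_one] at h7
      exact ArE1_four h5 h7.symm
    · refine ⟨k, hke, ?_, hval _ (Or.inl hkc) x hXh, hval _ (Or.inl hkc) y hYh⟩
      rw [ArE1_dvd]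
      push_cast
      intro h2
      exact h1 (sub_eq_zero.1 h2)
  · right
    obtain ⟨i', rfl⟩ : ∃ i', i = i' + 1 := ⟨i - 1, by omega⟩
    have hq := hmin i' (by omega)
    set q := 2 ^ i' * h with hqdef
    have h2q : 2 ^ (i' + 1) * h = 2 * q := by
      rw [hqdef]
      ring
    rw [h2q] at hspec
    obtain ⟨hX2, hY2⟩ := hspec
    have hcase : ∃ k, (k = 1 + q ∨ k = 1 + 3 * q) ∧
        (Even k ∧ ¬ (r : ℤ) ∣ 2 ^ k - 1 ∨ Odd k ∧ ¬ (r : ℤ) ∣ 2 ^ k + 1) := by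
      rcases Nat.even_or_odd q with he | ho
      · by_cases h1 : (2 : ZMod r) ^ (1 + q) = -1
        · refine ⟨1 + 3 * q, Or.inr rfl, Or.inr ⟨?_, ?_⟩⟩
          · exact odd_one.add_even (he.mul_left 3)
          · rw [ArE1_dvd]
            push_cast
            intro h2
            exact ArE1_even h5 h1 (eq_neg_of_add_eq_zero_left h2)
        · refine ⟨1 + q, Or.inl rfl, Or.inr ⟨odd_one.add_even he, ?_⟩⟩
          rw [ArE1_dvd]
          push_cast
          intro h2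
          exact h1 (eq_neg_of_add_eq_zero_left h2)
      · by_cases h1 : (2 : ZMod r) ^ (1 + q) = 1
        · refine ⟨1 + 3 * q, Or.inr rfl, Or.inl ⟨?_, ?_⟩⟩
          · exact odd_one.add_odd ((by decide : Odd 3).mul ho)
          · rw [ArE1_dvd]
            push_cast
            intro h2
            exact ArE1_odd h5 h1 (sub_eq_zero.1 h2)
        · refine ⟨1 + q, Or.inl rfl, Or.inl ⟨odd_one.add_odd ho, ?_⟩⟩
          rw [ArE1_dvd]
          push_cast
          intro h2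
          exact h1 (sub_eq_zero.1 h2)
    obtain ⟨k, hk, hcase⟩ := hcase
    refine ⟨(decide ((x : ZMod r) ^ q = 1), decide ((y : ZMod r) ^ q = 1)), k, ?_, hcase,
      ArE1_fin hr hX2 hk, ArE1_fin hr hY2 hk⟩
    intro h6
    rw [Prod.mk.injEq] at h6
    exact hq ⟨by simpa using h6.1, by simpa using h6.2⟩

end Pool.Agent.W_420c7c_h51
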