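import Pool.Agent.W_420c7c_h51.ArB1
import Pool.Agent.W_420c7c_h51.ArE1

set_option autoImplicit false

/-!
# The dichotomy
-/

namespace Pool.Agent.W_420c7c_h51

open Finset

/-- PROOF. `r ∈ R₃`: from `chars` (`e ≠ (true, true)`: first alternative; `e = (true, true)`: second alternative).
`r ∈ R₁`: `sgn3 p = sg e.1 * p`, `sgn3 m = sg e.2 * m`. If `e ≠ (true, true)`: `hvan1` with `k = 1` (`2 + 1 = 3`) is the first
alternative. If `e = (true, true)`: `sgn3 p = p`, `sgn3 m = m`, and `exp_exists` for `x = p`, `y = m`: first case: `hvan0`, second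
alternative with `sp = p^k`, `sm = m^k`; second case: `hvan0` or `hvan1`, first alternative (`ev_congr`). -/
theorem dich {p m : ℕ} {A : ℝ} {d : ℕ × ℕ → ℤ} {R₃ R₁ : Finset ℕ} (h : Ctx p m A d R₃ R₁)
    {r : ℕ} (hr : r ∈ R₃ ∨ r ∈ R₁) :
    (∃ e : Bool × Bool, e ≠ (true, true) ∧ ∀ g ∈ OPS d, vv p m (Dl p m A) g = 0 →
      (r : ℤ) ∣ ev (Dl p m A) g (sg e.1 * p) (sg e.2 * m)) ∨
    ∃ sp sm : ℤ, (r : ℤ) ∣ sp ^ 2 - p ∧ (r : ℤ) ∣ sm ^ 2 - m ∧
      ∀ g ∈ OPS d, vv p m (Dl p m A) g = 0 → (r : ℤ) ∣ ev (Dl p m A) g sp sm := by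
  rcases hr with hr | hr
  · obtain ⟨e, sp, sm, h1, h2, _, _, h3⟩ := chars h hr
    by_cases he : e = (true, true)
    · subst he
      right
      refine ⟨sp, sm, ?_, ?_, fun g hg hv => (h3 g hg hv).2⟩
      · simpa [sg] using h1
      · simpa [sg] using h2
    · exact Or.inl ⟨e, he, fun g hg hv => (h3 g hg hv).1⟩
  · obtain ⟨hrp, h4, h1000, hndvd⟩ := h.hR1 r hr
    have hp : ¬ (r : ℤ) ∣ (p : ℤ) := by
      intro hd
      exact hndvd ((Int.natCast_dvd_natCast.mp hd).mul_right m)
    have hm : ¬ (r : ℤ) ∣ (m : ℤ) := by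
      intro hd
      exact hndvd ((Int.natCast_dvd_natCast.mp hd).mul_left p)
    have h3 : ¬ (r : ℤ) ∣ 2 ^ 1 + 1 := by
      intro hd
      have := Int.le_of_dvd (by norm_num) hd
      omega
    have hsp : ∀ x : ℕ, sgn3 x = x ∨ sgn3 x = -x := by
      intro x
      unfold sgn3
      split_ifs
      · exact Or.inl rfl
      · exact Or.inr rfl
    have hodd : ∀ g ∈ OPS d, vv p m (Dl p m A) g = 0 →
        (r : ℤ) ∣ ev (Dl p m A) g (sgn3 p) (sgn3 m) := by
      intro g hg hv
      have := h.hvan1 g hg hv r hr 1 odd_one h3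
      simpa using this
    rcases hsp p with hsp1 | hsp1
    · rcases hsp m with hsm1 | hsm1
      · rcases exp_exists r hrp h4 (by omega) p m hp hm with
          ⟨k, hk, hk2, hkp, hkm⟩ | ⟨e, k, he, hk, hkp, hkm⟩
        · right
          exact ⟨(p : ℤ) ^ k, (m : ℤ) ^ k, hkp, hkm,
            fun g hg hv => h.hvan0 g hg hv r (Or.inr hr) k hk hk2⟩
        · left
          refine ⟨e, he, fun g hg hv => ?_⟩
          have hA : (r : ℤ) ∣ ev (Dl p m A) g ((p : ℤ) ^ k) ((m : ℤ) ^ k) := by
            rcases hk with ⟨hk, hk2⟩ | ⟨hk, hk2⟩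
            · exact h.hvan0 g hg hv r (Or.inr hr) k hk hk2
            · have := h.hvan1 g hg hv r hr k hk hk2
              rwa [hsp1, hsm1] at this
          have hB := ev_congr (Dl p m A) g hkp hkm
          have := dvd_sub hA hB
          simpa using this
      · left
        refine ⟨(true, false), by simp, fun g hg hv => ?_⟩
        have := hodd g hg hv
        rw [hsp1, hsm1] at this
        simpa [sg] using this
    · rcases hsp m with hsm1 | hsm1
      · left
        refine ⟨(false, true), by simp, fun g hg hv => ?_⟩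
        have := hodd g hg hv
        rw [hsp1, hsm1] at this
        simpa [sg] using this
      · left
        refine ⟨(false, false), by simp, fun g hg hv => ?_⟩
        have := hodd g hg hv
        rw [hsp1, hsm1] at this
        simpa [sg] using this


end Pool.Agent.W_420c7c_h51
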