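import Pool.Agent.W_420c7c_h51.Defs

set_option autoImplicit false

/-!
# Monomials
-/

namespace Pool.Agent.W_420c7c_h51

open Finset

private lemma CntA1_one_le_log {p : ℕ} (hp : 3 ≤ p) : (1 : ℝ) ≤ Real.log p := by
  have h3 : (3 : ℝ) ≤ p := by exact_mod_cast hp
  have he : Real.exp 1 ≤ (p : ℝ) := by
    have := Real.exp_one_lt_d9
    linarith
  calc (1 : ℝ) = Real.log (Real.exp 1) := (Real.log_exp 1).symm
    _ ≤ Real.log p := Real.log_le_log (Real.exp_pos 1) he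

private lemma CntA1_lv_nonneg {p m : ℕ} (hp : 3 ≤ p) (hm : 3 ≤ m) (w : ℕ × ℕ) :
    0 ≤ lv p m w := by
  have h1 := CntA1_one_le_log hp
  have h2 := CntA1_one_le_log hm
  unfold lv
  positivity

/-- membership in `Dl` (`log p, log m ≥ 1`, so `w.1, w.2 ≤ A`) -/
theorem mem_Dl {p m : ℕ} (hp : 3 ≤ p) (hm : 3 ≤ m) {A : ℝ} {w : ℕ × ℕ} :
    w ∈ Dl p m A ↔ lv p m w ≤ A := by
  have h1 := CntA1_one_le_log hp
  have h2 := CntA1_one_le_log hm
  unfold Dl
  simp only [mem_filter, mem_product, mem_range]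
  constructor
  · rintro ⟨_, h⟩
    exact h
  · intro h
    refine ⟨⟨?_, ?_⟩, h⟩
    · have ha : (w.1 : ℝ) ≤ A := by
        have h3 : (w.1 : ℝ) * 1 ≤ w.1 * Real.log p :=
          mul_le_mul_of_nonneg_left h1 (Nat.cast_nonneg _)
        have h4 : (0 : ℝ) ≤ w.2 * Real.log m := by positivity
        unfold lv at h
        linarith
      exact Nat.lt_succ_of_le (Nat.le_floor ha)
    · have ha : (w.2 : ℝ) ≤ A := by
        have h3 : (w.2 : ℝ) * 1 ≤ w.2 * Real.log m :=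
          mul_le_mul_of_nonneg_left h2 (Nat.cast_nonneg _)
        have h4 : (0 : ℝ) ≤ w.1 * Real.log p := by positivity
        unfold lv at h
        linarith
      exact Nat.lt_succ_of_le (Nat.le_floor ha)

/-- the logarithm of a monomial -/
theorem log_mon {p m : ℕ} (hp : 3 ≤ p) (hm : 3 ≤ m) (w : ℕ × ℕ) :
    Real.log (mon p m w : ℝ) = lv p m w := by
  have hp0 : (p : ℝ) ≠ 0 := by
    have : (0 : ℝ) < p := by exact_mod_cast (by omega : 0 < p)
    exact this.ne'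
  have hm0 : (m : ℝ) ≠ 0 := by
    have : (0 : ℝ) < m := by exact_mod_cast (by omega : 0 < m)
    exact this.ne'
  unfold mon lv
  rw [Nat.cast_mul, Nat.cast_pow, Nat.cast_pow,
    Real.log_mul (pow_ne_zero _ hp0) (pow_ne_zero _ hm0), Real.log_pow, Real.log_pow]

/-- `w` belongs to `D` if `ρ + 2^k w` does -/
theorem Dl_down {p m : ℕ} (hp : 3 ≤ p) (hm : 3 ≤ m) {A : ℝ} {k : ℕ} {ρ w : ℕ × ℕ}
    (h : (ρ.1 + 2 ^ k * w.1, ρ.2 + 2 ^ k * w.2) ∈ Dl p m A) : w ∈ Dl p m A ∧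
      lv p m w ≤ A / 2 ^ k := by
  have h1 := CntA1_one_le_log hp
  have h2 := CntA1_one_le_log hm
  rw [mem_Dl hp hm] at h
  have hw := CntA1_lv_nonneg hp hm w
  have hk : (1 : ℝ) ≤ 2 ^ k := one_le_pow₀ (by norm_num)
  have h3 : (2 : ℝ) ^ k * lv p m w ≤ A := by
    have h4 : (0 : ℝ) ≤ ρ.1 * Real.log p := by positivity
    have h5 : (0 : ℝ) ≤ ρ.2 * Real.log m := by positivity
    unfold lv at h ⊢
    push_cast at h
    nlinarith [h, h4, h5]
  have h6 : lv p m w ≤ A / 2 ^ k := by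
    rw [le_div_iff₀ (by positivity)]
    linarith
  refine ⟨(mem_Dl hp hm).2 ?_, h6⟩
  nlinarith [mul_le_mul_of_nonneg_right hk hw]

end Pool.Agent.W_420c7c_h51
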