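import Pool.Agent.W_420c7c_h51.CntA1

set_option autoImplicit false

/-!
# Counting monomials, upper bound
-/

namespace Pool.Agent.W_420c7c_h51

open Finset

private theorem CntA2_sum (A' x y : ℝ) (hy : 0 < y) (N : ℕ) :
    ∑ a ∈ range N, ((A' - (a : ℝ) * x) / y + 1) =
      ((N : ℝ) * (A' + y) - x * ((N : ℝ) * ((N : ℝ) - 1) / 2)) / y := by
  induction N with
  | zero => simp
  | succ N ih =>
    rw [sum_range_succ, ih]
    push_cast
    field_simp
    ring

private theorem CntA2_log {p : ℕ} (hp : 3 ≤ p) : 1 ≤ Real.log p := by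
  have h3 : (3 : ℝ) ≤ p := by exact_mod_cast hp
  rw [Real.le_log_iff_exp_le (by linarith)]
  have := Real.exp_one_lt_d9
  linarith

/-- PROOF. By `Dl_down` the `w` satisfy `a x + b y ≤ A'`, `A' = A / 2^k`, `x = log p`, `y = log m`. For fixed `a` the number
of `b` is at most `(A' - a x) / y + 1`; with `n = ⌊A'/x⌋` the sum over `a ≤ n` is
`(n + 1) (A' + y - x n / 2) / y = t (S - t / 2) / (x y)` where `t = (n + 1) x`, `S = A' + y + x / 2`, and
`t (S - t / 2) ≤ S^2 / 2`. -/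
theorem supp_card {p m : ℕ} (hp : 3 ≤ p) (hm : 3 ≤ m) {A : ℝ} (hA : 0 ≤ A) (k : ℕ) (ρ : ℕ × ℕ) :
    (((Dl p m A).filter (fun w => (ρ.1 + 2 ^ k * w.1, ρ.2 + 2 ^ k * w.2) ∈ Dl p m A)).card : ℝ) ≤
      (A / 2 ^ k + Real.log p + Real.log m) ^ 2 / (2 * Real.log p * Real.log m) := by
  have hx : 1 ≤ Real.log p := CntA2_log hp
  have hy : 1 ≤ Real.log m := CntA2_log hm
  have hA' : 0 ≤ A / 2 ^ k := by positivity
  have hdown : ∀ w ∈ (Dl p m A).filter (fun w => (ρ.1 + 2 ^ k * w.1, ρ.2 + 2 ^ k * w.2) ∈ Dl p m A),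
      (w.1 : ℝ) * Real.log p + w.2 * Real.log m ≤ A / 2 ^ k := by
    intro w hw
    exact (Dl_down hp hm (mem_filter.mp hw).2).2
  generalize Real.log p = x at *
  generalize Real.log m = y at *
  generalize A / 2 ^ k = A' at *
  have hx0 : 0 < x := by linarith
  have hy0 : 0 < y := by linarith
  set n : ℕ := ⌊A' / x⌋₊ with hn
  have hsub : (Dl p m A).filter (fun w => (ρ.1 + 2 ^ k * w.1, ρ.2 + 2 ^ k * w.2) ∈ Dl p m A) ⊆
      (range (n + 1)).biUnion
        (fun a => (range (⌊(A' - (a : ℝ) * x) / y⌋₊ + 1)).image (fun b => (a, b))) := by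
    intro w hw
    have h := hdown w hw
    have h1 : (0 : ℝ) ≤ (w.1 : ℝ) * x := by positivity
    have h2 : (0 : ℝ) ≤ (w.2 : ℝ) * y := by positivity
    rw [mem_biUnion]
    refine ⟨w.1, ?_, ?_⟩
    · rw [mem_range, Nat.lt_succ_iff, hn]
      apply Nat.le_floor
      rw [le_div_iff₀ hx0]
      linarith
    · rw [mem_image]
      refine ⟨w.2, ?_, rfl⟩
      rw [mem_range, Nat.lt_succ_iff]
      apply Nat.le_floor
      rw [le_div_iff₀ hy0]
      linarith
  have hcard : (((Dl p m A).filter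
      (fun w => (ρ.1 + 2 ^ k * w.1, ρ.2 + 2 ^ k * w.2) ∈ Dl p m A)).card : ℝ) ≤
      ∑ a ∈ range (n + 1), ((A' - (a : ℝ) * x) / y + 1) := by
    have h1 := (card_le_card hsub).trans card_biUnion_le
    have h2 : (((Dl p m A).filter
      (fun w => (ρ.1 + 2 ^ k * w.1, ρ.2 + 2 ^ k * w.2) ∈ Dl p m A)).card : ℝ) ≤
      ((∑ a ∈ range (n + 1),
        ((range (⌊(A' - (a : ℝ) * x) / y⌋₊ + 1)).image (fun b => (a, b))).card : ℕ) : ℝ) := by
      exact_mod_cast h1
    refine h2.trans ?_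
    push_cast
    apply sum_le_sum
    intro a ha
    have ha' : a ≤ n := Nat.lt_succ_iff.mp (mem_range.mp ha)
    have ha2 : (a : ℝ) ≤ A' / x := by
      calc (a : ℝ) ≤ (n : ℝ) := by exact_mod_cast ha'
        _ ≤ A' / x := Nat.floor_le (by positivity)
    have ha3 : (a : ℝ) * x ≤ A' := by rwa [le_div_iff₀ hx0] at ha2
    have h4 : 0 ≤ (A' - (a : ℝ) * x) / y := div_nonneg (by linarith) hy0.le
    calc (((range (⌊(A' - (a : ℝ) * x) / y⌋₊ + 1)).image (fun b => (a, b))).card : ℝ)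
        ≤ ((range (⌊(A' - (a : ℝ) * x) / y⌋₊ + 1)).card : ℝ) := by
          exact_mod_cast card_image_le
      _ = (⌊(A' - (a : ℝ) * x) / y⌋₊ : ℝ) + 1 := by
          rw [card_range]; push_cast; ring
      _ ≤ (A' - (a : ℝ) * x) / y + 1 := by
          have := Nat.floor_le h4
          linarith
  refine hcard.trans ?_
  rw [CntA2_sum A' x y hy0]
  have hxy : 0 < 2 * x * y := by positivity
  rw [div_le_div_iff₀ hy0 hxy]
  have hn0 : (0 : ℝ) ≤ (n : ℝ) := Nat.cast_nonneg n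
  push_cast
  have hS : (A' + y + x / 2) ^ 2 ≤ (A' + x + y) ^ 2 := by
    apply pow_le_pow_left₀ (by positivity)
    linarith
  have hkey : 2 * x * (((n : ℝ) + 1) * (A' + y) - x * (((n : ℝ) + 1) * ((n : ℝ) + 1 - 1) / 2)) ≤
      (A' + y + x / 2) ^ 2 := by
    nlinarith [sq_nonneg (A' + y + x / 2 - ((n : ℝ) + 1) * x)]
  have := mul_le_mul_of_nonneg_right (hkey.trans hS) hy0.le
  nlinarith [this]

end Pool.Agent.W_420c7c_h51
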