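import Pool.Agent.W_420c7c_h51.CntA1

set_option autoImplicit false

/-!
# Counting monomials, lower bound
-/

namespace Pool.Agent.W_420c7c_h51

open Finset

private theorem CntA3_sum (A x y : ℝ) (hy : 0 < y) (N : ℕ) :
    ∑ a ∈ range N, (A - (a : ℝ) * x) / y =
      ((N : ℝ) * A - x * ((N : ℝ) * ((N : ℝ) - 1) / 2)) / y := by
  induction N with
  | zero => simp
  | succ N ih =>
    rw [sum_range_succ, ih]
    push_cast
    field_simp
    ring

private theorem CntA3_log {p : ℕ} (hp : 3 ≤ p) : 1 ≤ Real.log p := by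
  have h3 : (3 : ℝ) ≤ p := by exact_mod_cast hp
  rw [Real.le_log_iff_exp_le (by linarith)]
  have := Real.exp_one_lt_d9
  linarith

/-- PROOF. For fixed `a ≤ n = ⌊A/x⌋` the number of `b` is at least `(A - a x) / y`; the sum is
`(n + 1) (A - x n / 2) / y = t (2 A + x - t) / (2 x y)`, `t = (n + 1) x ∈ [A, A + x]`, and `t (2 A + x - t) ≥ A^2` there
(concave, `≥ A (A + x)` at both ends). -/
theorem card_ge {p m : ℕ} (hp : 3 ≤ p) (hm : 3 ≤ m) {A : ℝ} (hA : 0 ≤ A) :
    A ^ 2 / (2 * Real.log p * Real.log m) ≤ ((Dl p m A).card : ℝ) := by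
  have hx : 1 ≤ Real.log p := CntA3_log hp
  have hy : 1 ≤ Real.log m := CntA3_log hm
  have hmem : ∀ w : ℕ × ℕ, (w.1 : ℝ) * Real.log p + w.2 * Real.log m ≤ A → w ∈ Dl p m A := by
    intro w hw
    exact (mem_Dl hp hm).2 hw
  generalize Real.log p = x at *
  generalize Real.log m = y at *
  have hx0 : 0 < x := by linarith
  have hy0 : 0 < y := by linarith
  set n : ℕ := ⌊A / x⌋₊ with hn
  have hn1 : (n : ℝ) * x ≤ A := by
    have h := Nat.floor_le (show 0 ≤ A / x by positivity)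
    rw [← hn] at h
    rwa [le_div_iff₀ hx0] at h
  have hn2 : A < ((n : ℝ) + 1) * x := by
    have h := Nat.lt_floor_add_one (A / x)
    rw [← hn] at h
    rwa [div_lt_iff₀ hx0] at h
  have hle : ((range (n + 1)).sigma
      (fun a => range (⌊(A - (a : ℝ) * x) / y⌋₊ + 1))).card ≤ (Dl p m A).card := by
    apply card_le_card_of_injOn (fun w : (_ : ℕ) × ℕ => (w.1, w.2))
    · intro w hw
      have hw' := mem_sigma.mp (Finset.mem_coe.mp hw)
      obtain ⟨h1, h2⟩ := hw'
      have ha : w.1 ≤ n := Nat.lt_succ_iff.mp (mem_range.mp h1)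
      have ha2 : (w.1 : ℝ) * x ≤ A := by
        have : (w.1 : ℝ) ≤ n := by exact_mod_cast ha
        nlinarith
      have h4 : 0 ≤ (A - (w.1 : ℝ) * x) / y := div_nonneg (by linarith) hy0.le
      have hb : w.2 ≤ ⌊(A - (w.1 : ℝ) * x) / y⌋₊ := Nat.lt_succ_iff.mp (mem_range.mp h2)
      have hb2 : (w.2 : ℝ) ≤ (A - (w.1 : ℝ) * x) / y :=
        (Nat.cast_le.mpr hb).trans (Nat.floor_le h4)
      rw [le_div_iff₀ hy0] at hb2
      apply Finset.mem_coe.mpr
      apply hmem
      simp only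
      linarith
    · intro w _ w' _ h
      simp only [Prod.mk.injEq] at h
      obtain ⟨h1, h2⟩ := h
      cases w
      cases w'
      simp only at h1 h2
      subst h1
      subst h2
      rfl
  have hsum : ∑ a ∈ range (n + 1), (A - (a : ℝ) * x) / y ≤ ((Dl p m A).card : ℝ) := by
    refine le_trans ?_ (Nat.cast_le.mpr hle)
    rw [card_sigma]
    push_cast
    apply sum_le_sum
    intro a _
    rw [card_range]
    push_cast
    exact (Nat.lt_floor_add_one _).le
  refine le_trans ?_ hsum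
  rw [CntA3_sum A x y hy0]
  have hxy : 0 < 2 * x * y := by positivity
  rw [div_le_div_iff₀ hxy hy0]
  push_cast
  have hkey : A ^ 2 ≤ 2 * x * (((n : ℝ) + 1) * A - x * (((n : ℝ) + 1) * ((n : ℝ) + 1 - 1) / 2)) := by
    have h1 : 0 ≤ ((n : ℝ) + 1) * x - A := by linarith
    have h2 : 0 ≤ A - (n : ℝ) * x := by linarith
    nlinarith [mul_nonneg h1 h2, mul_nonneg hA hx0.le]
  have := mul_le_mul_of_nonneg_right hkey hy0.le
  nlinarith [this]

end Pool.Agent.W_420c7c_h51
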