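import Pool.Agent.W_420c7c_h51.CntA1

set_option autoImplicit false

/-!
# Multiplicities of the residues of signed monomials modulo a good prime
-/

namespace Pool.Agent.W_420c7c_h51

open Finset

private lemma CntB_log_pos {p : ℕ} (hp : 3 ≤ p) : 0 < Real.log p :=
  Real.log_pos (by exact_mod_cast (by omega : 1 < p))

private lemma CntB_sgn3_sq (x : ℕ) : sgn3 x ^ 2 = (x : ℤ) ^ 2 := by
  unfold sgn3
  split_ifs
  · rfl
  · rw [neg_sq]

private lemma CntB_smon_sq (p m : ℕ) (w : ℕ × ℕ) : smon p m w ^ 2 = ((mon p m w : ℕ) : ℤ) ^ 2 := by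
  unfold smon mon
  push_cast
  rw [mul_pow, mul_pow, ← pow_mul, ← pow_mul, ← pow_mul, ← pow_mul, mul_comm w.1 2,
    mul_comm w.2 2, pow_mul, pow_mul, pow_mul (p : ℤ), pow_mul (m : ℤ), CntB_sgn3_sq, CntB_sgn3_sq]

private lemma CntB_units {p m T r₀ r : ℕ} {L : ℝ} (hr : GP p m T r₀ L r) :
    ((p : ℕ) : ZMod r) ≠ 0 ∧ ((m : ℕ) : ZMod r) ≠ 0 := by
  obtain ⟨-, -, -, h, -, -⟩ := hr
  constructor
  · intro h0
    rw [ZMod.natCast_eq_zero_iff] at h0
    exact h (dvd_mul_of_dvd_left h0 m)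
  · intro h0
    rw [ZMod.natCast_eq_zero_iff] at h0
    exact h (dvd_mul_of_dvd_right h0 p)

/-- the two cases of the comparison of two monomials -/
private lemma CntB_eq {p m T r₀ r : ℕ} {L : ℝ} (hr : GP p m T r₀ L r) {w w' : ℕ × ℕ}
    (h1 : w.1 ≤ w'.1) (h1' : w'.1 ≤ w.1 + T / 2) (h2 : w.2 ≤ w'.2 + T / 2)
    (h2' : w'.2 ≤ w.2 + T / 2)
    (he : ((mon p m w : ℕ) : ZMod r) ^ 2 = ((mon p m w' : ℕ) : ZMod r) ^ 2) : w = w' := by
  obtain ⟨hp, hm⟩ := CntB_units hr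
  obtain ⟨hrp, -, -, -, hA, hB⟩ := hr
  haveI : Fact r.Prime := ⟨hrp⟩
  obtain ⟨a, ha⟩ := Nat.exists_eq_add_of_le h1
  unfold mon at he
  push_cast at he
  rcases le_total w.2 w'.2 with h3 | h3
  · obtain ⟨b, hb⟩ := Nat.exists_eq_add_of_le h3
    rw [ha, hb] at he
    have h4 : ((p : ZMod r) ^ (2 * a) * (m : ZMod r) ^ (2 * b)) = 1 := by
      have hne : ((p : ZMod r) ^ w.1 * (m : ZMod r) ^ w.2) ^ 2 ≠ 0 :=
        pow_ne_zero _ (mul_ne_zero (pow_ne_zero _ hp) (pow_ne_zero _ hm))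
      apply mul_left_cancel₀ hne
      rw [mul_one]
      nth_rewrite 2 [he]
      ring
    have h5 : p ^ (2 * a) * m ^ (2 * b) ≡ 1 [MOD r] := by
      rw [← ZMod.natCast_eq_natCast_iff]
      push_cast
      exact h4
    have h6 : (2 * a, 2 * b) = (0, 0) := by
      by_contra hne
      exact hA (2 * a) (2 * b) (by omega) (by omega) hne h5
    simp only [Prod.mk.injEq] at h6
    ext
    · omega
    · omega
  · obtain ⟨b, hb⟩ := Nat.exists_eq_add_of_le h3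
    rw [ha, hb] at he
    have h4 : (p : ZMod r) ^ (2 * a) = (m : ZMod r) ^ (2 * b) := by
      have hne : ((p : ZMod r) ^ w.1 * (m : ZMod r) ^ w'.2) ^ 2 ≠ 0 :=
        pow_ne_zero _ (mul_ne_zero (pow_ne_zero _ hp) (pow_ne_zero _ hm))
      apply mul_left_cancel₀ hne
      calc ((p : ZMod r) ^ w.1 * (m : ZMod r) ^ w'.2) ^ 2 * (p : ZMod r) ^ (2 * a)
          = ((p : ZMod r) ^ (w.1 + a) * (m : ZMod r) ^ w'.2) ^ 2 := by ring
        _ = ((p : ZMod r) ^ w.1 * (m : ZMod r) ^ (w'.2 + b)) ^ 2 := he.symm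
        _ = ((p : ZMod r) ^ w.1 * (m : ZMod r) ^ w'.2) ^ 2 * (m : ZMod r) ^ (2 * b) := by ring
    have h5 : p ^ (2 * a) ≡ m ^ (2 * b) [MOD r] := by
      rw [← ZMod.natCast_eq_natCast_iff]
      push_cast
      exact h4
    have h6 : (2 * a, 2 * b) = (0, 0) := by
      by_contra hne
      exact hB (2 * a) (2 * b) (by omega) (by omega) hne h5
    simp only [Prod.mk.injEq] at h6
    ext
    · omega
    · omega

/-- PROOF. Let `T' = T / 2` (floor). The map `w ↦ (w.1 / (T'+1), w.2 / (T'+1))` is injective on the set: two elements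
`w, w'` of a fibre have `|w.1 - w'.1|, |w.2 - w'.2| ≤ T'` and `smon w ≡ smon w'`; squaring, `mon w ^ 2 ≡ mon w' ^ 2 [MOD r]`;
dividing by common factors (units modulo `r`) one gets `p^(2a) m^(2b) ≡ 1` or `p^(2a) ≡ m^(2b)` with `2 a, 2 b ≤ T`, so `(a, b) = 0` by
`GP`. By `Dl_down` `w.1 ≤ A / (2^k log p)`, `w.2 ≤ A / (2^k log m)`, and `T' + 1 ≥ (T + 1) / 2`, so the
image has at most `(2 A/(2^k log p (T+1)) + 1) * (2 A/(2^k log m (T+1)) + 1)` elements. -/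
theorem mult_card {p m T r₀ r : ℕ} {L : ℝ} (hp : 3 ≤ p) (hm : 3 ≤ m) {A : ℝ} (hA : 0 ≤ A)
    (hr : GP p m T r₀ L r) (k : ℕ) (ρ : ℕ × ℕ) (h : ℤ) :
    (((Dl p m A).filter (fun w => (ρ.1 + 2 ^ k * w.1, ρ.2 + 2 ^ k * w.2) ∈ Dl p m A ∧
      smon p m w ≡ h [ZMOD r])).card : ℝ) ≤
      (2 * A / (2 ^ k * Real.log p * (T + 1)) + 1) *
        (2 * A / (2 ^ k * Real.log m * (T + 1)) + 1) := by
  classical
  have hlp := CntB_log_pos hp
  have hlm := CntB_log_pos hm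
  set F := (Dl p m A).filter (fun w => (ρ.1 + 2 ^ k * w.1, ρ.2 + 2 ^ k * w.2) ∈ Dl p m A ∧
      smon p m w ≡ h [ZMOD r]) with hF
  set X := A / (2 ^ k * Real.log p) / ((T / 2 : ℕ) + 1) with hX
  set Y := A / (2 ^ k * Real.log m) / ((T / 2 : ℕ) + 1) with hY
  have hX0 : 0 ≤ X := by positivity
  have hY0 : 0 ≤ Y := by positivity
  let φ : ℕ × ℕ → ℕ × ℕ := fun w => (w.1 / (T / 2 + 1), w.2 / (T / 2 + 1))
  have hmaps : ∀ w ∈ F, φ w ∈ range (⌊X⌋₊ + 1) ×ˢ range (⌊Y⌋₊ + 1) := by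
    intro w hw
    rw [hF, mem_filter] at hw
    obtain ⟨-, hw1, -⟩ := hw
    obtain ⟨-, hlv⟩ := Dl_down hp hm hw1
    unfold lv at hlv
    have a1 : (0 : ℝ) ≤ w.1 * Real.log p := by positivity
    have a2 : (0 : ℝ) ≤ w.2 * Real.log m := by positivity
    have hk : (0 : ℝ) < 2 ^ k := by positivity
    have h1 : (w.1 : ℝ) ≤ A / (2 ^ k * Real.log p) := by
      rw [le_div_iff₀ (by positivity)]
      have := (le_div_iff₀ hk).1 hlv
      nlinarith
    have h2 : (w.2 : ℝ) ≤ A / (2 ^ k * Real.log m) := by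
      rw [le_div_iff₀ (by positivity)]
      have := (le_div_iff₀ hk).1 hlv
      nlinarith
    have hdiv : ∀ n : ℕ, ((n / (T / 2 + 1) : ℕ) : ℝ) ≤ (n : ℝ) / ((T / 2 : ℕ) + 1) := by
      intro n
      have := @Nat.cast_div_le ℝ _ _ _ n (T / 2 + 1)
      push_cast at this ⊢
      exact this
    rw [mem_product, mem_range, mem_range]
    refine ⟨Nat.lt_succ_of_le (Nat.le_floor ?_), Nat.lt_succ_of_le (Nat.le_floor ?_)⟩
    · exact (hdiv w.1).trans (div_le_div_of_nonneg_right h1 (by positivity))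
    · exact (hdiv w.2).trans (div_le_div_of_nonneg_right h2 (by positivity))
  have hinj : ∀ w ∈ F, ∀ w' ∈ F, φ w = φ w' → w = w' := by
    intro w hw w' hw' hφ
    rw [hF, mem_filter] at hw hw'
    have hmod : ((mon p m w : ℕ) : ZMod r) ^ 2 = ((mon p m w' : ℕ) : ZMod r) ^ 2 := by
      have h1 : smon p m w ≡ smon p m w' [ZMOD r] := hw.2.2.trans hw'.2.2.symm
      have h2 : ((smon p m w : ℤ) : ZMod r) = ((smon p m w' : ℤ) : ZMod r) :=
        (ZMod.intCast_eq_intCast_iff _ _ _).2 h1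
      have h3 : ((smon p m w : ℤ) : ZMod r) ^ 2 = ((smon p m w' : ℤ) : ZMod r) ^ 2 := by rw [h2]
      rw [← Int.cast_pow, ← Int.cast_pow, CntB_smon_sq, CntB_smon_sq] at h3
      push_cast at h3
      push_cast
      exact h3
    simp only [φ, Prod.mk.injEq] at hφ
    obtain ⟨e1, e2⟩ := hφ
    have hd : 0 < T / 2 + 1 := Nat.succ_pos _
    have b1 : w.1 ≤ w'.1 + T / 2 := by
      have c1 := Nat.div_add_mod w.1 (T / 2 + 1)
      have c2 := Nat.div_add_mod w'.1 (T / 2 + 1)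
      have c3 := Nat.mod_lt w.1 hd
      rw [e1] at c1
      omega
    have b1' : w'.1 ≤ w.1 + T / 2 := by
      have c1 := Nat.div_add_mod w.1 (T / 2 + 1)
      have c2 := Nat.div_add_mod w'.1 (T / 2 + 1)
      have c3 := Nat.mod_lt w'.1 hd
      rw [e1] at c1
      omega
    have b2 : w.2 ≤ w'.2 + T / 2 := by
      have c1 := Nat.div_add_mod w.2 (T / 2 + 1)
      have c2 := Nat.div_add_mod w'.2 (T / 2 + 1)
      have c3 := Nat.mod_lt w.2 hd
      rw [e2] at c1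
      omega
    have b2' : w'.2 ≤ w.2 + T / 2 := by
      have c1 := Nat.div_add_mod w.2 (T / 2 + 1)
      have c2 := Nat.div_add_mod w'.2 (T / 2 + 1)
      have c3 := Nat.mod_lt w'.2 hd
      rw [e2] at c1
      omega
    rcases le_total w.1 w'.1 with h1 | h1
    · exact CntB_eq hr h1 b1' b2 b2' hmod
    · exact (CntB_eq hr h1 b1 b2' b2 hmod.symm).symm
  have hcard : F.card ≤ (⌊X⌋₊ + 1) * (⌊Y⌋₊ + 1) := by
    have := Finset.card_le_card_of_injOn φ hmaps (fun w hw w' hw' => hinj w hw w' hw')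
    rwa [card_product, card_range, card_range] at this
  have hT : ((T : ℝ) + 1) / 2 ≤ ((T / 2 : ℕ) : ℝ) + 1 := by
    have h1 : T + 1 ≤ 2 * (T / 2) + 2 := by omega
    have h2 : ((T : ℝ) + 1) ≤ 2 * ((T / 2 : ℕ) : ℝ) + 2 := by exact_mod_cast h1
    linarith
  have hT0 : (0 : ℝ) < T + 1 := by positivity
  have hXle : X ≤ 2 * A / (2 ^ k * Real.log p * (T + 1)) := by
    have h1 : X ≤ A / (2 ^ k * Real.log p) / ((T + 1) / 2) :=
      div_le_div_of_nonneg_left (by positivity) (by positivity) hT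
    refine h1.trans (le_of_eq ?_)
    field_simp
  have hYle : Y ≤ 2 * A / (2 ^ k * Real.log m * (T + 1)) := by
    have h1 : Y ≤ A / (2 ^ k * Real.log m) / ((T + 1) / 2) :=
      div_le_div_of_nonneg_left (by positivity) (by positivity) hT
    refine h1.trans (le_of_eq ?_)
    field_simp
  calc (F.card : ℝ) ≤ (((⌊X⌋₊ + 1) * (⌊Y⌋₊ + 1) : ℕ) : ℝ) := by exact_mod_cast hcard
    _ = ((⌊X⌋₊ : ℝ) + 1) * ((⌊Y⌋₊ : ℝ) + 1) := by push_cast; ring
    _ ≤ (X + 1) * (Y + 1) := by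
        have h1 := Nat.floor_le hX0
        have h2 := Nat.floor_le hY0
        gcongr
    _ ≤ _ := by gcongr

/-- `r` does not divide a signed monomial -/
theorem not_dvd_smon {p m T r₀ r : ℕ} {L : ℝ} (hr : GP p m T r₀ L r) (w : ℕ × ℕ) :
    ¬ (r : ℤ) ∣ smon p m w := by
  obtain ⟨hp, hm⟩ := CntB_units hr
  have : Fact r.Prime := ⟨hr.1⟩
  intro hd
  have h1 : ((smon p m w : ℤ) : ZMod r) = 0 := (ZMod.intCast_zmod_eq_zero_iff_dvd _ _).2 hd
  have h2 : ((smon p m w : ℤ) : ZMod r) ^ 2 = ((mon p m w : ℕ) : ZMod r) ^ 2 := by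
    rw [← Int.cast_pow, CntB_smon_sq]
    push_cast
    rfl
  rw [h1] at h2
  have h3 : ((mon p m w : ℕ) : ZMod r) ≠ 0 := by
    unfold mon
    push_cast
    exact mul_ne_zero (pow_ne_zero _ hp) (pow_ne_zero _ hm)
  exact pow_ne_zero 2 h3 (by rw [← h2]; ring)

end Pool.Agent.W_420c7c_h51
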