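import Pool.Agent.W_420c7c_h51.Defs

set_option autoImplicit false

/-!
# Most primes are good
-/

namespace Pool.Agent.W_420c7c_h51

open Finset

private lemma cntC_union {α : Type*} [DecidableEq α] (A B : Finset α) (f : α → ℝ)
    (hf : ∀ x ∈ A ∪ B, 0 ≤ f x) : ∑ x ∈ A ∪ B, f x ≤ ∑ x ∈ A, f x + ∑ x ∈ B, f x := by
  rw [← Finset.sum_union_inter]
  have : 0 ≤ ∑ x ∈ A ∩ B, f x :=
    Finset.sum_nonneg fun x hx => hf x (Finset.mem_union_left _ (Finset.mem_inter.mp hx).1)
  linarith

private lemma cntC_biUnion {ι : Type*} (s : Finset ι) (t : ι → Finset ℕ)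
    (f : ℕ → ℝ) (hf : ∀ x, 0 ≤ f x) : ∑ x ∈ s.biUnion t, f x ≤ ∑ i ∈ s, ∑ x ∈ t i, f x := by
  classical
  induction s using Finset.induction_on with
  | empty => simp
  | insert a s ha ih =>
    rw [Finset.biUnion_insert, Finset.sum_insert ha]
    exact (cntC_union _ _ f fun x _ => hf x).trans (by linarith)

private lemma cntC_pf (V : ℕ) (hV : V ≠ 0) :
    ∑ r ∈ V.primeFactors, Real.log r ≤ Real.log V := by
  rw [← Real.log_prod]
  · refine Real.log_le_log ?_ ?_
    · exact Finset.prod_pos fun q hq => by exact_mod_cast (Nat.prime_of_mem_primeFactors hq).pos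
    · have h := Nat.le_of_dvd (Nat.pos_of_ne_zero hV) (Nat.prod_primeFactors_dvd V)
      rw [← Nat.cast_prod]
      exact_mod_cast h
  · intro q hq
    exact_mod_cast (Nat.prime_of_mem_primeFactors hq).ne_zero

private lemma cntC_pf' (V M : ℕ) (T : ℕ) (hM : 1 ≤ M) (h : V ≤ M ^ T) :
    ∑ r ∈ V.primeFactors, Real.log r ≤ T * Real.log M := by
  have h0 : 0 ≤ Real.log M := Real.log_nonneg (by exact_mod_cast hM)
  rcases Nat.eq_zero_or_pos V with hV | hV
  · subst hV
    simp only [Nat.primeFactors_zero, Finset.sum_empty]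
    positivity
  · refine (cntC_pf V hV.ne').trans ?_
    rw [← Real.log_pow]
    refine Real.log_le_log (by exact_mod_cast hV) ?_
    exact_mod_cast h

open scoped Classical in
/-- PROOF. A prime `r ≤ L` which is not good is `< r₀`, or divides `p m`, or divides
`p^a m^b - 1` or `|p^a - m^b|` for some `(a, b) ≠ 0`, `a, b ≤ T`; these numbers are not zero (`p` is prime, `p ∤ m`, `m > 1`) and
at most `(p m)^T`. The primes dividing a positive integer `V` have `∑ log r ≤ log V`. Sum of the bounds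
(`∑_{r < r₀} log r ≤ r₀ log r₀ ≤ r₀^2`). -/
theorem good_mass {p m T r₀ : ℕ} {L : ℝ} (hp : p.Prime) (hm : 3 ≤ m) (hpm : ¬ p ∣ m) :
    (∑ r ∈ (range (⌊L⌋₊ + 1)).filter (fun r => r.Prime ∧ ¬ GP p m T r₀ L r), Real.log r) ≤
      (r₀ : ℝ) ^ 2 + Real.log (p * m : ℕ) + 2 * ((T : ℝ) + 1) ^ 2 * (T * Real.log (p * m : ℕ)) := by
  have hlog0 : ∀ x : ℕ, 0 ≤ Real.log (x : ℝ) := fun x => Real.log_natCast_nonneg x
  have hp1 : 1 ≤ p := hp.pos
  have hm1 : 1 ≤ m := by omega
  have hpm1 : 1 ≤ p * m := Nat.one_le_iff_ne_zero.mpr (by positivity)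
  let R := range (T + 1) ×ˢ range (T + 1)
  let A₀ := (range r₀).filter Nat.Prime
  let A₁ := (p * m).primeFactors
  let B : ℕ × ℕ → Finset ℕ := fun w => (p ^ w.1 * m ^ w.2 - 1).primeFactors
  let C : ℕ × ℕ → Finset ℕ := fun w => ((p : ℤ) ^ w.1 - (m : ℤ) ^ w.2).natAbs.primeFactors
  have hsub : (range (⌊L⌋₊ + 1)).filter (fun r => r.Prime ∧ ¬ GP p m T r₀ L r) ⊆
      (A₀ ∪ A₁) ∪ (R.biUnion B ∪ R.biUnion C) := by
    intro r hr
    rw [Finset.mem_filter, Finset.mem_range] at hr
    obtain ⟨hrL, hrp, hng⟩ := hr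
    have hrL' : (r : ℝ) ≤ L := by
      have h1 : r ≤ ⌊L⌋₊ := by omega
      exact (Nat.le_floor_iff' hrp.ne_zero).mp h1
    by_contra hc
    simp only [Finset.mem_union, not_or, A₀, A₁, Finset.mem_filter, Finset.mem_range,
      Finset.mem_biUnion, not_exists, not_and] at hc
    obtain ⟨⟨h0, h1⟩, h2, h3⟩ := hc
    apply hng
    refine ⟨hrp, ?_, hrL', ?_, ?_, ?_⟩
    · by_contra hlt
      exact h0 (by omega) hrp
    · intro hd
      exact h1 (Nat.mem_primeFactors.mpr ⟨hrp, hd, by omega⟩)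
    · intro a b ha hb hab hmod
      refine h2 (a, b) (by simp only [R, Finset.mem_product, Finset.mem_range]; omega) ?_
      simp only [B]
      have hbig : 1 < p ^ a * m ^ b := by
        by_cases ha0 : a = 0
        · subst ha0
          have hb0 : b ≠ 0 := by rintro rfl; exact hab rfl
          rw [pow_zero, one_mul]
          exact Nat.one_lt_pow hb0 (by omega)
        · have h4 : 1 < p ^ a := Nat.one_lt_pow ha0 hp.one_lt
          have h5 : 1 ≤ m ^ b := Nat.one_le_pow _ _ (by omega)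
          nlinarith
      refine Nat.mem_primeFactors.mpr ⟨hrp, ?_, by omega⟩
      exact (Nat.modEq_iff_dvd' hbig.le).mp hmod.symm
    · intro a b ha hb hab hmod
      refine h3 (a, b) (by simp only [R, Finset.mem_product, Finset.mem_range]; omega) ?_
      simp only [C]
      refine Nat.mem_primeFactors.mpr ⟨hrp, ?_, ?_⟩
      · rw [← Int.natCast_dvd]
        have h6 := (Nat.modEq_iff_dvd.mp hmod.symm)
        push_cast at h6
        exact h6
      · rw [Int.natAbs_ne_zero, sub_ne_zero]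
        intro h7
        have h8 : p ^ a = m ^ b := by exact_mod_cast h7
        by_cases ha0 : a = 0
        · subst ha0
          have hb0 : b ≠ 0 := by rintro rfl; exact hab rfl
          have := Nat.one_lt_pow hb0 (show 1 < m by omega)
          rw [pow_zero] at h8
          omega
        · have h9 : p ∣ m ^ b := by rw [← h8]; exact dvd_pow_self p ha0
          exact hpm (hp.dvd_of_dvd_pow h9)
  have hA0 : ∑ r ∈ A₀, Real.log (r : ℝ) ≤ (r₀ : ℝ) ^ 2 := by
    calc ∑ r ∈ A₀, Real.log (r : ℝ) ≤ ∑ _r ∈ A₀, (r₀ : ℝ) := by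
          refine Finset.sum_le_sum fun r hr => ?_
          simp only [A₀, Finset.mem_filter, Finset.mem_range] at hr
          have h1 : Real.log (r : ℝ) ≤ r := (Real.log_le_sub_one_of_pos
            (by exact_mod_cast hr.2.pos)).trans (by linarith)
          have h2 : (r : ℝ) ≤ r₀ := by exact_mod_cast hr.1.le
          linarith
      _ = A₀.card * (r₀ : ℝ) := by rw [Finset.sum_const, nsmul_eq_mul]
      _ ≤ r₀ * (r₀ : ℝ) := by
          have : A₀.card ≤ r₀ := (Finset.card_filter_le _ _).trans (by simp)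
          have h3 : (A₀.card : ℝ) ≤ r₀ := by exact_mod_cast this
          exact mul_le_mul_of_nonneg_right h3 (Nat.cast_nonneg _)
      _ = _ := by ring
  have hA1 : ∑ r ∈ A₁, Real.log (r : ℝ) ≤ Real.log ((p * m : ℕ) : ℝ) :=
    cntC_pf _ (by omega)
  have hcard : (R.card : ℝ) = ((T : ℝ) + 1) ^ 2 := by
    simp only [R, Finset.card_product, Finset.card_range]
    push_cast
    ring
  have hpowa : ∀ a b : ℕ, a ≤ T → b ≤ T → p ^ a * m ^ b ≤ (p * m) ^ T := by
    intro a b ha hb
    rw [mul_pow]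
    exact Nat.mul_le_mul (Nat.pow_le_pow_right hp1 ha) (Nat.pow_le_pow_right hm1 hb)
  have hB : ∑ r ∈ R.biUnion B, Real.log (r : ℝ) ≤
      ((T : ℝ) + 1) ^ 2 * (T * Real.log ((p * m : ℕ) : ℝ)) := by
    refine (cntC_biUnion R B _ hlog0).trans ?_
    rw [← hcard, ← nsmul_eq_mul]
    refine Finset.sum_le_card_nsmul _ _ _ fun w hw => ?_
    simp only [R, Finset.mem_product, Finset.mem_range] at hw
    have := hpowa w.1 w.2 (by omega) (by omega)
    exact cntC_pf' _ _ T hpm1 (by omega)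
  have hC : ∑ r ∈ R.biUnion C, Real.log (r : ℝ) ≤
      ((T : ℝ) + 1) ^ 2 * (T * Real.log ((p * m : ℕ) : ℝ)) := by
    refine (cntC_biUnion R C _ hlog0).trans ?_
    rw [← hcard, ← nsmul_eq_mul]
    refine Finset.sum_le_card_nsmul _ _ _ fun w hw => ?_
    simp only [R, Finset.mem_product, Finset.mem_range] at hw
    have h1 : p ^ w.1 ≤ (p * m) ^ T := by
      have := hpowa w.1 0 (by omega) (by omega)
      simpa using this
    have h2 : m ^ w.2 ≤ (p * m) ^ T := by
      have := hpowa 0 w.2 (by omega) (by omega)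
      simpa using this
    refine cntC_pf' _ _ T hpm1 ?_
    have h3 : ((p : ℤ) ^ w.1 - (m : ℤ) ^ w.2) = ((p ^ w.1 : ℕ) : ℤ) - ((m ^ w.2 : ℕ) : ℤ) := by
      push_cast; rfl
    rw [h3]
    omega
  have h1 := Finset.sum_le_sum_of_subset_of_nonneg hsub
    (fun (r : ℕ) _ _ => hlog0 r) (f := fun r : ℕ => Real.log (r : ℝ))
  have h2 := cntC_union (A₀ ∪ A₁) (R.biUnion B ∪ R.biUnion C) (fun r : ℕ => Real.log (r : ℝ))
    (fun x _ => hlog0 x)
  have h3 := cntC_union A₀ A₁ (fun r : ℕ => Real.log (r : ℝ)) (fun x _ => hlog0 x)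
  have h4 := cntC_union (R.biUnion B) (R.biUnion C) (fun r : ℕ => Real.log (r : ℝ))
    (fun x _ => hlog0 x)
  linarith

end Pool.Agent.W_420c7c_h51
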