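import Mathlib

set_option autoImplicit false

/-!
# MP_420c7c_nt, theorem (S), `p ^ 5 < n`: definitions

`p` is a prime factor of `n`, `m = n / p`. Monomials are indexed by `w : ℕ × ℕ`, `mon p m w = p^w.1 m^w.2`.
`r` is an odd prime. There are two types of moduli: `σ = false`, the modulus `r`, with the roots of unity `ζ^x`,
`ζ = exp (2 π i / r)`; and `σ = true`, the modulus `3 r`, with the roots of unity `ω ζ^x`, `ω = exp (2 π i / 3)`.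
-/

namespace Pool.Agent.W_420c7c_h51

open Finset

/-- the monomial `p ^ a * m ^ b` -/
def mon (p m : ℕ) (w : ℕ × ℕ) : ℕ := p ^ w.1 * m ^ w.2

/-- `x` or `-x`, the one congruent to `1` modulo `3` (if `3 ∤ x`) -/
def sgn3 (x : ℕ) : ℤ := if x % 3 = 1 then x else -x

/-- the signed monomial; it is `± mon p m w` and congruent to `1` modulo `3` -/
def smon (p m : ℕ) (w : ℕ × ℕ) : ℤ := sgn3 p ^ w.1 * sgn3 m ^ w.2

/-- the logarithm of a monomial -/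
noncomputable def lv (p m : ℕ) (w : ℕ × ℕ) : ℝ := w.1 * Real.log p + w.2 * Real.log m

/-- the monomials of logarithm at most `A` (for `p, m ≥ 3`) -/
noncomputable def Dl (p m : ℕ) (A : ℝ) : Finset (ℕ × ℕ) :=
  (range (⌊A⌋₊ + 1) ×ˢ range (⌊A⌋₊ + 1)).filter (fun w => lv p m w ≤ A)

/-- the root of unity of the type -/
noncomputable def zt (σ : Bool) : ℂ :=
  if σ then Complex.exp (2 * Real.pi * Complex.I / 3) else 1

/-- `log |1 + zt σ * exp (2 π i x / r)|` -/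
noncomputable def ell (σ : Bool) (r : ℕ) (x : ℤ) : ℝ :=
  Real.log ‖1 + zt σ * Complex.exp (2 * Real.pi * Complex.I * x / r)‖

/-- the mean over the residues `1, ..., r - 1` -/
noncomputable def av (r : ℕ) (g : ℕ → ℝ) : ℝ := (∑ x ∈ Ico 1 r, g x) / ((r : ℝ) - 1)

/-- `X_f (x) = ∑_w f_w log |1 + z ζ^(x h_w)|`, `h_w` the signed monomial -/
noncomputable def XX (σ : Bool) (r p m : ℕ) (D : Finset (ℕ × ℕ)) (f : ℕ × ℕ → ℝ) (x : ℕ) : ℝ :=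
  ∑ w ∈ D, f w * ell σ r (x * smon p m w)

/-- the mean of `|X_f|` -/
noncomputable def l1 (σ : Bool) (r p m : ℕ) (D : Finset (ℕ × ℕ)) (f : ℕ × ℕ → ℝ) : ℝ :=
  av r (fun x => |XX σ r p m D f x|)

/-- the mean of `X_f ^ 2` -/
noncomputable def qd (σ : Bool) (r p m : ℕ) (D : Finset (ℕ × ℕ)) (f : ℕ × ℕ → ℝ) : ℝ :=
  av r (fun x => XX σ r p m D f x ^ 2)

/-- the mean of `cos (t X_f)` -/
noncomputable def cs (σ : Bool) (r p m : ℕ) (D : Finset (ℕ × ℕ)) (t : ℝ) (f : ℕ × ℕ → ℝ) : ℝ :=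
  av r (fun x => Real.cos (t * XX σ r p m D f x))

/-- `∑_w f_w [w]`, the value of the relation at the monomials -/
def vv (p m : ℕ) (D : Finset (ℕ × ℕ)) (f : ℕ × ℕ → ℤ) : ℤ :=
  ∑ w ∈ D, f w * (mon p m w : ℤ)

/-- the operations: `w ↦ s (w mod 2) * d (ρ + 2 ^ k w)` -/
def op {R : Type} [Ring R] (k : ℕ) (ρ : ℕ × ℕ) (s : Bool × Bool → SignType) (d : ℕ × ℕ → R) :
    ℕ × ℕ → R :=
  fun w => ((s (w.1.bodd, w.2.bodd) : ℤ) : R) * d (ρ.1 + 2 ^ k * w.1, ρ.2 + 2 ^ k * w.2)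

/-- all functions obtained from `d` by the operations -/
def OPS (d : ℕ × ℕ → ℤ) : Set (ℕ × ℕ → ℤ) :=
  {f | ∃ (k : ℕ) (ρ : ℕ × ℕ) (s : Bool × Bool → SignType), ρ.1 < 2 ^ k ∧ ρ.2 < 2 ^ k ∧
    f = op k ρ s d}

/-- the sample space: `K` bits for every monomial -/
abbrev Smp (K : ℕ) (D : Finset (ℕ × ℕ)) : Type := ({w // w ∈ D} × Fin K) → Bool

/-- the centred value of a bit -/
noncomputable def hf (b : Bool) : ℝ := if b then 1 / 2 else -1 / 2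

/-- the coefficients `c_w`: the number of ones among the `K` bits (zero outside `D`) -/
def cv {K : ℕ} {D : Finset (ℕ × ℕ)} (ω : Smp K D) (w : ℕ × ℕ) : ℤ :=
  if h : w ∈ D then ((univ.filter (fun j : Fin K => ω (⟨w, h⟩, j) = true)).card : ℤ) else 0

/-- the centred coefficients `c_w - K / 2` (zero outside `D`) -/
noncomputable def ch {K : ℕ} {D : Finset (ℕ × ℕ)} (ω : Smp K D) (w : ℕ × ℕ) : ℝ :=
  if h : w ∈ D then ∑ j : Fin K, hf (ω (⟨w, h⟩, j)) else 0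

/-- `r` is good for `f`: the means of all operations are as expected -/
def Gd (p m : ℕ) (D : Finset (ℕ × ℕ)) (J : ℕ) (Q e : ℝ) (f : ℕ × ℕ → ℝ) (r : ℕ) : Prop :=
  ∀ σ : Bool, (∀ s, qd σ r p m D (op 0 (0, 0) s f) ≤ 3.138 * Real.log p ^ 2) ∧
    (∀ s, ∀ n ∈ Icc 1 J, Real.exp (-(2 * Real.pi * n / Q) ^ 2 / 2) - e ≤
      cs σ r p m D (2 * Real.pi * n / (Q * (Real.sqrt 3.138 * Real.log p)))
        (op 0 (0, 0) s f)) ∧
    ∀ k ρ s, 1 ≤ k → ρ.1 < 2 ^ k → ρ.2 < 2 ^ k →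
      qd σ r p m D (op k ρ s f) ≤ 0.9 * Real.log p ^ 2

/-- the good primes: between `r₀` and `L`, not dividing `n = p m`, and no
`p ^ a m ^ b`, `|a|, |b| ≤ T`, `(a, b) ≠ 0`, is `1` modulo `r` -/
def GP (p m T r₀ : ℕ) (L : ℝ) (r : ℕ) : Prop :=
  r.Prime ∧ r₀ ≤ r ∧ (r : ℝ) ≤ L ∧ ¬ r ∣ p * m ∧
    (∀ a b : ℕ, a ≤ T → b ≤ T → (a, b) ≠ (0, 0) → ¬ p ^ a * m ^ b ≡ 1 [MOD r]) ∧
    ∀ a b : ℕ, a ≤ T → b ≤ T → (a, b) ≠ (0, 0) → ¬ p ^ a ≡ m ^ b [MOD r]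

/-- The parameters. `u = log n`, `n = p m`, `1/5 ≤ log p / u ≤ 2/3`, `θ u²` is the level of the monomials, `K ≤ 10` the
number of bits, `h` a lower bound for the entropy of the binomial distribution. -/
structure Par (K : ℕ) (h θ : ℝ) (p m : ℕ) (u : ℝ) : Prop where
  hp : p.Prime
  hm : 3 ≤ m
  hpm : ¬ p ∣ m
  hu : u = Real.log (p * m : ℕ)
  hu1 : 1 / 5 * u ≤ Real.log p
  hu2 : Real.log p ≤ 2 / 3 * u
  hK0 : 1 ≤ K
  hK : K ≤ 10
  hθ0 : 1 / 10 ≤ θ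
  hθ : θ ≤ 0.2745
  hR : K / 4 * (Real.pi ^ 2 / 12) * θ ^ 2 * u ^ 4 ≤ 3.137 * (2 * Real.log p ^ 3 * Real.log m)
  hh : 0 < h
  hs : 2 * Real.log p * Real.log m + 0.0001 * u ^ 2 ≤ θ * h * u ^ 2
  hent : ∑ z ∈ range (K + 1), (K.choose z : ℝ) * Real.log (K.choose z) ≤
    2 ^ K * (K * Real.log 2 - h)

end Pool.Agent.W_420c7c_h51
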