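import Pool.Agent.W_420c7c_h51.Defs

set_option autoImplicit false

/-!
# Entropy: fibres
-/

namespace Pool.Agent.W_420c7c_h51

open Finset

/-- the number of ones -/
def cnt {K : ℕ} {D : Finset (ℕ × ℕ)} (ω : Smp K D) (w : {w // w ∈ D}) : ℕ :=
  (univ.filter (fun j : Fin K => ω (w, j) = true)).card

private theorem EntA_card (K c : ℕ) :
    (univ.filter (fun b : Fin K → Bool =>
      (univ.filter (fun j => b j = true)).card = c)).card = K.choose c := by
  classical
  have h1 : K.choose c = (powersetCard c (univ : Finset (Fin K))).card := by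
    rw [card_powersetCard, card_univ, Fintype.card_fin]
  rw [h1]
  apply card_bij (fun b _ => univ.filter (fun j => b j = true))
  · intro b hb
    rw [mem_powersetCard]
    exact ⟨subset_univ _, (mem_filter.1 hb).2⟩
  · intro b _ b' _ hbb
    funext j
    have := Finset.ext_iff.1 hbb j
    simp only [mem_filter, mem_univ, true_and] at this
    exact Bool.eq_iff_iff.2 this
  · intro S hS
    have h2 : (univ.filter (fun j => decide (j ∈ S) = true)) = S := by
      ext j
      simp
    refine ⟨fun j => decide (j ∈ S), ?_, h2⟩
    rw [mem_filter]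
    refine ⟨mem_univ _, ?_⟩
    rw [h2]
    exact (mem_powersetCard.1 hS).2

open scoped Classical in
/-- PROOF. `cv ω' = cv ω` iff `cnt ω' w = cnt ω w` for all `w`; the bits of different `w` are independent, and there are
`K.choose c` strings of `K` bits with `c` ones. -/
theorem card_cv {K : ℕ} {D : Finset (ℕ × ℕ)} (ω : Smp K D) :
    (univ.filter (fun ω' : Smp K D => cv ω' = cv ω)).card =
      ∏ w : {w // w ∈ D}, K.choose (cnt ω w) := by
  have hiff : ∀ ω' : Smp K D, cv ω' = cv ω ↔ ∀ w, cnt ω' w = cnt ω w := by
    intro ω'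
    constructor
    · intro h w
      have h1 := congrFun h w.1
      unfold cv at h1
      rw [dif_pos w.2, dif_pos w.2] at h1
      exact_mod_cast h1
    · intro h
      funext w
      unfold cv
      split_ifs with hw
      · exact_mod_cast h ⟨w, hw⟩
      · rfl
  have h2 : (Fintype.piFinset (fun w : {w // w ∈ D} =>
      univ.filter (fun b : Fin K → Bool =>
        (univ.filter (fun j => b j = true)).card = cnt ω w))).card =
      ∏ w : {w // w ∈ D}, K.choose (cnt ω w) := by
    rw [Fintype.card_piFinset]
    exact prod_congr rfl fun w _ => EntA_card K _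
  rw [← h2]
  apply card_bij (fun ω' _ => fun w j => ω' (w, j))
  · intro ω' hω
    rw [Fintype.mem_piFinset]
    intro w
    rw [mem_filter]
    exact ⟨mem_univ _, (hiff ω').1 (mem_filter.1 hω).2 w⟩
  · intro a _ b _ hab
    funext x
    exact congrFun (congrFun hab x.1) x.2
  · intro g hg
    rw [Fintype.mem_piFinset] at hg
    refine ⟨fun x => g x.1 x.2, ?_, rfl⟩
    rw [mem_filter]
    refine ⟨mem_univ _, (hiff _).2 fun w => ?_⟩
    exact (mem_filter.1 (hg w)).2

/-- PROOF. Group the strings of `K` bits by the number of ones. -/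
theorem mean_ent (K : ℕ) : ∑ b : Fin K → Bool,
    Real.log (K.choose (univ.filter (fun j => b j = true)).card) =
      ∑ z ∈ range (K + 1), (K.choose z : ℝ) * Real.log (K.choose z) := by
  have h1 : ∀ b ∈ (univ : Finset (Fin K → Bool)),
      (univ.filter (fun j => b j = true)).card ∈ range (K + 1) := by
    intro b _
    rw [mem_range, Nat.lt_succ_iff]
    refine (card_le_univ _).trans ?_
    rw [Fintype.card_fin]
  rw [← sum_fiberwise_of_maps_to h1]
  refine sum_congr rfl fun z _ => ?_
  rw [← EntA_card K z, ← nsmul_eq_mul, ← sum_const]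
  refine sum_congr rfl fun b hb => ?_
  rw [(mem_filter.1 hb).2, EntA_card K z]

end Pool.Agent.W_420c7c_h51
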