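import Pool.Agent.W_420c7c_h51.EntA

set_option autoImplicit false

/-!
# Entropy: typical samples
-/

namespace Pool.Agent.W_420c7c_h51

open Finset

/-- two different coordinates are uncorrelated -/
private theorem EntB_cross {W S : Type*} [Fintype W] [DecidableEq W] [Fintype S] (g : S → ℝ)
    (hg : ∑ s, g s = 0) {w w' : W} (hne : w ≠ w') :
    ∑ ω : W → S, g (ω w) * g (ω w') = 0 := by
  rw [← Equiv.sum_comp (Equiv.funSplitAt w' S).symm, Fintype.sum_prod_type, sum_comm]
  refine sum_eq_zero fun f _ => ?_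
  have h1 : ∀ s : S, ((Equiv.funSplitAt w' S).symm (s, f)) w' = s := by
    intro s
    simp [Equiv.funSplitAt, Equiv.piSplitAt]
  have h2 : ∀ s : S, ((Equiv.funSplitAt w' S).symm (s, f)) w = f ⟨w, hne⟩ := by
    intro s
    simp [Equiv.funSplitAt, Equiv.piSplitAt, hne]
  simp only [h1, h2]
  rw [← mul_sum, hg, mul_zero]

/-- the second moment of a sum of independent centred variables -/
private theorem EntB_var {W S : Type*} [Fintype W] [DecidableEq W] [Fintype S] (g : S → ℝ)
    (hg : ∑ s, g s = 0) (M : ℝ) (hM : ∀ s, |g s| ≤ M) :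
    ∑ ω : W → S, (∑ w, g (ω w)) ^ 2 ≤ Fintype.card W * M ^ 2 * Fintype.card (W → S) := by
  have h1 : ∀ ω : W → S, (∑ w, g (ω w)) ^ 2 = ∑ w, ∑ w', g (ω w) * g (ω w') := by
    intro ω
    rw [sq, sum_mul_sum]
  simp only [h1]
  rw [sum_comm]
  have h2 : ∀ w : W, ∑ ω : W → S, ∑ w', g (ω w) * g (ω w') ≤ M ^ 2 * Fintype.card (W → S) := by
    intro w
    rw [sum_comm, ← add_sum_erase _ _ (mem_univ w)]
    have h3 : ∑ w' ∈ univ.erase w, ∑ ω : W → S, g (ω w) * g (ω w') = 0 :=
      sum_eq_zero fun w' hw' => EntB_cross g hg (ne_of_mem_erase hw').symm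
    rw [h3, add_zero]
    have h4 : ∀ ω : W → S, g (ω w) * g (ω w) ≤ M ^ 2 := by
      intro ω
      rw [← sq, ← sq_abs]
      exact pow_le_pow_left₀ (abs_nonneg _) (hM _) 2
    refine (sum_le_sum fun ω _ => h4 ω).trans (le_of_eq ?_)
    rw [sum_const, card_univ, nsmul_eq_mul, mul_comm]
  refine (sum_le_sum fun w _ => h2 w).trans (le_of_eq ?_)
  rw [sum_const, card_univ, nsmul_eq_mul, mul_assoc]

open scoped Classical in
/-- PROOF (Chebyshev). `Y ω = ∑_w log (K.choose (cnt ω w))` is a sum of `N = #D` independent variables (the rows of `ω`) with mean at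
most `K log 2 - h` (`mean_ent`, `hent`) and values in `[0, K log 2]`; the variance is at most `N (K log 2)²`. -/
theorem ent_typ {K : ℕ} {h δ : ℝ} (hδ : 0 < δ)
    (hent : ∑ z ∈ range (K + 1), (K.choose z : ℝ) * Real.log (K.choose z) ≤
      2 ^ K * (K * Real.log 2 - h)) (D : Finset (ℕ × ℕ))
    (hD : 4 * (K * Real.log 2) ^ 2 ≤ δ ^ 2 * D.card) :
    ((univ.filter (fun ω : Smp K D => D.card * (K * Real.log 2 - h + δ) <
      ∑ w : {w // w ∈ D}, Real.log (K.choose (cnt ω w)))).card : ℝ) ≤
      2 ^ (D.card * K) / 4 := by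
  set g : (Fin K → Bool) → ℝ := fun b =>
    Real.log (K.choose (univ.filter (fun j => b j = true)).card) with hg
  set M : ℝ := K * Real.log 2 with hMdef
  have hM0 : 0 ≤ M := by
    have := Real.log_nonneg (by norm_num : (1 : ℝ) ≤ 2)
    positivity
  have hg0 : ∀ b, 0 ≤ g b := by
    intro b
    rw [hg]
    refine Real.log_natCast_nonneg _
  have hgM : ∀ b, g b ≤ M := by
    intro b
    have hc : (univ.filter (fun j => b j = true)).card ≤ K := by
      refine (card_le_univ _).trans ?_
      rw [Fintype.card_fin]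
    have h1 : K.choose (univ.filter (fun j => b j = true)).card ≤ 2 ^ K := by
      rw [← Nat.sum_range_choose K]
      exact single_le_sum (f := fun i => K.choose i) (fun i _ => Nat.zero_le _)
        (mem_range.2 (Nat.lt_succ_of_le hc))
    have h2 : 0 < K.choose (univ.filter (fun j => b j = true)).card := Nat.choose_pos hc
    have h3 : ((K.choose (univ.filter (fun j => b j = true)).card : ℕ) : ℝ) ≤ 2 ^ K := by
      exact_mod_cast h1
    have h4 := Real.log_le_log (by exact_mod_cast h2) h3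
    rw [Real.log_pow] at h4
    exact h4
  -- the mean
  have hcard : (Fintype.card (Fin K → Bool) : ℝ) = 2 ^ K := by
    rw [Fintype.card_fun, Fintype.card_bool, Fintype.card_fin]
    push_cast
    rfl
  set μ : ℝ := (∑ b, g b) / 2 ^ K with hμ
  have h2K : (0 : ℝ) < 2 ^ K := by positivity
  have hμ1 : μ ≤ M - h := by
    rw [hμ, div_le_iff₀ h2K, hg, mean_ent, mul_comm]
    exact hent
  have hμ0 : 0 ≤ μ := div_nonneg (sum_nonneg fun b _ => hg0 b) h2K.le
  have hμM : μ ≤ M := by
    rw [hμ, div_le_iff₀ h2K]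
    refine (sum_le_sum fun b _ => hgM b).trans (le_of_eq ?_)
    rw [sum_const, card_univ, nsmul_eq_mul, hcard, mul_comm]
  set g' : (Fin K → Bool) → ℝ := fun b => g b - μ with hg'
  have hsum0 : ∑ b, g' b = 0 := by
    rw [hg', sum_sub_distrib, sum_const, card_univ, nsmul_eq_mul, hcard, hμ]
    field_simp
    ring
  have habs : ∀ b, |g' b| ≤ M := by
    intro b
    rw [hg', abs_le]
    constructor
    · linarith [hg0 b]
    · linarith [hgM b]
  have hvar := EntB_var (W := {w // w ∈ D}) g' hsum0 M habs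
  rw [Fintype.card_coe] at hvar
  have hcardΩ : (Fintype.card ({w // w ∈ D} → Fin K → Bool) : ℝ) = 2 ^ (D.card * K) := by
    rw [Fintype.card_fun, Fintype.card_fun, Fintype.card_bool, Fintype.card_fin, Fintype.card_coe,
      ← pow_mul, mul_comm K]
    push_cast
    rfl
  rw [hcardΩ] at hvar
  -- back to samples
  have hY : ∀ ω : Smp K D, ∑ w : {w // w ∈ D}, Real.log (K.choose (cnt ω w)) =
      ∑ w : {w // w ∈ D}, g' (fun j => ω (w, j)) + D.card * μ := by
    intro ω
    rw [hg', sum_sub_distrib, sum_const, card_univ, Fintype.card_coe, nsmul_eq_mul]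
    ring_nf
    rfl
  have hsumΩ : ∑ ω : Smp K D, (∑ w : {w // w ∈ D}, g' (fun j => ω (w, j))) ^ 2 ≤
      D.card * M ^ 2 * 2 ^ (D.card * K) := by
    refine le_trans (le_of_eq ?_) hvar
    rw [← Equiv.sum_comp (Equiv.curry {w // w ∈ D} (Fin K) Bool)]
    rfl
  set A := univ.filter (fun ω : Smp K D => D.card * (M - h + δ) <
      ∑ w : {w // w ∈ D}, Real.log (K.choose (cnt ω w))) with hA
  have hAle : (A.card : ℝ) * (D.card * δ) ^ 2 ≤ D.card * M ^ 2 * 2 ^ (D.card * K) := by
    refine le_trans ?_ hsumΩ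
    rw [← nsmul_eq_mul, ← sum_const]
    refine (sum_le_sum fun ω hω => ?_).trans
      (sum_le_sum_of_subset_of_nonneg (subset_univ A) fun ω _ _ => sq_nonneg _)
    rw [hA, mem_filter] at hω
    have h1 := hω.2
    rw [hY] at h1
    have h2 : (D.card : ℝ) * δ ≤ ∑ w : {w // w ∈ D}, g' (fun j => ω (w, j)) := by
      have h3 : (D.card : ℝ) * μ ≤ D.card * (M - h) :=
        mul_le_mul_of_nonneg_left hμ1 (Nat.cast_nonneg _)
      rw [mul_add] at h1
      linarith
    exact pow_le_pow_left₀ (by positivity) h2 2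
  rcases Nat.eq_zero_or_pos D.card with h0 | h0
  · -- D empty
    rw [h0, Nat.cast_zero, mul_zero] at hD
    have hM2 : M = 0 := by
      have h1 : M ^ 2 = 0 := le_antisymm (by linarith) (sq_nonneg _)
      exact pow_eq_zero_iff (two_ne_zero) |>.1 h1
    have h1 : A = ∅ := by
      rw [hA, filter_eq_empty_iff]
      intro ω _
      have hDe : D = ∅ := card_eq_zero.1 h0
      subst hDe
      simp
    rw [h1, card_empty, Nat.cast_zero]
    positivity
  · have hD0 : (0 : ℝ) < D.card := by exact_mod_cast h0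
    have h1 : (0 : ℝ) < (D.card * δ) ^ 2 := by positivity
    rw [← le_div_iff₀ h1] at hAle
    refine hAle.trans ?_
    rw [div_le_div_iff₀ h1 (by norm_num)]
    have h2 : (0 : ℝ) < 2 ^ (D.card * K) := by positivity
    have h3 := mul_le_mul_of_nonneg_left hD (by positivity : (0 : ℝ) ≤ D.card * 2 ^ (D.card * K))
    nlinarith

end Pool.Agent.W_420c7c_h51
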