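import Pool.Agent.W_420c7c_h51.Defs

set_option autoImplicit false

/-!
# The Fourier coefficients of `log |1 + ρ z ζ^x|`
-/

namespace Pool.Agent.W_420c7c_h51

open Finset

private theorem FouA_abel {τ : ℂ} (h1 : ‖τ‖ = 1) (h2 : 1 ≤ ‖1 - τ‖) {s : ℕ → ℝ}
    (hs0 : ∀ t, 0 ≤ s t) (hs : ∀ t, s (t + 1) ≤ s t) (n : ℕ) :
    ‖∑ t ∈ range n, τ ^ t * (s t : ℂ)‖ ≤ 2 * s 0 := by
  have hT : ∀ k : ℕ, ‖∑ j ∈ range k, τ ^ j‖ ≤ 2 := by
    intro k
    have h3 := mul_neg_geom_sum τ k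
    have h4 : ‖(1 - τ) * ∑ j ∈ range k, τ ^ j‖ ≤ 2 := by
      rw [h3]
      refine (norm_sub_le _ _).trans ?_
      rw [norm_pow, h1, one_pow, norm_one]
      norm_num
    rw [norm_mul] at h4
    have h5 : 0 ≤ ‖∑ j ∈ range k, τ ^ j‖ := norm_nonneg _
    nlinarith
  cases n with
  | zero =>
    simp only [range_zero, sum_empty, norm_zero]
    linarith [hs0 0]
  | succ n =>
    have h3 : ∑ t ∈ range (n + 1), τ ^ t * (s t : ℂ) =
        (s n : ℂ) * (∑ j ∈ range (n + 1), τ ^ j) +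
          ∑ t ∈ range n, ((s t - s (t + 1) : ℝ) : ℂ) * ∑ j ∈ range (t + 1), τ ^ j := by
      induction n with
      | zero => simp
      | succ n ih =>
        rw [sum_range_succ, ih, sum_range_succ (fun t => ((s t - s (t + 1) : ℝ) : ℂ) *
          ∑ j ∈ range (t + 1), τ ^ j), sum_range_succ (fun j => τ ^ j) (n + 1)]
        push_cast
        ring
    rw [h3]
    have h4 : ∑ t ∈ range n, ‖((s t - s (t + 1) : ℝ) : ℂ) * ∑ j ∈ range (t + 1), τ ^ j‖ ≤
        ∑ t ∈ range n, (s t - s (t + 1)) * 2 := by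
      refine sum_le_sum fun t _ => ?_
      rw [norm_mul, Complex.norm_real, Real.norm_eq_abs, abs_of_nonneg (by linarith [hs t])]
      exact mul_le_mul_of_nonneg_left (hT _) (by linarith [hs t])
    rw [← sum_mul, sum_range_sub'] at h4
    have h5 : ‖(s n : ℂ) * (∑ j ∈ range (n + 1), τ ^ j)‖ ≤ s n * 2 := by
      rw [norm_mul, Complex.norm_real, Real.norm_eq_abs, abs_of_nonneg (hs0 n)]
      exact mul_le_mul_of_nonneg_left (hT _) (hs0 n)
    calc ‖(s n : ℂ) * (∑ j ∈ range (n + 1), τ ^ j) +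
          ∑ t ∈ range n, ((s t - s (t + 1) : ℝ) : ℂ) * ∑ j ∈ range (t + 1), τ ^ j‖
        ≤ s n * 2 + (s 0 - s n) * 2 :=
          (norm_add_le _ _).trans (add_le_add h5 ((norm_sum_le _ _).trans h4))
      _ = 2 * s 0 := by ring

/-- the series of a residue class -/
private noncomputable def FouA_A (r : ℕ) (τ : ℂ) (ρ : ℝ) (b : ℕ) : ℂ :=
  ∑' t : ℕ, τ ^ t * ((ρ ^ (b + r * t) / ((b + r * t : ℕ) : ℝ) : ℝ) : ℂ)

private theorem FouA_summable {r : ℕ} (hr : 1 ≤ r) {τ : ℂ} (h1 : ‖τ‖ = 1) {ρ : ℝ} (h0 : 0 < ρ)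
    (hρ : ρ < 1) (b : ℕ) :
    Summable (fun t : ℕ => τ ^ t * ((ρ ^ (b + r * t) / ((b + r * t : ℕ) : ℝ) : ℝ) : ℂ)) := by
  refine Summable.of_norm_bounded (summable_geometric_of_lt_one h0.le hρ) fun t => ?_
  rw [norm_mul, norm_pow, h1, one_pow, one_mul, Complex.norm_real, Real.norm_eq_abs,
    abs_of_nonneg (by positivity)]
  rcases Nat.eq_zero_or_pos (b + r * t) with h | h
  · rw [h]
    simp only [Nat.cast_zero, div_zero]
    positivity
  · have h2 : (1 : ℝ) ≤ ((b + r * t : ℕ) : ℝ) := by exact_mod_cast h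
    have h3 : ρ ^ (b + r * t) ≤ ρ ^ t := by
      apply pow_le_pow_of_le_one h0.le hρ.le
      nlinarith
    have h4 : 0 < ρ ^ (b + r * t) := by positivity
    exact (div_le_self h4.le h2).trans h3

private theorem FouA_bound {r : ℕ} (hr : 1 ≤ r) {τ : ℂ} (h1 : ‖τ‖ = 1) (h2 : 1 ≤ ‖1 - τ‖)
    {ρ : ℝ} (h0 : 0 < ρ) (hρ : ρ < 1) {b : ℕ} (hb : 1 ≤ b) :
    ‖FouA_A r τ ρ b‖ ≤ 2 / b := by
  have hb0 : (0 : ℝ) < b := by exact_mod_cast hb
  have h3 : ‖FouA_A r τ ρ b‖ ≤ 2 * (ρ ^ (b + r * 0) / ((b + r * 0 : ℕ) : ℝ)) := by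
    refine le_of_tendsto (FouA_summable hr h1 h0 hρ b).hasSum.tendsto_sum_nat.norm
      (Filter.Eventually.of_forall fun n => ?_)
    refine FouA_abel h1 h2 (s := fun t => ρ ^ (b + r * t) / ((b + r * t : ℕ) : ℝ))
      (fun t => by positivity) (fun t => ?_) n
    have h4 : ρ ^ (b + r * (t + 1)) ≤ ρ ^ (b + r * t) := by
      apply pow_le_pow_of_le_one h0.le hρ.le
      nlinarith
    have h5 : (0 : ℝ) < ((b + r * t : ℕ) : ℝ) := by
      have : 0 < b + r * t := by omega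
      exact_mod_cast this
    have h6 : ((b + r * t : ℕ) : ℝ) ≤ ((b + r * (t + 1) : ℕ) : ℝ) := by
      have : b + r * t ≤ b + r * (t + 1) := by nlinarith
      exact_mod_cast this
    exact div_le_div₀ (by positivity) h4 h5 h6
  refine h3.trans ?_
  rw [Nat.mul_zero, Nat.add_zero, mul_div_assoc']
  apply div_le_div_of_nonneg_right _ hb0.le
  have h7 : ρ ^ b ≤ 1 := pow_le_one₀ h0.le hρ.le
  linarith

private theorem FouA_rec {r : ℕ} (hr : 1 ≤ r) {τ : ℂ} (h1 : ‖τ‖ = 1) {ρ : ℝ} (h0 : 0 < ρ)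
    (hρ : ρ < 1) (b : ℕ) :
    FouA_A r τ ρ b = ((ρ ^ b / (b : ℝ) : ℝ) : ℂ) + τ * FouA_A r τ ρ (b + r) := by
  unfold FouA_A
  rw [(FouA_summable hr h1 h0 hρ b).tsum_eq_zero_add, ← tsum_mul_left]
  congr 1
  · simp
  · refine tsum_congr fun t => ?_
    have h2 : b + r * (t + 1) = b + r + r * t := by ring
    rw [h2, pow_succ]
    ring

private theorem FouA_re {w : ℂ} (hw : w ^ 3 = 1) : -1 / 2 ≤ w.re := by
  have h1 : (w - 1) * (w ^ 2 + w + 1) = 0 := by
    linear_combination hw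
  rcases mul_eq_zero.1 h1 with h | h
  · have h2 : w = 1 := by linear_combination h
    rw [h2]
    norm_num
  · have h3 := congrArg Complex.im h
    have h4 := congrArg Complex.re h
    simp only [pow_two, Complex.add_im, Complex.add_re, Complex.mul_im, Complex.mul_re,
      Complex.one_im, Complex.one_re, Complex.zero_im, Complex.zero_re] at h3 h4
    have h5 : w.im * (2 * w.re + 1) = 0 := by linarith
    rcases mul_eq_zero.1 h5 with h6 | h6
    · exfalso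
      rw [h6] at h4
      nlinarith [sq_nonneg (w.re + 1 / 2)]
    · linarith

private theorem FouA_log {r : ℕ} (hr : 1 ≤ r) (hodd : Odd r) {z : ℂ} (hz : ‖z‖ = 1) {ρ : ℝ}
    (h0 : 0 < ρ) (hρ : ρ < 1) {y : ℂ} (hy : y ^ r = 1) :
    Complex.log (1 + (ρ : ℂ) * (z * y)) =
      ∑ b ∈ range r, y ^ b * ((-1) ^ (b + 1) * z ^ b * FouA_A r (-z ^ r) ρ b) := by
  have hy1 : ‖y‖ = 1 := Complex.norm_eq_one_of_pow_eq_one hy (by omega)
  have hn : ‖(ρ : ℂ) * (z * y)‖ < 1 := by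
    rw [norm_mul, norm_mul, hz, hy1, Complex.norm_real, Real.norm_eq_abs, abs_of_pos h0]
    linarith
  have h := Complex.hasSum_taylorSeries_log hn
  have : NeZero r := ⟨by omega⟩
  rw [← h.tsum_eq, Nat.sumByResidueClasses h.summable r]
  have hF : ∀ b : ℕ, ∑' m : ℕ, (-1 : ℂ) ^ ((b + r * m) + 1) * ((ρ : ℂ) * (z * y)) ^ (b + r * m) /
      ((b + r * m : ℕ) : ℂ) = y ^ b * ((-1) ^ (b + 1) * z ^ b * FouA_A r (-z ^ r) ρ b) := by
    intro b
    rw [show y ^ b * ((-1) ^ (b + 1) * z ^ b * FouA_A r (-z ^ r) ρ b) =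
      (y ^ b * ((-1) ^ (b + 1) * z ^ b)) * FouA_A r (-z ^ r) ρ b by ring]
    unfold FouA_A
    rw [← tsum_mul_left]
    refine tsum_congr fun m => ?_
    have e1 : ((-1 : ℂ)) ^ ((b + r * m) + 1) = (-1) ^ (b + 1) * (-1) ^ m := by
      rw [show b + r * m + 1 = (b + 1) + r * m by ring, pow_add, pow_mul, hodd.neg_one_pow]
    have e2 : ((ρ : ℂ) * (z * y)) ^ (b + r * m) =
        (ρ : ℂ) ^ (b + r * m) * (z ^ b * (z ^ r) ^ m * y ^ b) := by
      rw [mul_pow, mul_pow, pow_add z, pow_mul z, pow_add y, pow_mul y, hy, one_pow]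
      ring
    have e3 : (-z ^ r) ^ m = (-1) ^ m * (z ^ r) ^ m := neg_pow _ _
    rw [e1, e2, e3]
    push_cast
    ring
  rw [← sum_congr rfl fun b _ => hF b]
  refine sum_nbij' (fun j : ZMod r => j.val) (fun b => (b : ZMod r)) ?_ ?_ ?_ ?_ ?_
  · intro j _
    exact mem_range.2 (ZMod.val_lt j)
  · intro b _
    exact mem_univ _
  · intro j _
    exact ZMod.natCast_zmod_val j
  · intro b hb
    exact ZMod.val_cast_of_lt (mem_range.1 hb)
  · intro j _
    rfl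

/-- PROOF. `z = zt σ`, `τ = - z^r`; `‖1 - τ‖ = ‖1 + z^r‖ ≥ 1` (`z = 1`: it is `2`; `z = exp (2 π i / 3)`, `3 ∤ r`: it is `1`), so the
partial sums of `∑ τ^t` have norm at most `2`, and for a nonnegative decreasing null sequence `s_t` one has (Abel summation)
`‖∑_{t ≥ 1} τ^t s_t‖ ≤ 2 s_1`. For `‖y‖ = 1`: `log ‖1 + ρ y‖ = Re log (1 + ρ y) = Re ∑_{j ≥ 1} (-1)^(j-1) ρ^j y^j / j`
(`Complex.hasSum_taylorSeries_log`, absolutely convergent). Put `y = z ζ^x` and group the `j` by `b = j mod r`: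
`c b = ∑_{j ≥ 1, j ≡ b} (-1)^(j-1) z^j ρ^j / j`, so the logarithm is `Re ∑_b c b ζ^(b x) = 1/2 ∑_b d b ζ^(b x)` with
`d b = c b + conj (c (r - b))` for `1 ≤ b < r`, `d 0 = c 0 + conj (c 0)`. With `u = (-1)^(b-1) z^b`, `r` odd:
`c b = u ∑_{t ≥ 0} τ^t ρ^(b + t r) / (b + t r)`, `conj (c (r - b)) = u ∑_{t ≥ 0} (conj τ)^(t+1) ρ^(r - b + t r) / (r - b + t r)`. So
`d b = u (s + conj τ s' + e)`, `0 ≤ s ≤ 1/b`, `0 ≤ s' ≤ 1/(r-b)`, `‖e‖ ≤ 4 / r`. `Re (conj τ) ∈ {-1, 1/2}`, hence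
`‖s + conj τ s'‖^2 ≤ s^2 + s'^2 + s s'`, and `1/(b (r - b)) = (1/b + 1/(r-b))/r`, `4/r ≤ 1/b + 1/(r-b)`. -/
theorem coef (σ : Bool) (r : ℕ) (hr : r.Prime) (h5 : 5 ≤ r) (ρ : ℝ) (h0 : 0 < ρ) (h1 : ρ < 1) :
    ∃ d : ℕ → ℂ, ‖d 0‖ ≤ 4 / r ∧
      (∀ b : ℕ, 1 ≤ b → b < r → ‖d b‖ ≤ 2 * (1 / (b : ℝ) + 1 / ((r : ℝ) - b)) ∧
        ‖d b‖ ^ 2 ≤ 1 / (b : ℝ) ^ 2 + 1 / ((r : ℝ) - b) ^ 2 +
          40 * (1 / (b : ℝ) + 1 / ((r : ℝ) - b)) / r) ∧
      ∀ x : ℤ, ((Real.log ‖1 + (ρ : ℂ) * (zt σ * Complex.exp (2 * Real.pi * Complex.I * x / r))‖ : ℝ) : ℂ)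
        = 1 / 2 * ∑ b ∈ range r, d b * Complex.exp (2 * Real.pi * Complex.I * (b * x) / r) := by
  have hr1 : 1 ≤ r := by omega
  have hodd : Odd r := hr.odd_of_ne_two (by omega)
  obtain ⟨z, hzdef⟩ : ∃ z : ℂ, z = zt σ := ⟨_, rfl⟩
  have hz3 : z ^ 3 = 1 := by
    rw [hzdef]
    unfold zt
    cases σ
    · simp
    · rw [if_pos rfl, ← Complex.exp_nat_mul]
      have h2 : ((3 : ℕ) : ℂ) * (2 * Real.pi * Complex.I / 3) =
          ((1 : ℤ) : ℂ) * (2 * Real.pi * Complex.I) := by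
        push_cast
        ring
      rw [h2, Complex.exp_int_mul_two_pi_mul_I]
  have hz : ‖z‖ = 1 := Complex.norm_eq_one_of_pow_eq_one hz3 (by norm_num)
  obtain ⟨τ, hτ⟩ : ∃ τ : ℂ, τ = -z ^ r := ⟨_, rfl⟩
  have hτ1 : ‖τ‖ = 1 := by
    rw [hτ, norm_neg, norm_pow, hz, one_pow]
  have hτre : τ.re ≤ 1 / 2 := by
    have h2 : (z ^ r) ^ 3 = 1 := by
      rw [← pow_mul, mul_comm, pow_mul, hz3, one_pow]
    have h3 := FouA_re h2
    rw [hτ, Complex.neg_re]
    linarith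
  have hsq : τ.re ^ 2 + τ.im ^ 2 = 1 := by
    have h2 : Complex.normSq τ = 1 := by
      rw [Complex.normSq_eq_norm_sq, hτ1]
      norm_num
    rw [Complex.normSq_apply] at h2
    nlinarith
  have hτ2 : 1 ≤ ‖1 - τ‖ := by
    have h2 : 1 ≤ ‖1 - τ‖ ^ 2 := by
      rw [← Complex.normSq_eq_norm_sq, Complex.normSq_apply]
      simp only [Complex.sub_re, Complex.sub_im, Complex.one_re, Complex.one_im]
      nlinarith
    by_contra h3
    push Not at h3
    have h4 : 0 ≤ ‖1 - τ‖ := norm_nonneg _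
    nlinarith
  have hr0 : (0 : ℝ) < r := by exact_mod_cast hr1
  obtain ⟨C, hC⟩ : ∃ C : ℕ → ℂ, C = fun b => (-1) ^ (b + 1) * z ^ b * FouA_A r τ ρ b :=
    ⟨_, rfl⟩
  have hCn : ∀ b, ‖C b‖ = ‖FouA_A r τ ρ b‖ := by
    intro b
    rw [hC]
    simp only
    rw [norm_mul, norm_mul, norm_pow, norm_pow, hz, norm_neg, norm_one, one_pow, one_pow,
      one_mul, one_mul]
  have hC0 : ‖C 0‖ ≤ 2 / r := by
    rw [hCn, FouA_rec hr1 hτ1 h0 h1]
    have h2 : ((ρ ^ 0 / ((0 : ℕ) : ℝ) : ℝ) : ℂ) = 0 := by simp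
    rw [h2, zero_add, norm_mul, hτ1, one_mul, Nat.zero_add]
    exact FouA_bound hr1 hτ1 hτ2 h0 h1 hr1
  refine ⟨fun b => if b = 0 then C 0 + (starRingEnd ℂ) (C 0)
    else C b + (starRingEnd ℂ) (C (r - b)), ?_, ?_, ?_⟩
  · simp only [if_pos]
    refine (norm_add_le _ _).trans ?_
    rw [RCLike.norm_conj]
    have h2 : (4 : ℝ) / r = 2 / r + 2 / r := by ring
    rw [h2]
    exact add_le_add hC0 hC0
  · intro b hb1 hbr
    have hb0 : (0 : ℝ) < b := by exact_mod_cast hb1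
    have hbr0 : (0 : ℝ) < (r : ℝ) - b := by
      have : (b : ℝ) < r := by exact_mod_cast hbr
      linarith
    have hcast : ((r - b : ℕ) : ℝ) = (r : ℝ) - b := by
      rw [Nat.cast_sub hbr.le]
    have hne : ¬ b = 0 := by omega
    simp only [if_neg hne]
    obtain ⟨s, hs⟩ : ∃ s : ℝ, s = ρ ^ b / (b : ℝ) := ⟨_, rfl⟩
    obtain ⟨s', hs'⟩ : ∃ s' : ℝ, s' = ρ ^ (r - b) / ((r - b : ℕ) : ℝ) := ⟨_, rfl⟩
    have hs0 : 0 ≤ s := by
      rw [hs]
      positivity
    have hs'0 : 0 ≤ s' := by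
      rw [hs']
      positivity
    have hs1 : s ≤ 1 / b := by
      rw [hs]
      exact div_le_div_of_nonneg_right (pow_le_one₀ h0.le h1.le) hb0.le
    have hs'1 : s' ≤ 1 / ((r : ℝ) - b) := by
      rw [hs', hcast]
      exact div_le_div_of_nonneg_right (pow_le_one₀ h0.le h1.le) hbr0.le
    obtain ⟨e, he⟩ : ∃ e : ℂ, e = τ * FouA_A r τ ρ (b + r) +
        (starRingEnd ℂ) (τ * (τ * FouA_A r τ ρ (r - b + r))) := ⟨_, rfl⟩
    have hen : ‖e‖ ≤ 4 / r := by
      rw [he]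
      refine (norm_add_le _ _).trans ?_
      rw [RCLike.norm_conj, norm_mul, norm_mul, norm_mul, hτ1, one_mul, one_mul, one_mul]
      have g1 := FouA_bound hr1 hτ1 hτ2 h0 h1 (b := b + r) (by omega)
      have g2 := FouA_bound hr1 hτ1 hτ2 h0 h1 (b := r - b + r) (by omega)
      have g3 : (2 : ℝ) / ((b + r : ℕ) : ℝ) ≤ 2 / r := by
        apply div_le_div_of_nonneg_left (by norm_num) hr0
        exact_mod_cast (by omega : r ≤ b + r)
      have g4 : (2 : ℝ) / ((r - b + r : ℕ) : ℝ) ≤ 2 / r := by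
        apply div_le_div_of_nonneg_left (by norm_num) hr0
        exact_mod_cast (by omega : r ≤ r - b + r)
      have g5 : (4 : ℝ) / r = 2 / r + 2 / r := by ring
      rw [g5]
      exact add_le_add (g1.trans g3) (g2.trans g4)
    have hd : C b + (starRingEnd ℂ) (C (r - b)) =
        (-1) ^ (b + 1) * z ^ b * ((s : ℂ) + (starRingEnd ℂ) τ * (s' : ℂ) + e) := by
      have k1 : (starRingEnd ℂ) z * z = 1 := by
        rw [Complex.conj_mul', hz]
        norm_num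
      have k2 : (starRingEnd ℂ) τ = -((starRingEnd ℂ) z) ^ r := by
        rw [hτ, map_neg, map_pow]
      have k3 : z ^ b * ((starRingEnd ℂ) z) ^ r = ((starRingEnd ℂ) z) ^ (r - b) := by
        have : ((starRingEnd ℂ) z) ^ r = ((starRingEnd ℂ) z) ^ (r - b) * ((starRingEnd ℂ) z) ^ b := by
          rw [← pow_add]
          congr 1
          omega
        rw [this]
        calc z ^ b * (((starRingEnd ℂ) z) ^ (r - b) * ((starRingEnd ℂ) z) ^ b)
            = ((starRingEnd ℂ) z) ^ (r - b) * ((starRingEnd ℂ) z * z) ^ b := by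
              rw [mul_pow]
              ring
          _ = _ := by rw [k1, one_pow, mul_one]
      have k4 : (-1 : ℂ) ^ (r - b + 1) = (-1) ^ b := by
        have h2 : (-1 : ℂ) ^ (r - b + 1) * (-1) ^ b = 1 := by
          rw [← pow_add]
          have : r - b + 1 + b = r + 1 := by omega
          rw [this]
          exact (hodd.add_one).neg_one_pow
        have h3 : (-1 : ℂ) ^ b * (-1) ^ b = 1 := by
          rw [← pow_add]
          exact (Even.add_self b).neg_one_pow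
        calc (-1 : ℂ) ^ (r - b + 1) = (-1 : ℂ) ^ (r - b + 1) * ((-1) ^ b * (-1) ^ b) := by
              rw [h3, mul_one]
          _ = ((-1 : ℂ) ^ (r - b + 1) * (-1) ^ b) * (-1) ^ b := by ring
          _ = (-1) ^ b := by rw [h2, one_mul]
      have k5 : C b = (-1) ^ (b + 1) * z ^ b * ((s : ℂ) + τ * FouA_A r τ ρ (b + r)) := by
        rw [hC]
        simp only
        rw [FouA_rec hr1 hτ1 h0 h1 b, hs]
      have k6 : (starRingEnd ℂ) (C (r - b)) = (-1) ^ (b + 1) * z ^ b *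
          ((starRingEnd ℂ) τ * (s' : ℂ) +
            (starRingEnd ℂ) (τ * (τ * FouA_A r τ ρ (r - b + r)))) := by
        rw [hC]
        simp only
        have k7 : ((starRingEnd ℂ) z) ^ r = -(starRingEnd ℂ) τ := by
          rw [k2]
          ring
        rw [k7] at k3
        rw [FouA_rec hr1 hτ1 h0 h1 (r - b), ← hs']
        simp only [map_mul, map_pow, map_neg, map_one, map_add, Complex.conj_ofReal]
        rw [k4, ← k3, pow_succ]
        ring
      rw [k5, k6, he]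
      ring
    have hdn : ‖C b + (starRingEnd ℂ) (C (r - b))‖ ≤
        ‖(s : ℂ) + (starRingEnd ℂ) τ * (s' : ℂ)‖ + 4 / r := by
      rw [hd, norm_mul, norm_mul, norm_pow, norm_pow, hz, norm_neg, norm_one, one_pow, one_pow,
        one_mul, one_mul]
      exact (norm_add_le _ _).trans (add_le_add (le_refl _) hen)
    obtain ⟨X, hX⟩ : ∃ X : ℝ, X = 1 / (b : ℝ) := ⟨_, rfl⟩
    obtain ⟨Y, hY⟩ : ∃ Y : ℝ, Y = 1 / ((r : ℝ) - b) := ⟨_, rfl⟩
    obtain ⟨q, hq⟩ : ∃ q : ℝ, q = 1 / (r : ℝ) := ⟨_, rfl⟩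
    have hX0 : 0 < X := by rw [hX]; positivity
    have hY0 : 0 < Y := by rw [hY]; positivity
    have hq0 : 0 < q := by rw [hq]; positivity
    have hXY : X * Y = (X + Y) * q := by
      rw [hX, hY, hq]
      field_simp
      ring
    have h4q : 4 * q ≤ X + Y := by
      have h2 : 0 ≤ (X - Y) ^ 2 := sq_nonneg _
      have h3 : 4 * ((X + Y) * q) ≤ (X + Y) ^ 2 := by
        rw [← hXY]
        nlinarith
      have h4 : 0 < X + Y := by linarith
      by_contra h5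
      push Not at h5
      nlinarith
    have e4 : (4 : ℝ) / r = 4 * q := by
      rw [hq]
      ring
    have hm1 : ‖(s : ℂ) + (starRingEnd ℂ) τ * (s' : ℂ)‖ ≤ X + Y := by
      refine (norm_add_le _ _).trans ?_
      rw [norm_mul, RCLike.norm_conj, hτ1, one_mul, Complex.norm_real, Complex.norm_real,
        Real.norm_eq_abs, Real.norm_eq_abs, abs_of_nonneg hs0, abs_of_nonneg hs'0, hX, hY]
      exact add_le_add hs1 hs'1
    have hm2 : ‖(s : ℂ) + (starRingEnd ℂ) τ * (s' : ℂ)‖ ^ 2 ≤ X ^ 2 + Y ^ 2 + X * Y := by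
      rw [← Complex.normSq_eq_norm_sq, Complex.normSq_apply]
      simp only [Complex.add_re, Complex.add_im, Complex.ofReal_re, Complex.ofReal_im,
        Complex.mul_re, Complex.mul_im, Complex.conj_re, Complex.conj_im, mul_zero, sub_zero,
        zero_add]
      have h2 : (s + τ.re * s') * (s + τ.re * s') + -τ.im * s' * (-τ.im * s') =
          s ^ 2 + s' ^ 2 + 2 * τ.re * (s * s') := by
        linear_combination s' ^ 2 * hsq
      rw [h2]
      have hsX : s ≤ X := by rw [hX]; exact hs1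
      have hsY : s' ≤ Y := by rw [hY]; exact hs'1
      have h3 : s ^ 2 ≤ X ^ 2 := pow_le_pow_left₀ hs0 hsX 2
      have h4 : s' ^ 2 ≤ Y ^ 2 := pow_le_pow_left₀ hs'0 hsY 2
      have h5 : s * s' ≤ X * Y := mul_le_mul hsX hsY hs'0 hX0.le
      have h6 : 0 ≤ s * s' := mul_nonneg hs0 hs'0
      nlinarith
    rw [e4] at hdn
    have hnn : 0 ≤ ‖(s : ℂ) + (starRingEnd ℂ) τ * (s' : ℂ)‖ := norm_nonneg _
    refine ⟨?_, ?_⟩
    · rw [← hX, ← hY]
      linarith
    · have e1 : 1 / (b : ℝ) ^ 2 = X ^ 2 := by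
        rw [hX]
        ring
      have e2 : 1 / ((r : ℝ) - b) ^ 2 = Y ^ 2 := by
        rw [hY, one_div, one_div, inv_pow]
      have e3 : 40 * (1 / (b : ℝ) + 1 / ((r : ℝ) - b)) / r = 40 * (X + Y) * q := by
        rw [hX, hY, hq]
        ring
      rw [e1, e2, e3]
      have h2 : ‖C b + (starRingEnd ℂ) (C (r - b))‖ ^ 2 ≤
          (‖(s : ℂ) + (starRingEnd ℂ) τ * (s' : ℂ)‖ + 4 * q) ^ 2 :=
        pow_le_pow_left₀ (norm_nonneg _) hdn 2
      have h3 : ‖(s : ℂ) + (starRingEnd ℂ) τ * (s' : ℂ)‖ * q ≤ (X + Y) * q :=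
        mul_le_mul_of_nonneg_right hm1 hq0.le
      have h4 : 4 * q * q ≤ (X + Y) * q := mul_le_mul_of_nonneg_right h4q hq0.le
      have h5 : 0 < (X + Y) * q := by positivity
      nlinarith
  · intro x
    obtain ⟨y, hy⟩ : ∃ y : ℂ, y = Complex.exp (2 * Real.pi * Complex.I * x / r) := ⟨_, rfl⟩
    have hrC : (r : ℂ) ≠ 0 := by exact_mod_cast (by omega : r ≠ 0)
    have hyr : y ^ r = 1 := by
      rw [hy, ← Complex.exp_nat_mul]
      have h2 : (r : ℂ) * (2 * Real.pi * Complex.I * x / r) = (x : ℂ) * (2 * Real.pi * Complex.I) := by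
        field_simp
      rw [h2, Complex.exp_int_mul_two_pi_mul_I]
    have hyb : ∀ b : ℕ, Complex.exp (2 * Real.pi * Complex.I * (b * x) / r) = y ^ b := by
      intro b
      rw [hy, ← Complex.exp_nat_mul]
      congr 1
      ring
    have hyn : ‖y‖ = 1 := Complex.norm_eq_one_of_pow_eq_one hyr (by omega)
    have hyc : (starRingEnd ℂ) y * y = 1 := by
      rw [Complex.conj_mul', hyn]
      norm_num
    rw [← hy, ← hzdef, ← Complex.log_re, FouA_log hr1 hodd hz h0 h1 hyr, Complex.re_eq_add_conj,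
      ← hτ]
    have hL : ∑ b ∈ range r, y ^ b * ((-1) ^ (b + 1) * z ^ b * FouA_A r τ ρ b) =
        ∑ b ∈ range r, y ^ b * C b := by
      rw [hC]
    rw [hL, map_sum]
    have hsum : ∑ b ∈ range r, (starRingEnd ℂ) (y ^ b * C b) =
        ∑ b ∈ range r, (if b = 0 then (starRingEnd ℂ) (C 0) else (starRingEnd ℂ) (C (r - b))) *
          y ^ b := by
      obtain ⟨n, rfl⟩ : ∃ n, r = n + 1 := ⟨r - 1, by omega⟩
      rw [sum_range_succ', sum_range_succ']
      congr 1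
      · rw [← sum_range_reflect]
        refine sum_congr rfl fun b hb => ?_
        have hbn := mem_range.1 hb
        have e1 : n - 1 - b + 1 = n - b := by omega
        have e2 : n + 1 - (b + 1) = n - b := by omega
        have e3 : ((starRingEnd ℂ) y) ^ (n - b) = y ^ (b + 1) := by
          calc ((starRingEnd ℂ) y) ^ (n - b)
              = ((starRingEnd ℂ) y) ^ (n - b) * y ^ (n + 1) := by rw [hyr, mul_one]
            _ = ((starRingEnd ℂ) y * y) ^ (n - b) * y ^ (b + 1) := by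
              have e4 : n + 1 = (n - b) + (b + 1) := by omega
              rw [mul_pow, mul_assoc, ← pow_add, ← e4]
            _ = y ^ (b + 1) := by rw [hyc, one_pow, one_mul]
        rw [e1, e2, if_neg (by omega), map_mul, map_pow, e3]
        ring
      · simp
    rw [hsum, ← sum_add_distrib]
    rw [div_eq_inv_mul, one_div]
    congr 1
    refine sum_congr rfl fun b _ => ?_
    rw [hyb]
    by_cases hb : b = 0
    · simp only [if_pos hb]
      rw [hb]
      ring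
    · simp only [if_neg hb]
      ring

end Pool.Agent.W_420c7c_h51
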