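import Pool.Agent.W_420c7c_h51.Defs

set_option autoImplicit false

/-!
# Orthogonality; the arguments of the logarithms do not vanish
-/

namespace Pool.Agent.W_420c7c_h51

open Finset

/-- orthogonality -/
theorem exp_orth (r : ℕ) (hr : 0 < r) (b : ℤ) :
    ∑ x ∈ range r, Complex.exp (2 * Real.pi * Complex.I * (b * (x : ℤ)) / r) =
      if (r : ℤ) ∣ b then (r : ℂ) else 0 := by
  have hrC : (r : ℂ) ≠ 0 := by exact_mod_cast hr.ne'
  have hterm : ∀ x ∈ range r,
      Complex.exp (2 * Real.pi * Complex.I * (b * (x : ℤ)) / r) =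
        Complex.exp (2 * Real.pi * Complex.I * b / r) ^ x := by
    intro x _
    rw [← Complex.exp_nat_mul]
    congr 1
    push_cast
    ring
  rw [Finset.sum_congr rfl hterm]
  have hpow : Complex.exp (2 * Real.pi * Complex.I * b / r) ^ r = 1 := by
    rw [← Complex.exp_nat_mul]
    have : (r : ℂ) * (2 * Real.pi * Complex.I * b / r) = b * (2 * Real.pi * Complex.I) := by
      field_simp
    rw [this]
    exact Complex.exp_int_mul_two_pi_mul_I b
  have hone : Complex.exp (2 * Real.pi * Complex.I * b / r) = 1 ↔ (r : ℤ) ∣ b := by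
    rw [Complex.exp_eq_one_iff]
    constructor
    · rintro ⟨n, hn⟩
      refine ⟨n, ?_⟩
      have hpi : (2 * Real.pi * Complex.I : ℂ) ≠ 0 := Complex.two_pi_I_ne_zero
      have h1 : (2 * Real.pi * Complex.I : ℂ) * b = (2 * Real.pi * Complex.I) * (r * n) := by
        rw [div_eq_iff hrC] at hn
        linear_combination hn
      have h2 := mul_left_cancel₀ hpi h1
      exact_mod_cast h2
    · rintro ⟨n, rfl⟩
      refine ⟨n, ?_⟩
      push_cast
      field_simp
  by_cases hdv : (r : ℤ) ∣ b
  · rw [if_pos hdv, hone.mpr hdv]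
    simp
  · rw [if_neg hdv]
    have hne : Complex.exp (2 * Real.pi * Complex.I * b / r) ≠ 1 := fun h => hdv (hone.mp h)
    rw [geom_sum_eq hne, hpow, sub_self, zero_div]

/-- `1 + z ζ^x ≠ 0` -/
theorem one_add_ne (σ : Bool) (r : ℕ) (hr : r.Prime) (h5 : 5 ≤ r) (x : ℤ) :
    1 + zt σ * Complex.exp (2 * Real.pi * Complex.I * x / r) ≠ 0 := by
  intro h
  have hrC : (r : ℂ) ≠ 0 := by exact_mod_cast hr.pos.ne'
  have h1 : zt σ * Complex.exp (2 * Real.pi * Complex.I * x / r) = -1 := by
    linear_combination h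
  have h2 : (zt σ * Complex.exp (2 * Real.pi * Complex.I * x / r)) ^ (3 * r) = (-1) ^ (3 * r) := by
    rw [h1]
  have hodd : Odd (3 * r) := by
    have : Odd r := hr.odd_of_ne_two (by omega)
    exact Odd.mul (by decide) this
  rw [hodd.neg_one_pow, mul_pow] at h2
  have hz : zt σ ^ (3 * r) = 1 := by
    unfold zt
    cases σ
    · simp
    · simp only [if_true]
      rw [← Complex.exp_nat_mul]
      have : ((3 * r : ℕ) : ℂ) * (2 * Real.pi * Complex.I / 3) =
          (r : ℤ) * (2 * Real.pi * Complex.I) := by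
        push_cast
        ring
      rw [this]
      exact Complex.exp_int_mul_two_pi_mul_I _
  have he : Complex.exp (2 * Real.pi * Complex.I * x / r) ^ (3 * r) = 1 := by
    rw [← Complex.exp_nat_mul]
    have : ((3 * r : ℕ) : ℂ) * (2 * Real.pi * Complex.I * x / r) =
        ((3 * x : ℤ) : ℂ) * (2 * Real.pi * Complex.I) := by
      push_cast
      field_simp
    rw [this]
    exact Complex.exp_int_mul_two_pi_mul_I _
  rw [hz, he] at h2
  norm_num at h2

end Pool.Agent.W_420c7c_h51
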