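import Pool.Agent.W_420c7c_h51.FouA
import Pool.Agent.W_420c7c_h51.FouB1

set_option autoImplicit false

/-!
# The mean square of `log |1 + z ζ^x|`
-/

namespace Pool.Agent.W_420c7c_h51

open Finset

private theorem fouB2_parseval (r : ℕ) (hr : 0 < r) (d : ℕ → ℂ) (F : ℤ → ℝ)
    (h : ∀ x : ℤ, ((F x : ℝ) : ℂ) =
      1 / 2 * ∑ b ∈ range r, d b * Complex.exp (2 * Real.pi * Complex.I * (b * x) / r)) :
    ∑ x ∈ range r, F (x : ℤ) ^ 2 = r / 4 * ∑ b ∈ range r, ‖d b‖ ^ 2 := by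
  have hconj : ∀ (b : ℕ) (x : ℤ),
      (starRingEnd ℂ) (Complex.exp (2 * Real.pi * Complex.I * (b * x) / r)) =
        Complex.exp (2 * Real.pi * Complex.I * (-(b * x)) / r) := by
    intro b x
    rw [← Complex.exp_conj]
    congr 1
    simp only [map_div₀, map_mul, Complex.conj_I, Complex.conj_ofReal, map_ofNat, map_natCast,
      map_intCast]
    ring
  have hsq : ∀ x : ℤ, ((F x ^ 2 : ℝ) : ℂ) = 1 / 4 * ∑ b ∈ range r, ∑ c ∈ range r,
      d b * (starRingEnd ℂ) (d c) *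
        Complex.exp (2 * Real.pi * Complex.I * (((b : ℤ) - (c : ℤ) : ℤ) * x) / r) := by
    intro x
    have h1 : ((F x ^ 2 : ℝ) : ℂ) = ((F x : ℝ) : ℂ) * (starRingEnd ℂ) ((F x : ℝ) : ℂ) := by
      rw [Complex.conj_ofReal]
      push_cast
      ring
    rw [h1]
    nth_rewrite 2 [h x]
    rw [h x]
    simp only [map_mul, map_sum, map_div₀, map_one, map_ofNat, hconj]
    rw [show (1 / 2 * ∑ b ∈ range r, d b * Complex.exp (2 * Real.pi * Complex.I * (b * x) / r)) *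
        (1 / 2 * ∑ b ∈ range r, (starRingEnd ℂ) (d b) *
          Complex.exp (2 * Real.pi * Complex.I * (-(b * x)) / r)) =
        1 / 4 * ((∑ b ∈ range r, d b * Complex.exp (2 * Real.pi * Complex.I * (b * x) / r)) *
        (∑ b ∈ range r, (starRingEnd ℂ) (d b) *
          Complex.exp (2 * Real.pi * Complex.I * (-(b * x)) / r))) by ring]
    rw [sum_mul_sum]
    congr 1
    refine sum_congr rfl fun b _ => sum_congr rfl fun c _ => ?_
    rw [show d b * Complex.exp (2 * Real.pi * Complex.I * (b * x) / r) *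
        ((starRingEnd ℂ) (d c) * Complex.exp (2 * Real.pi * Complex.I * (-(c * x)) / r)) =
        d b * (starRingEnd ℂ) (d c) * (Complex.exp (2 * Real.pi * Complex.I * (b * x) / r) *
          Complex.exp (2 * Real.pi * Complex.I * (-(c * x)) / r)) by ring, ← Complex.exp_add]
    congr 2
    push_cast
    ring
  have hmain : ((∑ x ∈ range r, F (x : ℤ) ^ 2 : ℝ) : ℂ) =
      ((r / 4 * ∑ b ∈ range r, ‖d b‖ ^ 2 : ℝ) : ℂ) := by
    push_cast
    have h2 : ∀ x ∈ range r, ((F (x : ℤ) : ℝ) : ℂ) ^ 2 = 1 / 4 * ∑ b ∈ range r, ∑ c ∈ range r,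
        d b * (starRingEnd ℂ) (d c) *
        Complex.exp (2 * Real.pi * Complex.I * (((b : ℤ) - (c : ℤ) : ℤ) * (x : ℤ)) / r) := by
      intro x _
      rw [← hsq (x : ℤ)]
      push_cast
      rfl
    rw [sum_congr rfl h2, ← mul_sum]
    rw [show ∑ x ∈ range r, ∑ b ∈ range r, ∑ c ∈ range r, d b * (starRingEnd ℂ) (d c) *
        Complex.exp (2 * Real.pi * Complex.I * (((b : ℤ) - (c : ℤ) : ℤ) * (x : ℤ)) / r) =
        ∑ b ∈ range r, ∑ c ∈ range r, d b * (starRingEnd ℂ) (d c) * ∑ x ∈ range r,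
        Complex.exp (2 * Real.pi * Complex.I * (((b : ℤ) - (c : ℤ) : ℤ) * (x : ℤ)) / r) by
      rw [sum_comm]
      refine sum_congr rfl fun b _ => ?_
      rw [sum_comm]
      refine sum_congr rfl fun c _ => ?_
      rw [mul_sum]]
    have h3 : ∀ b ∈ range r, ∑ c ∈ range r, d b * (starRingEnd ℂ) (d c) * ∑ x ∈ range r,
        Complex.exp (2 * Real.pi * Complex.I * (((b : ℤ) - (c : ℤ) : ℤ) * (x : ℤ)) / r) =
        r * (‖d b‖ : ℂ) ^ 2 := by
      intro b hb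
      have hb' := mem_range.1 hb
      rw [sum_eq_single b]
      · rw [exp_orth r hr]
        simp only [sub_self, dvd_zero, if_true]
        rw [Complex.mul_conj, Complex.normSq_eq_norm_sq]
        push_cast
        ring
      · intro c hc hcb
        have hc' := mem_range.1 hc
        rw [exp_orth r hr, if_neg, mul_zero]
        rintro ⟨k, hk⟩
        have h4 : |((b : ℤ) - c)| < r := by
          rw [abs_lt]
          constructor <;> omega
        rw [hk, abs_mul, Nat.abs_cast] at h4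
        have hk0 : k ≠ 0 := by
          rintro rfl
          apply hcb
          rw [mul_zero] at hk
          omega
        have h5 : 1 ≤ |k| := Int.one_le_abs hk0
        have h6 : (r : ℤ) * 1 ≤ r * |k| := by
          apply mul_le_mul_of_nonneg_left h5 (by omega)
        omega
      · intro hb2
        exact absurd hb hb2
    rw [sum_congr rfl h3, ← mul_sum]
    ring
  exact_mod_cast hmain

private theorem fouB2_inv_sq (r : ℕ) : ∑ b ∈ Ico 1 r, 1 / (b : ℝ) ^ 2 ≤ Real.pi ^ 2 / 6 := by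
  have h := hasSum_zeta_two
  exact sum_le_hasSum (Ico 1 r) (fun i _ => by positivity) h

private theorem fouB2_reflect (r : ℕ) (f : ℝ → ℝ) :
    ∑ b ∈ Ico 1 r, f ((r : ℝ) - b) = ∑ b ∈ Ico 1 r, f b := by
  refine sum_nbij' (fun b => r - b) (fun b => r - b) ?_ ?_ ?_ ?_ ?_
  · intro b hb
    rw [mem_Ico] at hb ⊢
    omega
  · intro b hb
    rw [mem_Ico] at hb ⊢
    omega
  · intro b hb
    rw [mem_Ico] at hb
    omega
  · intro b hb
    rw [mem_Ico] at hb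
    omega
  · intro b hb
    rw [mem_Ico] at hb
    have : ((r - b : ℕ) : ℝ) = (r : ℝ) - b := by
      rw [Nat.cast_sub (by omega)]
    rw [this]

private theorem fouB2_inv (r : ℕ) :
    ∑ b ∈ Ico 1 r, 1 / (b : ℝ) ≤ 1 + Real.log r := by
  have h1 : ∑ b ∈ Ico 1 r, 1 / (b : ℝ) ≤ ∑ b ∈ Ico 1 (r + 1), 1 / (b : ℝ) := by
    apply sum_le_sum_of_subset_of_nonneg
    · apply Ico_subset_Ico_right
      omega
    · intro i _ _
      positivity
  refine h1.trans ?_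
  have h2 := harmonic_le_one_add_log r
  have h3 : ((harmonic r : ℚ) : ℝ) = ∑ b ∈ Ico 1 (r + 1), 1 / (b : ℝ) := by
    rw [harmonic]
    push_cast
    rw [sum_Ico_eq_sum_range]
    refine sum_congr rfl fun i _ => ?_
    rw [one_div]
    congr 1
    push_cast
    ring
  rw [← h3]
  exact h2

/-- PROOF. Fix `0 < ρ < 1`, `d` from `coef`. Parseval (`exp_orth`):
`∑_{x < r} (log ‖1 + ρ z ζ^x‖)^2 = (r / 4) ∑_{b < r} ‖d b‖^2
≤ (r / 4) (16 / r^2 + 2 π^2 / 6 + (40 / r) * 2 (1 + log r)) ≤ r π^2 / 12 + 20 (1 + log r) + 4 / r` (`hasSum_zeta_two`, harmonic sum).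
Let `ρ → 1`: the left side is continuous at `ρ = 1` by `one_add_ne`. -/
theorem sum_sq_ell (σ : Bool) (r : ℕ) (hr : r.Prime) (h5 : 5 ≤ r) :
    ∑ x ∈ range r, ell σ r x ^ 2 ≤ r * (Real.pi ^ 2 / 12) + 24 * (1 + Real.log r) := by
  have hr0 : (5 : ℝ) ≤ r := by exact_mod_cast h5
  have hlog : 0 ≤ Real.log r := Real.log_nonneg (by linarith)
  have hB : ∀ ρ : ℝ, 0 < ρ → ρ < 1 →
      ∑ x ∈ range r, Real.log ‖1 + (ρ : ℂ) * (zt σ *
        Complex.exp (2 * Real.pi * Complex.I * ((x : ℤ) : ℂ) / r))‖ ^ 2 ≤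
        r * (Real.pi ^ 2 / 12) + 24 * (1 + Real.log r) := by
    intro ρ h0 h1
    obtain ⟨d, hd0, hd1, hd2⟩ := coef σ r hr h5 ρ h0 h1
    have hP := fouB2_parseval r (by omega) d
      (fun x => Real.log ‖1 + (ρ : ℂ) * (zt σ *
        Complex.exp (2 * Real.pi * Complex.I * x / r))‖) hd2
    rw [show ∑ x ∈ range r, Real.log ‖1 + (ρ : ℂ) * (zt σ *
        Complex.exp (2 * Real.pi * Complex.I * ((x : ℤ) : ℂ) / r))‖ ^ 2 =
        r / 4 * ∑ b ∈ range r, ‖d b‖ ^ 2 from hP]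
    have hs : ∑ b ∈ range r, ‖d b‖ ^ 2 = ‖d 0‖ ^ 2 + ∑ b ∈ Ico 1 r, ‖d b‖ ^ 2 := by
      rw [range_eq_Ico, sum_eq_sum_Ico_succ_bot (by omega)]
    have h3 : ∑ b ∈ Ico 1 r, ‖d b‖ ^ 2 ≤ ∑ b ∈ Ico 1 r, (1 / (b : ℝ) ^ 2 +
        1 / ((r : ℝ) - b) ^ 2 + 40 * (1 / (b : ℝ) + 1 / ((r : ℝ) - b)) / r) := by
      refine sum_le_sum fun b hb => ?_
      rw [mem_Ico] at hb
      exact (hd1 b hb.1 hb.2).2
    have h4 : ∑ b ∈ Ico 1 r, (1 / (b : ℝ) ^ 2 +
        1 / ((r : ℝ) - b) ^ 2 + 40 * (1 / (b : ℝ) + 1 / ((r : ℝ) - b)) / r) =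
        2 * ∑ b ∈ Ico 1 r, 1 / (b : ℝ) ^ 2 + 80 / r * ∑ b ∈ Ico 1 r, 1 / (b : ℝ) := by
      have e1 : ∑ b ∈ Ico 1 r, 1 / ((r : ℝ) - b) ^ 2 = ∑ b ∈ Ico 1 r, 1 / (b : ℝ) ^ 2 :=
        fouB2_reflect r (fun t => 1 / t ^ 2)
      have e2 : ∑ b ∈ Ico 1 r, 1 / ((r : ℝ) - b) = ∑ b ∈ Ico 1 r, 1 / (b : ℝ) :=
        fouB2_reflect r (fun t => 1 / t)
      rw [sum_add_distrib, sum_add_distrib, e1]
      have e3 : ∑ b ∈ Ico 1 r, 40 * (1 / (b : ℝ) + 1 / ((r : ℝ) - b)) / r =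
          40 / r * (∑ b ∈ Ico 1 r, 1 / (b : ℝ) + ∑ b ∈ Ico 1 r, 1 / ((r : ℝ) - b)) := by
        rw [← sum_add_distrib, mul_sum]
        refine sum_congr rfl fun b _ => ?_
        ring
      rw [e3, e2]
      ring
    have h6 : ‖d 0‖ ^ 2 ≤ (4 / (r : ℝ)) ^ 2 :=
      pow_le_pow_left₀ (norm_nonneg _) hd0 2
    have h7 := fouB2_inv_sq r
    have h8 := fouB2_inv r
    have h9 : ∑ b ∈ range r, ‖d b‖ ^ 2 ≤ (4 / (r : ℝ)) ^ 2 + (2 * (Real.pi ^ 2 / 6) +
        80 / r * (1 + Real.log r)) := by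
      rw [hs]
      refine add_le_add h6 (h3.trans ?_)
      rw [h4]
      gcongr
    calc (r : ℝ) / 4 * ∑ b ∈ range r, ‖d b‖ ^ 2
        ≤ (r : ℝ) / 4 * ((4 / (r : ℝ)) ^ 2 + (2 * (Real.pi ^ 2 / 6) +
          80 / r * (1 + Real.log r))) := by gcongr
      _ = 4 / r + r * (Real.pi ^ 2 / 12) + 20 * (1 + Real.log r) := by
        field_simp
        ring
      _ ≤ r * (Real.pi ^ 2 / 12) + 24 * (1 + Real.log r) := by
        have : 4 / (r : ℝ) ≤ 4 := by
          rw [div_le_iff₀ (by linarith)]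
          linarith
        linarith
  have hcont : Filter.Tendsto (fun ρ : ℝ => ∑ x ∈ range r, Real.log ‖1 + (ρ : ℂ) * (zt σ *
        Complex.exp (2 * Real.pi * Complex.I * ((x : ℤ) : ℂ) / r))‖ ^ 2)
      (nhdsWithin 1 (Set.Iio 1)) (nhds (∑ x ∈ range r, ell σ r x ^ 2)) := by
    apply tendsto_finsetSum
    intro x _
    have hx : ContinuousAt (fun ρ : ℝ => Real.log ‖1 + (ρ : ℂ) * (zt σ *
        Complex.exp (2 * Real.pi * Complex.I * ((x : ℤ) : ℂ) / r))‖ ^ 2) 1 := by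
      have hne := one_add_ne σ r hr h5 (x : ℤ)
      apply ContinuousAt.pow
      apply ContinuousAt.log
      · fun_prop
      · rw [Complex.ofReal_one, one_mul]
        exact norm_ne_zero_iff.2 hne
    have h2 := hx.tendsto
    rw [Complex.ofReal_one, one_mul] at h2
    exact h2.mono_left nhdsWithin_le_nhds
  refine le_of_tendsto hcont ?_
  have hmem : Set.Ioo (0 : ℝ) 1 ∈ nhdsWithin (1 : ℝ) (Set.Iio 1) :=
    Ioo_mem_nhdsLT (by norm_num)
  filter_upwards [hmem] with ρ hρ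
  exact hB ρ hρ.1 hρ.2

/-- PROOF. `sum_sq_ell`, drop the term `x = 0`, divide by `r - 1`, `π^2 / 12 ≤ 1`. -/
theorem msq (σ : Bool) (r : ℕ) (hr : r.Prime) (h5 : 5 ≤ r) :
    av r (fun x => ell σ r x ^ 2) ≤ Real.pi ^ 2 / 12 + 25 * (1 + Real.log r) / ((r : ℝ) - 1) := by
  have hr0 : (5 : ℝ) ≤ r := by exact_mod_cast h5
  have hlog : 0 ≤ Real.log r := Real.log_nonneg (by linarith)
  have h1 := sum_sq_ell σ r hr h5
  have h2 : ∑ x ∈ Ico 1 r, ell σ r (x : ℤ) ^ 2 ≤ ∑ x ∈ range r, ell σ r (x : ℤ) ^ 2 := by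
    apply sum_le_sum_of_subset_of_nonneg
    · intro x hx
      rw [mem_Ico] at hx
      exact mem_range.2 hx.2
    · intro i _ _
      positivity
  have hpi : Real.pi ^ 2 / 12 ≤ 1 := by
    have := Real.pi_lt_d2
    have h0 := Real.pi_pos
    nlinarith
  unfold av
  have hr1 : (0 : ℝ) < (r : ℝ) - 1 := by linarith
  rw [div_le_iff₀ hr1, add_mul, div_mul_cancel₀ _ hr1.ne']
  nlinarith

end Pool.Agent.W_420c7c_h51
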