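import Pool.Agent.W_420c7c_h51.FouB1

set_option autoImplicit false

/-!
# Parseval; bound and period of `ell`
-/

namespace Pool.Agent.W_420c7c_h51

open Finset

private lemma FouC1_exp_period (r : ℕ) (hr : 0 < r) (x y : ℤ) (h : x ≡ y [ZMOD r]) :
    Complex.exp (2 * Real.pi * Complex.I * x / r) = Complex.exp (2 * Real.pi * Complex.I * y / r) := by
  obtain ⟨k, hk⟩ := (Int.modEq_iff_dvd.mp h.symm)
  have hr0 : (r : ℂ) ≠ 0 := by exact_mod_cast hr.ne'
  have hx : (x : ℂ) = y + r * k := by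
    have : x = y + r * k := by linarith
    exact_mod_cast this
  rw [Complex.exp_eq_exp_iff_exists_int]
  refine ⟨k, ?_⟩
  rw [hx]
  field_simp

private lemma FouC1_norm (φ : ℝ) : ‖1 + Complex.exp (φ * Complex.I)‖ = 2 * |Real.cos (φ / 2)| := by
  have h1 : ‖1 + Complex.exp (φ * Complex.I)‖ ^ 2 = (2 * |Real.cos (φ / 2)|) ^ 2 := by
    rw [Complex.sq_norm, Complex.normSq_apply]
    have hre : (1 + Complex.exp (φ * Complex.I)).re = 1 + Real.cos φ := by
      simp [Complex.exp_ofReal_mul_I_re]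
    have him : (1 + Complex.exp (φ * Complex.I)).im = Real.sin φ := by
      simp [Complex.exp_ofReal_mul_I_im]
    rw [hre, him, mul_pow, sq_abs]
    have h2 : Real.cos φ = 2 * Real.cos (φ / 2) ^ 2 - 1 := by
      rw [← Real.cos_two_mul]
      congr 1
      ring
    have h3 := Real.sin_sq_add_cos_sq φ
    nlinarith
  exact (pow_left_inj₀ (norm_nonneg _) (by positivity) (by norm_num)).mp h1

private lemma FouC1_sin (M : ℤ) (R : ℕ) (hR : 0 < R) (hM : ¬ (R : ℤ) ∣ M) :
    2 / (R : ℝ) ≤ |Real.sin (Real.pi * M / R)| := by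
  have hR0 : (0 : ℝ) < R := by exact_mod_cast hR
  have hRz : (0 : ℤ) < R := by exact_mod_cast hR
  set q := M / (R : ℤ) with hq
  set ρ := M % (R : ℤ) with hρ
  have hdiv : M = R * q + ρ := by rw [hq, hρ]; exact (Int.mul_ediv_add_emod M R).symm
  have hρ0 : 0 ≤ ρ := Int.emod_nonneg _ hRz.ne'
  have hρ1 : ρ < R := Int.emod_lt_of_pos _ hRz
  have hρ2 : ρ ≠ 0 := fun h => hM (Int.dvd_of_emod_eq_zero h)
  have hρ3 : 1 ≤ ρ := by omega
  have hρ4 : ρ + 1 ≤ R := by omega
  have hρ3' : (1 : ℝ) ≤ ρ := by exact_mod_cast hρ3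
  have hρ4' : (ρ : ℝ) + 1 ≤ R := by exact_mod_cast hρ4
  have hang : Real.pi * M / R = Real.pi * ρ / R + q * Real.pi := by
    have : (M : ℝ) = R * q + ρ := by exact_mod_cast hdiv
    rw [this]
    field_simp
    ring
  have habs : |Real.sin (Real.pi * M / R)| = |Real.sin (Real.pi * ρ / R)| := by
    rw [hang, Real.sin_add_int_mul_pi, abs_mul]
    rw [show |((-1 : ℝ)) ^ q| = 1 by rw [abs_zpow]; simp, one_mul]
  rw [habs]
  have hπ := Real.pi_pos
  refine le_trans ?_ (le_abs_self _)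
  rcases le_total (2 * (ρ : ℝ)) R with h | h
  · have h1 := Real.mul_le_sin (x := Real.pi * ρ / R) (by positivity) (by
      rw [div_le_div_iff₀ hR0 (by norm_num)]
      nlinarith)
    refine le_trans ?_ h1
    rw [show 2 / Real.pi * (Real.pi * ρ / R) = 2 * ρ / R by field_simp]
    gcongr
    linarith
  · have h1 := Real.mul_le_sin (x := Real.pi - Real.pi * ρ / R) (by
      rw [sub_nonneg, div_le_iff₀ hR0]
      nlinarith) (by
      have : Real.pi / 2 ≤ Real.pi * ρ / R := by
        rw [div_le_div_iff₀ (by norm_num) hR0]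
        nlinarith
      linarith)
    rw [Real.sin_pi_sub] at h1
    refine le_trans ?_ h1
    rw [show 2 / Real.pi * (Real.pi - Real.pi * ρ / R) = 2 * (R - ρ) / R by field_simp]
    gcongr
    linarith

/-- `ell σ r` has period `r`. -/
theorem ell_mod (σ : Bool) (r : ℕ) (hr : 0 < r) (x y : ℤ) (h : x ≡ y [ZMOD r]) :
    ell σ r x = ell σ r y := by
  unfold ell
  rw [FouC1_exp_period r hr x y h]

/-- PROOF. Parseval: the map `h ↦ b h mod r` is injective on `1..r-1` (`r` prime, `1 ≤ b < r`), expand the square and use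
`exp_orth`. -/
theorem pars (r : ℕ) (hr : r.Prime) (b : ℕ) (hb : 1 ≤ b) (hbr : b < r) (V : ℕ → ℝ) :
    ∑ x ∈ range r, ‖∑ h ∈ Ico 1 r, (V h : ℂ) *
      Complex.exp (2 * Real.pi * Complex.I * (b * ((x : ℤ) * (h : ℤ) : ℤ)) / r)‖ ^ 2 ≤
      r * ∑ h ∈ Ico 1 r, V h ^ 2 := by
  have hr0 : 0 < r := hr.pos
  have hrC : (r : ℂ) ≠ 0 := by exact_mod_cast hr0.ne'
  have key : ((∑ x ∈ range r, ‖∑ h ∈ Ico 1 r, (V h : ℂ) *
      Complex.exp (2 * Real.pi * Complex.I * (b * ((x : ℤ) * (h : ℤ) : ℤ)) / r)‖ ^ 2 : ℝ) : ℂ) =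
      ((r * ∑ h ∈ Ico 1 r, V h ^ 2 : ℝ) : ℂ) := by
    have step : ∀ x ∈ range r, ((‖∑ h ∈ Ico 1 r, (V h : ℂ) *
        Complex.exp (2 * Real.pi * Complex.I * (b * ((x : ℤ) * (h : ℤ) : ℤ)) / r)‖ ^ 2 : ℝ) : ℂ) =
        ∑ h ∈ Ico 1 r, ∑ h' ∈ Ico 1 r, (V h : ℂ) * V h' *
          Complex.exp (2 * Real.pi * Complex.I * (((b : ℤ) * ((h : ℤ) - (h' : ℤ)) : ℤ) * (x : ℤ)) / r) := by
      intro x _
      push_cast
      rw [← Complex.mul_conj', map_sum, Finset.sum_mul_sum]
      refine Finset.sum_congr rfl fun h _ => Finset.sum_congr rfl fun h' _ => ?_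
      rw [map_mul, Complex.conj_ofReal, ← Complex.exp_conj]
      rw [show (V h : ℂ) * Complex.exp (2 * Real.pi * Complex.I * (b * (x * h)) / r) *
        (V h' * Complex.exp ((starRingEnd ℂ) (2 * Real.pi * Complex.I * (b * (x * h')) / r))) =
        V h * V h' * (Complex.exp (2 * Real.pi * Complex.I * (b * (x * h)) / r) *
          Complex.exp ((starRingEnd ℂ) (2 * Real.pi * Complex.I * (b * (x * h')) / r))) by ring]
      rw [← Complex.exp_add]
      congr 2
      simp only [map_div₀, map_mul, Complex.conj_ofReal, Complex.conj_I, map_natCast, map_ofNat]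
      ring
    rw [Complex.ofReal_sum, Finset.sum_congr rfl step, Finset.sum_comm]
    have inner : ∀ h ∈ Ico 1 r, ∑ x ∈ range r, ∑ h' ∈ Ico 1 r, (V h : ℂ) * V h' *
        Complex.exp (2 * Real.pi * Complex.I * (((b : ℤ) * ((h : ℤ) - (h' : ℤ)) : ℤ) * (x : ℤ)) / r) =
        r * (V h : ℂ) ^ 2 := by
      intro h hh
      rw [Finset.sum_comm]
      have : ∀ h' ∈ Ico 1 r, ∑ x ∈ range r, (V h : ℂ) * V h' *
          Complex.exp (2 * Real.pi * Complex.I * (((b : ℤ) * ((h : ℤ) - (h' : ℤ)) : ℤ) * (x : ℤ)) / r) =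
          if h' = h then r * (V h : ℂ) ^ 2 else 0 := by
        intro h' hh'
        rw [← Finset.mul_sum, exp_orth r hr0]
        rw [Finset.mem_Ico] at hh hh'
        by_cases heq : h' = h
        · subst heq
          simp
          ring
        · rw [if_neg heq, if_neg, mul_zero]
          intro hd
          rcases (Nat.prime_iff_prime_int.mp hr).dvd_or_dvd hd with hd | hd
          · have := Nat.le_of_dvd (by omega) (Int.natCast_dvd_natCast.mp hd)
            omega
          · have h1 := Int.eq_zero_of_abs_lt_dvd hd (by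
              rw [abs_lt]
              constructor <;> omega)
            omega
      rw [Finset.sum_congr rfl this, Finset.sum_ite_eq' (Ico 1 r) h, if_pos hh]
    rw [Finset.sum_congr rfl inner, ← Finset.mul_sum]
    push_cast
    rfl
  exact le_of_eq (Complex.ofReal_injective key)

/-- PROOF. `‖1 + exp (i φ)‖ = 2 |cos (φ / 2)|`; `φ/2 = π x / r` or `π (x / r + 1 / 3)`; the distance of `x / r` resp. `x / r + 1/3` to
`1/2 + ℤ` is at least `1 / (6 r)` (`6 x ≢ 3 r`, `6 x + 2 r ≢ 3 r` modulo `6 r`), and `sin y ≥ 2 y / π`, so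
`2 / (3 r) ≤ ‖1 + z ζ^x‖ ≤ 2`. -/
theorem ell_bound (σ : Bool) (r : ℕ) (hr : r.Prime) (h5 : 5 ≤ r) (x : ℤ) :
    |ell σ r x| ≤ 2 * Real.log r := by
  have hr5 : (5 : ℝ) ≤ r := by exact_mod_cast h5
  have hr0 : (0 : ℝ) < r := by linarith
  have hodd : Odd r := hr.odd_of_ne_two (by omega)
  obtain ⟨N, hN, hval⟩ : ∃ N : ℤ, ¬ ((6 * r : ℕ) : ℤ) ∣ 2 * N + 3 * r ∧
      ‖1 + zt σ * Complex.exp (2 * Real.pi * Complex.I * x / r)‖ =
        2 * |Real.cos (Real.pi * N / (3 * r))| := by
    have hodd' : ∀ N : ℤ, (Odd (2 * N + 3 * (r : ℤ))) := by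
      intro N
      have h3 : Odd ((r : ℤ)) := by exact_mod_cast hodd
      obtain ⟨k, hk⟩ := h3
      exact ⟨N + 3 * k + 1, by rw [hk]; ring⟩
    have hnd : ∀ N : ℤ, ¬ ((6 * r : ℕ) : ℤ) ∣ 2 * N + 3 * r := by
      intro N hd
      have h2 : (2 : ℤ) ∣ 2 * N + 3 * r := dvd_trans ⟨3 * r, by push_cast; ring⟩ hd
      have := hodd' N
      rw [← Int.not_even_iff_odd] at this
      exact this (even_iff_two_dvd.mpr h2)
    have hrC : (r : ℂ) ≠ 0 := by exact_mod_cast hr0.ne'
    cases σ with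
    | false =>
      refine ⟨3 * x, hnd _, ?_⟩
      have e1 : zt false * Complex.exp (2 * Real.pi * Complex.I * x / r) =
          Complex.exp (((2 * Real.pi * x / r : ℝ) : ℂ) * Complex.I) := by
        simp only [zt, Bool.false_eq_true, if_false, one_mul]
        congr 1
        push_cast
        ring
      rw [e1, FouC1_norm]
      congr 3
      push_cast
      field_simp
    | true =>
      refine ⟨3 * x + r, hnd _, ?_⟩
      have e1 : zt true * Complex.exp (2 * Real.pi * Complex.I * x / r) =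
          Complex.exp (((2 * Real.pi / 3 + 2 * Real.pi * x / r : ℝ) : ℂ) * Complex.I) := by
        simp only [zt, if_true]
        rw [← Complex.exp_add]
        congr 1
        push_cast
        ring
      rw [e1, FouC1_norm]
      congr 3
      push_cast
      field_simp
      ring
  have hlow : 2 / (3 * (r : ℝ)) ≤ ‖1 + zt σ * Complex.exp (2 * Real.pi * Complex.I * x / r)‖ := by
    rw [hval]
    have h1 := FouC1_sin (2 * N + 3 * r) (6 * r) (by have := hr.pos; omega) hN
    have h2 : Real.sin (Real.pi * ((2 * N + 3 * (r : ℤ) : ℤ) : ℝ) / ((6 * r : ℕ) : ℝ)) =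
        Real.cos (Real.pi * N / (3 * r)) := by
      rw [← Real.sin_add_pi_div_two]
      congr 1
      push_cast
      field_simp
      ring
    rw [h2] at h1
    have h3 : 2 / (3 * (r : ℝ)) = 2 * (2 / ((6 * r : ℕ) : ℝ)) := by
      push_cast
      field_simp
      norm_num
    rw [h3]
    linarith
  have hup : ‖1 + zt σ * Complex.exp (2 * Real.pi * Complex.I * x / r)‖ ≤ 2 := by
    rw [hval]
    have := Real.abs_cos_le_one (Real.pi * N / (3 * r))
    linarith
  have hpos : 0 < ‖1 + zt σ * Complex.exp (2 * Real.pi * Complex.I * x / r)‖ :=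
    lt_of_lt_of_le (by positivity) hlow
  have hlog : 2 * Real.log r = Real.log ((r : ℝ) ^ 2) := by
    rw [Real.log_pow]
    norm_num
  unfold ell
  rw [abs_le]
  constructor
  · rw [hlog, ← Real.log_inv]
    apply Real.log_le_log (by positivity)
    refine le_trans ?_ hlow
    rw [← one_div, div_le_div_iff₀ (by positivity) (by positivity)]
    nlinarith
  · rw [hlog]
    apply Real.log_le_log hpos
    nlinarith

end Pool.Agent.W_420c7c_h51
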