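import Pool.Agent.W_420c7c_h51.FouA
import Pool.Agent.W_420c7c_h51.FouC1

set_option autoImplicit false

/-!
# The operator bound for `log |1 + z ζ^(x h)|`
-/

namespace Pool.Agent.W_420c7c_h51

open Finset

private noncomputable def FouC2_vec (r : ℕ) (f : ℕ → ℂ) : EuclideanSpace ℂ (Fin r) :=
  WithLp.toLp 2 (fun x : Fin r => f x)

private lemma FouC2_norm (r : ℕ) (f : ℕ → ℂ) :
    ‖FouC2_vec r f‖ = Real.sqrt (∑ x ∈ range r, ‖f x‖ ^ 2) := by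
  rw [EuclideanSpace.norm_eq]
  congr 1
  exact Fin.sum_univ_eq_sum_range (fun x => ‖f x‖ ^ 2) r

private lemma FouC2_lin (r : ℕ) (s : Finset ℕ) (d : ℕ → ℂ) (S : ℕ → ℕ → ℂ) :
    FouC2_vec r (fun x => ∑ b ∈ s, d b * S b x) = ∑ b ∈ s, d b • FouC2_vec r (S b) := by
  unfold FouC2_vec
  ext x
  simp

/-- Minkowski -/
private lemma FouC2_mink (r : ℕ) (s : Finset ℕ) (d : ℕ → ℂ) (S : ℕ → ℕ → ℂ) :
    Real.sqrt (∑ x ∈ range r, ‖∑ b ∈ s, d b * S b x‖ ^ 2) ≤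
      ∑ b ∈ s, ‖d b‖ * Real.sqrt (∑ x ∈ range r, ‖S b x‖ ^ 2) := by
  rw [← FouC2_norm r (fun x => ∑ b ∈ s, d b * S b x), FouC2_lin]
  refine (norm_sum_le _ _).trans (Finset.sum_le_sum fun b _ => ?_)
  rw [norm_smul, FouC2_norm]

private lemma FouC2_harm (r : ℕ) (h5 : 5 ≤ r) :
    ∑ b ∈ Ico 1 r, (1 / (b : ℝ) + 1 / ((r : ℝ) - b)) ≤ 2 * (1 + Real.log r) := by
  have e1 : ∑ b ∈ Ico 1 r, 1 / (b : ℝ) = (harmonic (r - 1) : ℝ) := by
    rw [Finset.sum_Ico_eq_sum_range, harmonic]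
    push_cast
    refine Finset.sum_congr rfl fun i _ => ?_
    rw [one_div, add_comm]
  have e2 : ∑ b ∈ Ico 1 r, 1 / ((r : ℝ) - b) = ∑ b ∈ Ico 1 r, 1 / (b : ℝ) := by
    rw [Finset.sum_Ico_eq_sum_range, Finset.sum_Ico_eq_sum_range,
      ← Finset.sum_range_reflect (fun i => 1 / ((1 + i : ℕ) : ℝ))]
    refine Finset.sum_congr rfl fun i hi => ?_
    rw [Finset.mem_range] at hi
    congr 1
    have h1 : 1 + (r - 1 - 1 - i) = r - (1 + i) := by omega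
    rw [h1, Nat.cast_sub (by omega)]
  rw [Finset.sum_add_distrib, e2, e1]
  have h1 := harmonic_le_one_add_log (r - 1)
  have h2 : Real.log ((r - 1 : ℕ) : ℝ) ≤ Real.log r := by
    apply Real.log_le_log
    · exact_mod_cast (by omega : 0 < r - 1)
    · exact_mod_cast Nat.sub_le r 1
  linarith

private lemma FouC2_rho (σ : Bool) (r : ℕ) (hr : r.Prime) (h5 : 5 ≤ r) (V : ℕ → ℝ) (ρ : ℝ)
    (h0 : 0 < ρ) (h1 : ρ < 1) :
    ∑ x ∈ Ico 1 r, (∑ h ∈ Ico 1 r, V h * Real.log ‖1 + (ρ : ℂ) * (zt σ *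
      Complex.exp (2 * Real.pi * Complex.I * (((x : ℤ) * (h : ℤ) : ℤ) : ℂ) / r))‖) ^ 2 ≤
      r * (2 * Real.log r + 3) ^ 2 * ∑ h ∈ Ico 1 r, V h ^ 2 := by
  obtain ⟨d, hd0, hd, hlog⟩ := coef σ r hr h5 ρ h0 h1
  have hr5 : (5 : ℝ) ≤ r := by exact_mod_cast h5
  have hr0 : (0 : ℝ) < r := by linarith
  set N : ℝ := ∑ h ∈ Ico 1 r, V h ^ 2 with hN
  have hN0 : 0 ≤ N := Finset.sum_nonneg fun _ _ => sq_nonneg _
  set S : ℕ → ℕ → ℂ := fun b x => ∑ h ∈ Ico 1 r, (V h : ℂ) *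
      Complex.exp (2 * Real.pi * Complex.I * (b * ((x : ℤ) * (h : ℤ) : ℤ)) / r) with hS
  set F : ℕ → ℝ := fun x => ∑ h ∈ Ico 1 r, V h * Real.log ‖1 + (ρ : ℂ) * (zt σ *
      Complex.exp (2 * Real.pi * Complex.I * (((x : ℤ) * (h : ℤ) : ℤ) : ℂ) / r))‖ with hF
  have hFS : ∀ x, ((F x : ℝ) : ℂ) = ∑ b ∈ range r, (1 / 2 * d b) * S b x := by
    intro x
    simp only [hF, hS]
    rw [Complex.ofReal_sum]
    have e1 : ∀ h ∈ Ico 1 r, ((V h * Real.log ‖1 + (ρ : ℂ) * (zt σ *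
        Complex.exp (2 * Real.pi * Complex.I * (((x : ℤ) * (h : ℤ) : ℤ) : ℂ) / r))‖ : ℝ) : ℂ) =
        ∑ b ∈ range r, (1 / 2 * d b) * ((V h : ℂ) *
          Complex.exp (2 * Real.pi * Complex.I * (b * ((x : ℤ) * (h : ℤ) : ℤ)) / r)) := by
      intro h _
      rw [Complex.ofReal_mul, hlog ((x : ℤ) * (h : ℤ)), Finset.mul_sum, Finset.mul_sum]
      refine Finset.sum_congr rfl fun b _ => ?_
      ring
    rw [Finset.sum_congr rfl e1, Finset.sum_comm]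
    refine Finset.sum_congr rfl fun b _ => ?_
    rw [Finset.mul_sum]
  -- the norms of the `S b`
  have hSb : ∀ b : ℕ, 1 ≤ b → b < r →
      Real.sqrt (∑ x ∈ range r, ‖S b x‖ ^ 2) ≤ Real.sqrt r * Real.sqrt N := by
    intro b hb hbr
    rw [← Real.sqrt_mul hr0.le]
    exact Real.sqrt_le_sqrt (pars r hr b hb hbr V)
  have hS0 : Real.sqrt (∑ x ∈ range r, ‖S 0 x‖ ^ 2) ≤ r * Real.sqrt N := by
    have e1 : ∀ x ∈ range r, ‖S 0 x‖ ^ 2 ≤ r * N := by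
      intro x _
      have e2 : S 0 x = ((∑ h ∈ Ico 1 r, V h : ℝ) : ℂ) := by
        simp only [hS]
        rw [Complex.ofReal_sum]
        refine Finset.sum_congr rfl fun h _ => ?_
        simp
      rw [e2, Complex.norm_real, Real.norm_eq_abs, sq_abs]
      refine (sq_sum_le_card_mul_sum_sq).trans ?_
      rw [← hN]
      apply mul_le_mul_of_nonneg_right _ hN0
      rw [Nat.card_Ico]
      exact_mod_cast Nat.sub_le r 1
    have e3 : ∑ x ∈ range r, ‖S 0 x‖ ^ 2 ≤ (r * Real.sqrt N) ^ 2 := by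
      refine (Finset.sum_le_sum e1).trans ?_
      rw [Finset.sum_const, Finset.card_range, nsmul_eq_mul, mul_pow, Real.sq_sqrt hN0]
      exact le_of_eq (by ring)
    calc Real.sqrt (∑ x ∈ range r, ‖S 0 x‖ ^ 2) ≤ Real.sqrt ((r * Real.sqrt N) ^ 2) :=
          Real.sqrt_le_sqrt e3
      _ = r * Real.sqrt N := Real.sqrt_sq (by positivity)
  have hmain : Real.sqrt (∑ x ∈ range r, F x ^ 2) ≤
      Real.sqrt r * (2 * Real.log r + 3) * Real.sqrt N := by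
    have e1 : ∑ x ∈ range r, F x ^ 2 =
        ∑ x ∈ range r, ‖∑ b ∈ range r, (1 / 2 * d b) * S b x‖ ^ 2 := by
      refine Finset.sum_congr rfl fun x _ => ?_
      rw [← hFS x, Complex.norm_real, Real.norm_eq_abs, sq_abs]
    rw [e1]
    refine (FouC2_mink r (range r) (fun b => 1 / 2 * d b) S).trans ?_
    have e2 : range r = insert 0 (Ico 1 r) := by
      ext x
      rw [Finset.mem_insert, Finset.mem_range, Finset.mem_Ico]
      omega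
    have e3 : ∑ b ∈ range r, ‖1 / 2 * d b‖ * Real.sqrt (∑ x ∈ range r, ‖S b x‖ ^ 2) =
        ‖1 / 2 * d 0‖ * Real.sqrt (∑ x ∈ range r, ‖S 0 x‖ ^ 2) +
          ∑ b ∈ Ico 1 r, ‖1 / 2 * d b‖ * Real.sqrt (∑ x ∈ range r, ‖S b x‖ ^ 2) := by
      conv_lhs => rw [e2]
      rw [Finset.sum_insert (by simp), ← e2]
    rw [e3]
    have hhalf : ∀ z : ℂ, ‖1 / 2 * z‖ = 1 / 2 * ‖z‖ := by
      intro z
      rw [norm_mul]
      congr 1
      simp
    have hsN : 0 ≤ Real.sqrt N := Real.sqrt_nonneg _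
    have hsr : 2 ≤ Real.sqrt r := by
      apply Real.le_sqrt_of_sq_le
      linarith
    have t0 : ‖1 / 2 * d 0‖ * Real.sqrt (∑ x ∈ range r, ‖S 0 x‖ ^ 2) ≤ 2 * Real.sqrt N := by
      rw [hhalf]
      have := mul_le_mul hd0 hS0 (Real.sqrt_nonneg _) (by positivity)
      have e4 : 4 / (r : ℝ) * (r * Real.sqrt N) = 4 * Real.sqrt N := by field_simp
      rw [e4] at this
      linarith
    have t1 : ∑ b ∈ Ico 1 r, ‖1 / 2 * d b‖ * Real.sqrt (∑ x ∈ range r, ‖S b x‖ ^ 2) ≤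
        2 * (1 + Real.log r) * (Real.sqrt r * Real.sqrt N) := by
      calc ∑ b ∈ Ico 1 r, ‖1 / 2 * d b‖ * Real.sqrt (∑ x ∈ range r, ‖S b x‖ ^ 2)
          ≤ ∑ b ∈ Ico 1 r, (1 / (b : ℝ) + 1 / ((r : ℝ) - b)) * (Real.sqrt r * Real.sqrt N) := by
            refine Finset.sum_le_sum fun b hb => ?_
            rw [Finset.mem_Ico] at hb
            refine mul_le_mul ?_ (hSb b hb.1 hb.2) (Real.sqrt_nonneg _) ?_
            · rw [hhalf]
              have := (hd b hb.1 hb.2).1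
              linarith
            · have : (b : ℝ) < r := by exact_mod_cast hb.2
              have : 0 < (r : ℝ) - b := by linarith
              positivity
        _ = (∑ b ∈ Ico 1 r, (1 / (b : ℝ) + 1 / ((r : ℝ) - b))) *
              (Real.sqrt r * Real.sqrt N) := by rw [Finset.sum_mul]
        _ ≤ 2 * (1 + Real.log r) * (Real.sqrt r * Real.sqrt N) :=
            mul_le_mul_of_nonneg_right (FouC2_harm r h5) (by positivity)
    have t2 : 2 * Real.sqrt N ≤ Real.sqrt r * Real.sqrt N :=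
      mul_le_mul_of_nonneg_right hsr hsN
    nlinarith
  have hsum : ∑ x ∈ range r, F x ^ 2 ≤ r * (2 * Real.log r + 3) ^ 2 * N := by
    have hA0 : 0 ≤ ∑ x ∈ range r, F x ^ 2 := Finset.sum_nonneg fun _ _ => sq_nonneg _
    have := pow_le_pow_left₀ (Real.sqrt_nonneg _) hmain 2
    rw [Real.sq_sqrt hA0, mul_pow, mul_pow, Real.sq_sqrt hr0.le, Real.sq_sqrt hN0] at this
    exact this
  refine le_trans ?_ hsum
  refine Finset.sum_le_sum_of_subset_of_nonneg ?_ fun _ _ _ => sq_nonneg _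
  intro x hx
  rw [Finset.mem_Ico] at hx
  exact Finset.mem_range.2 hx.2

/-- PROOF. Fix `0 < ρ < 1`, `d` from `coef`, `‖V‖ = sqrt (∑ V h ^ 2)`. By Minkowski's inequality for the `ℓ²` norm over `x < r`
(norm of `EuclideanSpace ℂ (Fin r)`) and `pars` the norm of `x ↦ ∑_h V_h log ‖1 + ρ z ζ^(x h)‖
= 1/2 ∑_b d b ∑_h V_h ζ^(b x h)` is at most `1/2 ‖d 0‖ √r |∑ V_h| + 1/2 ∑_{1 ≤ b < r} ‖d b‖ √r ‖V‖
≤ 2 ‖V‖ + 2 √r (1 + log r) ‖V‖ ≤ √r (2 log r + 3) ‖V‖` (`|∑ V_h| ≤ √r ‖V‖`, `r ≥ 5`, harmonic sum). Let `ρ → 1` (`one_add_ne`) and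
restrict the sum to `1 ≤ x < r`. -/
theorem opb (σ : Bool) (r : ℕ) (hr : r.Prime) (h5 : 5 ≤ r) (V : ℕ → ℝ) :
    ∑ x ∈ Ico 1 r, (∑ h ∈ Ico 1 r, V h * ell σ r ((x : ℤ) * (h : ℤ))) ^ 2 ≤
      r * (2 * Real.log r + 3) ^ 2 * ∑ h ∈ Ico 1 r, V h ^ 2 := by
  have hc : ∀ w : ℂ, 1 + w ≠ 0 → Filter.Tendsto (fun ρ : ℝ => Real.log ‖1 + (ρ : ℂ) * w‖)
      (nhdsWithin 1 (Set.Iio 1)) (nhds (Real.log ‖1 + w‖)) := by
    intro w hw
    have h1 : ContinuousAt (fun ρ : ℝ => Real.log ‖1 + (ρ : ℂ) * w‖) 1 := by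
      refine ContinuousAt.log (by fun_prop) ?_
      rw [Complex.ofReal_one, one_mul]
      exact norm_ne_zero_iff.2 hw
    have h2 := h1.tendsto
    rw [Complex.ofReal_one, one_mul] at h2
    exact h2.mono_left nhdsWithin_le_nhds
  have hlim : Filter.Tendsto (fun ρ : ℝ => ∑ x ∈ Ico 1 r, (∑ h ∈ Ico 1 r, V h *
      Real.log ‖1 + (ρ : ℂ) * (zt σ *
      Complex.exp (2 * Real.pi * Complex.I * (((x : ℤ) * (h : ℤ) : ℤ) : ℂ) / r))‖) ^ 2)
      (nhdsWithin 1 (Set.Iio 1))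
      (nhds (∑ x ∈ Ico 1 r, (∑ h ∈ Ico 1 r, V h * ell σ r ((x : ℤ) * (h : ℤ))) ^ 2)) := by
    refine tendsto_finsetSum _ fun x _ => ?_
    refine Filter.Tendsto.pow ?_ 2
    refine tendsto_finsetSum _ fun h _ => ?_
    refine Filter.Tendsto.const_mul _ ?_
    exact hc _ (one_add_ne σ r hr h5 _)
  refine le_of_tendsto hlim ?_
  filter_upwards [Ioo_mem_nhdsLT (zero_lt_one : (0 : ℝ) < 1)] with ρ hρ
  exact FouC2_rho σ r hr h5 V ρ hρ.1 hρ.2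

end Pool.Agent.W_420c7c_h51
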