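import Pool.Agent.W_420c7c_h51.NormB1

set_option autoImplicit false

/-!
# Powers of the roots of unity
-/

namespace Pool.Agent.W_420c7c_h51

open Finset

private theorem nc1_sgn3_mod {x : ℕ} (h : ¬ 3 ∣ x) : sgn3 x ≡ 1 [ZMOD 3] := by
  unfold sgn3 Int.ModEq
  split_ifs with h1 <;> omega

private theorem nc1_sgn3_abs (x : ℕ) : (sgn3 x).natAbs = x := by
  unfold sgn3
  split_ifs <;> simp

private theorem nc1_smon_mod {p m : ℕ} (hp3 : ¬ 3 ∣ p) (hm3 : ¬ 3 ∣ m) (w : ℕ × ℕ) :
    smon p m w ≡ 1 [ZMOD 3] := by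
  unfold smon
  have h1 := (nc1_sgn3_mod hp3).pow w.1
  have h2 := (nc1_sgn3_mod hm3).pow w.2
  have h3 := h1.mul h2
  simpa using h3

private theorem nc1_smon_abs (p m : ℕ) (w : ℕ × ℕ) : (smon p m w).natAbs = mon p m w := by
  unfold smon mon
  rw [Int.natAbs_mul, Int.natAbs_pow, Int.natAbs_pow, nc1_sgn3_abs, nc1_sgn3_abs]

private theorem nc1_conj_exp (t : ℝ) :
    (starRingEnd ℂ) (Complex.exp (t * Complex.I)) = Complex.exp (-(t * Complex.I)) := by
  rw [← Complex.exp_conj]
  simp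

/-- PROOF. `[w] = mon p m w`. For `σ = false`: `ζ^(x [w])` or its conjugate `ζ^(-x [w])` is `ζ^(x smon)`. For `σ = true` (`3 ∤ p m`):
`(ω ζ^x)^[w] = ω^[w] ζ^(x [w])`, `ω^[w] = ω` if `[w] ≡ 1 mod 3`, and then `smon = [w]`; otherwise `ω^[w] = conj ω`,
`smon = -[w]` and the number is the conjugate of `ω ζ^(-x [w])`. (`smon p m w = ± mon p m w` and `≡ 1 mod 3`.) -/
theorem norm_pow (σ : Bool) {p m r : ℕ} (hp3 : ¬ 3 ∣ p) (hm3 : ¬ 3 ∣ m) (w : ℕ × ℕ) (x : ℕ) :
    Real.log ‖1 + (zt σ * zr r ^ x) ^ (mon p m w)‖ = ell σ r ((x : ℤ) * smon p m w) := by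
  have hmod := nc1_smon_mod hp3 hm3 w
  have habs := nc1_smon_abs p m w
  set M := mon p m w with hM
  set s := smon p m w with hs
  have hdv : (3 : ℤ) ∣ s - 1 := (Int.modEq_iff_dvd.mp hmod.symm)
  obtain ⟨k, hk⟩ := hdv
  have hs1 : s = 3 * k + 1 := by omega
  have hz : (zr r ^ x) ^ M = Complex.exp (((2 * Real.pi * (x * M) / r : ℝ) : ℂ) * Complex.I) := by
    unfold zr
    rw [← pow_mul, ← Complex.exp_nat_mul]
    congr 1
    push_cast
    ring
  unfold ell
  rw [mul_pow, hz]
  rcases Int.natAbs_eq s with h | h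
  · -- `s = M`
    rw [habs] at h
    have hzt : zt σ ^ M = zt σ := by
      unfold zt
      cases σ with
      | false => simp
      | true =>
        simp only [if_true]
        rw [← Complex.exp_nat_mul]
        have hMc : (M : ℂ) = 3 * (k : ℂ) + 1 := by
          have h' : (M : ℤ) = 3 * k + 1 := by omega
          exact_mod_cast h'
        have e1 : (M : ℂ) * (2 * Real.pi * Complex.I / 3)
            = (k : ℂ) * (2 * Real.pi * Complex.I) + 2 * Real.pi * Complex.I / 3 := by
          rw [hMc]; ring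
        rw [e1, Complex.exp_add, Complex.exp_int_mul_two_pi_mul_I, one_mul]
    rw [hzt]
    congr 4
    congr 1
    rw [h]
    push_cast
    ring
  · -- `s = -M`
    rw [habs] at h
    have hzt : zt σ ^ M = (starRingEnd ℂ) (zt σ) := by
      unfold zt
      cases σ with
      | false => simp
      | true =>
        simp only [if_true]
        rw [← Complex.exp_nat_mul]
        have hMc : (M : ℂ) = -(3 * (k : ℂ) + 1) := by
          have h' : (M : ℤ) = -(3 * k + 1) := by omega
          exact_mod_cast h'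
        have e0 : (2 * Real.pi * Complex.I / 3 : ℂ) = ((2 * Real.pi / 3 : ℝ) : ℂ) * Complex.I := by
          push_cast; ring
        rw [e0, nc1_conj_exp]
        have e1 : (M : ℂ) * (((2 * Real.pi / 3 : ℝ) : ℂ) * Complex.I)
            = ((-k : ℤ) : ℂ) * (2 * Real.pi * Complex.I)
              + -(((2 * Real.pi / 3 : ℝ) : ℂ) * Complex.I) := by
          rw [hMc]; push_cast; ring
        rw [e1, Complex.exp_add, Complex.exp_int_mul_two_pi_mul_I, one_mul]
    have hE : Complex.exp (((2 * Real.pi * (x * M) / r : ℝ) : ℂ) * Complex.I)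
        = (starRingEnd ℂ) (Complex.exp (2 * Real.pi * Complex.I * (((x : ℤ) * s : ℤ) : ℂ) / r)) := by
      have e2 : (2 * Real.pi * Complex.I * (((x : ℤ) * s : ℤ) : ℂ) / r : ℂ)
          = ((-(2 * Real.pi * (x * M) / r) : ℝ) : ℂ) * Complex.I := by
        rw [h]; push_cast; ring
      rw [e2, nc1_conj_exp]
      congr 1
      push_cast
      ring
    rw [hzt, hE, ← map_mul]
    have h1 : (1 : ℂ) + (starRingEnd ℂ)
        (zt σ * Complex.exp (2 * Real.pi * Complex.I * (((x : ℤ) * s : ℤ) : ℂ) / r))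
        = (starRingEnd ℂ)
          (1 + zt σ * Complex.exp (2 * Real.pi * Complex.I * (((x : ℤ) * s : ℤ) : ℂ) / r)) := by
      rw [map_add, map_one]
    rw [h1, Complex.norm_conj]

end Pool.Agent.W_420c7c_h51
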