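import Pool.Agent.W_420c7c_h51.NormB2
import Pool.Agent.W_420c7c_h51.NormC1
import Pool.Agent.W_420c7c_h88.NormBound
import Pool.Agent.W_420c7c_h88.Intro

set_option autoImplicit false
open Polynomial

/-!
# The norm lemma: short relations hold in characteristic zero
-/

namespace Pool.Agent.W_420c7c_h51

open Finset

/-- the product of the powers `(1 + z ^ [w]) ^ g w` -/
private noncomputable def ncv {A : Type} [CommRing A] (z : A) (p m : ℕ) (D : Finset (ℕ × ℕ))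
    (g : ℕ × ℕ → ℕ) : A :=
  ∏ w ∈ D, (1 + z ^ mon p m w) ^ g w

private lemma nc_aeval {A : Type} [CommRing A] (z : A) (p m : ℕ) (D : Finset (ℕ × ℕ))
    (g : ℕ × ℕ → ℕ) : aeval z (ncv (X : ℤ[X]) p m D g) = ncv z p m D g := by
  unfold ncv
  simp only [map_prod, map_pow, map_add, map_one, aeval_X]

private lemma nc_intro {F : Type} [Field F] {z : F} {p m : ℕ} (hi : ∀ w, W_420c7c_h88.Intro z (mon p m w))
    (u : ℕ) (D : Finset (ℕ × ℕ)) (g : ℕ × ℕ → ℕ) :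
    ncv (z ^ u) p m D g = (1 + z ^ u) ^ (∑ w ∈ D, mon p m w * g w) := by
  unfold ncv
  rw [← Finset.prod_pow_eq_pow_sum]
  refine Finset.prod_congr rfl fun w _ => ?_
  rw [pow_mul, hi w u, ← pow_mul]

private lemma nc_zero {F : Type} [Field F] {z : F} {p m : ℕ}
    (hi : ∀ w, W_420c7c_h88.Intro z (mon p m w)) (u : ℕ) (D : Finset (ℕ × ℕ)) (g g' : ℕ × ℕ → ℕ)
    (h : ∑ w ∈ D, mon p m w * g w = ∑ w ∈ D, mon p m w * g' w) :
    aeval (z ^ u) (ncv (X : ℤ[X]) p m D g - ncv (X : ℤ[X]) p m D g') = 0 := by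
  rw [map_sub, nc_aeval, nc_aeval, nc_intro hi, nc_intro hi, h, sub_self]

private lemma nc_md_odd (σ : Bool) {r : ℕ} (hr : r.Prime) (h5 : 5 ≤ r) : Odd (md σ r) := by
  have h : Odd r := hr.odd_of_ne_two (by omega)
  unfold md
  split_ifs
  · exact (by decide : Odd 3).mul h
  · exact h

private lemma nc_ne (σ : Bool) {r : ℕ} (hr : r.Prime) (h5 : 5 ≤ r) {x : ℕ} (hx : x ∈ Ico 1 r)
    (k : ℕ) : 1 + (zt σ * zr r ^ x) ^ k ≠ 0 := by
  intro h
  have h1 : (zt σ * zr r ^ x) ^ k = -1 := by linear_combination h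
  have h2 := (zt_prim σ hr h5 hx).pow_eq_one
  have h3 : ((zt σ * zr r ^ x) ^ k) ^ md σ r = 1 := by
    rw [pow_right_comm, h2, one_pow]
  rw [h1, (nc_md_odd σ hr h5).neg_one_pow] at h3
  norm_num at h3

private lemma nc_log (σ : Bool) {p m r : ℕ} (hr : r.Prime) (h5 : 5 ≤ r) (hp3 : ¬ 3 ∣ p)
    (hm3 : ¬ 3 ∣ m) {x : ℕ} (hx : x ∈ Ico 1 r) (D : Finset (ℕ × ℕ)) (g : ℕ × ℕ → ℕ) :
    Real.log ‖ncv (zt σ * zr r ^ x) p m D g‖ =
      ∑ w ∈ D, (g w : ℝ) * ell σ r ((x : ℤ) * smon p m w) := by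
  unfold ncv
  rw [norm_prod, Real.log_prod (fun w _ => norm_ne_zero_iff.2 (pow_ne_zero _ (nc_ne σ hr h5 hx _)))]
  refine Finset.sum_congr rfl fun w _ => ?_
  rw [_root_.norm_pow, Real.log_pow, norm_pow σ hp3 hm3]

private lemma nc_ncv_ne (σ : Bool) {p m r : ℕ} (hr : r.Prime) (h5 : 5 ≤ r)
    {x : ℕ} (hx : x ∈ Ico 1 r) (D : Finset (ℕ × ℕ)) (g : ℕ × ℕ → ℕ) :
    ncv (zt σ * zr r ^ x) p m D g ≠ 0 :=
  Finset.prod_ne_zero_iff.2 fun _ _ => pow_ne_zero _ (nc_ne σ hr h5 hx _)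

private lemma nc_sgn3 {x r : ℕ} (h : ¬ r ∣ x) : ¬ (r : ℤ) ∣ sgn3 x := by
  unfold sgn3
  split_ifs
  · exact fun h' => h (Int.natCast_dvd_natCast.1 h')
  · exact fun h' => h (Int.natCast_dvd_natCast.1 ((dvd_neg).1 h'))

private lemma nc_smon {p m r : ℕ} (hr : r.Prime) (hp : ¬ r ∣ p) (hm : ¬ r ∣ m) (w : ℕ × ℕ) :
    ¬ (r : ℤ) ∣ smon p m w := by
  have hr' : Prime (r : ℤ) := Nat.prime_iff_prime_int.1 hr
  unfold smon
  intro h
  rcases hr'.dvd_or_dvd h with h | h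
  · exact nc_sgn3 hp (hr'.dvd_of_dvd_pow h)
  · exact nc_sgn3 hm (hr'.dvd_of_dvd_pow h)

/-- PROOF. Let `f⁺ = max f 0`, `f⁻ = max (-f) 0` (natural numbers),
`P = ∏_{w ∈ D} (1 + X^[w])^(f⁺ w) - ∏_{w ∈ D} (1 + X^[w])^(f⁻ w) ∈ ℤ[X]`, `[w] = mon p (n / p) w`.
Let `F` be an algebraic closure of `ZMod p` and `z ∈ F` a primitive root of unity of order `R = md σ r` (`p ∤ R`).
By `W_420c7c_h88.intro_n, intro_p, intro_div, intro_mul, intro_pow` the number `[w]` is introspective for every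
`z' = z^u`: `1 + z'^[w] = (1 + z')^[w]`, so `P(z') = (1+z')^(∑ f⁺ [w]) - (1+z')^(∑ f⁻ [w]) = 0` by `hv`. If `P` does
not vanish at any `zt σ * zr r ^ x`, then `prod_ge'` gives `(r-1) log p ≤ ∑_x log ‖P(z ζ^x)‖`, and with
`log ‖α - β‖ ≤ log 2 + (log ‖α‖ + log ‖β‖) / 2 + |log ‖α‖ - log ‖β‖| / 2` (`W_420c7c_h88.nb_log_sub`; import
`Pool.Agent.W_420c7c_h88.NormBound`), `log ‖∏ (1 + (zζ^x)^[w])^(f⁺ w)‖ = ∑ f⁺ w * ell σ r (x smon w)` (`norm_pow`; no factor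
vanishes because `1 + y = 0` is impossible for `y` of odd order) and `sum_ell` (`r ∤ smon w`, as `r ∤ n`) one
gets `(r - 1) log p ≤ (r - 1) log 2 + (r - 1) l1 / 2`: contradiction. So `P` vanishes at some `z ζ^x`, hence at all
(`zero_all'`), and taking logarithms of the norms `XX = 0`. -/
theorem rel_zero {n p : ℕ} (hC : W_420c7c_h88.CondC n) (hp : p.Prime) (hpn : p ∣ n) (hn : n ≠ 0)
    (hn3 : ¬ 3 ∣ n) (σ : Bool) {r : ℕ} (hr : r.Prime) (h5 : 5 ≤ r)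
    (hrL : (md σ r : ℝ) ≤ (Real.logb 2 (n : ℝ)) ^ 2) (hrn : ¬ r ∣ n)
    (D : Finset (ℕ × ℕ)) (f : ℕ × ℕ → ℤ) (hv : vv p (n / p) D f = 0)
    (hl : l1 σ r p (n / p) D (fun w => (f w : ℝ)) < 2 * (Real.log p - Real.log 2)) :
    ∀ x ∈ Ico 1 r, XX σ r p (n / p) D (fun w => (f w : ℝ)) x = 0 := by
  obtain ⟨m, rfl⟩ := hpn
  rw [Nat.mul_div_cancel_left _ hp.pos] at hv hl ⊢
  have hrp : ¬ r ∣ p := fun h => hrn (h.mul_right m)
  have hrm : ¬ r ∣ m := fun h => hrn (h.mul_left p)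
  have hp3 : ¬ 3 ∣ p := fun h => hn3 (h.mul_right m)
  have hm3 : ¬ 3 ∣ m := fun h => hn3 (h.mul_left p)
  have : Fact p.Prime := ⟨hp⟩
  set R := md σ r with hR
  have hR0 : 1 ≤ R := by
    rw [hR]; unfold md; split_ifs <;> omega
  have hpR : ¬ p ∣ R := by
    rw [hR]; unfold md
    have h1 : ¬ p ∣ r := fun h => hrp ((Nat.prime_dvd_prime_iff_eq hp hr).1 h ▸ dvd_rfl)
    split_ifs
    · intro h
      rcases (Nat.Prime.dvd_mul hp).1 h with h | h
      · exact hp3 ((Nat.prime_dvd_prime_iff_eq hp Nat.prime_three).1 h ▸ dvd_rfl)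
      · exact h1 h
    · exact h1
  let F := AlgebraicClosure (ZMod p)
  have : CharP F p := charP_of_injective_algebraMap (algebraMap (ZMod p) F).injective p
  have : NeZero (R : F) := ⟨fun h => hpR ((CharP.cast_eq_zero_iff F p R).1 h)⟩
  obtain ⟨z, hz⟩ := HasEnoughRootsOfUnity.exists_primitiveRoot F R
  have hin : W_420c7c_h88.Intro z (p * m) :=
    W_420c7c_h88.intro_n hC (dvd_mul_right p m) hR0 hrL hz.pow_eq_one
  have him : W_420c7c_h88.Intro z m := W_420c7c_h88.intro_div hin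
  have hiw : ∀ w, W_420c7c_h88.Intro z (mon p m w) := fun w =>
    W_420c7c_h88.intro_mul (W_420c7c_h88.intro_pow (W_420c7c_h88.intro_p z) _)
      (W_420c7c_h88.intro_pow him _)
  set fp : ℕ × ℕ → ℕ := fun w => (f w).toNat with hfp
  set fm : ℕ × ℕ → ℕ := fun w => (-f w).toNat with hfm
  have hff : ∀ w, ((fp w : ℤ) - (fm w : ℤ)) = f w := fun w => by
    simp only [hfp, hfm]; omega
  have hffR : ∀ w, ((fp w : ℝ) - (fm w : ℝ)) = (f w : ℝ) := fun w => by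
    have := congrArg (fun t : ℤ => (t : ℝ)) (hff w)
    push_cast at this
    exact this
  have hsum : ∑ w ∈ D, mon p m w * fp w = ∑ w ∈ D, mon p m w * fm w := by
    have h1 : ((∑ w ∈ D, mon p m w * fp w : ℕ) : ℤ) - ((∑ w ∈ D, mon p m w * fm w : ℕ) : ℤ) = 0 := by
      push_cast
      rw [← Finset.sum_sub_distrib]
      unfold vv at hv
      rw [← hv]
      refine Finset.sum_congr rfl fun w _ => ?_
      rw [← mul_sub, hff, mul_comm]
    exact_mod_cast sub_eq_zero.1 h1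
  set P : ℤ[X] := ncv (X : ℤ[X]) p m D fp - ncv (X : ℤ[X]) p m D fm with hP
  have hXX : ∀ x ∈ Ico 1 r, Real.log ‖ncv (zt σ * zr r ^ x) p m D fp‖ -
      Real.log ‖ncv (zt σ * zr r ^ x) p m D fm‖ = XX σ r p m D (fun w => (f w : ℝ)) x := by
    intro x hx
    rw [nc_log σ hr h5 hp3 hm3 hx, nc_log σ hr h5 hp3 hm3 hx, ← Finset.sum_sub_distrib]
    unfold XX
    refine Finset.sum_congr rfl fun w _ => ?_
    rw [← sub_mul, hffR]
  by_cases hex : ∃ x ∈ Ico 1 r, aeval (zt σ * zr r ^ x) P = 0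
  · obtain ⟨x₀, hx₀, h0⟩ := hex
    intro x hx
    have h1 := zero_all' σ r hr h5 P hx₀ h0 x hx
    rw [hP, map_sub, nc_aeval, nc_aeval, sub_eq_zero] at h1
    rw [← hXX x hx, h1, sub_self]
  · exfalso
    push Not at hex
    have h1 := prod_ge' σ p r hp hr h5 hz P (fun u _ => nc_zero hiw u D fp fm hsum) hex
    have hr1 : (0 : ℝ) < (r : ℝ) - 1 := by
      have : (5 : ℝ) ≤ r := by exact_mod_cast h5
      linarith
    have hp0 : (0 : ℝ) < p := by exact_mod_cast hp.pos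
    have h2 : ((r : ℝ) - 1) * Real.log p ≤
        ∑ x ∈ Ico 1 r, Real.log ‖aeval (zt σ * zr r ^ x) P‖ := by
      rw [← Real.log_prod (fun x hx => norm_ne_zero_iff.2 (hex x hx))]
      have h3 : ((r : ℝ) - 1) * Real.log p = Real.log ((p : ℝ) ^ (r - 1)) := by
        rw [Real.log_pow, Nat.cast_sub (by omega), Nat.cast_one]
      rw [h3]
      exact Real.log_le_log (pow_pos hp0 _) h1
    have h4 : ∀ x ∈ Ico 1 r, Real.log ‖aeval (zt σ * zr r ^ x) P‖ ≤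
        Real.log 2 + ((∑ w ∈ D, (fp w : ℝ) * ell σ r ((x : ℤ) * smon p m w)) +
          ∑ w ∈ D, (fm w : ℝ) * ell σ r ((x : ℤ) * smon p m w)) / 2 +
          |XX σ r p m D (fun w => (f w : ℝ)) x| / 2 := by
      intro x hx
      have h5' := hex x hx
      rw [hP, map_sub, nc_aeval, nc_aeval] at h5' ⊢
      have h6 := W_420c7c_h88.nb_log_sub (nc_ncv_ne σ hr h5 hx D fp) (nc_ncv_ne σ hr h5 hx D fm) h5'
      rw [hXX x hx, nc_log σ hr h5 hp3 hm3 hx, nc_log σ hr h5 hp3 hm3 hx] at h6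
      exact h6
    have h7 := h2.trans (Finset.sum_le_sum h4)
    have h8 : ∀ g : ℕ × ℕ → ℕ,
        ∑ x ∈ Ico 1 r, ∑ w ∈ D, (g w : ℝ) * ell σ r ((x : ℤ) * smon p m w) = 0 := by
      intro g
      rw [Finset.sum_comm]
      refine Finset.sum_eq_zero fun w _ => ?_
      rw [← Finset.mul_sum, sum_ell σ r hr h5 _ (nc_smon hr hrp hrm w), mul_zero]
    rw [Finset.sum_add_distrib, Finset.sum_add_distrib, ← Finset.sum_div, Finset.sum_add_distrib,
      h8, h8, ← Finset.sum_div, Finset.sum_const, Nat.card_Ico, nsmul_eq_mul,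
      Nat.cast_sub (by omega), Nat.cast_one] at h7
    unfold l1 av at hl
    rw [div_lt_iff₀ hr1] at hl
    linarith

end Pool.Agent.W_420c7c_h51
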