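import Pool.Agent.W_420c7c_h51.VanD1

set_option autoImplicit false

/-!
# Relations vanish modulo `r`
-/

namespace Pool.Agent.W_420c7c_h51

open Finset

/-- the exponents for which the relations vanish modulo `r` -/
def Exk (σ : Bool) (r k : ℕ) : Prop :=
  if σ then Odd k ∧ ¬ (r : ℤ) ∣ 2 ^ k + 1 else Even k ∧ ¬ (r : ℤ) ∣ 2 ^ k - 1

/-- PROOF. Let `g` generate `(ZMod r)ˣ` (cyclic of order `r - 1`), `ξ = exp (2 π i / (r - 1))`, `χ` the Dirichlet character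
with `χ (g ^ i) = ξ ^ (- k i)` (`χ (-1) = (-1)^k`, and `χ 2 = ± 1` iff `2^k = ± 1` in `ZMod r`). `char_zero` gives
`∑ f w ξ^(k i_w) = 0` where `h w = g ^ i_w`. The integer polynomial `P = ∑ f w X^(k i_w)` vanishes at the primitive root
`ξ`, so `Φ_(r-1)` divides it (`Polynomial.cyclotomic_eq_minpoly`, `minpoly.isIntegrallyClosed_dvd`), and
`Φ_(r-1) (g) = 0` in `ZMod r` (`Polynomial.isRoot_cyclotomic`), so `∑ f w g^(k i_w) = ∑ f w (h w)^k = 0` in `ZMod r`. -/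
theorem van (σ : Bool) (r : ℕ) (hr : r.Prime) (h5 : 5 ≤ r) (D : Finset (ℕ × ℕ))
    (f : ℕ × ℕ → ℤ) (h : ℕ × ℕ → ℤ) (hh : ∀ w ∈ D, ¬ (r : ℤ) ∣ h w)
    (hX : ∀ x ∈ Ico 1 r, ∑ w ∈ D, (f w : ℝ) * ell σ r ((x : ℤ) * h w) = 0)
    (k : ℕ) (hk : Exk σ r k) : (r : ℤ) ∣ ∑ w ∈ D, f w * h w ^ k := by
  classical
  have : Fact r.Prime := ⟨hr⟩
  obtain ⟨g, hg⟩ := IsCyclic.exists_generator (α := (ZMod r)ˣ)
  have hord : orderOf g = r - 1 := by
    rw [orderOf_eq_card_of_forall_mem_zpowers hg, Nat.card_eq_fintype_card, ZMod.card_units]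
  have hn : r - 1 ≠ 0 := by omega
  have hξ := Complex.isPrimitiveRoot_exp (r - 1) hn
  set ξ : ℂ := Complex.exp (2 * Real.pi * Complex.I / ((r - 1 : ℕ) : ℂ)) with hξd
  obtain ⟨ξu, hξu⟩ := hξ.isUnit hn
  have hξp : IsPrimitiveRoot ξu (r - 1) := by
    rw [← IsPrimitiveRoot.coe_units_iff, hξu]; exact hξ
  have hξo : orderOf ξu = r - 1 := hξp.eq_orderOf.symm
  have hmem : ξu ∈ rootsOfUnity (Fintype.card (ZMod r)ˣ) ℂ := by
    rw [mem_rootsOfUnity, ZMod.card_units r, ← hξo, pow_orderOf_eq_one]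
  set χ₀ : MulChar (ZMod r) ℂ := MulChar.ofRootOfUnity hmem hg with hχ₀
  have hχg : χ₀ (g : ZMod r) = ξu := MulChar.ofRootOfUnity_spec hmem hg
  have hex : ∀ a : ZMod r, a ≠ 0 → ∃ i : ℕ, ((g ^ i : (ZMod r)ˣ) : ZMod r) = a := by
    intro a ha
    have h1 := hg (Units.mk0 a ha)
    rw [← mem_powers_iff_mem_zpowers] at h1
    obtain ⟨i, hi⟩ := h1
    refine ⟨i, ?_⟩
    simp only at hi
    rw [hi]; rfl
  have hχp : ∀ i : ℕ, χ₀ ((g ^ i : (ZMod r)ˣ) : ZMod r) = ((ξu ^ i : ℂˣ) : ℂ) := by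
    intro i
    rw [Units.val_pow_eq_pow_val, map_pow, hχg, Units.val_pow_eq_pow_val]
  have hinj : ∀ a b : ZMod r, a ≠ 0 → b ≠ 0 → χ₀ a = χ₀ b → a = b := by
    intro a b ha hb hab
    obtain ⟨i, rfl⟩ := hex a ha
    obtain ⟨j, rfl⟩ := hex b hb
    rw [hχp, hχp] at hab
    have h1 : ξu ^ i = ξu ^ j := Units.ext hab
    rw [pow_eq_pow_iff_modEq, hξo, ← hord, ← pow_eq_pow_iff_modEq] at h1
    rw [h1]
  have hk0 : k ≠ 0 := by
    rintro rfl
    unfold Exk at hk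
    cases σ
    · simp at hk
    · simp at hk
  have h2r : (2 : ZMod r) ≠ 0 := by
    have h1 : ((2 : ℕ) : ZMod r) ≠ 0 := by
      rw [Ne, ZMod.natCast_eq_zero_iff]
      intro h2
      have := Nat.le_of_dvd (by norm_num) h2
      omega
    exact_mod_cast h1
  have hm1 : (-1 : ZMod r) ≠ 1 := by
    intro h1
    apply h2r
    linear_combination -h1
  have hχm : χ₀ (-1) = -1 := by
    have h1 : χ₀ (-1) * χ₀ (-1) = 1 := by
      rw [← map_mul]; simp
    rcases mul_self_eq_one_iff.1 h1 with h2 | h2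
    · exfalso
      apply hm1
      exact hinj _ _ (neg_ne_zero.2 one_ne_zero) one_ne_zero (by rw [h2, map_one])
    · exact h2
  -- the character
  set χ : DirichletCharacter ℂ r := (χ₀ ^ k)⁻¹ with hχ
  have hχv : ∀ a : ZMod r, χ a = (χ₀ a ^ k)⁻¹ := by
    intro a
    rw [hχ, MulChar.inv_apply_eq_inv', MulChar.pow_apply' _ hk0]
  have hcond : if σ then χ (-1) = -1 ∧ χ 2 ≠ -1 else χ (-1) = 1 ∧ χ 2 ≠ 1 := by
    unfold Exk at hk
    cases σ
    · simp only [Bool.false_eq_true, if_false] at hk ⊢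
      obtain ⟨he, hd⟩ := hk
      refine ⟨by rw [hχv, hχm, he.neg_one_pow, inv_one], ?_⟩
      intro h2
      apply hd
      rw [hχv, inv_eq_one, ← map_pow] at h2
      have h3 : (2 : ZMod r) ^ k = 1 := hinj _ _ (pow_ne_zero _ h2r) one_ne_zero (by rw [h2, map_one])
      rw [← ZMod.intCast_zmod_eq_zero_iff_dvd]
      push_cast
      rw [h3, sub_self]
    · simp only [if_true] at hk ⊢
      obtain ⟨ho, hd⟩ := hk
      refine ⟨by rw [hχv, hχm, ho.neg_one_pow, inv_neg, inv_one], ?_⟩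
      intro h2
      apply hd
      rw [hχv, inv_eq_iff_eq_inv, inv_neg, inv_one, ← map_pow] at h2
      have h3 : (2 : ZMod r) ^ k = -1 :=
        hinj _ _ (pow_ne_zero _ h2r) (neg_ne_zero.2 one_ne_zero) (by rw [h2, hχm])
      rw [← ZMod.intCast_zmod_eq_zero_iff_dvd]
      push_cast
      rw [h3]; ring
  have hz := char_zero σ r h5 D f h hh hX χ hcond
  -- exponents
  have hhz : ∀ w ∈ D, ((h w : ℤ) : ZMod r) ≠ 0 := by
    intro w hw h1
    exact hh w hw ((ZMod.intCast_zmod_eq_zero_iff_dvd _ _).1 h1)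
  have hiw : ∀ w, ∃ i : ℕ, w ∈ D → ((g ^ i : (ZMod r)ˣ) : ZMod r) = ((h w : ℤ) : ZMod r) := by
    intro w
    by_cases hw : w ∈ D
    · obtain ⟨i, hi⟩ := hex _ (hhz w hw)
      exact ⟨i, fun _ => hi⟩
    · exact ⟨0, fun h => absurd h hw⟩
  choose iw hiw using hiw
  set P : Polynomial ℤ := ∑ w ∈ D, Polynomial.C (f w) * Polynomial.X ^ (iw w * k) with hP
  have hPz : Polynomial.aeval ξ P = 0 := by
    rw [hP, map_sum, ← hz]
    refine Finset.sum_congr rfl fun w hw => ?_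
    rw [map_mul, map_pow, Polynomial.aeval_X, Polynomial.aeval_C, hχv, inv_inv, ← hiw w hw, hχp,
      Units.val_pow_eq_pow_val, hξu, ← pow_mul]
    simp
  have hdvd : Polynomial.cyclotomic (r - 1) ℤ ∣ P := by
    rw [Polynomial.cyclotomic_eq_minpoly hξ (by omega)]
    exact minpoly.isIntegrallyClosed_dvd (hξ.isIntegral (by omega)) hPz
  have hgp : IsPrimitiveRoot (g : ZMod r) (r - 1) := by
    rw [IsPrimitiveRoot.coe_units_iff, ← hord]
    exact IsPrimitiveRoot.orderOf g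
  have hcg : Polynomial.aeval (g : ZMod r) (Polynomial.cyclotomic (r - 1) ℤ) = 0 := by
    have h1 := hgp.isRoot_cyclotomic (show 0 < r - 1 by omega)
    rw [Polynomial.IsRoot.def, ← Polynomial.map_cyclotomic_int, Polynomial.eval_map] at h1
    rw [Polynomial.aeval_def]
    exact h1
  have hPg : Polynomial.aeval (g : ZMod r) P = 0 := by
    obtain ⟨q, hq⟩ := hdvd
    rw [hq, map_mul, hcg, zero_mul]
  rw [← ZMod.intCast_zmod_eq_zero_iff_dvd, Int.cast_sum, ← hPg, hP, map_sum]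
  refine Finset.sum_congr rfl fun w hw => ?_
  rw [map_mul, map_pow, Polynomial.aeval_X, Polynomial.aeval_C, pow_mul, ← Units.val_pow_eq_pow_val,
    hiw w hw]
  push_cast
  simp

end Pool.Agent.W_420c7c_h51
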