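import Pool.Agent.W_420c7c_h51.PairA
import Pool.Agent.W_420c7c_h51.NormC2
import Pool.Agent.W_420c7c_h51.VanD2
import Pool.Agent.W_420c7c_h51.ArA0

set_option autoImplicit false

/-!
# The relations of the family vanish modulo `r`
-/

namespace Pool.Agent.W_420c7c_h51

open Finset

private theorem maA_sgn3_dvd {r x : ℕ} (h : (r : ℤ) ∣ sgn3 x) : r ∣ x := by
  unfold sgn3 at h
  split_ifs at h
  · exact_mod_cast h
  · rw [dvd_neg] at h
    exact_mod_cast h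

private theorem maA_smon {p m r : ℕ} (hr : r.Prime) (hrn : ¬ r ∣ p * m) (w : ℕ × ℕ) :
    ¬ (r : ℤ) ∣ smon p m w := by
  intro h
  have hr' : Prime (r : ℤ) := Nat.prime_iff_prime_int.1 hr
  unfold smon at h
  rcases hr'.dvd_or_dvd h with h1 | h1
  · exact hrn (Dvd.dvd.mul_right (maA_sgn3_dvd (hr'.dvd_of_dvd_pow h1)) m)
  · exact hrn (Dvd.dvd.mul_left (maA_sgn3_dvd (hr'.dvd_of_dvd_pow h1)) p)

/-- The relations of the family vanish modulo `r`. PROOF. `rel_zero` and `van` with `h w = smon p m w`; `Sm` gives the hypothesis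
`hl`; `md σ r ≤ (log₂ n)²`, `n = p m`. `smon p m w ^ k = (sgn3 p ^ k)^w.1 * (sgn3 m ^ k)^w.2`. -/
theorem ev_zero {p m : ℕ} (hp : p.Prime) (hm : 0 < m) (hC : W_420c7c_h88.CondC (p * m))
    (h3 : ¬ 3 ∣ p * m) {D : Finset (ℕ × ℕ)} {d g : ℕ × ℕ → ℤ} (hg : g ∈ OPS d)
    (hv : vv p m D g = 0) (σ : Bool) {r : ℕ} (hr : r.Prime) (h5 : 5 ≤ r) (hrn : ¬ r ∣ p * m)
    (hrL : (md σ r : ℝ) ≤ (Real.logb 2 ((p * m : ℕ) : ℝ)) ^ 2) (hs : Sm p m D d r) (k : ℕ)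
    (hk : Exk σ r k) : (r : ℤ) ∣ ev D g (sgn3 p ^ k) (sgn3 m ^ k) := by
  have hdiv : p * m / p = m := Nat.mul_div_cancel_left m hp.pos
  have hn0 : p * m ≠ 0 := Nat.mul_ne_zero hp.ne_zero hm.ne'
  have h1 := rel_zero hC hp (dvd_mul_right p m) hn0 h3 σ hr h5 hrL hrn D g
    (by rw [hdiv]; exact hv) (by rw [hdiv]; exact hs σ g hg)
  rw [hdiv] at h1
  have h2 := van σ r hr h5 D g (fun w => smon p m w) (fun w _ => maA_smon hr hrn w)
    (fun x hx => h1 x hx) k hk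
  have h4 : ev D g (sgn3 p ^ k) (sgn3 m ^ k) = ∑ w ∈ D, g w * smon p m w ^ k := by
    unfold ev smon
    refine Finset.sum_congr rfl (fun w _ => ?_)
    rw [Int.cast_id, mul_pow, ← pow_mul, ← pow_mul, ← pow_mul, ← pow_mul, mul_assoc,
      mul_comm k w.1, mul_comm k w.2]
  rw [h4]
  exact h2

end Pool.Agent.W_420c7c_h51
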