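import Pool.Agent.W_420c7c_h51.PntA
import Pool.Agent.W_420c7c_h51.CntC

set_option autoImplicit false

/-!
# The masses
-/

namespace Pool.Agent.W_420c7c_h51

open Finset

private lemma maB_union (A B : Finset ℕ) :
    ∑ x ∈ A ∪ B, Real.log x ≤ ∑ x ∈ A, Real.log x + ∑ x ∈ B, Real.log x := by
  rw [← Finset.sum_union_inter]
  have : 0 ≤ ∑ x ∈ A ∩ B, Real.log x := Finset.sum_nonneg fun x _ => Real.log_natCast_nonneg x
  linarith

private lemma maB_sub {A B : Finset ℕ} (h : A ⊆ B) :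
    ∑ x ∈ A, Real.log x ≤ ∑ x ∈ B, Real.log x :=
  Finset.sum_le_sum_of_subset_of_nonneg h fun x _ _ => Real.log_natCast_nonneg x

private lemma maB_theta (a : ℕ) (ha : a = 1 ∨ a = 3) : ∃ N : ℝ, ∀ x : ℝ, N ≤ x → 0 < x →
    0.4998 * x ≤ ∑ r ∈ (range (⌊x⌋₊ + 1)).filter (fun r => r.Prime ∧ r % 4 = a), Real.log r := by
  have h := (theta4 a ha).eventually_const_le (show (0.4998 : ℝ) < 1 / 2 by norm_num)
  obtain ⟨N, hN⟩ := Filter.eventually_atTop.1 h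
  refine ⟨N, fun x hx h0 => ?_⟩
  have h1 := hN x hx
  rwa [le_div_iff₀ h0] at h1

private lemma maB_bad {y T : ℝ} (hy : 10 ^ 6 ≤ y) (hT0 : 0 ≤ T) (hT : T ≤ y) :
    (((10 ^ 8 : ℕ) : ℝ)) ^ 2 + y ^ 4 + 2 * (T + 1) ^ 2 * (T * y ^ 4) ≤ 0.0001 * (y ^ 4) ^ 2 := by
  have hy0 : 0 ≤ y := by linarith
  have h1 : (T + 1) ^ 2 ≤ (2 * y) ^ 2 := pow_le_pow_left₀ (by linarith) (by linarith) 2
  have h2 : T * y ^ 4 ≤ y * y ^ 4 := mul_le_mul_of_nonneg_right hT (by positivity)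
  have h3 : (T + 1) ^ 2 * (T * y ^ 4) ≤ (2 * y) ^ 2 * (y * y ^ 4) :=
    mul_le_mul h1 h2 (by positivity) (by positivity)
  have h4 : (10 ^ 6 : ℝ) * y ^ 7 ≤ y * y ^ 7 := mul_le_mul_of_nonneg_right hy (by positivity)
  have h5 : ((10 : ℝ) ^ 6) ^ 3 ≤ y ^ 3 := pow_le_pow_left₀ (by norm_num) hy 3
  have h6 : (1 : ℝ) ≤ y ^ 4 := one_le_pow₀ (by linarith)
  have h7 : (1 : ℝ) * y ^ 4 ≤ y ^ 3 * y ^ 4 :=
    mul_le_mul_of_nonneg_right (by linarith) (by positivity)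
  have h8 : ((10 : ℝ) ^ 6) ^ 3 * 1 ≤ y ^ 3 * y ^ 4 := mul_le_mul h5 h6 (by norm_num) (by positivity)
  have e1 : y ^ 3 * y ^ 4 = y ^ 7 := by ring
  have e2 : y * y ^ 7 = y ^ 8 := by ring
  have e3 : (2 * y) ^ 2 * (y * y ^ 4) = 4 * y ^ 7 := by ring
  have e4 : (y ^ 4) ^ 2 = y ^ 8 := by ring
  rw [e1] at h7 h8
  rw [e2] at h4
  rw [e3] at h3
  rw [e4]
  push_cast
  linarith

/-- The mass of the primes. PROOF. `theta4`, `good_mass` (`T = ⌊u^(1/4)⌋`, `log (p m) = u`: the bound is `o(u²)`).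
`L = u²/log² 2 ≥ 2.0813 u²`. -/
theorem masses : ∃ u₀ : ℝ, ∀ (p m : ℕ) (u : ℝ), p.Prime → 3 ≤ m → ¬ p ∣ m →
    u = Real.log (p * m : ℕ) → u₀ ≤ u → ∀ S : Finset ℕ,
    (∑ r ∈ S, Real.log r ≤ 0.0001 * u ^ 2) →
    ∀ R₃ R₁ : Finset ℕ,
    (∀ r : ℕ, GP p m ⌊u ^ (1 / 4 : ℝ)⌋₊ (10 ^ 8) (u ^ 2 / Real.log 2 ^ 2) r → r ∉ S →
      (r % 4 = 3 → r ∈ R₃) ∧ (r % 4 = 1 → 3 * (r : ℝ) ≤ u ^ 2 / Real.log 2 ^ 2 → r ∈ R₁)) →
    1.04 * u ^ 2 ≤ ∑ r ∈ R₃, Real.log r ∧ 1.386 * u ^ 2 ≤ ∑ r ∈ R₃ ∪ R₁, Real.log r := by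
  classical
  obtain ⟨N₃, hN₃⟩ := maB_theta 3 (Or.inr rfl)
  obtain ⟨N₁, hN₁⟩ := maB_theta 1 (Or.inl rfl)
  refine ⟨max (max N₃ N₁) (10 ^ 24), ?_⟩
  intro p m u hp hm hpm hu hu₀ S hS R₃ R₁ hR
  have hu3 : N₃ ≤ u := ((le_max_left _ _).trans (le_max_left _ _)).trans hu₀
  have hu1 : N₁ ≤ u := ((le_max_right _ _).trans (le_max_left _ _)).trans hu₀
  have hu24 : 10 ^ 24 ≤ u := (le_max_right _ _).trans hu₀
  have hu0 : 0 < u := by linarith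
  obtain ⟨L, hL⟩ : ∃ L : ℝ, L = u ^ 2 / Real.log 2 ^ 2 := ⟨_, rfl⟩
  obtain ⟨T, hT⟩ : ∃ T : ℕ, T = ⌊u ^ (1 / 4 : ℝ)⌋₊ := ⟨_, rfl⟩
  rw [← hL, ← hT] at hR
  have hl2 : Real.log 2 < 0.6931471808 := Real.log_two_lt_d9
  have hl0 : 0 < Real.log 2 := Real.log_pos (by norm_num)
  have hLu : 2.0813 * u ^ 2 ≤ L := by
    rw [hL, le_div_iff₀ (by positivity)]
    have h1 : Real.log 2 ^ 2 ≤ 0.6931471808 ^ 2 := pow_le_pow_left₀ hl0.le hl2.le 2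
    have h2 : 0 ≤ u ^ 2 := by positivity
    nlinarith
  have hLu2 : u ≤ L / 3 := by nlinarith
  have hbad := good_mass (T := T) (r₀ := 10 ^ 8) (L := L) hp hm hpm
  rw [← hu] at hbad
  have hbad2 : ∑ r ∈ (range (⌊L⌋₊ + 1)).filter (fun r => r.Prime ∧ ¬ GP p m T (10 ^ 8) L r),
      Real.log r ≤ 0.0001 * u ^ 2 := by
    refine hbad.trans ?_
    obtain ⟨y, hy⟩ : ∃ y : ℝ, y = u ^ (1 / 4 : ℝ) := ⟨_, rfl⟩
    have hy4 : y ^ 4 = u := by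
      rw [hy, ← Real.rpow_natCast, ← Real.rpow_mul hu0.le]
      norm_num
    have hy6 : 10 ^ 6 ≤ y := by
      rw [hy]
      have h1 : ((10 : ℝ) ^ 24) ^ (1 / 4 : ℝ) ≤ u ^ (1 / 4 : ℝ) :=
        Real.rpow_le_rpow (by norm_num) hu24 (by norm_num)
      have h2 : ((10 : ℝ) ^ 24) ^ (1 / 4 : ℝ) = 10 ^ 6 := by
        rw [← Real.rpow_natCast, ← Real.rpow_mul (by norm_num)]
        norm_num
      linarith
    have hTy : (T : ℝ) ≤ y := by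
      rw [hT, hy]
      exact Nat.floor_le (by positivity)
    have h3 := maB_bad hy6 (Nat.cast_nonneg T) hTy
    rw [hy4] at h3
    exact h3
  have h3 := hN₃ L (by linarith) (by linarith)
  have h1 := hN₁ (L / 3) (by linarith) (by linarith)
  obtain ⟨Bd, hBd⟩ : ∃ Bd : Finset ℕ, Bd = (range (⌊L⌋₊ + 1)).filter
    (fun r => r.Prime ∧ ¬ GP p m T (10 ^ 8) L r) := ⟨_, rfl⟩
  obtain ⟨P₃, hP₃⟩ : ∃ P₃ : Finset ℕ, P₃ = (range (⌊L⌋₊ + 1)).filter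
    (fun r => r.Prime ∧ r % 4 = 3) := ⟨_, rfl⟩
  obtain ⟨P₁, hP₁⟩ : ∃ P₁ : Finset ℕ, P₁ = (range (⌊L / 3⌋₊ + 1)).filter
    (fun r => r.Prime ∧ r % 4 = 1) := ⟨_, rfl⟩
  rw [← hBd] at hbad2
  rw [← hP₃] at h3
  rw [← hP₁] at h1
  have hsub3 : P₃ ⊆ R₃ ∪ (Bd ∪ S) := by
    intro r hr
    rw [hP₃, Finset.mem_filter] at hr
    obtain ⟨hr1, hr2, hr3⟩ := hr
    by_cases hG : GP p m T (10 ^ 8) L r
    · by_cases hrS : r ∈ S
      · exact Finset.mem_union_right _ (Finset.mem_union_right _ hrS)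
      · exact Finset.mem_union_left _ ((hR r hG hrS).1 hr3)
    · refine Finset.mem_union_right _ (Finset.mem_union_left _ ?_)
      rw [hBd, Finset.mem_filter]
      exact ⟨hr1, hr2, hG⟩
  have hsub1 : P₁ ⊆ R₁ ∪ (Bd ∪ S) := by
    intro r hr
    rw [hP₁, Finset.mem_filter, Finset.mem_range] at hr
    obtain ⟨hr1, hr2, hr3⟩ := hr
    have hrL : (r : ℝ) ≤ L / 3 := by
      have h5 : r ≤ ⌊L / 3⌋₊ := by omega
      exact (Nat.le_floor_iff' hr2.ne_zero).mp h5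
    by_cases hG : GP p m T (10 ^ 8) L r
    · by_cases hrS : r ∈ S
      · exact Finset.mem_union_right _ (Finset.mem_union_right _ hrS)
      · exact Finset.mem_union_left _ ((hR r hG hrS).2 hr3 (by linarith))
    · refine Finset.mem_union_right _ (Finset.mem_union_left _ ?_)
      rw [hBd, Finset.mem_filter, Finset.mem_range]
      refine ⟨?_, hr2, hG⟩
      have h6 : r ≤ ⌊L⌋₊ := Nat.le_floor (by linarith)
      omega
  have hu2 : 0 < u ^ 2 := by positivity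
  constructor
  · have a1 := maB_sub hsub3
    have a2 := maB_union R₃ (Bd ∪ S)
    have a3 := maB_union Bd S
    linarith
  · have hsub : P₃ ∪ P₁ ⊆ (R₃ ∪ R₁) ∪ (Bd ∪ S) := by
      intro r hr
      rcases Finset.mem_union.1 hr with h | h
      · rcases Finset.mem_union.1 (hsub3 h) with h | h
        · exact Finset.mem_union_left _ (Finset.mem_union_left _ h)
        · exact Finset.mem_union_right _ h
      · rcases Finset.mem_union.1 (hsub1 h) with h | h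
        · exact Finset.mem_union_left _ (Finset.mem_union_right _ h)
        · exact Finset.mem_union_right _ h
    have a1 := maB_sub hsub
    have a2 := maB_union (R₃ ∪ R₁) (Bd ∪ S)
    have a3 := maB_union Bd S
    have hd : Disjoint P₃ P₁ := by
      rw [Finset.disjoint_left]
      intro r h3 h1
      rw [hP₃, Finset.mem_filter] at h3
      rw [hP₁, Finset.mem_filter] at h1
      omega
    have a4 : ∑ r ∈ P₃ ∪ P₁, Real.log (r : ℝ) = ∑ r ∈ P₃, Real.log (r : ℝ) + ∑ r ∈ P₁, Real.log (r : ℝ) :=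
      Finset.sum_union hd
    linarith

end Pool.Agent.W_420c7c_h51
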