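import Pool.Agent.W_420c7c_h51.PairB
import Pool.Agent.W_420c7c_h51.MaA
import Pool.Agent.W_420c7c_h51.MaB
import Pool.Agent.W_420c7c_h51.ArD3

set_option autoImplicit false

/-!
# The contradiction for given parameters
-/

namespace Pool.Agent.W_420c7c_h51

open Finset

private theorem mac_sgn3_even (x k : ℕ) (hk : Even k) : sgn3 x ^ k = (x : ℤ) ^ k := by
  unfold sgn3
  split_ifs
  · rfl
  · exact hk.neg_pow _

private theorem mac_cv_range {K : ℕ} {D : Finset (ℕ × ℕ)} (ω : Smp K D) (w : ℕ × ℕ) :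
    0 ≤ cv ω w ∧ cv ω w ≤ K := by
  unfold cv
  split_ifs
  · refine ⟨Int.natCast_nonneg _, ?_⟩
    have := card_le_univ (univ.filter (fun j : Fin K => ω (⟨w, by assumption⟩, j) = true))
    rw [Fintype.card_fin] at this
    exact_mod_cast this
  · exact ⟨le_refl _, Int.natCast_nonneg _⟩

private theorem mac_card (p m : ℕ) (A : ℝ) (hA : 0 ≤ A) :
    ((Dl p m A).card : ℝ) ≤ (A + 1) ^ 2 := by
  have h1 : (Dl p m A).card ≤ (⌊A⌋₊ + 1) * (⌊A⌋₊ + 1) := by
    refine (card_filter_le _ _).trans ?_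
    rw [card_product, card_range]
  have h2 : (⌊A⌋₊ : ℝ) ≤ A := Nat.floor_le hA
  have h3 : ((Dl p m A).card : ℝ) ≤ ((⌊A⌋₊ : ℝ) + 1) * ((⌊A⌋₊ : ℝ) + 1) := by exact_mod_cast h1
  have h4 : (0 : ℝ) ≤ (⌊A⌋₊ : ℝ) := Nat.cast_nonneg _
  nlinarith

/-- PROOF. `exists_pair` with `ε = 10⁻⁴`; `d = cv ω - cv ω'`, `D = Dl p m (θ u²)`, `R₃`, `R₁` the good primes `r ≡ 3` resp. `r ≡ 1, 3 r ≤ L`
(modulo `4`) with `Sm`. `Ctx` from `ev_zero` (`σ = false` for even `k`; then `sgn3 p ^ k = p ^ k`; `σ = true` for odd `k`, `3 r ≤ L`).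
`|d w| ≤ 10`. `arith`: either `1.386 u² ≤ 5 θ u² + O(log u) ≤ 1.3725 u² + O(log u)` or `1.04 u² ≤ 3 θ u² + O(log u) ≤ 0.8235 u² + O(log u)`
(`masses`, `S` the set of the good primes without `Sm`; `#D ≤ (θ u² + u)²`, `supp_card`). Contradiction for large `u`. -/
theorem contra : ∃ u₀ : ℝ, ∀ (K : ℕ) (h θ : ℝ) (p m : ℕ) (u : ℝ), Par K h θ p m u → u₀ ≤ u →
    W_420c7c_h88.CondC (p * m) → Squarefree (p * m) → ¬ 3 ∣ p * m → False := by
  classical
  obtain ⟨u1, h1⟩ := exists_pair 0.0001 (by norm_num)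
  obtain ⟨u2, h2⟩ := masses
  refine ⟨max (max u1 u2) 4000, fun K h θ p m u hP hu hC hsq h3 => ?_⟩
  have hu1 : u1 ≤ u := le_trans (le_trans (le_max_left _ _) (le_max_left _ _)) hu
  have hu2 : u2 ≤ u := le_trans (le_trans (le_max_right _ _) (le_max_left _ _)) hu
  have hu3 : (4000 : ℝ) ≤ u := le_trans (le_max_right _ _) hu
  have hθ0 := hP.hθ0
  have hθ := hP.hθ
  have h1' := h1 K h θ p m u hP hu1
  set A : ℝ := θ * u ^ 2 with hA
  set L : ℝ := u ^ 2 / Real.log 2 ^ 2 with hL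
  set T : ℕ := ⌊u ^ (1 / 4 : ℝ)⌋₊ with hT
  obtain ⟨ω, ω', hne, hv, hS⟩ := h1'
  set d : ℕ × ℕ → ℤ := fun w => cv ω w - cv ω' w with hd
  have hA0 : 0 ≤ A := by rw [hA]; positivity
  have hL0 : 0 ≤ L := by rw [hL]; positivity
  -- sizes
  have hp0 : 0 < p := hP.hp.pos
  have hm0 : 0 < m := by have := hP.hm; omega
  have hlog : Real.log p + Real.log m = u := by
    rw [hP.hu, Nat.cast_mul, Real.log_mul (by positivity) (by positivity)]
  have hp5 : 5 ≤ p := by
    by_contra hlt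
    have h4 : (p : ℝ) ≤ 4 := by
      have : p ≤ 4 := by omega
      exact_mod_cast this
    have h5 : Real.log p ≤ 4 - 1 := (Real.log_le_sub_one_of_pos (by exact_mod_cast hp0)).trans
      (by linarith)
    have := hP.hu1
    linarith
  have hm5 : 5 ≤ m := by
    by_contra hlt
    have h4 : (m : ℝ) ≤ 4 := by
      have : m ≤ 4 := by omega
      exact_mod_cast this
    have h5 : Real.log m ≤ 4 - 1 := (Real.log_le_sub_one_of_pos (by exact_mod_cast hm0)).trans
      (by linarith)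
    have := hP.hu2
    linarith
  have hLb : (Real.logb 2 ((p * m : ℕ) : ℝ)) ^ 2 = L := by
    rw [Real.logb, ← hP.hu, hL, div_pow]
  set R₃ : Finset ℕ := (range (⌊L⌋₊ + 1)).filter (fun r =>
    GP p m T (10 ^ 8) L r ∧ Sm p m (Dl p m A) d r ∧ r % 4 = 3) with hR3
  set R₁ : Finset ℕ := (range (⌊L⌋₊ + 1)).filter (fun r =>
    GP p m T (10 ^ 8) L r ∧ Sm p m (Dl p m A) d r ∧ r % 4 = 1 ∧ 3 * (r : ℝ) ≤ L) with hR1
  have hmass := h2 p m u hP.hp hP.hm hP.hpm hP.hu hu2 _ hS R₃ R₁ (by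
    intro r hr hrS
    have hrL : r ∈ range (⌊L⌋₊ + 1) := by
      rw [mem_range]
      exact Nat.lt_succ_of_le (Nat.le_floor hr.2.2.1)
    have hsm : Sm p m (Dl p m A) d r := by
      by_contra hsm
      exact hrS (mem_filter.2 ⟨hrL, hr, hsm⟩)
    exact ⟨fun h4 => mem_filter.2 ⟨hrL, hr, hsm, h4⟩,
      fun h4 h5 => mem_filter.2 ⟨hrL, hr, hsm, h4, h5⟩⟩)
  have hctx : Ctx p m A d R₃ R₁ := by
    refine ⟨hP.hp, hp5, hm5, hsq.of_mul_right, hP.hpm, fun hh => h3 (hh.mul_right _),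
      fun hh => h3 (hh.mul_left _), ?_, ?_, ?_, ?_, ?_, ?_⟩
    · intro w hw
      by_contra hwD
      apply hw
      simp only [hd, cv]
      rw [dif_neg hwD, dif_neg hwD, sub_self]
    · intro w
      have e1 := mac_cv_range ω w
      have e2 := mac_cv_range ω' w
      have e3 : (K : ℤ) ≤ 10 := by exact_mod_cast hP.hK
      rw [abs_le]
      simp only [hd]
      constructor <;> linarith [e1.1, e1.2, e2.1, e2.2]
    · intro r hr
      rw [hR3, mem_filter] at hr
      refine ⟨hr.2.1.1, hr.2.2.2, ?_, hr.2.1.2.2.2.1⟩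
      have := hr.2.1.2.1
      omega
    · intro r hr
      rw [hR1, mem_filter] at hr
      refine ⟨hr.2.1.1, hr.2.2.2.1, ?_, hr.2.1.2.2.2.1⟩
      have := hr.2.1.2.1
      omega
    · intro g hg hgv r hr k hk hk2
      have hG : GP p m T (10 ^ 8) L r ∧ Sm p m (Dl p m A) d r := by
        rcases hr with hr | hr
        · rw [hR3, mem_filter] at hr
          exact ⟨hr.2.1, hr.2.2.1⟩
        · rw [hR1, mem_filter] at hr
          exact ⟨hr.2.1, hr.2.2.1⟩
      have h5 : 5 ≤ r := by have := hG.1.2.1; omega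
      have e := ev_zero hP.hp hm0 hC h3 hg hgv false hG.1.1 h5 hG.1.2.2.2.1
        (by rw [hLb]; simpa [md] using hG.1.2.2.1) hG.2 k (by simpa [Exk] using ⟨hk, hk2⟩)
      rwa [mac_sgn3_even _ _ hk, mac_sgn3_even _ _ hk] at e
    · intro g hg hgv r hr k hk hk2
      rw [hR1, mem_filter] at hr
      have h5 : 5 ≤ r := by have := hr.2.1.2.1; omega
      exact ev_zero hP.hp hm0 hC h3 hg hgv true hr.2.1.1 h5 hr.2.1.2.2.2.1
        (by rw [hLb]; simpa [md] using hr.2.2.2.2) hr.2.2.1 k (by simpa [Exk] using ⟨hk, hk2⟩)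
  have hdne : ∃ w, d w ≠ 0 := by
    by_contra hall
    push Not at hall
    exact hne (funext fun w => sub_eq_zero.1 (hall w))
  have hdv : vv p m (Dl p m A) d = 0 := by
    have e : vv p m (Dl p m A) d = vv p m (Dl p m A) (cv ω) - vv p m (Dl p m A) (cv ω') := by
      unfold vv
      rw [← sum_sub_distrib]
      exact sum_congr rfl fun w _ => by simp only [hd]; ring
    rw [e, hv, sub_self]
  -- the logarithm
  have hcard : ((Dl p m A).card : ℝ) ≤ u ^ 4 := by
    refine (mac_card p m A hA0).trans ?_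
    have h6 : A + 1 ≤ u ^ 2 := by
      rw [hA]
      nlinarith [mul_le_mul_of_nonneg_right hθ (sq_nonneg u)]
    calc (A + 1) ^ 2 ≤ (u ^ 2) ^ 2 := by
          apply pow_le_pow_left₀ (by linarith) h6
      _ = u ^ 4 := by ring
  have hlogN : 8 * Real.log (24 * (Dl p m A).card) ≤ 0.01 * u ^ 2 := by
    have hpos : 0 < (Dl p m A).card := by
      obtain ⟨w, hw⟩ := hdne
      exact card_pos.2 ⟨w, hctx.hd w hw⟩
    have hpos' : (0 : ℝ) < (Dl p m A).card := by exact_mod_cast hpos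
    have h7 : Real.log (24 * (Dl p m A).card) ≤ Real.log (24 * u ^ 4) :=
      Real.log_le_log (by positivity) (by linarith)
    have hupos : (0 : ℝ) < u := by linarith
    have h7' : Real.log (24 * u ^ 4) = Real.log 24 + 4 * Real.log u := by
      rw [Real.log_mul (by norm_num) (by positivity), Real.log_pow]
      norm_num
    rw [h7'] at h7
    have h8 : Real.log 24 ≤ 24 - 1 := Real.log_le_sub_one_of_pos (by norm_num)
    have h9 : Real.log u ≤ u - 1 := Real.log_le_sub_one_of_pos hupos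
    nlinarith
  have hθu : θ * u ^ 2 ≤ 0.2745 * u ^ 2 := mul_le_mul_of_nonneg_right hθ (sq_nonneg u)
  have hu4 : (0 : ℝ) < u ^ 2 := by positivity
  rcases arith hctx hA0 hdne hdv with h10 | h10
  · have := hmass.2
    rw [hA] at h10
    nlinarith
  · have := hmass.1
    rw [hA] at h10
    nlinarith

end Pool.Agent.W_420c7c_h51
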