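import Pool.Agent.W_420c7c_h51.NumA

set_option autoImplicit false

/-!
# The table
-/

namespace Pool.Agent.W_420c7c_h51

open Finset

private lemma NumB_u {α : ℝ} (h1 : 1 / 5 ≤ α) (h2 : α ≤ 2 / 3) :
    4 / 25 ≤ α * (1 - α) ∧ α * (1 - α) ≤ 1 / 4 := by
  constructor
  · nlinarith [mul_nonneg (sub_nonneg.2 h1) (show (0 : ℝ) ≤ 4 / 5 - α by linarith)]
  · nlinarith [sq_nonneg (α - 1 / 2)]

private lemma NumB_key {k h α : ℝ} (hk : 0 ≤ k) (hh : 0 < h) (h1 : 1 / 5 ≤ α) (h2 : α ≤ 2 / 3)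
    (hc : k * 9.86965 * 1.0006251 * 4 * (1 - α) ≤ 48 * 6.274 * α * h ^ 2) :
    k / 4 * (Real.pi ^ 2 / 12) * ((2 * α * (1 - α) + 0.0001) / h) ^ 2 ≤
      3.137 * (2 * α ^ 3 * (1 - α)) := by
  obtain ⟨hu1, hu2⟩ := NumB_u h1 h2
  have hpi : Real.pi ^ 2 ≤ 9.86965 := by
    have h3 := Real.pi_lt_d6
    have h4 := Real.pi_pos
    nlinarith
  have hu : (2 * α * (1 - α) + 0.0001) ^ 2 ≤ 1.0006251 * 4 * (α * (1 - α)) ^ 2 := by
    have h3 : 2 * α * (1 - α) + 0.0001 ≤ 1.0003125 * 2 * (α * (1 - α)) := by nlinarith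
    have h4 : 0 ≤ 2 * α * (1 - α) + 0.0001 := by nlinarith
    calc (2 * α * (1 - α) + 0.0001) ^ 2 ≤ (1.0003125 * 2 * (α * (1 - α))) ^ 2 := by gcongr
      _ ≤ 1.0006251 * 4 * (α * (1 - α)) ^ 2 := by nlinarith [sq_nonneg (α * (1 - α))]
  have hh2 : 0 < 48 * h ^ 2 := by positivity
  have e1 : k / 4 * (Real.pi ^ 2 / 12) * ((2 * α * (1 - α) + 0.0001) / h) ^ 2 =
      k * Real.pi ^ 2 * (2 * α * (1 - α) + 0.0001) ^ 2 / (48 * h ^ 2) := by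
    field_simp
    ring
  rw [e1, div_le_iff₀ hh2]
  have hα : 0 ≤ α ^ 2 * (1 - α) := by
    have : (0 : ℝ) ≤ 1 - α := by linarith
    positivity
  calc k * Real.pi ^ 2 * (2 * α * (1 - α) + 0.0001) ^ 2
      ≤ k * 9.86965 * (1.0006251 * 4 * (α * (1 - α)) ^ 2) := by gcongr
    _ = k * 9.86965 * 1.0006251 * 4 * (1 - α) * (α ^ 2 * (1 - α)) := by ring
    _ ≤ 48 * 6.274 * α * h ^ 2 * (α ^ 2 * (1 - α)) := mul_le_mul_of_nonneg_right hc hα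
    _ = 3.137 * (2 * α ^ 3 * (1 - α)) * (48 * h ^ 2) := by ring

/-- PROOF. `K = 3`, `h = 1.2554` for `α ≤ 0.221`; `K = 5`, `h = 1.5236` for `0.221 ≤ α ≤ 0.28`; `K = 10`, `h = 1.8759` for `0.28 ≤ α`;
`θ = (2 α (1 - α) + 0.0001) / h`. As `2 α (1 - α) ≥ 0.32`, `2 α (1 - α) + 0.0001 ≤ 1.0003125 * 2 α (1 - α)`, so the inequality for
`θ²` follows from `K/4 (π²/12) 1.0003125² h⁻² * 2 (1 - α) ≤ 3.137 α`, which is needed only at the left ends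
`0.2`, `0.221`, `0.28`. `θ ≤ 0.2745`: `2 α (1-α) ≤ 0.34432, 0.4032, 0.5`. -/
theorem table (α : ℝ) (h1 : 1 / 5 ≤ α) (h2 : α ≤ 2 / 3) : ∃ (K : ℕ) (h θ : ℝ),
    1 ≤ K ∧ K ≤ 10 ∧ 1 / 10 ≤ θ ∧ θ ≤ 0.2745 ∧ 0 < h ∧
    K / 4 * (Real.pi ^ 2 / 12) * θ ^ 2 ≤ 3.137 * (2 * α ^ 3 * (1 - α)) ∧
    2 * α * (1 - α) + 0.0001 ≤ θ * h ∧
    ∑ z ∈ range (K + 1), (K.choose z : ℝ) * Real.log (K.choose z) ≤
      2 ^ K * (K * Real.log 2 - h) := by
  obtain ⟨hu1, hu2⟩ := NumB_u h1 h2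
  rcases le_or_gt α 0.221 with h3 | h3
  · refine ⟨3, 1.2554, (2 * α * (1 - α) + 0.0001) / 1.2554, by norm_num, by norm_num, ?_, ?_,
      by norm_num, ?_, ?_, ?_⟩
    · rw [le_div_iff₀ (by norm_num)]
      nlinarith
    · rw [div_le_iff₀ (by norm_num)]
      nlinarith [mul_nonneg (sub_nonneg.2 h3) (show (0 : ℝ) ≤ 1 - 0.221 - α by linarith)]
    · have := NumB_key (k := 3) (h := 1.2554) (by norm_num) (by norm_num) h1 h2 (by nlinarith)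
      exact_mod_cast this
    · rw [div_mul_cancel₀ _ (by norm_num)]
    · exact_mod_cast ent3
  rcases le_or_gt α 0.28 with h4 | h4
  · refine ⟨5, 1.5236, (2 * α * (1 - α) + 0.0001) / 1.5236, by norm_num, by norm_num, ?_, ?_,
      by norm_num, ?_, ?_, ?_⟩
    · rw [le_div_iff₀ (by norm_num)]
      nlinarith
    · rw [div_le_iff₀ (by norm_num)]
      nlinarith [mul_nonneg (sub_nonneg.2 h4) (show (0 : ℝ) ≤ 1 - 0.28 - α by linarith)]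
    · have := NumB_key (k := 5) (h := 1.5236) (by norm_num) (by norm_num) h1 h2 (by nlinarith)
      exact_mod_cast this
    · rw [div_mul_cancel₀ _ (by norm_num)]
    · exact_mod_cast ent5
  · refine ⟨10, 1.8759, (2 * α * (1 - α) + 0.0001) / 1.8759, by norm_num, by norm_num, ?_, ?_,
      by norm_num, ?_, ?_, ?_⟩
    · rw [le_div_iff₀ (by norm_num)]
      nlinarith
    · rw [div_le_iff₀ (by norm_num)]
      nlinarith
    · have := NumB_key (k := 10) (h := 1.8759) (by norm_num) (by norm_num) h1 h2 (by nlinarith)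
      exact_mod_cast this
    · rw [div_mul_cancel₀ _ (by norm_num)]
    · exact_mod_cast ent10

end Pool.Agent.W_420c7c_h51
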