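import Pool.Agent.W_420c7c_h51.MaC
import Pool.Agent.W_420c7c_h51.NumB
import Pool.Agent.W_MP_420c7c_nt.FermatAll

set_option autoImplicit false

/-!
# The theorem
-/

namespace Pool.Agent.W_420c7c_h51

open Finset

/-- PROOF. `N` large. `p³ < n²` (`W_MP_420c7c_nt.prime_factor_bound`), `n` squarefree (`squarefree_of_cond`), `3 ∤ n`
(`fermat_all`). Suppose `n ≤ p^5`; `u = log n`, `m = n / p`, `α = log p / u ∈ [1/5, 2/3]`, `log m = u - log p`. `table` gives `K, h, θ` and
`Par K h θ p m u`; `contra`. -/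
theorem main : ∃ N : ℕ, ∀ n : ℕ, N ≤ n → W_420c7c_h88.CondC n →
    ∀ p : ℕ, p.Prime → p ∣ n → p < n → p ^ 5 < n := by
  obtain ⟨N1, hN1⟩ := W_MP_420c7c_nt.squarefree_of_cond
  obtain ⟨N2, hN2⟩ := W_MP_420c7c_nt.prime_factor_bound
  obtain ⟨u0, h0⟩ := contra
  refine ⟨max (max N1 N2) (max 100 ⌈Real.exp u0⌉₊), fun n hn hC p hp hpn hplt => ?_⟩
  have hn1 : N1 ≤ n := le_trans (le_trans (le_max_left _ _) (le_max_left _ _)) hn
  have hn2 : N2 ≤ n := le_trans (le_trans (le_max_right _ _) (le_max_left _ _)) hn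
  have hn3 : 100 ≤ n := le_trans (le_trans (le_max_left _ _) (le_max_right _ _)) hn
  have hn4 : ⌈Real.exp u0⌉₊ ≤ n := le_trans (le_trans (le_max_right _ _) (le_max_right _ _)) hn
  have hn0 : (0 : ℝ) < n := by
    have : 0 < n := by omega
    exact_mod_cast this
  by_contra hlt
  have hle : n ≤ p ^ 5 := not_lt.1 hlt
  have hsq := hN1 n hn1 hC
  have hcube := hN2 n hn2 hC p hp hpn hplt
  have hnp : ¬ n.Prime := by
    intro h
    rcases (Nat.dvd_prime h).1 hpn with h1 | h1
    · exact hp.one_lt.ne' h1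
    · omega
  have hlogb : (4 : ℝ) ≤ Real.logb 2 (n : ℝ) := by
    rw [Real.le_logb_iff_rpow_le (by norm_num) hn0]
    have : (100 : ℝ) ≤ n := by exact_mod_cast hn3
    norm_num
    linarith
  have h2 : ¬ 2 ∣ n := (W_MP_420c7c_nt.fermat_all (by omega) hnp hC 2 Nat.prime_two
    (by push_cast; nlinarith)).1
  have h3 : ¬ 3 ∣ n := (W_MP_420c7c_nt.fermat_all (by omega) hnp hC 3 Nat.prime_three
    (by push_cast; nlinarith)).1
  obtain ⟨m, hm⟩ := hpn
  have hm1 : m ≠ 0 := by
    rintro rfl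
    omega
  have hm2 : m ≠ 1 := by
    rintro rfl
    omega
  have hm3 : m ≠ 2 := by
    rintro rfl
    exact h2 ⟨p, by rw [hm]; ring⟩
  have hpm : ¬ p ∣ m := by
    intro h
    rw [hm] at hsq
    have := hsq p (mul_dvd_mul_left p h)
    exact hp.one_lt.ne' (Nat.isUnit_iff.1 this)
  have hp0 : (0 : ℝ) < p := by exact_mod_cast hp.pos
  have hm0 : (0 : ℝ) < m := by
    have : 0 < m := Nat.pos_of_ne_zero hm1
    exact_mod_cast this
  set u : ℝ := Real.log n with hu
  have hu0 : u0 ≤ u := by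
    rw [hu, Real.le_log_iff_exp_le hn0]
    exact (Nat.le_ceil _).trans (by exact_mod_cast hn4)
  have hupos : 0 < u := by
    rw [hu]
    exact Real.log_pos (by exact_mod_cast (by omega : 1 < n))
  have hsum : Real.log p + Real.log m = u := by
    rw [hu, hm, Nat.cast_mul, Real.log_mul hp0.ne' hm0.ne']
  have ha : u ≤ 5 * Real.log p := by
    have e : (n : ℝ) ≤ (p : ℝ) ^ 5 := by exact_mod_cast hle
    have e2 := Real.log_le_log hn0 e
    rw [Real.log_pow] at e2
    exact_mod_cast e2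
  have hb : 3 * Real.log p ≤ 2 * u := by
    have e : (p : ℝ) ^ 3 ≤ (n : ℝ) ^ 2 := by exact_mod_cast hcube.le
    have e2 := Real.log_le_log (by positivity) e
    rw [Real.log_pow, Real.log_pow] at e2
    exact_mod_cast e2
  set α : ℝ := Real.log p / u with hα
  have hαu : α * u = Real.log p := by
    rw [hα]
    field_simp
  have hα1 : 1 / 5 ≤ α := by
    rw [hα, le_div_iff₀ hupos]
    linarith
  have hα2 : α ≤ 2 / 3 := by
    rw [hα, div_le_iff₀ hupos]
    linarith
  have hβ : (1 - α) * u = Real.log m := by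
    rw [sub_mul, hαu]
    linarith
  obtain ⟨K, h, θ, hK0, hK, hθ0, hθ, hh, hR, hs, hent⟩ := table α hα1 hα2
  have hP : Par K h θ p m u := by
    refine ⟨hp, by omega, hpm, by rw [hu, hm], by linarith, by linarith, hK0, hK, hθ0, hθ, ?_, hh,
      ?_, hent⟩
    · have e := mul_le_mul_of_nonneg_right hR (by positivity : (0 : ℝ) ≤ u ^ 4)
      calc (K : ℝ) / 4 * (Real.pi ^ 2 / 12) * θ ^ 2 * u ^ 4
          ≤ 3.137 * (2 * α ^ 3 * (1 - α)) * u ^ 4 := e
        _ = 3.137 * (2 * (α * u) ^ 3 * ((1 - α) * u)) := by ring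
        _ = 3.137 * (2 * Real.log p ^ 3 * Real.log m) := by rw [hαu, hβ]
    · have e := mul_le_mul_of_nonneg_right hs (by positivity : (0 : ℝ) ≤ u ^ 2)
      calc 2 * Real.log p * Real.log m + 0.0001 * u ^ 2
          = 2 * (α * u) * ((1 - α) * u) + 0.0001 * u ^ 2 := by rw [hαu, hβ]
        _ = (2 * α * (1 - α) + 0.0001) * u ^ 2 := by ring
        _ ≤ θ * h * u ^ 2 := e
  exact h0 K h θ p m u hP hu0 (hm ▸ hC) (hm ▸ hsq) (hm ▸ h3)

/-- PROOF. `n` is the product of its distinct prime factors (`squarefree_of_cond`), each less than `n^(1/5)`; at most five of them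
would give `n < n`. -/
theorem main_card : ∃ N : ℕ, ∀ n : ℕ, N ≤ n → W_420c7c_h88.CondC n → ¬ n.Prime →
    6 ≤ n.primeFactors.card := by
  obtain ⟨N1, hN1⟩ := W_MP_420c7c_nt.squarefree_of_cond
  obtain ⟨N2, hN2⟩ := main
  refine ⟨max (max N1 N2) 2, fun n hn hC hnp => ?_⟩
  have hn1 : N1 ≤ n := le_trans (le_trans (le_max_left _ _) (le_max_left _ _)) hn
  have hn2 : N2 ≤ n := le_trans (le_trans (le_max_right _ _) (le_max_left _ _)) hn
  have hn3 : 2 ≤ n := le_trans (le_max_right _ _) hn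
  have hsq := hN1 n hn1 hC
  by_contra hlt
  have hcard : n.primeFactors.card ≤ 5 := by omega
  have hprod : ∏ q ∈ n.primeFactors, q = n := Nat.prod_primeFactors_of_squarefree hsq
  have hne : n.primeFactors.Nonempty := by
    rw [Nat.nonempty_primeFactors]
    omega
  have h1 : ∏ q ∈ n.primeFactors, q ^ 5 < ∏ _q ∈ n.primeFactors, n := by
    refine Finset.prod_lt_prod_of_nonempty (fun q hq => ?_) (fun q hq => ?_) hne
    · exact pow_pos (Nat.prime_of_mem_primeFactors hq).pos 5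
    · have hqp := Nat.prime_of_mem_primeFactors hq
      have hqn := Nat.dvd_of_mem_primeFactors hq
      refine hN2 n hn2 hC q hqp hqn ?_
      refine lt_of_le_of_ne (Nat.le_of_dvd (by omega) hqn) ?_
      rintro rfl
      exact hnp hqp
  rw [Finset.prod_pow, hprod, Finset.prod_const] at h1
  have h2 : n ^ n.primeFactors.card ≤ n ^ 5 := Nat.pow_le_pow_right (by omega) hcard
  omega

end Pool.Agent.W_420c7c_h51
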