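import Pool.Agent.W_420c7c_h51.NormZ

set_option autoImplicit false
open Polynomial

/-!
# Norms from cyclotomic fields
-/

namespace Pool.Agent.W_420c7c_h51

open Finset

private lemma NormA1_prod (R : ℕ) (hR : 0 < R) {M : Type*} [CommMonoid M] (F : ℂ → M) :
    ∏ u ∈ (range R).filter (fun u => u.Coprime R), F (zr R ^ u) =
      ∏ w ∈ primitiveRoots R ℂ, F w := by
  have : NeZero R := ⟨hR.ne'⟩
  have hz := zr_prim R hR.ne'
  refine Finset.prod_bij (fun u _ => zr R ^ u) ?_ ?_ ?_ ?_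
  · intro u hu
    rw [mem_primitiveRoots hR]
    exact hz.pow_of_coprime _ (Finset.mem_filter.1 hu).2
  · intro u hu v hv h
    exact hz.pow_inj (Finset.mem_range.1 (Finset.mem_filter.1 hu).1)
      (Finset.mem_range.1 (Finset.mem_filter.1 hv).1) h
  · intro w hw
    rw [mem_primitiveRoots hR, hz.isPrimitiveRoot_iff] at hw
    obtain ⟨i, hi, hic, rfl⟩ := hw
    exact ⟨i, Finset.mem_filter.2 ⟨Finset.mem_range.2 hi, hic⟩, rfl⟩
  · intro u _
    rfl

private lemma NormA1_int (R : ℕ) (S : ℤ[X]) :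
    ∃ N : ℤ, ∏ w ∈ primitiveRoots R ℂ, aeval w S = (N : ℂ) := by
  rcases Nat.eq_zero_or_pos R with rfl | hR
  · exact ⟨1, by simp⟩
  have : NeZero (R : ℂ) := ⟨by exact_mod_cast hR.ne'⟩
  set f : ℤ[X] := cyclotomic R ℤ with hf
  have hmap : f.map (Int.castRingHom ℂ) = cyclotomic R ℂ := map_cyclotomic _ _
  have h1 := resultant_eq_prod_eval (f.map (Int.castRingHom ℂ)) (S.map (Int.castRingHom ℂ))
    S.natDegree natDegree_map_le (IsAlgClosed.splits _)
  rw [resultant_map_map, hmap, (cyclotomic.monic _ ℂ).leadingCoeff, one_pow, one_mul,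
    cyclotomic.roots_eq_primitiveRoots_val] at h1
  refine ⟨_, Eq.trans ?_ h1.symm⟩
  rw [Finset.prod]
  congr 1
  refine Multiset.map_congr rfl fun w _ => ?_
  rw [eval_map, aeval_def]
  rfl

private lemma NormA1_decomp (p R : ℕ) (hR : 0 < R) {F : Type*} [Field F] [CharP F p]
    {z : F} (hz : IsPrimitiveRoot z R) (P : ℤ[X])
    (hP : ∀ u : ℕ, u.Coprime R → aeval (z ^ u) P = 0) :
    ∃ Q S : ℤ[X], P = cyclotomic R ℤ * Q + C (p : ℤ) * S := by
  have : NeZero R := ⟨hR.ne'⟩
  set Φ : ℤ[X] := cyclotomic R ℤ with hΦ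
  have hmon : Φ.Monic := cyclotomic.monic _ _
  have hmap : Φ.map (Int.castRingHom F) = cyclotomic R F := map_cyclotomic _ _
  have hdvd : Φ.map (Int.castRingHom F) ∣ P.map (Int.castRingHom F) := by
    rw [hmap, cyclotomic_eq_prod_X_sub_primitiveRoots hz]
    refine Finset.prod_dvd_of_coprime ?_ ?_
    · intro a _ b _ hab
      exact pairwise_coprime_X_sub_C (s := fun x : F => x) (fun _ _ h => h) hab
    · intro w hw
      rw [mem_primitiveRoots hR, hz.isPrimitiveRoot_iff] at hw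
      obtain ⟨i, -, hic, rfl⟩ := hw
      rw [dvd_iff_isRoot, IsRoot, eval_map]
      have h3 := hP i hic
      rwa [aeval_def] at h3
  have h0 : (P %ₘ Φ).map (Int.castRingHom F) = 0 := by
    rw [map_modByMonic _ hmon, modByMonic_eq_zero_iff_dvd (hmon.map _)]
    exact hdvd
  have h1 : C (p : ℤ) ∣ P %ₘ Φ := by
    rw [C_dvd_iff_dvd_coeff]
    intro i
    have h2 := congrArg (fun q => q.coeff i) h0
    simp only [coeff_map, coeff_zero] at h2
    rw [← CharP.intCast_eq_zero_iff F p]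
    simpa using h2
  obtain ⟨S, hS⟩ := h1
  refine ⟨P /ₘ Φ, S, ?_⟩
  rw [← hS, add_comm]
  exact (modByMonic_add_div P Φ).symm

/-- PROOF. As `prod_ge` of `Pool/Agent/W_420c7c_h88/NormBound.lean` (there for `2^(k+2)`): division with remainder
by the monic `Φ = cyclotomic R ℤ` gives `P = Φ Q + S`; modulo `p` the remainder vanishes at the `φ(R)` distinct
elements `z^u`, `u` coprime to `R`, and has degree `< φ(R)`, so `S = p S₁`. In `ℂ`: `P(ω) = p S₁(ω)` for the primitive roots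
`ω = zr R ^ u`, and `∏ S₁(ω)` is an integer (resultant of `Φ` and `S₁`, or norm), not zero. -/
theorem prod_ge (p R : ℕ) (hp : p.Prime) (hR : 0 < R) {F : Type} [Field F] [CharP F p]
    {z : F} (hz : IsPrimitiveRoot z R) (P : ℤ[X])
    (hP : ∀ u : ℕ, u.Coprime R → aeval (z ^ u) P = 0)
    (hne : ∀ u : ℕ, u.Coprime R → aeval (zr R ^ u) P ≠ 0) :
    (p : ℝ) ^ R.totient ≤
      ∏ u ∈ (range R).filter (fun u => u.Coprime R), ‖aeval (zr R ^ u) P‖ := by
  obtain ⟨Q, S, hQS⟩ := NormA1_decomp p R hR hz P hP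
  obtain ⟨N, hN⟩ := NormA1_int R S
  have hzr := zr_prim R hR.ne'
  have hval : ∀ w ∈ primitiveRoots R ℂ, aeval w P = (p : ℂ) * aeval w S := by
    intro w hw
    have hw' : IsPrimitiveRoot w R := isPrimitiveRoot_of_mem_primitiveRoots hw
    have h1 : aeval w (cyclotomic R ℤ) = 0 := by
      have h2 := hw'.isRoot_cyclotomic hR
      rw [IsRoot, ← map_cyclotomic _ (algebraMap ℤ ℂ), eval_map] at h2
      rw [aeval_def]
      exact h2
    rw [hQS, map_add, map_mul, map_mul, h1, zero_mul, zero_add, aeval_C]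
    simp
  have hprod : ∏ w ∈ primitiveRoots R ℂ, aeval w P =
      (p : ℂ) ^ R.totient * (N : ℂ) := by
    rw [Finset.prod_congr rfl hval, Finset.prod_mul_distrib, Finset.prod_const,
      hzr.card_primitiveRoots, hN]
  have hN0 : N ≠ 0 := by
    intro h0
    rw [h0, Int.cast_zero, mul_zero, Finset.prod_eq_zero_iff] at hprod
    obtain ⟨w, hw, hw0⟩ := hprod
    have hw' : IsPrimitiveRoot w R := isPrimitiveRoot_of_mem_primitiveRoots hw
    have : NeZero R := ⟨hR.ne'⟩
    rw [hzr.isPrimitiveRoot_iff] at hw'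
    obtain ⟨i, -, hic, rfl⟩ := hw'
    exact hne i hic hw0
  have h1 : (1 : ℝ) ≤ ‖(N : ℂ)‖ := by
    rw [Complex.norm_intCast]
    exact_mod_cast Int.one_le_abs hN0
  rw [NormA1_prod R hR (fun w => ‖aeval w P‖), ← norm_prod, hprod, norm_mul, norm_pow,
    Complex.norm_natCast]
  have h2 : (0 : ℝ) ≤ (p : ℝ) ^ R.totient := by positivity
  nlinarith

end Pool.Agent.W_420c7c_h51
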