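import Pool.Agent.W_420c7c_h51.NormZ

set_option autoImplicit false
open Polynomial

/-!
# Zeros at primitive roots of unity
-/

namespace Pool.Agent.W_420c7c_h51

open Finset

/-- PROOF. `Φ_R` is the minimal polynomial of every primitive root (`Polynomial.cyclotomic_eq_minpoly`), so it divides `P`. -/
theorem zero_all (R : ℕ) (hR : 0 < R) (P : ℤ[X]) {u : ℕ} (hu : u.Coprime R)
    (h : aeval (zr R ^ u) P = 0) : ∀ v : ℕ, v.Coprime R → aeval (zr R ^ v) P = 0 := by
  intro v hv
  have hu' : IsPrimitiveRoot (zr R ^ u) R := (zr_prim R hR.ne').pow_of_coprime u hu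
  have hv' : IsPrimitiveRoot (zr R ^ v) R := (zr_prim R hR.ne').pow_of_coprime v hv
  have h1 : minpoly ℤ (zr R ^ u) ∣ P :=
    minpoly.isIntegrallyClosed_dvd (hu'.isIntegral hR) h
  rw [← Polynomial.cyclotomic_eq_minpoly hu' hR, Polynomial.cyclotomic_eq_minpoly hv' hR] at h1
  obtain ⟨Q, hQ⟩ := h1
  rw [hQ, map_mul, minpoly.aeval, zero_mul]

end Pool.Agent.W_420c7c_h51
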