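import Pool.Agent.W_420c7c_h51.NormA1
import Pool.Agent.W_420c7c_h51.NormA2

set_option autoImplicit false
open Polynomial

/-!
# Norms for the two types of moduli
-/

namespace Pool.Agent.W_420c7c_h51

open Finset

/-- the modulus of the type -/
def md (σ : Bool) (r : ℕ) : ℕ := if σ then 3 * r else r

theorem ell_zr (σ : Bool) (r : ℕ) (x : ℤ) : ell σ r x = Real.log ‖1 + zt σ * zr r ^ x‖ := by
  unfold ell zr
  rw [← Complex.exp_int_mul]
  congr 5
  ring

private lemma NormB1_three {r : ℕ} (hr : r.Prime) (h5 : 5 ≤ r) : Nat.Coprime 3 r :=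
  (Nat.coprime_primes Nat.prime_three hr).2 (by omega)

private lemma NormB1_zt : IsPrimitiveRoot (zt true) 3 := by
  have h := Complex.isPrimitiveRoot_exp 3 (by norm_num)
  have e : zt true = Complex.exp (2 * Real.pi * Complex.I / (3 : ℕ)) := by
    unfold zt
    rw [if_pos rfl]
    norm_num
  rw [e]
  exact h

private lemma NormB1_zrx {r : ℕ} (hr : r.Prime) {x : ℕ} (hx : x ∈ Ico 1 r) :
    IsPrimitiveRoot (zr r ^ x) r := by
  rw [mem_Ico] at hx
  refine (zr_prim r hr.ne_zero).pow_of_coprime x ?_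
  exact (Nat.coprime_of_lt_prime (by omega) hx.2 hr).symm

/-- `zt σ * zr r ^ x`, `1 ≤ x < r`, is a primitive root of unity of order `md σ r` -/
theorem zt_prim (σ : Bool) {r : ℕ} (hr : r.Prime) (h5 : 5 ≤ r) {x : ℕ} (hx : x ∈ Ico 1 r) :
    IsPrimitiveRoot (zt σ * zr r ^ x) (md σ r) := by
  cases σ with
  | false =>
    have e : zt false = 1 := rfl
    have e2 : md false r = r := rfl
    rw [e, e2, one_mul]
    exact NormB1_zrx hr hx
  | true =>
    have e2 : md true r = 3 * r := rfl
    rw [e2]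
    have h1 := NormB1_zt.eq_orderOf
    have h2 := (NormB1_zrx hr hx).eq_orderOf
    have h3 : orderOf (zt true * zr r ^ x) = 3 * r := by
      rw [(Commute.all (zt true) (zr r ^ x)).orderOf_mul_eq_mul_orderOf_of_coprime, ← h1, ← h2]
      rw [← h1, ← h2]
      exact NormB1_three hr h5
    rw [← h3]
    exact IsPrimitiveRoot.orderOf _

private lemma NormB1_prod (R : ℕ) (hR : 0 < R) {M : Type*} [CommMonoid M] (F : ℂ → M) :
    ∏ u ∈ (range R).filter (fun u => u.Coprime R), F (zr R ^ u) =
      ∏ w ∈ primitiveRoots R ℂ, F w := by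
  have : NeZero R := ⟨hR.ne'⟩
  have hz := zr_prim R hR.ne'
  refine Finset.prod_bij (fun u _ => zr R ^ u) ?_ ?_ ?_ ?_
  · intro u hu
    rw [mem_primitiveRoots hR]
    exact hz.pow_of_coprime _ (Finset.mem_filter.1 hu).2
  · intro u hu v hv h
    exact hz.pow_inj (Finset.mem_range.1 (Finset.mem_filter.1 hu).1)
      (Finset.mem_range.1 (Finset.mem_filter.1 hv).1) h
  · intro w hw
    rw [mem_primitiveRoots hR, hz.isPrimitiveRoot_iff] at hw
    obtain ⟨i, hi, hic, rfl⟩ := hw
    exact ⟨i, Finset.mem_filter.2 ⟨Finset.mem_range.2 hi, hic⟩, rfl⟩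
  · intro u _
    rfl

private lemma NormB1_conj (P : ℤ[X]) (w : ℂ) :
    aeval (starRingEnd ℂ w) P = starRingEnd ℂ (aeval w P) :=
  Polynomial.aeval_algHom_apply (starRingEnd ℂ).toIntAlgHom w P

private lemma NormB1_inj {r : ℕ} (hr : r.Prime) (σ : Bool) :
    Set.InjOn (fun x : ℕ => zt σ * zr r ^ x) (Ico 1 r : Finset ℕ) := by
  intro x hx y hy hxy
  rw [mem_coe, mem_Ico] at hx hy
  have h0 : zt σ ≠ 0 := by
    cases σ with
    | false => exact one_ne_zero
    | true => exact NormB1_zt.ne_zero (by norm_num)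
  exact (zr_prim r hr.ne_zero).pow_inj hx.2 hy.2 (mul_left_cancel₀ h0 hxy)

private lemma NormB1_roots {r : ℕ} (hr : r.Prime) (h5 : 5 ≤ r) :
    primitiveRoots (3 * r) ℂ =
      (Ico 1 r).image (fun x => zt true * zr r ^ x) ∪
      (Ico 1 r).image (fun x => starRingEnd ℂ (zt true * zr r ^ x)) ∧
    Disjoint ((Ico 1 r).image (fun x => zt true * zr r ^ x))
      ((Ico 1 r).image (fun x => starRingEnd ℂ (zt true * zr r ^ x))) := by
  have hinj := NormB1_inj hr true
  have hinj2 : Set.InjOn (fun x : ℕ => starRingEnd ℂ (zt true * zr r ^ x))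
      (Ico 1 r : Finset ℕ) := by
    intro x hx y hy hxy
    exact hinj hx hy ((starRingEnd ℂ).injective hxy)
  have hdisj : Disjoint ((Ico 1 r).image (fun x => zt true * zr r ^ x))
      ((Ico 1 r).image (fun x => starRingEnd ℂ (zt true * zr r ^ x))) := by
    rw [Finset.disjoint_left]
    intro w hw hw'
    rw [mem_image] at hw hw'
    obtain ⟨x, hx, rfl⟩ := hw
    obtain ⟨y, hy, hyx⟩ := hw'
    have h1 : ∀ z : ℕ, (zt true * zr r ^ z) ^ r = zt true ^ r := by
      intro z
      rw [mul_pow, ← pow_mul, mul_comm z r, pow_mul, (zr_prim r hr.ne_zero).pow_eq_one, one_pow,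
        mul_one]
    have h2 : starRingEnd ℂ (zt true ^ r) = zt true ^ r := by
      rw [← h1 y, map_pow, hyx, h1 x, h1 y]
    have h3 : IsPrimitiveRoot (zt true ^ r) 3 :=
      NormB1_zt.pow_of_coprime r (NormB1_three hr h5).symm
    have h4 : (zt true ^ r) * (zt true ^ r) = 1 := by
      have h5 : ‖zt true ^ r‖ = 1 := h3.norm'_eq_one (by norm_num)
      have h6 := Complex.mul_conj (zt true ^ r)
      rw [h2, Complex.normSq_eq_norm_sq, h5] at h6
      rw [h6]
      norm_num
    have h7 := h3.pow_ne_one_of_pos_of_lt (l := 2) (by norm_num) (by norm_num)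
    exact h7 (by rw [pow_two]; exact h4)
  refine ⟨?_, hdisj⟩
  symm
  have hpos : 0 < 3 * r := by omega
  refine Finset.eq_of_subset_of_card_le ?_ ?_
  · intro w hw
    rw [mem_primitiveRoots hpos]
    rcases mem_union.1 hw with hw | hw
    · obtain ⟨x, hx, rfl⟩ := mem_image.1 hw
      exact zt_prim true hr h5 hx
    · obtain ⟨x, hx, rfl⟩ := mem_image.1 hw
      exact (zt_prim true hr h5 hx).map_of_injective (starRingEnd ℂ).injective
  · rw [card_union_of_disjoint hdisj, card_image_of_injOn hinj, card_image_of_injOn hinj2,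
      (zr_prim (3 * r) hpos.ne').card_primitiveRoots, Nat.card_Ico,
      Nat.totient_mul (NormB1_three hr h5), Nat.totient_prime hr]
    have : Nat.totient 3 = 2 := by decide
    rw [this]
    omega

/-- PROOF. `σ = false`: `prod_ge` with `R = r`, `φ(r) = r - 1`. `σ = true`: `R = 3 r`, `φ(R) = 2 (r - 1)`, the primitive roots of order
`3 r` are the `ω ζ^x` and their conjugates `ω² ζ^(-x)`, `1 ≤ x < r` (`2 (r - 1)` different numbers, `zt_prim`), and
`‖P(conj y)‖ = ‖P(y)‖`, so the product over them is the square of the product on the right. -/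
theorem prod_ge' (σ : Bool) (p r : ℕ) (hp : p.Prime) (hr : r.Prime) (h5 : 5 ≤ r)
    {F : Type} [Field F] [CharP F p] {z : F} (hz : IsPrimitiveRoot z (md σ r)) (P : ℤ[X])
    (hP : ∀ u : ℕ, u.Coprime (md σ r) → aeval (z ^ u) P = 0)
    (hne : ∀ x ∈ Ico 1 r, aeval (zt σ * zr r ^ x) P ≠ 0) :
    (p : ℝ) ^ (r - 1) ≤ ∏ x ∈ Ico 1 r, ‖aeval (zt σ * zr r ^ x) P‖ := by
  cases σ with
  | false =>
    have e : zt false = 1 := rfl
    have e2 : md false r = r := rfl
    rw [e2] at hz hP
    simp only [e, one_mul] at hne ⊢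
    have hf : (range r).filter (fun u => u.Coprime r) = Ico 1 r := by
      ext u
      rw [mem_filter, mem_range, mem_Ico]
      constructor
      · rintro ⟨h1, h2⟩
        refine ⟨?_, h1⟩
        by_contra h3
        have h0 : u = 0 := by omega
        rw [h0, Nat.coprime_zero_left] at h2
        omega
      · rintro ⟨h1, h2⟩
        exact ⟨h2, (Nat.coprime_of_lt_prime (by omega) h2 hr).symm⟩
    have h := prod_ge p r hp hr.pos hz P hP (by
      intro u hu
      have h1 : zr r ^ u = zr r ^ (u % r) := by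
        conv_lhs => rw [← Nat.div_add_mod u r, pow_add, pow_mul,
          (zr_prim r hr.ne_zero).pow_eq_one, one_pow, one_mul]
      rw [h1]
      refine hne _ ?_
      rw [← hf, mem_filter, mem_range]
      refine ⟨Nat.mod_lt _ hr.pos, ?_⟩
      rwa [Nat.Coprime, ← Nat.gcd_rec, Nat.gcd_comm])
    rw [Nat.totient_prime hr, hf] at h
    exact h
  | true =>
    have e2 : md true r = 3 * r := rfl
    rw [e2] at hz hP
    have hpos : 0 < 3 * r := by omega
    obtain ⟨hroots, hdisj⟩ := NormB1_roots hr h5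
    have hval : ∀ w ∈ primitiveRoots (3 * r) ℂ, aeval w P ≠ 0 := by
      intro w hw
      rw [hroots] at hw
      rcases mem_union.1 hw with hw | hw
      · obtain ⟨x, hx, rfl⟩ := mem_image.1 hw
        exact hne x hx
      · obtain ⟨x, hx, rfl⟩ := mem_image.1 hw
        rw [NormB1_conj]
        exact (_root_.map_ne_zero _).2 (hne x hx)
    have h := prod_ge p (3 * r) hp hpos hz P hP (by
      intro u hu
      refine hval _ ?_
      rw [mem_primitiveRoots hpos]
      exact (zr_prim (3 * r) hpos.ne').pow_of_coprime u hu)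
    rw [NormB1_prod (3 * r) hpos (fun w => ‖aeval w P‖), hroots, prod_union hdisj,
      prod_image (NormB1_inj hr true), prod_image (fun x hx y hy hxy => NormB1_inj hr true hx hy
        ((starRingEnd ℂ).injective hxy))] at h
    have e3 : ∏ x ∈ Ico 1 r, ‖aeval (starRingEnd ℂ (zt true * zr r ^ x)) P‖ =
        ∏ x ∈ Ico 1 r, ‖aeval (zt true * zr r ^ x) P‖ := by
      refine prod_congr rfl fun x _ => ?_
      rw [NormB1_conj, Complex.norm_conj]
    rw [e3, ← pow_two, Nat.totient_mul (NormB1_three hr h5), Nat.totient_prime hr] at h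
    have : Nat.totient 3 = 2 := by decide
    rw [this, mul_comm 2 (r - 1), pow_mul] at h
    exact (pow_le_pow_iff_left₀ (by positivity) (prod_nonneg fun _ _ => norm_nonneg _)
      two_ne_zero).1 h

/-- PROOF. `zero_all` with `R = md σ r` (`zt_prim`; a primitive root of order `R` in `ℂ` is a power of `zr R`). -/
theorem zero_all' (σ : Bool) (r : ℕ) (hr : r.Prime) (h5 : 5 ≤ r) (P : ℤ[X]) {x : ℕ}
    (hx : x ∈ Ico 1 r) (h : aeval (zt σ * zr r ^ x) P = 0) :
    ∀ y ∈ Ico 1 r, aeval (zt σ * zr r ^ y) P = 0 := by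
  intro y hy
  have hR : 0 < md σ r := by
    unfold md
    split_ifs <;> omega
  have : NeZero (md σ r) := ⟨hR.ne'⟩
  have hx' := zt_prim σ hr h5 hx
  have hy' := zt_prim σ hr h5 hy
  rw [(zr_prim (md σ r) hR.ne').isPrimitiveRoot_iff] at hx' hy'
  obtain ⟨i, -, hic, hi⟩ := hx'
  obtain ⟨j, -, hjc, hj⟩ := hy'
  rw [← hi] at h
  rw [← hj]
  exact zero_all (md σ r) hR P hic h j hjc

end Pool.Agent.W_420c7c_h51
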