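import Pool.Agent.W_420c7c_h51.FouC1

set_option autoImplicit false

/-!
# The units `1 + z ζ^x` have norm one
-/

namespace Pool.Agent.W_420c7c_h51

open Finset

private theorem NormB2_prod (r : ℕ) (hodd : Odd r) (ζ : ℂ) (hζ : IsPrimitiveRoot ζ r) (z : ℂ) :
    ∏ x ∈ range r, (1 + z * ζ ^ x) = 1 + z ^ r := by
  have hr : 0 < r := hodd.pos
  have h1 := hζ.pow_add_pow_eq_prod_add_mul (1 : ℂ) z hodd
  rw [one_pow] at h1
  rw [h1]
  refine prod_bij (fun x _ => ζ ^ x) ?_ ?_ ?_ ?_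
  · intro x _
    rw [Polynomial.mem_nthRootsFinset hr, ← pow_mul, mul_comm, pow_mul, hζ.pow_eq_one, one_pow]
  · intro x hx y hy hxy
    exact hζ.pow_inj (mem_range.1 hx) (mem_range.1 hy) hxy
  · intro y hy
    rw [Polynomial.mem_nthRootsFinset hr] at hy
    have : NeZero r := ⟨hr.ne'⟩
    obtain ⟨i, hi, h⟩ := hζ.eq_pow_of_pow_eq_one hy
    exact ⟨i, mem_range.2 hi, h⟩
  · intro x _
    ring

private theorem NormB2_zt3 : (1 : ℂ) + zt true + zt true ^ 2 = 0 := by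
  have h : IsPrimitiveRoot (zt true) 3 := by
    have := Complex.isPrimitiveRoot_exp 3 (by norm_num)
    simpa [zt] using this
  have h1 := h.geom_sum_eq_zero (by norm_num)
  simpa [sum_range_succ] using h1

private theorem NormB2_norm (σ : Bool) (r : ℕ) (hr : r.Prime) (h5 : 5 ≤ r) :
    ‖1 + zt σ ^ r‖ = ‖1 + zt σ‖ ∧ ‖1 + zt σ‖ ≠ 0 := by
  cases σ
  · simp [zt]
  · have h0 := NormB2_zt3
    have h3 : zt true ^ 3 = 1 := by linear_combination (zt true - 1) * h0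
    have n1 : ‖zt true‖ = 1 := by
      have h : ‖zt true‖ ^ 3 = 1 := by rw [← norm_pow, h3, norm_one]
      exact (pow_eq_one_iff_of_nonneg (norm_nonneg _) (by norm_num)).1 h
    have n2 : ‖1 + zt true‖ = 1 := by
      have : 1 + zt true = -(zt true ^ 2) := by linear_combination h0
      rw [this, norm_neg, norm_pow, n1, one_pow]
    have n3 : ‖1 + zt true ^ 2‖ = 1 := by
      have : 1 + zt true ^ 2 = -(zt true) := by linear_combination h0
      rw [this, norm_neg, n1]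
    have hm : r % 3 = 1 ∨ r % 3 = 2 := by
      have h1 : r % 3 ≠ 0 := by
        intro h
        have h2 : 3 ∣ r := Nat.dvd_of_mod_eq_zero h
        have h4 := (Nat.prime_dvd_prime_iff_eq Nat.prime_three hr).1 h2
        omega
      omega
    have hp : zt true ^ r = zt true ^ (r % 3) := by
      conv_lhs => rw [← Nat.div_add_mod r 3, pow_add, pow_mul, h3, one_pow, one_mul]
    rw [hp, n2]
    refine ⟨?_, one_ne_zero⟩
    rcases hm with h | h
    · rw [h, pow_one, n2]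
    · rw [h, n3]

/-- PROOF. For `r ∤ h`: `x ↦ x h mod r` permutes `1..r-1`, and `∏_{x=0}^{r-1} (1 + z ζ^x) = 1 + z^r` (`r` odd), so
`∏_{x=1}^{r-1} ‖1 + z ζ^x‖ = ‖1 + z^r‖ / ‖1 + z‖ = 1` (`z = 1`; `z = ω`: `z^r ∈ {ω, ω²}` as `3 ∤ r`, `‖1 + ω‖ = ‖1 + ω²‖ = 1`); take
logarithms. -/
theorem sum_ell (σ : Bool) (r : ℕ) (hr : r.Prime) (h5 : 5 ≤ r) (h : ℤ) (hh : ¬ (r : ℤ) ∣ h) :
    ∑ x ∈ Ico 1 r, ell σ r ((x : ℤ) * h) = 0 := by
  have hr0 : r ≠ 0 := hr.ne_zero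
  have hodd : Odd r := hr.odd_of_ne_two (by omega)
  set ζ : ℂ := Complex.exp (2 * Real.pi * Complex.I / r) ^ h with hζd
  have hζ : IsPrimitiveRoot ζ r := by
    have h1 := Complex.isPrimitiveRoot_exp r hr0
    refine h1.zpow_of_gcd_eq_one h ?_
    have h2 : IsCoprime (r : ℤ) h := (Nat.prime_iff_prime_int.1 hr).coprime_iff_not_dvd.2 hh
    rw [← Int.isCoprime_iff_gcd_eq_one]
    exact h2.symm
  have hx : ∀ x : ℕ, Complex.exp (2 * Real.pi * Complex.I * (((x : ℤ) * h : ℤ) : ℂ) / r) = ζ ^ x := by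
    intro x
    rw [hζd, ← zpow_natCast, ← zpow_mul, ← Complex.exp_int_mul]
    congr 1
    push_cast
    ring
  obtain ⟨n1, n2⟩ := NormB2_norm σ r hr h5
  have hp := NormB2_prod r hodd ζ hζ (zt σ)
  have hp2 : ∏ x ∈ range r, ‖1 + zt σ * ζ ^ x‖ = ‖1 + zt σ ^ r‖ := by
    rw [← norm_prod, hp]
  have hne : ∀ x ∈ range r, ‖1 + zt σ * ζ ^ x‖ ≠ 0 := by
    rw [← prod_ne_zero_iff, hp2, n1]
    exact n2
  have hsum : ∑ x ∈ range r, Real.log ‖1 + zt σ * ζ ^ x‖ = Real.log ‖1 + zt σ‖ := by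
    rw [← Real.log_prod hne, hp2, n1]
  have hs : range r = insert 0 (Ico 1 r) := by
    ext x
    simp only [mem_range, mem_insert, mem_Ico]
    have := hr.pos
    omega
  rw [hs, sum_insert (by simp)] at hsum
  have hlast : ∑ x ∈ Ico 1 r, ell σ r ((x : ℤ) * h) = ∑ x ∈ Ico 1 r, Real.log ‖1 + zt σ * ζ ^ x‖ := by
    refine sum_congr rfl fun x _ => ?_
    unfold ell
    rw [hx]
  rw [hlast]
  rw [pow_zero, mul_one] at hsum
  linarith

end Pool.Agent.W_420c7c_h51
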