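import Pool.Agent.W_420c7c_h51.Defs

set_option autoImplicit false

/-!
# The standard root of unity
-/

namespace Pool.Agent.W_420c7c_h51

open Finset

/-- the standard primitive root of unity of order `R` -/
noncomputable def zr (R : ℕ) : ℂ := Complex.exp (2 * Real.pi * Complex.I / R)

theorem zr_prim (R : ℕ) (hR : R ≠ 0) : IsPrimitiveRoot (zr R) R := Complex.isPrimitiveRoot_exp R hR

end Pool.Agent.W_420c7c_h51
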