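import Mathlib

set_option autoImplicit false

/-!
# Entropies
-/

namespace Pool.Agent.W_420c7c_h51

open Finset

/-- PROOF. The sum is `6 log 3`; `h = 1.2554 ≤ 3 log 2 - (3/4) log 3 = 1.25548..`. -/
theorem ent3 : ∑ z ∈ range 4, (Nat.choose 3 z : ℝ) * Real.log (Nat.choose 3 z) ≤
    2 ^ 3 * (3 * Real.log 2 - 1.2554) := by
  have e : ∑ z ∈ range 4, (Nat.choose 3 z : ℝ) * Real.log (Nat.choose 3 z) = 6 * Real.log 3 := by
    have c1 : Nat.choose 3 1 = 3 := by decide
    have c2 : Nat.choose 3 2 = 3 := by decide
    have c3 : Nat.choose 3 3 = 1 := by decide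
    simp only [sum_range_succ, range_zero, sum_empty, Nat.choose_zero_right, c1, c2, c3,
      Nat.cast_one, Real.log_one, Nat.cast_ofNat]
    ring
  rw [e]
  have h2 := Real.log_two_gt_d9
  have h3 := Real.log_three_lt_d9
  norm_num at *
  linarith

/-- PROOF. The sum is `10 log 5 + 20 log 10`; the entropy is `1.52367..`. -/
theorem ent5 : ∑ z ∈ range 6, (Nat.choose 5 z : ℝ) * Real.log (Nat.choose 5 z) ≤
    2 ^ 5 * (5 * Real.log 2 - 1.5236) := by
  have e : ∑ z ∈ range 6, (Nat.choose 5 z : ℝ) * Real.log (Nat.choose 5 z) =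
      10 * Real.log 5 + 20 * Real.log 10 := by
    have c1 : Nat.choose 5 1 = 5 := by decide
    have c2 : Nat.choose 5 2 = 10 := by decide
    have c3 : Nat.choose 5 3 = 10 := by decide
    have c4 : Nat.choose 5 4 = 5 := by decide
    have c5 : Nat.choose 5 5 = 1 := by decide
    simp only [sum_range_succ, range_zero, sum_empty, Nat.choose_zero_right, c1, c2, c3, c4, c5,
      Nat.cast_one, Real.log_one, Nat.cast_ofNat]
    ring
  have h10 : Real.log 10 = Real.log 2 + Real.log 5 := by
    rw [← Real.log_mul (by norm_num) (by norm_num)]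
    norm_num
  rw [e, h10]
  have h2 := Real.log_two_gt_d9
  have h5 := Real.log_five_lt_d9
  norm_num at *
  linarith

/-- PROOF. The binomial coefficients are `1, 10, 45, 120, 210, 252`; the entropy is `1.875953..`. -/
theorem ent10 : ∑ z ∈ range 11, (Nat.choose 10 z : ℝ) * Real.log (Nat.choose 10 z) ≤
    2 ^ 10 * (10 * Real.log 2 - 1.8759) := by
  have e : ∑ z ∈ range 11, (Nat.choose 10 z : ℝ) * Real.log (Nat.choose 10 z) =
      20 * Real.log 10 + 90 * Real.log 45 + 240 * Real.log 120 + 420 * Real.log 210
        + 252 * Real.log 252 := by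
    have c1 : Nat.choose 10 1 = 10 := by decide
    have c2 : Nat.choose 10 2 = 45 := by decide
    have c3 : Nat.choose 10 3 = 120 := by decide
    have c4 : Nat.choose 10 4 = 210 := by decide
    have c5 : Nat.choose 10 5 = 252 := by decide
    have c6 : Nat.choose 10 6 = 210 := by decide
    have c7 : Nat.choose 10 7 = 120 := by decide
    have c8 : Nat.choose 10 8 = 45 := by decide
    have c9 : Nat.choose 10 9 = 10 := by decide
    have c10 : Nat.choose 10 10 = 1 := by decide
    simp only [sum_range_succ, range_zero, sum_empty, Nat.choose_zero_right, c1, c2, c3, c4, c5,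
      c6, c7, c8, c9, c10, Nat.cast_one, Real.log_one, Nat.cast_ofNat]
    ring
  have h10 : Real.log 10 = Real.log 2 + Real.log 5 := by
    rw [← Real.log_mul (by norm_num) (by norm_num)]
    norm_num
  have h45 : Real.log 45 = 2 * Real.log 3 + Real.log 5 := by
    have : (45 : ℝ) = 3 ^ 2 * 5 := by norm_num
    rw [this, Real.log_mul (by norm_num) (by norm_num), Real.log_pow]
    norm_num
  have h120 : Real.log 120 = 3 * Real.log 2 + Real.log 3 + Real.log 5 := by
    have : (120 : ℝ) = 2 ^ 3 * 3 * 5 := by norm_num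
    rw [this, Real.log_mul (by norm_num) (by norm_num), Real.log_mul (by norm_num) (by norm_num),
      Real.log_pow]
    norm_num
  have h210 : Real.log 210 = Real.log 2 + Real.log 3 + Real.log 5 + Real.log 7 := by
    have : (210 : ℝ) = 2 * 3 * 5 * 7 := by norm_num
    rw [this, Real.log_mul (by norm_num) (by norm_num), Real.log_mul (by norm_num) (by norm_num),
      Real.log_mul (by norm_num) (by norm_num)]
  have h252 : Real.log 252 = 2 * Real.log 2 + 2 * Real.log 3 + Real.log 7 := by
    have : (252 : ℝ) = 2 ^ 2 * 3 ^ 2 * 7 := by norm_num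
    rw [this, Real.log_mul (by norm_num) (by norm_num), Real.log_mul (by norm_num) (by norm_num),
      Real.log_pow, Real.log_pow]
    norm_num
  have h7 : 4 * Real.log 7 ≤ 5 * Real.log 2 + Real.log 3 + 2 * Real.log 5 + 1 / 2400 := by
    have h1 : 4 * Real.log 7 = Real.log 2401 := by
      have : (2401 : ℝ) = 7 ^ 4 := by norm_num
      rw [this, Real.log_pow]
      norm_num
    have h2 : Real.log 2400 = 5 * Real.log 2 + Real.log 3 + 2 * Real.log 5 := by
      have : (2400 : ℝ) = 2 ^ 5 * 3 * 5 ^ 2 := by norm_num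
      rw [this, Real.log_mul (by norm_num) (by norm_num), Real.log_mul (by norm_num) (by norm_num),
        Real.log_pow, Real.log_pow]
      norm_num
    have hq : Real.log (2401 / 2400) ≤ 2401 / 2400 - 1 := Real.log_le_sub_one_of_pos (by norm_num)
    rw [Real.log_div (by norm_num) (by norm_num)] at hq
    linarith
  rw [e, h10, h45, h120, h210, h252]
  have h2 := Real.log_two_gt_d9
  have h3 := Real.log_three_lt_d9
  have h5 := Real.log_five_lt_d9
  norm_num at *
  linarith

end Pool.Agent.W_420c7c_h51
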