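import Pool.Agent.W_420c7c_h51.FouC1
import Pool.Agent.W_420c7c_h51.CntB
import Pool.Agent.W_420c7c_s.Stat

set_option autoImplicit false

/-!
# The coefficient matrix of an operation
-/

namespace Pool.Agent.W_420c7c_h51

open Finset

/-- The coefficient functions: `XX σ r p m D (op k ρ s g) x = ∑_{w ∈ D} g w * aa w x` for every `g` vanishing outside
`D`, where `aa w x = s (w') ell σ r (x smon w')` if `w = ρ + 2^k w'`, else `0`. -/
noncomputable def aa (σ : Bool) (r p m k : ℕ) (D : Finset (ℕ × ℕ)) (ρ : ℕ × ℕ)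
    (s : Bool × Bool → SignType) (w : ℕ × ℕ) (x : ℕ) : ℝ :=
  ∑ w' ∈ D.filter (fun w' => (ρ.1 + 2 ^ k * w'.1, ρ.2 + 2 ^ k * w'.2) = w),
    ((s (w'.1.bodd, w'.2.bodd) : ℤ) : ℝ) * ell σ r ((x : ℤ) * smon p m w')

/-- the type of the residues `1, ..., r - 1` -/
abbrev Rs (r : ℕ) : Type := {x // x ∈ Ico 1 r}

/-- the matrix in the notation of `W_420c7c_s` -/
noncomputable def am (σ : Bool) (K r p m k : ℕ) (D : Finset (ℕ × ℕ)) (ρ : ℕ × ℕ)
    (s : Bool × Bool → SignType) (i : {w // w ∈ D} × Fin K) (x : Rs r) : ℝ :=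
  aa σ r p m k D ρ s i.1.1 x.1

/-- the two notations for the mean -/
theorem av_eq (r : ℕ) (hr : 1 ≤ r) (g : ℕ → ℝ) :
    av r g = W_420c7c_s.av (fun x : Rs r => g x.1) := by
  unfold av W_420c7c_s.av
  have h1 : ∑ x : Rs r, g x.1 = ∑ x ∈ Ico 1 r, g x := Finset.sum_coe_sort (Ico 1 r) g
  have h2 : (Fintype.card (Rs r) : ℝ) = (r : ℝ) - 1 := by
    have h3 : Fintype.card (Rs r) = (Ico 1 r).card := Fintype.card_coe (Ico 1 r)
    rw [h3, Nat.card_Ico, Nat.cast_sub hr, Nat.cast_one]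
  rw [h1, h2]

/-- PROOF. Interchange of sums. -/
theorem XX_op {σ : Bool} {r p m : ℕ} (k : ℕ) (D : Finset (ℕ × ℕ)) (ρ : ℕ × ℕ)
    (s : Bool × Bool → SignType) (g : ℕ × ℕ → ℝ) (hg : ∀ w ∉ D, g w = 0) (x : ℕ) :
    XX σ r p m D (op k ρ s g) x = ∑ w ∈ D, g w * aa σ r p m k D ρ s w x := by
  unfold XX aa op
  simp only [mul_sum, sum_filter]
  rw [sum_comm]
  refine sum_congr rfl fun w' _ => ?_
  by_cases h : ((ρ.1 + 2 ^ k * w'.1, ρ.2 + 2 ^ k * w'.2) : ℕ × ℕ) ∈ D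
  · rw [sum_eq_single ((ρ.1 + 2 ^ k * w'.1, ρ.2 + 2 ^ k * w'.2) : ℕ × ℕ)]
    · rw [if_pos rfl]
      ring
    · intro b _ hb
      rw [if_neg (fun h' => hb h'.symm), mul_zero]
    · intro h'
      exact absurd h h'
  · rw [hg _ h, mul_zero, zero_mul]
    symm
    refine sum_eq_zero fun w hw => ?_
    have h2 : ¬ ((ρ.1 + 2 ^ k * w'.1, ρ.2 + 2 ^ k * w'.2) : ℕ × ℕ) = w := by
      intro h'
      rw [h'] at h
      exact h hw
    rw [if_neg h2, mul_zero]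

private theorem hf_eq (b : Bool) : hf b = W_420c7c_s.sg b / 2 := by
  cases b <;> simp [hf, W_420c7c_s.sg]

/-- PROOF. `XX_op` for `g = ch ω`, `hf b = sg b / 2`. -/
theorem XX_ch {σ : Bool} {K r p m : ℕ} (k : ℕ) (D : Finset (ℕ × ℕ)) (ρ : ℕ × ℕ)
    (s : Bool × Bool → SignType) (ω : Smp K D) (x : Rs r) :
    XX σ r p m D (op k ρ s (ch ω)) x.1 = W_420c7c_s.XX (am σ K r p m k D ρ s) ω x := by
  rw [XX_op k D ρ s (ch ω) (fun w hw => by simp [ch, hw])]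
  unfold W_420c7c_s.XX am
  rw [Fintype.sum_prod_type, sum_div,
    ← Finset.sum_coe_sort D (fun w => ch ω w * aa σ r p m k D ρ s w x.1)]
  refine sum_congr rfl fun w _ => ?_
  have h1 : ch ω w.1 = ∑ j : Fin K, hf (ω (w, j)) := by
    unfold ch
    rw [dif_pos w.2]
  rw [h1, sum_mul, sum_div]
  refine sum_congr rfl fun j _ => ?_
  rw [hf_eq]
  ring

/-- PROOF. `ell_bound`; at most one `w'` contributes. -/
theorem am_bound {σ : Bool} {K r p m : ℕ} (hr : r.Prime) (h5 : 5 ≤ r) (k : ℕ)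
    (D : Finset (ℕ × ℕ)) (ρ : ℕ × ℕ) (s : Bool × Bool → SignType) (i : {w // w ∈ D} × Fin K)
    (x : Rs r) : |am σ K r p m k D ρ s i x| ≤ 2 * Real.log r := by
  unfold am aa
  set F := D.filter (fun w' => (ρ.1 + 2 ^ k * w'.1, ρ.2 + 2 ^ k * w'.2) = i.1.1) with hF
  have hlog : 0 ≤ 2 * Real.log r := by
    have : 0 ≤ Real.log (r : ℝ) := Real.log_nonneg (by exact_mod_cast (by omega : 1 ≤ r))
    linarith
  have hterm : ∀ w' : ℕ × ℕ, |((s (w'.1.bodd, w'.2.bodd) : ℤ) : ℝ) *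
      ell σ r ((x.1 : ℤ) * smon p m w')| ≤ 2 * Real.log r := by
    intro w'
    rw [abs_mul]
    have h1 : |((s (w'.1.bodd, w'.2.bodd) : ℤ) : ℝ)| ≤ 1 := by
      cases s (w'.1.bodd, w'.2.bodd) <;> simp
    calc |((s (w'.1.bodd, w'.2.bodd) : ℤ) : ℝ)| * |ell σ r ((x.1 : ℤ) * smon p m w')|
        ≤ 1 * (2 * Real.log r) :=
          mul_le_mul h1 (ell_bound σ r hr h5 _) (abs_nonneg _) zero_le_one
      _ = 2 * Real.log r := one_mul _
  have hcard : F.card ≤ 1 := by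
    rw [Finset.card_le_one]
    intro a ha b hb
    rw [hF, mem_filter] at ha hb
    have hab := ha.2.trans hb.2.symm
    rw [Prod.mk.injEq] at hab
    have h2 : 0 < 2 ^ k := by positivity
    have e1 : 2 ^ k * a.1 = 2 ^ k * b.1 := by omega
    have e2 : 2 ^ k * a.2 = 2 ^ k * b.2 := by omega
    exact Prod.ext (Nat.eq_of_mul_eq_mul_left h2 e1) (Nat.eq_of_mul_eq_mul_left h2 e2)
  rcases Nat.lt_or_ge 0 F.card with h | h
  · obtain ⟨w', hw'⟩ := Finset.card_eq_one.1 (le_antisymm hcard h)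
    rw [hw', sum_singleton]
    exact hterm w'
  · rw [Finset.card_eq_zero.1 (Nat.le_zero.1 h), sum_empty, abs_zero]
    exact hlog

end Pool.Agent.W_420c7c_h51
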