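import Pool.Agent.W_420c7c_h51.OpA0
import Pool.Agent.W_420c7c_h51.FouB2

set_option autoImplicit false

/-!
# The trace
-/

namespace Pool.Agent.W_420c7c_h51

open Finset

private theorem OpA1_sum {r : ℕ} [NeZero r] (F : ZMod r → ℝ) :
    ∑ x ∈ Ico 1 r, F (x : ZMod r) = ∑ a ∈ univ.erase (0 : ZMod r), F a := by
  refine Finset.sum_nbij' (fun x : ℕ => (x : ZMod r)) (fun a => a.val) ?_ ?_ ?_ ?_ ?_
  · intro x hx
    rw [mem_Ico] at hx
    rw [mem_erase]
    refine ⟨fun h => ?_, mem_univ _⟩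
    rw [ZMod.natCast_eq_zero_iff] at h
    have := Nat.le_of_dvd (by omega) h
    omega
  · intro a ha
    rw [mem_erase] at ha
    rw [mem_Ico]
    refine ⟨Nat.one_le_iff_ne_zero.2 fun h => ha.1 ((ZMod.val_eq_zero a).1 h), ZMod.val_lt a⟩
  · intro x hx
    rw [mem_Ico] at hx
    exact ZMod.val_cast_of_lt hx.2
  · intro a _
    exact ZMod.natCast_zmod_val a
  · intro x _
    rfl

/-- multiplication by `h` permutes the nonzero residues -/
private theorem OpA1_perm {r : ℕ} (hr : r.Prime) (g : ℤ → ℝ)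
    (hg : ∀ x y : ℤ, x ≡ y [ZMOD r] → g x = g y) (h : ℤ) (hh : ¬ (r : ℤ) ∣ h) :
    ∑ x ∈ Ico 1 r, g ((x : ℤ) * h) = ∑ x ∈ Ico 1 r, g (x : ℤ) := by
  have : NeZero r := ⟨hr.ne_zero⟩
  have : Fact r.Prime := ⟨hr⟩
  have hh0 : ((h : ℤ) : ZMod r) ≠ 0 := fun h1 => hh ((ZMod.intCast_zmod_eq_zero_iff_dvd _ _).1 h1)
  have e1 : ∀ x ∈ Ico 1 r, g ((x : ℤ) * h) =
      (fun a : ZMod r => g ((a * (h : ZMod r)).val : ℤ)) (x : ZMod r) := by
    intro x _
    apply hg
    rw [← ZMod.intCast_eq_intCast_iff]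
    push_cast
    rw [ZMod.natCast_zmod_val]
  have e2 : ∀ x ∈ Ico 1 r, g (x : ℤ) = (fun a : ZMod r => g (a.val : ℤ)) (x : ZMod r) := by
    intro x _
    apply hg
    rw [← ZMod.intCast_eq_intCast_iff]
    push_cast
    rw [ZMod.natCast_zmod_val]
  rw [Finset.sum_congr rfl e1, Finset.sum_congr rfl e2,
    OpA1_sum (fun a : ZMod r => g ((a * (h : ZMod r)).val : ℤ)),
    OpA1_sum (fun a : ZMod r => g (a.val : ℤ))]
  refine Finset.sum_nbij' (fun a => a * (h : ZMod r)) (fun a => a * (h : ZMod r)⁻¹) ?_ ?_ ?_ ?_ ?_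
  · intro a ha
    rw [mem_erase] at ha ⊢
    exact ⟨mul_ne_zero ha.1 hh0, mem_univ _⟩
  · intro a ha
    rw [mem_erase] at ha ⊢
    exact ⟨mul_ne_zero ha.1 (inv_ne_zero hh0), mem_univ _⟩
  · intro a _
    rw [mul_assoc, mul_inv_cancel₀ hh0, mul_one]
  · intro a _
    rw [mul_assoc, inv_mul_cancel₀ hh0, mul_one]
  · intro a _
    rfl

/-- PROOF. At most one `w'` contributes to `aa w`; so the left side is at most
`K ∑_{w' : ρ + 2^k w' ∈ D} av (ell σ r (x smon w') ^ 2) ≤ K t av (ell σ r x ^ 2)` (`x ↦ x smon w' mod r` permutes `1..r-1`, `ell_mod`,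
`not_dvd_smon`), and `msq`. -/
theorem tr_op {σ : Bool} {K p m T r₀ r : ℕ} {L : ℝ} (hr : GP p m T r₀ L r) (h5 : 5 ≤ r) (k : ℕ)
    (D : Finset (ℕ × ℕ)) (ρ : ℕ × ℕ) (s : Bool × Bool → SignType) (t : ℝ)
    (ht : ((D.filter (fun w => (ρ.1 + 2 ^ k * w.1, ρ.2 + 2 ^ k * w.2) ∈ D)).card : ℝ) ≤ t) :
    ∑ i, W_420c7c_s.av (fun x => am σ K r p m k D ρ s i x ^ 2) ≤
      K * (t * (Real.pi ^ 2 / 12 + 25 * (1 + Real.log r) / ((r : ℝ) - 1))) := by
  classical
  have hrp : r.Prime := hr.1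
  set B : ℝ := Real.pi ^ 2 / 12 + 25 * (1 + Real.log r) / ((r : ℝ) - 1) with hB
  have hr1 : (0 : ℝ) < (r : ℝ) - 1 := by
    have : (5 : ℝ) ≤ r := by exact_mod_cast h5
    linarith
  have hlog : 0 ≤ Real.log r := Real.log_natCast_nonneg r
  have hB0 : 0 ≤ B := by positivity
  -- the mean of `ell (x smon w') ^ 2`
  have hav : ∀ w' : ℕ × ℕ, av r (fun x => ell σ r ((x : ℤ) * smon p m w') ^ 2) ≤ B := by
    intro w'
    have h1 := OpA1_perm hrp (fun y => ell σ r y ^ 2)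
      (fun x y hxy => by simp only [ell_mod σ r hrp.pos x y hxy]) (smon p m w') (not_dvd_smon hr w')
    have h2 := msq σ r hrp h5
    unfold av at h2 ⊢
    rw [h1]
    exact h2
  -- the squares of the coefficients
  have hsq : ∀ w : ℕ × ℕ, ∀ x : ℕ, aa σ r p m k D ρ s w x ^ 2 ≤
      ∑ w' ∈ D.filter (fun w' => (ρ.1 + 2 ^ k * w'.1, ρ.2 + 2 ^ k * w'.2) = w),
        ell σ r ((x : ℤ) * smon p m w') ^ 2 := by
    intro w x
    unfold aa
    have hcard : ((D.filter (fun w' => (ρ.1 + 2 ^ k * w'.1, ρ.2 + 2 ^ k * w'.2) = w)).card : ℝ)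
        ≤ 1 := by
      have : (D.filter (fun w' => (ρ.1 + 2 ^ k * w'.1, ρ.2 + 2 ^ k * w'.2) = w)).card ≤ 1 := by
        rw [Finset.card_le_one]
        intro a ha b hb
        rw [mem_filter] at ha hb
        have h1 := ha.2.trans hb.2.symm
        have hk : 0 < 2 ^ k := by positivity
        rw [Prod.mk.injEq] at h1
        have h2 : 2 ^ k * a.1 = 2 ^ k * b.1 := by omega
        have h3 : 2 ^ k * a.2 = 2 ^ k * b.2 := by omega
        exact Prod.ext (Nat.eq_of_mul_eq_mul_left hk h2) (Nat.eq_of_mul_eq_mul_left hk h3)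
      exact_mod_cast this
    refine (sq_sum_le_card_mul_sum_sq).trans ?_
    refine (mul_le_of_le_one_left (Finset.sum_nonneg fun i _ => sq_nonneg _) hcard).trans ?_
    refine Finset.sum_le_sum fun w' _ => ?_
    rw [mul_pow]
    have hz : ∀ z : SignType, ((z : ℤ) : ℝ) ^ 2 ≤ 1 := by
      intro z
      cases z <;> simp
    exact mul_le_of_le_one_left (sq_nonneg _) (hz _)
  have hws : ∀ w : ℕ × ℕ, av r (fun x => aa σ r p m k D ρ s w x ^ 2) ≤
      ∑ w' ∈ D.filter (fun w' => (ρ.1 + 2 ^ k * w'.1, ρ.2 + 2 ^ k * w'.2) = w), B := by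
    intro w
    calc av r (fun x => aa σ r p m k D ρ s w x ^ 2)
        ≤ ∑ w' ∈ D.filter (fun w' => (ρ.1 + 2 ^ k * w'.1, ρ.2 + 2 ^ k * w'.2) = w),
          av r (fun x => ell σ r ((x : ℤ) * smon p m w') ^ 2) := by
          unfold av
          rw [← Finset.sum_div, Finset.sum_comm]
          exact div_le_div_of_nonneg_right (Finset.sum_le_sum fun x _ => hsq w x) hr1.le
      _ ≤ _ := Finset.sum_le_sum fun w' _ => hav w'
  have hsum : ∑ i : {w // w ∈ D} × Fin K, W_420c7c_s.av (fun x => am σ K r p m k D ρ s i x ^ 2) =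
      K * ∑ w ∈ D, av r (fun x => aa σ r p m k D ρ s w x ^ 2) := by
    rw [Fintype.sum_prod_type]
    have e1 : ∀ w : {w // w ∈ D}, ∑ j : Fin K,
        W_420c7c_s.av (fun x => am σ K r p m k D ρ s (w, j) x ^ 2) =
        K * av r (fun x => aa σ r p m k D ρ s w.1 x ^ 2) := by
      intro w
      have e2 : ∀ j : Fin K, W_420c7c_s.av (fun x => am σ K r p m k D ρ s (w, j) x ^ 2) =
          av r (fun x => aa σ r p m k D ρ s w.1 x ^ 2) := by
        intro j
        rw [av_eq r (by omega)]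
        rfl
      rw [Finset.sum_congr rfl fun j _ => e2 j]
      simp
    rw [Finset.sum_congr rfl fun w _ => e1 w, ← Finset.mul_sum]
    congr 1
    exact Finset.sum_coe_sort D (fun w => av r (fun x => aa σ r p m k D ρ s w x ^ 2))
  rw [hsum]
  refine mul_le_mul_of_nonneg_left ?_ (Nat.cast_nonneg K)
  calc ∑ w ∈ D, av r (fun x => aa σ r p m k D ρ s w x ^ 2)
      ≤ ∑ w ∈ D, ∑ w' ∈ D.filter (fun w' => (ρ.1 + 2 ^ k * w'.1, ρ.2 + 2 ^ k * w'.2) = w), B :=
        Finset.sum_le_sum fun w _ => hws w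
    _ = ∑ w' ∈ D.filter (fun w => (ρ.1 + 2 ^ k * w.1, ρ.2 + 2 ^ k * w.2) ∈ D), B := by
        simp only [Finset.sum_const, nsmul_eq_mul]
        rw [← Finset.sum_mul]
        congr 1
        have h1 := Finset.card_eq_sum_card_fiberwise
          (f := fun w' : ℕ × ℕ => (ρ.1 + 2 ^ k * w'.1, ρ.2 + 2 ^ k * w'.2))
          (s := D.filter (fun w => (ρ.1 + 2 ^ k * w.1, ρ.2 + 2 ^ k * w.2) ∈ D)) (t := D)
          (fun w' hw' => by
            simp only [coe_filter, Set.mem_ofPred_eq] at hw'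
            exact hw'.2)
        rw [h1]
        push_cast
        refine Finset.sum_congr rfl fun w hw => ?_
        congr 2
        ext w'
        simp only [mem_filter]
        constructor
        · rintro ⟨h2, h3⟩
          exact ⟨⟨h2, h3 ▸ hw⟩, h3⟩
        · rintro ⟨⟨h2, _⟩, h3⟩
          exact ⟨h2, h3⟩
    _ = ((D.filter (fun w => (ρ.1 + 2 ^ k * w.1, ρ.2 + 2 ^ k * w.2) ∈ D)).card : ℝ) * B := by
        rw [Finset.sum_const, nsmul_eq_mul]
    _ ≤ t * B := mul_le_mul_of_nonneg_right ht hB0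

end Pool.Agent.W_420c7c_h51
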