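import Pool.Agent.W_420c7c_h51.OpA0
import Pool.Agent.W_420c7c_h51.FouC2

set_option autoImplicit false

/-!
# The operator norm
-/

namespace Pool.Agent.W_420c7c_h51

open Finset

private lemma OpA2_sgn (t : SignType) : (((t : ℤ) : ℝ)) ^ 2 ≤ 1 := by
  cases t <;> simp

/-- the residue of the signed monomial -/
private def OpA2_hh (r p m : ℕ) (w : ℕ × ℕ) : ℕ := (smon p m w % (r : ℤ)).toNat

private lemma OpA2_hh_cast (r p m : ℕ) (hr : 0 < r) (w : ℕ × ℕ) :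
    ((OpA2_hh r p m w : ℕ) : ℤ) = smon p m w % (r : ℤ) := by
  unfold OpA2_hh
  exact Int.toNat_of_nonneg (Int.emod_nonneg _ (by omega))

private lemma OpA2_hh_modEq (r p m : ℕ) (hr : 0 < r) (w : ℕ × ℕ) :
    smon p m w ≡ ((OpA2_hh r p m w : ℕ) : ℤ) [ZMOD r] := by
  rw [OpA2_hh_cast r p m hr w]
  exact (Int.mod_modEq _ _).symm

private lemma OpA2_hh_mem {p m T r₀ r : ℕ} {L : ℝ} (hr : GP p m T r₀ L r) (w : ℕ × ℕ) :
    OpA2_hh r p m w ∈ Ico 1 r := by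
  have hr0 : 0 < r := hr.1.pos
  have h1 := OpA2_hh_cast r p m hr0 w
  have h2 := Int.emod_lt_of_pos (smon p m w) (by omega : (0 : ℤ) < r)
  have h3 : ¬ (smon p m w % (r : ℤ)) = 0 := fun h => not_dvd_smon hr w (Int.dvd_of_emod_eq_zero h)
  rw [mem_Ico]
  omega

private lemma OpA2_XX {σ : Bool} {p m T r₀ r : ℕ} {L : ℝ} (hr : GP p m T r₀ L r)
    (D : Finset (ℕ × ℕ)) (f : ℕ × ℕ → ℝ) (x : ℕ) :
    XX σ r p m D f x = ∑ h ∈ Ico 1 r, (∑ w ∈ D.filter (fun w => OpA2_hh r p m w = h), f w) *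
      ell σ r ((x : ℤ) * (h : ℤ)) := by
  unfold XX
  rw [← sum_fiberwise_of_maps_to (s := D) (t := Ico 1 r) (g := OpA2_hh r p m)
    (fun w _ => OpA2_hh_mem hr w)]
  refine sum_congr rfl fun h _ => ?_
  rw [sum_mul]
  refine sum_congr rfl fun w hw => ?_
  rw [mem_filter] at hw
  congr 1
  apply ell_mod σ r hr.1.pos
  rw [← hw.2]
  exact (OpA2_hh_modEq r p m hr.1.pos w).mul_left _

private lemma OpA2_V {p m T r₀ r : ℕ} {L : ℝ} (hr : GP p m T r₀ L r) (k : ℕ)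
    (D : Finset (ℕ × ℕ)) (ρ : ℕ × ℕ) (s : Bool × Bool → SignType) (κ : ℝ)
    (hκ : ∀ h : ℤ, ((D.filter (fun w => (ρ.1 + 2 ^ k * w.1, ρ.2 + 2 ^ k * w.2) ∈ D ∧
      smon p m w ≡ h [ZMOD r])).card : ℝ) ≤ κ) (g : ℕ × ℕ → ℝ) (hg : ∀ w ∉ D, g w = 0) (h : ℕ) :
    (∑ w ∈ D.filter (fun w => OpA2_hh r p m w = h), op k ρ s g w) ^ 2 ≤
      κ * ∑ w ∈ D.filter (fun w => OpA2_hh r p m w = h), op k ρ s g w ^ 2 := by
  set F := D.filter (fun w => (ρ.1 + 2 ^ k * w.1, ρ.2 + 2 ^ k * w.2) ∈ D ∧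
      smon p m w ≡ (h : ℤ) [ZMOD r]) with hF
  have hz : ∀ w : ℕ × ℕ, (ρ.1 + 2 ^ k * w.1, ρ.2 + 2 ^ k * w.2) ∉ D → op k ρ s g w = 0 := by
    intro w hw
    unfold op
    rw [hg _ hw, mul_zero]
  have e1 : ∑ w ∈ D.filter (fun w => OpA2_hh r p m w = h), op k ρ s g w =
      ∑ w ∈ (D.filter (fun w => OpA2_hh r p m w = h)).filter
        (fun w => (ρ.1 + 2 ^ k * w.1, ρ.2 + 2 ^ k * w.2) ∈ D), op k ρ s g w := by
    symm
    apply sum_filter_of_ne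
    intro w _ hne
    by_contra h'
    exact hne (hz w h')
  have hsub : (D.filter (fun w => OpA2_hh r p m w = h)).filter
        (fun w => (ρ.1 + 2 ^ k * w.1, ρ.2 + 2 ^ k * w.2) ∈ D) ⊆ F := by
    intro w hw
    rw [mem_filter, mem_filter] at hw
    rw [hF, mem_filter]
    refine ⟨hw.1.1, hw.2, ?_⟩
    rw [← hw.1.2]
    exact OpA2_hh_modEq r p m hr.1.pos w
  rw [e1]
  refine (sq_sum_le_card_mul_sum_sq).trans ?_
  have hS0 : 0 ≤ ∑ w ∈ (D.filter (fun w => OpA2_hh r p m w = h)).filter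
        (fun w => (ρ.1 + 2 ^ k * w.1, ρ.2 + 2 ^ k * w.2) ∈ D), op k ρ s g w ^ 2 :=
    sum_nonneg fun _ _ => sq_nonneg _
  have hκ0 : 0 ≤ κ := (Nat.cast_nonneg _).trans (hκ 0)
  refine mul_le_mul ?_ (sum_le_sum_of_subset_of_nonneg (filter_subset _ _)
    fun _ _ _ => sq_nonneg _) hS0 hκ0
  refine le_trans ?_ (hκ h)
  exact_mod_cast card_le_card hsub

private lemma OpA2_op_sq (k : ℕ) (D : Finset (ℕ × ℕ)) (ρ : ℕ × ℕ) (s : Bool × Bool → SignType)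
    (g : ℕ × ℕ → ℝ) (hg : ∀ w ∉ D, g w = 0) :
    ∑ w ∈ D, op k ρ s g w ^ 2 ≤ ∑ w ∈ D, g w ^ 2 := by
  have h1 : ∀ w ∈ D, op k ρ s g w ^ 2 ≤ g (ρ.1 + 2 ^ k * w.1, ρ.2 + 2 ^ k * w.2) ^ 2 := by
    intro w _
    unfold op
    rw [mul_pow]
    calc _ ≤ 1 * g (ρ.1 + 2 ^ k * w.1, ρ.2 + 2 ^ k * w.2) ^ 2 :=
          mul_le_mul_of_nonneg_right (OpA2_sgn _) (sq_nonneg _)
      _ = _ := one_mul _
  refine (sum_le_sum h1).trans ?_
  have hinj : Set.InjOn (fun w : ℕ × ℕ => ((ρ.1 + 2 ^ k * w.1, ρ.2 + 2 ^ k * w.2) : ℕ × ℕ))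
      (D : Set (ℕ × ℕ)) := by
    intro a _ b _ hab
    simp only [Prod.mk.injEq] at hab
    have h2 : 0 < 2 ^ k := by positivity
    have e1 : 2 ^ k * a.1 = 2 ^ k * b.1 := by omega
    have e2 : 2 ^ k * a.2 = 2 ^ k * b.2 := by omega
    exact Prod.ext (Nat.eq_of_mul_eq_mul_left h2 e1) (Nat.eq_of_mul_eq_mul_left h2 e2)
  have h2 : ∑ w ∈ D, g (ρ.1 + 2 ^ k * w.1, ρ.2 + 2 ^ k * w.2) ^ 2 =
      ∑ w ∈ D.image (fun w : ℕ × ℕ => ((ρ.1 + 2 ^ k * w.1, ρ.2 + 2 ^ k * w.2) : ℕ × ℕ)),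
        g w ^ 2 := by
    rw [sum_image hinj]
  rw [h2]
  calc ∑ w ∈ D.image (fun w : ℕ × ℕ => ((ρ.1 + 2 ^ k * w.1, ρ.2 + 2 ^ k * w.2) : ℕ × ℕ)), g w ^ 2
      = ∑ w ∈ (D.image (fun w : ℕ × ℕ => ((ρ.1 + 2 ^ k * w.1, ρ.2 + 2 ^ k * w.2) : ℕ × ℕ))).filter
          (fun w => w ∈ D), g w ^ 2 := by
        symm
        apply sum_filter_of_ne
        intro w _ hne
        by_contra h'
        exact hne (by rw [hg w h']; norm_num)
    _ ≤ ∑ w ∈ D, g w ^ 2 := by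
        apply sum_le_sum_of_subset_of_nonneg
        · intro w hw
          exact (mem_filter.1 hw).2
        · intro _ _ _
          exact sq_nonneg _

/-- PROOF. `W_420c7c_s.op_of_dual`. For `v` let `v' w = ∑_j v (w, j)`, `v' w ^ 2 ≤ K ∑_j v (w, j) ^ 2`.
`∑_i v_i am i x = ∑_{w' : ρ + 2^k w' ∈ D} v'_(ρ + 2^k w') s(w') ell σ r (x smon w') = ∑_{h=1}^{r-1} V h ell σ r (x h)`, `V h` the
sum over the `w'` with `smon w' ≡ h`; `∑_h V h ^ 2 ≤ κ ∑ v' ^ 2` (Cauchy-Schwarz, `|s| ≤ 1`, at most `κ` terms). Apply `opb` and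
`r / (r - 1) ≤ 2`. -/
theorem lam_op {σ : Bool} {K p m T r₀ r : ℕ} {L : ℝ} (hr : GP p m T r₀ L r) (h5 : 5 ≤ r) (k : ℕ)
    (D : Finset (ℕ × ℕ)) (ρ : ℕ × ℕ) (s : Bool × Bool → SignType) (κ : ℝ)
    (hκ : ∀ h : ℤ, ((D.filter (fun w => (ρ.1 + 2 ^ k * w.1, ρ.2 + 2 ^ k * w.2) ∈ D ∧
      smon p m w ≡ h [ZMOD r])).card : ℝ) ≤ κ) :
    W_420c7c_s.Op (am σ K r p m k D ρ s) (2 * K * κ * (2 * Real.log r + 3) ^ 2) := by
  have hκ0 : 0 ≤ κ := (Nat.cast_nonneg _).trans (hκ 0)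
  have : Nonempty (Rs r) := ⟨⟨1, by rw [mem_Ico]; omega⟩⟩
  refine W_420c7c_s.op_of_dual _ _ (by positivity) fun v => ?_
  set v' : ℕ × ℕ → ℝ := fun w => if h : w ∈ D then ∑ j : Fin K, v (⟨w, h⟩, j) else 0 with hv'
  have hv0 : ∀ w ∉ D, v' w = 0 := fun w hw => by simp [hv', hw]
  have e1 : ∀ x : Rs r, ∑ i, v i * am σ K r p m k D ρ s i x = XX σ r p m D (op k ρ s v') x.1 := by
    intro x
    rw [XX_op k D ρ s v' hv0]
    unfold am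
    rw [Fintype.sum_prod_type, ← Finset.sum_coe_sort D (fun w => v' w * aa σ r p m k D ρ s w x.1)]
    refine sum_congr rfl fun w _ => ?_
    have h1 : v' w.1 = ∑ j : Fin K, v (w, j) := by
      simp only [hv']
      rw [dif_pos w.2]
    rw [h1, sum_mul]
  have e2 : (fun x : Rs r => (∑ i, v i * am σ K r p m k D ρ s i x) ^ 2) =
      fun x : Rs r => (fun y : ℕ => XX σ r p m D (op k ρ s v') y ^ 2) x.1 := by
    funext x
    rw [e1 x]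
  have e4 := av_eq r (by omega) (fun y : ℕ => XX σ r p m D (op k ρ s v') y ^ 2)
  rw [e2]
  refine le_of_eq_of_le e4.symm ?_
  -- the sum of squares
  have hK : ∑ w ∈ D, v' w ^ 2 ≤ K * ∑ i, v i ^ 2 := by
    rw [Fintype.sum_prod_type, ← Finset.sum_coe_sort D (fun w => v' w ^ 2), mul_sum]
    refine sum_le_sum fun w _ => ?_
    have h1 : v' w.1 = ∑ j : Fin K, v (w, j) := by
      simp only [hv']
      rw [dif_pos w.2]
    rw [h1]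
    have h2 := sq_sum_le_card_mul_sum_sq (s := (univ : Finset (Fin K))) (f := fun j => v (w, j))
    rw [card_univ, Fintype.card_fin] at h2
    exact h2
  have hV : ∑ h ∈ Ico 1 r, (∑ w ∈ D.filter (fun w => OpA2_hh r p m w = h), op k ρ s v' w) ^ 2 ≤
      κ * (K * ∑ i, v i ^ 2) := by
    calc ∑ h ∈ Ico 1 r, (∑ w ∈ D.filter (fun w => OpA2_hh r p m w = h), op k ρ s v' w) ^ 2
        ≤ ∑ h ∈ Ico 1 r, κ * ∑ w ∈ D.filter (fun w => OpA2_hh r p m w = h), op k ρ s v' w ^ 2 :=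
          sum_le_sum fun h _ => OpA2_V hr k D ρ s κ hκ v' hv0 h
      _ = κ * ∑ w ∈ D, op k ρ s v' w ^ 2 := by
          rw [← mul_sum, sum_fiberwise_of_maps_to (fun w _ => OpA2_hh_mem hr w)]
      _ ≤ κ * ∑ w ∈ D, v' w ^ 2 := mul_le_mul_of_nonneg_left (OpA2_op_sq k D ρ s v' hv0) hκ0
      _ ≤ κ * (K * ∑ i, v i ^ 2) := mul_le_mul_of_nonneg_left hK hκ0
  have hop := opb σ r hr.1 h5
    (fun h => ∑ w ∈ D.filter (fun w => OpA2_hh r p m w = h), op k ρ s v' w)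
  have hr5 : (5 : ℝ) ≤ r := by exact_mod_cast h5
  have hpos : (0 : ℝ) < (r : ℝ) - 1 := by linarith
  unfold av
  rw [div_le_iff₀ hpos]
  have e3 : ∑ x ∈ Ico 1 r, XX σ r p m D (op k ρ s v') x ^ 2 = ∑ x ∈ Ico 1 r,
      (∑ h ∈ Ico 1 r, (fun h => ∑ w ∈ D.filter (fun w => OpA2_hh r p m w = h), op k ρ s v' w) h *
        ell σ r ((x : ℤ) * (h : ℤ))) ^ 2 := by
    refine sum_congr rfl fun x _ => ?_
    rw [OpA2_XX hr D (op k ρ s v') x]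
  rw [e3]
  refine hop.trans ?_
  have hS : 0 ≤ ∑ i, v i ^ 2 := sum_nonneg fun _ _ => sq_nonneg _
  calc (r : ℝ) * (2 * Real.log r + 3) ^ 2 *
        ∑ h ∈ Ico 1 r, (∑ w ∈ D.filter (fun w => OpA2_hh r p m w = h), op k ρ s v' w) ^ 2
      ≤ (r : ℝ) * (2 * Real.log r + 3) ^ 2 * (κ * (K * ∑ i, v i ^ 2)) :=
        mul_le_mul_of_nonneg_left hV (by positivity)
    _ = r * (K * κ * (2 * Real.log r + 3) ^ 2 * ∑ i, v i ^ 2) := by ring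
    _ ≤ (2 * ((r : ℝ) - 1)) * (K * κ * (2 * Real.log r + 3) ^ 2 * ∑ i, v i ^ 2) :=
        mul_le_mul_of_nonneg_right (by linarith) (by positivity)
    _ = (2 * K * κ * (2 * Real.log r + 3) ^ 2 * ∑ i, v i ^ 2) * ((r : ℝ) - 1) := by ring

end Pool.Agent.W_420c7c_h51
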