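import Pool.Agent.W_420c7c_h51.OpA1
import Pool.Agent.W_420c7c_h51.OpA2

set_option autoImplicit false

/-!
# The quadratic mean is rarely large
-/

namespace Pool.Agent.W_420c7c_h51

open Finset

open scoped Classical in
/-- PROOF. `W_420c7c_s.bad_sq` with `a = am`, `A = 2 log r` (`am_bound`), `Γ = 2 K κ (2 log r + 3)^2` (`lam_op`), `e = gap`; `tr_op`;
`qd` is the mean of the square (`av_eq`, `XX_ch`). `25 (1 + log r)/(r - 1) ≤ 1` for `r ≥ 1000`, so `∑ av a_i^2 ≤ 2 K t`;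
`Γ + A^2 ≤ 3 K κ (2 log r + 3)^2` as `K, κ ≥ 1`. Number of samples `2 ^ (#D K)`. -/
theorem sq_fail {σ : Bool} {K p m T r₀ r : ℕ} {L : ℝ} (hr : GP p m T r₀ L r) (h5 : 1000 ≤ r)
    (hK : 1 ≤ K) (k : ℕ) (D : Finset (ℕ × ℕ)) (ρ : ℕ × ℕ) (s : Bool × Bool → SignType)
    (t κ gap thr : ℝ)
    (ht : ((D.filter (fun w => (ρ.1 + 2 ^ k * w.1, ρ.2 + 2 ^ k * w.2) ∈ D)).card : ℝ) ≤ t)
    (hκ : ∀ h : ℤ, ((D.filter (fun w => (ρ.1 + 2 ^ k * w.1, ρ.2 + 2 ^ k * w.2) ∈ D ∧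
      smon p m w ≡ h [ZMOD r])).card : ℝ) ≤ κ) (hκ1 : 1 ≤ κ) (hgap : 0 < gap)
    (hthr : K * (t * (Real.pi ^ 2 / 12 + 25 * (1 + Real.log r) / ((r : ℝ) - 1))) / 4 + gap ≤ thr) :
    ((univ.filter (fun ω : Smp K D => thr < qd σ r p m D (op k ρ s (ch ω)))).card : ℝ) * gap ^ 2 ≤
      2 ^ (D.card * K) * (3 * K ^ 2 * κ * t * (2 * Real.log r + 3) ^ 2) := by
  classical
  have hp := hr.1
  have hr1 : (1000 : ℝ) ≤ r := by exact_mod_cast h5
  have h5' : 5 ≤ r := by omega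
  haveI : Nonempty (Rs r) := ⟨⟨1, mem_Ico.2 ⟨le_refl 1, by omega⟩⟩⟩
  have hK' : (1 : ℝ) ≤ K := by exact_mod_cast hK
  have ht0 : 0 ≤ t := le_trans (Nat.cast_nonneg _) ht
  have hlog0 : 0 ≤ Real.log r := Real.log_nonneg (by linarith)
  set ll : ℝ := 2 * Real.log r + 3 with hll
  have hll0 : 0 ≤ ll := by linarith
  have hκ0 : 0 ≤ κ := by linarith
  have hΓ0 : 0 ≤ 2 * K * κ * ll ^ 2 := by positivity
  have hOp := lam_op (σ := σ) (K := K) hr h5' k D ρ s κ hκ
  have hbad := W_420c7c_s.bad_sq (am σ K r p m k D ρ s) (2 * Real.log r) (2 * K * κ * ll ^ 2) gap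
    (fun i x => am_bound hp h5' k D ρ s i x) hΓ0 hOp hgap
  have htr := tr_op (σ := σ) (K := K) hr h5' k D ρ s t ht
  set S : ℝ := ∑ i, W_420c7c_s.av (fun x => am σ K r p m k D ρ s i x ^ 2) with hS
  have hS0 : 0 ≤ S := sum_nonneg fun i _ => W_420c7c_s.av_nonneg fun x => sq_nonneg _
  have hqd : ∀ ω : Smp K D, qd σ r p m D (op k ρ s (ch ω)) =
      W_420c7c_s.av (fun x => W_420c7c_s.XX (am σ K r p m k D ρ s) ω x ^ 2) := by
    intro ω
    unfold qd
    rw [av_eq r (by omega) (fun x => XX σ r p m D (op k ρ s (ch ω)) x ^ 2)]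
    congr 1
    funext x
    rw [XX_ch]
  have hcard : (((univ.filter (fun ω : Smp K D =>
      thr < qd σ r p m D (op k ρ s (ch ω)))).card : ℕ) : ℝ) ≤
      ((univ.filter fun w : Smp K D => S / 4 + gap <
        W_420c7c_s.av fun x => W_420c7c_s.XX (am σ K r p m k D ρ s) w x ^ 2).card : ℝ) := by
    have h1 : (univ.filter (fun ω : Smp K D => thr < qd σ r p m D (op k ρ s (ch ω)))) ⊆
        (univ.filter fun w : Smp K D => S / 4 + gap <
        W_420c7c_s.av fun x => W_420c7c_s.XX (am σ K r p m k D ρ s) w x ^ 2) := by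
      intro ω hω
      rw [mem_filter] at hω ⊢
      refine ⟨hω.1, ?_⟩
      rw [← hqd ω]
      linarith [hω.2]
    exact_mod_cast card_le_card h1
  have hsmp : (Fintype.card (Smp K D) : ℝ) = 2 ^ (D.card * K) := by
    have h1 : Fintype.card (Smp K D) = 2 ^ (D.card * K) := by
      simp [Smp, Fintype.card_pi, Fintype.card_prod]
    rw [h1]
    push_cast
    rfl
  -- the numbers
  have hlog1 : Real.log r ≤ 27 + (r / 1000 - 1) := by
    have e1 : (r : ℝ) = 10 ^ 3 * (r / 1000) := by ring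
    have e2 : Real.log r = 3 * Real.log 10 + Real.log (r / 1000) := by
      conv_lhs => rw [e1]
      rw [Real.log_mul (by norm_num) (by positivity), Real.log_pow]
      norm_num
    have e3 := Real.log_le_sub_one_of_pos (show (0 : ℝ) < 10 by norm_num)
    have e4 := Real.log_le_sub_one_of_pos (show (0 : ℝ) < r / 1000 by positivity)
    rw [e2]
    linarith
  have hfrac : 25 * (1 + Real.log r) / ((r : ℝ) - 1) ≤ 1 := by
    rw [div_le_one (by linarith)]
    linarith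
  have hpi : Real.pi ^ 2 / 12 ≤ 1 := by
    have h1 := Real.pi_lt_d2
    have h2 := Real.pi_pos
    nlinarith
  have hS2 : S ≤ 2 * K * t := by
    refine htr.trans ?_
    have h1 : t * (Real.pi ^ 2 / 12 + 25 * (1 + Real.log r) / ((r : ℝ) - 1)) ≤ t * 2 :=
      mul_le_mul_of_nonneg_left (by linarith) ht0
    have h2 := mul_le_mul_of_nonneg_left h1 (by linarith : (0 : ℝ) ≤ K)
    linarith
  have hA2 : (2 * K * κ * ll ^ 2 + (2 * Real.log r) ^ 2) / 2 ≤ 3 * K * κ * ll ^ 2 / 2 := by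
    have h1 : (2 * Real.log r) ^ 2 ≤ ll ^ 2 := pow_le_pow_left₀ (by linarith) (by linarith) 2
    have h2 : 1 * ll ^ 2 ≤ (K * κ) * ll ^ 2 :=
      mul_le_mul_of_nonneg_right (one_le_mul_of_one_le_of_one_le hK' hκ1) (by positivity)
    linarith
  have hfin : (2 * K * κ * ll ^ 2 + (2 * Real.log r) ^ 2) / 2 * S ≤ 3 * K ^ 2 * κ * t * ll ^ 2 := by
    calc (2 * K * κ * ll ^ 2 + (2 * Real.log r) ^ 2) / 2 * S
        ≤ (3 * K * κ * ll ^ 2 / 2) * (2 * K * t) :=
          mul_le_mul hA2 hS2 hS0 (by positivity)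
      _ = 3 * K ^ 2 * κ * t * ll ^ 2 := by ring
  rw [hsmp] at hbad
  calc _ ≤ gap ^ 2 * ((univ.filter fun w : Smp K D => S / 4 + gap <
        W_420c7c_s.av fun x => W_420c7c_s.XX (am σ K r p m k D ρ s) w x ^ 2).card : ℝ) := by
        rw [mul_comm]
        exact mul_le_mul_of_nonneg_left hcard (by positivity)
    _ ≤ _ := hbad
    _ ≤ _ := by
        rw [mul_comm]
        exact mul_le_mul_of_nonneg_left hfin (by positivity)

end Pool.Agent.W_420c7c_h51
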