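import Pool.Agent.W_420c7c_h51.OpA1
import Pool.Agent.W_420c7c_h51.OpA2

set_option autoImplicit false

/-!
# The cosine mean is rarely small
-/

namespace Pool.Agent.W_420c7c_h51

open Finset

open scoped Classical in
/-- PROOF. `W_420c7c_s.bad_cos` with `a = am` (`k = 0`), `A = 2 log r`, `Γ = 2 K κ (2 log r + 3)^2`; `tr_op` with `t = #D`. -/
theorem cos_fail {σ : Bool} {K p m T r₀ r : ℕ} {L : ℝ} (hr : GP p m T r₀ L r) (h5 : 1000 ≤ r)
    (hK : 1 ≤ K) (D : Finset (ℕ × ℕ)) (s : Bool × Bool → SignType) (t κ e g : ℝ)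
    (hκ : ∀ h : ℤ, ((D.filter (fun w => smon p m w ≡ h [ZMOD r])).card : ℝ) ≤ κ) (hκ1 : 1 ≤ κ)
    (he : 0 < e) (ht : |t| * (2 * Real.log r) ≤ 1)
    (hg : t ^ 2 / 8 * (K * (D.card * (Real.pi ^ 2 / 12 + 25 * (1 + Real.log r) / ((r : ℝ) - 1)))) +
      D.card * K * (|t| * (2 * Real.log r)) ^ 4 / 64 ≤ g) :
    ((univ.filter (fun ω : Smp K D =>
      cs σ r p m D t (op 0 (0, 0) s (ch ω)) < Real.exp (-g) - e)).card : ℝ) * e ^ 2 ≤
      2 ^ (D.card * K) * (t ^ 2 * K * κ * (2 * Real.log r + 3) ^ 2 +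
        D.card * K * (|t| * (2 * Real.log r)) ^ 4) := by
  have hne : Nonempty (Rs r) := ⟨⟨1, by rw [mem_Ico]; omega⟩⟩
  have hlog : 0 ≤ Real.log r := Real.log_natCast_nonneg r
  set A : ℝ := 2 * Real.log r with hAdef
  have hA0 : 0 ≤ A := by positivity
  have hA : ∀ i x, |am σ K r p m 0 D (0, 0) s i x| ≤ A := fun i x =>
    am_bound hr.1 (by omega) 0 D (0, 0) s i x
  have hκ0 : 0 ≤ κ := by linarith
  have hop := lam_op (σ := σ) (K := K) hr (by omega) 0 D (0, 0) s κ (fun h => by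
    refine le_trans ?_ (hκ h)
    exact_mod_cast card_le_card fun w hw => by
      rw [mem_filter] at hw ⊢
      exact ⟨hw.1, hw.2.2⟩)
  have htr := tr_op (σ := σ) (K := K) hr (by omega) 0 D (0, 0) s (D.card : ℝ) (by
    exact_mod_cast card_filter_le _ _)
  have hΓ0 : 0 ≤ 2 * K * κ * (A + 3) ^ 2 := by positivity
  have h1 := W_420c7c_s.bad_cos (am σ K r p m 0 D (0, 0) s) t A (2 * K * κ * (A + 3) ^ 2) e hA0 hA
    ht hΓ0 hop he
  have hcard : (Fintype.card ({w // w ∈ D} × Fin K) : ℝ) = D.card * K := by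
    rw [Fintype.card_prod, Fintype.card_coe, Fintype.card_fin]
    push_cast
    rfl
  have hcard2 : (Fintype.card (Smp K D) : ℝ) = 2 ^ (D.card * K) := by
    rw [Fintype.card_fun, Fintype.card_bool, Fintype.card_prod, Fintype.card_coe, Fintype.card_fin]
    push_cast
    rfl
  rw [hcard, hcard2] at h1
  have hcs : ∀ ω : Smp K D, cs σ r p m D t (op 0 (0, 0) s (ch ω)) =
      W_420c7c_s.av (fun x => Real.cos (t * W_420c7c_s.XX (am σ K r p m 0 D (0, 0) s) ω x)) := by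
    intro ω
    unfold cs
    rw [av_eq r (by omega)]
    congr 1
    funext x
    rw [XX_ch]
  have hexp : Real.exp (-g) ≤ Real.exp (-(t ^ 2 / 8 *
      ∑ i, W_420c7c_s.av fun x => am σ K r p m 0 D (0, 0) s i x ^ 2) -
        D.card * K * (|t| * A) ^ 4 / 64) := by
    refine Real.exp_le_exp.2 ?_
    have h3 := mul_le_mul_of_nonneg_left htr (by positivity : 0 ≤ t ^ 2 / 8)
    linarith
  have h2 : ((univ.filter (fun ω : Smp K D =>
      cs σ r p m D t (op 0 (0, 0) s (ch ω)) < Real.exp (-g) - e)).card : ℝ) ≤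
      ((univ.filter fun ω : Smp K D => W_420c7c_s.av (fun x =>
        Real.cos (t * W_420c7c_s.XX (am σ K r p m 0 D (0, 0) s) ω x)) <
      Real.exp (-(t ^ 2 / 8 * ∑ i, W_420c7c_s.av fun x => am σ K r p m 0 D (0, 0) s i x ^ 2) -
        D.card * K * (|t| * A) ^ 4 / 64) - e).card : ℝ) := by
    refine Nat.cast_le.2 (card_le_card fun ω hω => ?_)
    rw [mem_filter] at hω ⊢
    refine ⟨hω.1, ?_⟩
    have h4 := hω.2
    rw [hcs] at h4
    linarith
  have h3 := mul_le_mul_of_nonneg_left h2 (by positivity : 0 ≤ e ^ 2)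
  have h4 := h3.trans h1
  have h5' : (0 : ℝ) ≤ D.card * K * (|t| * A) ^ 4 := by positivity
  have h6 : t ^ 2 / 2 * (2 * K * κ * (A + 3) ^ 2) + D.card * K * (|t| * A) ^ 4 / 5 ≤
      t ^ 2 * K * κ * (A + 3) ^ 2 + D.card * K * (|t| * A) ^ 4 := by
    nlinarith
  have h7 := mul_le_mul_of_nonneg_right h6 (by positivity : (0 : ℝ) ≤ 2 ^ (D.card * K))
  rw [mul_comm]
  refine h4.trans (h7.trans (le_of_eq ?_))
  ring

end Pool.Agent.W_420c7c_h51
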