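import Pool.Agent.W_420c7c_h51.Defs

set_option autoImplicit false

/-!
# Differences of samples
-/

namespace Pool.Agent.W_420c7c_h51

open Finset

/-- all operations of `d` have a small mean of `|X|`, for both types -/
def Sm (p m : ℕ) (D : Finset (ℕ × ℕ)) (d : ℕ × ℕ → ℤ) (r : ℕ) : Prop :=
  ∀ σ, ∀ f ∈ OPS d, l1 σ r p m D (fun w => (f w : ℝ)) < 2 * (Real.log p - Real.log 2)

private lemma PairA_cv {K : ℕ} (D : Finset (ℕ × ℕ)) (ω : Smp K D) (w : ℕ × ℕ) :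
    ((cv ω w : ℤ) : ℝ) = ch ω w + if w ∈ D then (K : ℝ) / 2 else 0 := by
  unfold cv ch
  by_cases h : w ∈ D
  · rw [dif_pos h, dif_pos h, if_pos h]
    have e : ∀ b : Bool, hf b = (if b = true then (1 : ℝ) else 0) - 1 / 2 := by
      intro b
      cases b
      · norm_num [hf]
      · norm_num [hf]
    simp only [e]
    rw [sum_sub_distrib, sum_const, card_univ, Fintype.card_fin, nsmul_eq_mul, sum_boole]
    push_cast
    ring
  · rw [dif_neg h, dif_neg h, if_neg h]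
    norm_num

/-- The difference of the coefficients is the difference of the centred coefficients.
PROOF. `cv ω w - cv ω' w = ch ω w - ch ω' w` (the constant `K / 2` cancels), the operations are additive. -/
theorem XX_diff {K : ℕ} (σ : Bool) (r p m : ℕ) (D : Finset (ℕ × ℕ)) (ω ω' : Smp K D) (k : ℕ)
    (ρ : ℕ × ℕ) (s : Bool × Bool → SignType) (x : ℕ) :
    XX σ r p m D (fun w => ((op k ρ s (fun w => cv ω w - cv ω' w) w : ℤ) : ℝ)) x =
      XX σ r p m D (op k ρ s (ch ω)) x - XX σ r p m D (op k ρ s (ch ω')) x := by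
  unfold XX
  rw [← sum_sub_distrib]
  refine sum_congr rfl fun w _ => ?_
  rw [← sub_mul]
  congr 1
  unfold op
  push_cast
  rw [PairA_cv, PairA_cv]
  ring

private lemma PairA_minkowski (S : Finset ℕ) (X Y : ℕ → ℝ) (c v : ℝ) (hc : 0 < c) (hv : 0 ≤ v)
    (hS : ((S.card : ℕ) : ℝ) = c) (hX : (∑ x ∈ S, X x ^ 2) / c ≤ v ^ 2)
    (hY : (∑ x ∈ S, Y x ^ 2) / c ≤ v ^ 2) : (∑ x ∈ S, |X x - Y x|) / c ≤ 2 * v := by
  rw [div_le_iff₀ hc] at hX hY ⊢
  have h1 : (∑ x ∈ S, |X x - Y x|) ^ 2 ≤ c * ∑ x ∈ S, |X x - Y x| ^ 2 := by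
    have := sq_sum_le_card_mul_sum_sq (s := S) (f := fun x => |X x - Y x|)
    rwa [hS] at this
  have h2 : ∑ x ∈ S, |X x - Y x| ^ 2 ≤ 2 * ∑ x ∈ S, X x ^ 2 + 2 * ∑ x ∈ S, Y x ^ 2 := by
    rw [mul_sum, mul_sum, ← sum_add_distrib]
    refine sum_le_sum fun x _ => ?_
    rw [sq_abs]
    nlinarith [sq_nonneg (X x + Y x)]
  have h3 : (∑ x ∈ S, |X x - Y x|) ^ 2 ≤ (2 * v * c) ^ 2 := by
    nlinarith
  exact abs_le_of_sq_le_sq' h3 (by positivity) |>.2

/-- PROOF (Minkowski). `av |X - X'| ≤ √(av X²) + √(av X'²) ≤ 2 √0.9 log p < 2 (log p - log 2)` for `log p ≥ 20`. -/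
theorem small_pos {K : ℕ} {σ : Bool} {r p m : ℕ} (hr : 2 ≤ r) (hp : 20 ≤ Real.log p)
    (D : Finset (ℕ × ℕ)) (ω ω' : Smp K D) (k : ℕ) (ρ : ℕ × ℕ) (s : Bool × Bool → SignType)
    (h1 : qd σ r p m D (op k ρ s (ch ω)) ≤ 0.9 * Real.log p ^ 2)
    (h2 : qd σ r p m D (op k ρ s (ch ω')) ≤ 0.9 * Real.log p ^ 2) :
    l1 σ r p m D (fun w => ((op k ρ s (fun w => cv ω w - cv ω' w) w : ℤ) : ℝ)) <
      2 * (Real.log p - Real.log 2) := by
  have hl2 : Real.log 2 < 0.6931471808 := Real.log_two_lt_d9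
  have hr1 : (0 : ℝ) < (r : ℝ) - 1 := by
    have : (2 : ℝ) ≤ r := by exact_mod_cast hr
    linarith
  have hcard : (((Ico 1 r).card : ℕ) : ℝ) = (r : ℝ) - 1 := by
    rw [Nat.card_Ico, Nat.cast_sub (by omega)]
    norm_num
  have e5 : l1 σ r p m D (fun w =>
      ((op k ρ s (fun w => cv ω w - cv ω' w) w : ℤ) : ℝ)) =
      (∑ x ∈ Ico 1 r, |XX σ r p m D (op k ρ s (ch ω)) x - XX σ r p m D (op k ρ s (ch ω')) x|) /
        ((r : ℝ) - 1) := by
    unfold l1 av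
    congr 1
    refine sum_congr rfl fun x _ => ?_
    show |_| = |_|
    rw [XX_diff]
  rw [e5]
  have hv : 0.9 * Real.log p ^ 2 ≤ (0.95 * Real.log p) ^ 2 := by nlinarith
  have h3 := PairA_minkowski (Ico 1 r) (fun x => XX σ r p m D (op k ρ s (ch ω)) x)
    (fun x => XX σ r p m D (op k ρ s (ch ω')) x) ((r : ℝ) - 1) (0.95 * Real.log p) hr1
    (by linarith) hcard (h1.trans hv) (h2.trans hv)
  refine lt_of_le_of_lt h3 ?_
  linarith

end Pool.Agent.W_420c7c_h51
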