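import Pool.Agent.W_420c7c_h51.CntA2
import Pool.Agent.W_420c7c_h51.CntB

set_option autoImplicit false

/-!
# Bounds for the parameters
-/

namespace Pool.Agent.W_420c7c_h51

open Finset

private theorem typA0_basic {K : ℕ} {h θ : ℝ} {p m : ℕ} {u : ℝ} (hP : Par K h θ p m u)
    (hu : 5 ≤ u) : 3 ≤ p ∧ Real.log p + Real.log m = u ∧ u / 5 ≤ Real.log p ∧
      u / 3 ≤ Real.log m := by
  have hp2 : 2 ≤ p := hP.hp.two_le
  have hu1 := hP.hu1
  have hu2 := hP.hu2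
  have hm := hP.hm
  have hp0 : (p : ℝ) ≠ 0 := by
    have : p ≠ 0 := by omega
    exact_mod_cast this
  have hm0 : (m : ℝ) ≠ 0 := by
    have : m ≠ 0 := by omega
    exact_mod_cast this
  have hsum : Real.log p + Real.log m = u := by
    have h1 := hP.hu
    rw [Nat.cast_mul, Real.log_mul hp0 hm0] at h1
    linarith
  refine ⟨?_, hsum, by linarith, by linarith⟩
  by_contra hlt
  have hp : p = 2 := by omega
  subst hp
  have h2 := Real.log_two_lt_d9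
  push_cast at hu1
  linarith

/-- the number of the monomials in the residue `ρ` modulo `2^k`.
PROOF. `supp_card`, `log p + log m = u`, `2 log p log m ≥ 0.32 u²` (`log m = u - log p`, `u/5 ≤ log p ≤ 2u/3`). -/
theorem supp_Par {K : ℕ} {h θ : ℝ} {p m : ℕ} {u : ℝ} (hP : Par K h θ p m u) (hu : 5 ≤ u) (k : ℕ)
    (ρ : ℕ × ℕ) :
    (((Dl p m (θ * u ^ 2)).filter (fun w =>
      (ρ.1 + 2 ^ k * w.1, ρ.2 + 2 ^ k * w.2) ∈ Dl p m (θ * u ^ 2))).card : ℝ) ≤
      (θ * u ^ 2 / 2 ^ k + u) ^ 2 / (2 * Real.log p * Real.log m) ∧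
    0.32 * u ^ 2 ≤ 2 * Real.log p * Real.log m := by
  obtain ⟨hp3, hsum, h1, h2⟩ := typA0_basic hP hu
  have hθ0 := hP.hθ0
  have hu2 := hP.hu2
  refine ⟨?_, ?_⟩
  · have hA : 0 ≤ θ * u ^ 2 := by
      have : 0 ≤ θ := by linarith
      positivity
    have := supp_card hp3 hP.hm hA k ρ
    rw [add_assoc, hsum] at this
    exact this
  · have hm : Real.log m = u - Real.log p := by linarith
    rw [hm]
    nlinarith [mul_nonneg (sub_nonneg.2 h1) (show (0 : ℝ) ≤ 4 / 5 * u - Real.log p by linarith)]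

/-- PROOF. `mult_card` with `A = θ u²`, `log p, log m ≥ u / 5`, `θ ≤ 0.2745`. -/
theorem mult_Par {K : ℕ} {h θ : ℝ} {p m : ℕ} {u : ℝ} (hP : Par K h θ p m u) (hu : 5 ≤ u)
    {T r₀ r : ℕ} {L : ℝ} (hr : GP p m T r₀ L r) (k : ℕ) (ρ : ℕ × ℕ) (h' : ℤ) :
    (((Dl p m (θ * u ^ 2)).filter (fun w =>
      (ρ.1 + 2 ^ k * w.1, ρ.2 + 2 ^ k * w.2) ∈ Dl p m (θ * u ^ 2) ∧
      smon p m w ≡ h' [ZMOD r])).card : ℝ) ≤ (3 * u / (2 ^ k * (T + 1)) + 1) ^ 2 := by
  obtain ⟨hp3, hsum, h1, h2⟩ := typA0_basic hP hu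
  have hθ0 := hP.hθ0
  have hθ := hP.hθ
  have hθp : 0 ≤ θ := by linarith
  have hu0 : 0 < u := by linarith
  have hA : 0 ≤ θ * u ^ 2 := by positivity
  have hlm : u / 5 ≤ Real.log m := by linarith
  have hT : (0 : ℝ) < 2 ^ k * ((T : ℝ) + 1) := by positivity
  have key : ∀ x : ℝ, u / 5 ≤ x →
      2 * (θ * u ^ 2) / (2 ^ k * x * (T + 1)) + 1 ≤ 3 * u / (2 ^ k * (T + 1)) + 1 := by
    intro x hx
    have hx0 : 0 < x := by linarith
    have e : 2 * (θ * u ^ 2) / (2 ^ k * x * (T + 1)) =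
        (2 * (θ * u ^ 2) / x) / (2 ^ k * ((T : ℝ) + 1)) := by
      field_simp
    rw [e]
    have h3 : 2 * (θ * u ^ 2) / x ≤ 3 * u := by
      rw [div_le_iff₀ hx0]
      nlinarith [mul_le_mul_of_nonneg_left hx (show (0 : ℝ) ≤ 3 * u by positivity),
        mul_le_mul_of_nonneg_right hθ (show (0 : ℝ) ≤ u ^ 2 by positivity)]
    have h4 := div_le_div_of_nonneg_right h3 hT.le
    linarith
  have hk1 := key _ h1
  have hk2 := key _ hlm
  have hpos : 0 ≤ 2 * (θ * u ^ 2) / (2 ^ k * Real.log m * (T + 1)) + 1 := by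
    have : 0 < Real.log m := by linarith
    positivity
  have hpos2 : 0 ≤ 3 * u / (2 ^ k * ((T : ℝ) + 1)) + 1 := by positivity
  refine (mult_card hp3 hP.hm hA hr k ρ h').trans ?_
  rw [sq (3 * u / (2 ^ k * ((T : ℝ) + 1)) + 1)]
  exact mul_le_mul hk1 hk2 hpos hpos2

end Pool.Agent.W_420c7c_h51
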