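import Pool.Agent.W_420c7c_h51.EntB
import Pool.Agent.W_420c7c_h51.TypA0
import Pool.Agent.W_420c7c_h51.CntA3

set_option autoImplicit false

/-!
# The pigeonhole principle
-/

namespace Pool.Agent.W_420c7c_h51

open Finset

private theorem PigA_basic {K : ℕ} {h θ : ℝ} {p m : ℕ} {u : ℝ} (hP : Par K h θ p m u)
    (hu : 5 ≤ u) : 3 ≤ p ∧ Real.log p + Real.log m = u := by
  have hp2 : 2 ≤ p := hP.hp.two_le
  have hu1 := hP.hu1
  have hu2 := hP.hu2
  have hm := hP.hm
  have hp0 : (p : ℝ) ≠ 0 := by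
    have : p ≠ 0 := by omega
    exact_mod_cast this
  have hm0 : (m : ℝ) ≠ 0 := by
    have : m ≠ 0 := by omega
    exact_mod_cast this
  have hsum : Real.log p + Real.log m = u := by
    have h1 := hP.hu
    rw [Nat.cast_mul, Real.log_mul hp0 hm0] at h1
    linarith
  refine ⟨?_, hsum⟩
  by_contra hlt
  have hp : p = 2 := by omega
  subst hp
  have h2 := Real.log_two_lt_d9
  push_cast at hu1
  linarith

/-- the abstract pigeonhole principle -/
private theorem PigA_count {Ω V : Type*} [DecidableEq V] [DecidableEq Ω]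
    (T : Finset Ω) (c : Ω → V) (v : V → ℤ)
    (M X : ℝ) (b : ℕ) (hM0 : 0 ≤ M) (hX0 : 0 < M)
    (hM : ∀ ω ∈ T, ((T.filter (fun ω' => c ω' = c ω)).card : ℝ) ≤ M)
    (hv : ∀ ω ∈ T, 0 ≤ v (c ω) ∧ v (c ω) ≤ b)
    (hX : ((b : ℝ) + 1) * (X * M) ≤ T.card) :
    ∃ F ⊆ T, (∀ ω ∈ F, ∀ ω' ∈ F, c ω = c ω' → ω = ω') ∧
      (∀ ω ∈ F, ∀ ω' ∈ F, v (c ω) = v (c ω')) ∧ X ≤ F.card := by
  classical
  have hmaps : ∀ ω ∈ T, v (c ω) ∈ Icc (0 : ℤ) b := fun ω hω => mem_Icc.2 (hv ω hω)
  have hcard : (Icc (0 : ℤ) b).card = b + 1 := by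
    rw [Int.card_Icc]
    omega
  obtain ⟨z, hz, hzc⟩ := exists_le_card_fiber_of_nsmul_le_card_of_maps_to (b := X * M) hmaps
    ⟨0, by simp⟩ (by
      rw [hcard, nsmul_eq_mul]
      push_cast
      exact hX)
  set S := T.filter (fun ω => v (c ω) = z) with hS
  obtain ⟨F, hFS, hinj, himg⟩ := exists_subset_injOn_image_eq_of_surjOn (f := c) (S : Set Ω)
    (S.image c) (by
      intro y hy
      rw [mem_coe, mem_image] at hy
      obtain ⟨a, ha, rfl⟩ := hy
      exact ⟨a, mem_coe.2 ha, rfl⟩)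
  have hFS' : F ⊆ S := fun x hx => mem_coe.1 (hFS (mem_coe.2 hx))
  refine ⟨F, hFS'.trans (filter_subset _ _), ?_, ?_, ?_⟩
  · intro ω hω ω' hω' he
    exact hinj (mem_coe.2 hω) (mem_coe.2 hω') he
  · intro ω hω ω' hω'
    rw [(mem_filter.1 (hFS' hω)).2, (mem_filter.1 (hFS' hω')).2]
  · have h1 : S.card ≤ ⌊M⌋₊ * (S.image c).card := by
      apply card_le_mul_card_image
      intro a ha
      rw [mem_image] at ha
      obtain ⟨ω, hω, rfl⟩ := ha
      apply Nat.le_floor
      refine le_trans ?_ (hM ω (mem_filter.1 hω).1)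
      have : S.filter (fun x => c x = c ω) ⊆ T.filter (fun ω' => c ω' = c ω) := by
        intro x hx
        rw [mem_filter] at hx ⊢
        exact ⟨(mem_filter.1 hx.1).1, hx.2⟩
      exact_mod_cast card_le_card this
    have h2 : (S.card : ℝ) ≤ M * (S.image c).card := by
      have h3 : (S.card : ℝ) ≤ (⌊M⌋₊ : ℝ) * (S.image c).card := by exact_mod_cast h1
      refine h3.trans ?_
      exact mul_le_mul_of_nonneg_right (Nat.floor_le hM0) (Nat.cast_nonneg _)
    have h3 : X * M ≤ F.card * M := by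
      have h4 : (S.image c).card ≤ F.card := by
        rw [← himg]
        exact card_image_le
      have h5 : ((S.image c).card : ℝ) ≤ F.card := by exact_mod_cast h4
      calc X * M ≤ S.card := hzc
        _ ≤ M * (S.image c).card := h2
        _ ≤ M * F.card := mul_le_mul_of_nonneg_left h5 hM0
        _ = F.card * M := mul_comm _ _
    exact le_of_mul_le_mul_right h3 hX0

/-- the values of `vv (cv ω)` -/
private theorem PigA_vv {K p m : ℕ} (hp : 3 ≤ p) (hm : 3 ≤ m) (A : ℝ)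
    (ω : Smp K (Dl p m A)) :
    0 ≤ vv p m (Dl p m A) (cv ω) ∧
      (vv p m (Dl p m A) (cv ω) : ℝ) ≤ K * (Dl p m A).card * Real.exp A := by
  have hc0 : ∀ w, 0 ≤ cv ω w := by
    intro w
    unfold cv
    split_ifs
    · positivity
    · exact le_rfl
  have hcK : ∀ w, cv ω w ≤ K := by
    intro w
    unfold cv
    split_ifs
    · have : (univ.filter (fun j : Fin K => ω (⟨w, by assumption⟩, j) = true)).card ≤ K := by
        refine (card_le_univ _).trans ?_
        rw [Fintype.card_fin]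
      exact_mod_cast this
    · positivity
  constructor
  · unfold vv
    apply sum_nonneg
    intro w _
    exact mul_nonneg (hc0 w) (by positivity)
  · unfold vv
    push_cast
    have h1 : ∀ w ∈ Dl p m A, (cv ω w : ℝ) * (mon p m w : ℝ) ≤ K * Real.exp A := by
      intro w hw
      have hlv : lv p m w ≤ A := (mem_Dl hp hm).1 hw
      have hmon0 : 0 < mon p m w := by
        unfold mon
        have : 0 < p := by omega
        have : 0 < m := by omega
        positivity
      have hmon : (mon p m w : ℝ) ≤ Real.exp A := by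
        rw [← Real.log_le_iff_le_exp (by exact_mod_cast hmon0), log_mon hp hm]
        exact hlv
      have h2 : (cv ω w : ℝ) ≤ K := by exact_mod_cast hcK w
      have h3 : (0 : ℝ) ≤ cv ω w := by exact_mod_cast hc0 w
      exact mul_le_mul h2 hmon (by positivity) (by positivity)
    refine (sum_le_sum h1).trans ?_
    rw [sum_const, nsmul_eq_mul]
    apply le_of_eq
    ring

/-- the numerical part -/
private theorem PigA_num {K : ℕ} {h θ : ℝ} {p m : ℕ} {u : ℝ} (hP : Par K h θ p m u)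
    (hu : 10 ^ 8 ≤ u) (N : ℝ) (hN1 : (θ * u ^ 2) ^ 2 / (2 * Real.log p * Real.log m) ≤ N)
    (hN2 : N ≤ (θ * u ^ 2 + u) ^ 2 / (2 * Real.log p * Real.log m))
    (hs0 : 0.32 * u ^ 2 ≤ 2 * Real.log p * Real.log m)
    (hs1 : 2 * Real.log p * Real.log m ≤ u ^ 2 / 2) :
    4 * (K * Real.log 2) ^ 2 ≤ (0.00001 : ℝ) ^ 2 * N ∧
      θ * u ^ 2 + 0.00001 * u ^ 2 + 14 * u ≤ N * (h - 0.00001) ∧
      4 * (K * N + 2) ≤ Real.exp (14 * u) := by
  have hθ0 := hP.hθ0
  have hθ := hP.hθ
  have hs := hP.hs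
  have hK : (K : ℝ) ≤ 10 := by exact_mod_cast hP.hK
  have hK0 : (0 : ℝ) ≤ K := Nat.cast_nonneg _
  set s := 2 * Real.log p * Real.log m with hsdef
  have hu0 : 0 < u := by linarith
  have hu2 : (10 : ℝ) ^ 16 ≤ u ^ 2 := by nlinarith
  have hspos : 0 < s := by nlinarith
  set A := θ * u ^ 2 with hA
  have hA0 : 0.1 * u ^ 2 ≤ A := by
    rw [hA]
    nlinarith [sq_nonneg u]
  have hA1 : A ≤ 0.2745 * u ^ 2 := by
    rw [hA]
    nlinarith [sq_nonneg u]
  have hAs : A ^ 2 ≤ N * s := by rwa [div_le_iff₀ hspos] at hN1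
  have hNs : N * s ≤ (A + u) ^ 2 := by rwa [le_div_iff₀ hspos] at hN2
  have hu4 : 0 < u ^ 2 := by positivity
  have hNlow : 0.02 * u ^ 2 ≤ N := by
    have h1 : (0.1 * u ^ 2) ^ 2 ≤ A ^ 2 := pow_le_pow_left₀ (by positivity) hA0 2
    have h3 : 0 < N := by
      by_contra hneg
      have : N * s ≤ 0 := mul_nonpos_of_nonpos_of_nonneg (not_lt.1 hneg) hspos.le
      nlinarith [sq_nonneg A, pow_pos hu4 2]
    have h2 : (0.1 * u ^ 2) ^ 2 ≤ N * (u ^ 2 / 2) :=
      h1.trans (hAs.trans (mul_le_mul_of_nonneg_left hs1 h3.le))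
    by_contra hneg
    push Not at hneg
    nlinarith [mul_lt_mul_of_pos_right hneg hu4]
  have hNup : N ≤ u ^ 2 := by
    have h3 : A + u ≤ 0.3 * u ^ 2 := by nlinarith
    have h4 : (A + u) ^ 2 ≤ (0.3 * u ^ 2) ^ 2 :=
      pow_le_pow_left₀ (by nlinarith) h3 2
    have h5 : N * (0.32 * u ^ 2) ≤ (0.3 * u ^ 2) ^ 2 := by
      refine le_trans ?_ (hNs.trans h4)
      exact mul_le_mul_of_nonneg_left hs0 (by nlinarith)
    by_contra hneg
    push Not at hneg
    nlinarith [mul_lt_mul_of_pos_right hneg hu4]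
  refine ⟨?_, ?_, ?_⟩
  · have hl2 := Real.log_two_lt_d9
    have hl0 := Real.log_two_gt_d9
    have h1 : K * Real.log 2 ≤ 10 * 0.7 :=
      mul_le_mul hK (by linarith) (by linarith) (by norm_num)
    have h2 : (K * Real.log 2) ^ 2 ≤ (10 * 0.7) ^ 2 :=
      pow_le_pow_left₀ (mul_nonneg hK0 (by linarith)) h1 2
    nlinarith
  · -- N (h - δ) ≥ A + ...
    have hNpos : 0 < N := by nlinarith
    have hhs : s + 0.0001 * u ^ 2 ≤ A * h := by
      rw [hA]
      linarith
    -- N * h ≥ A + 2e-5 u^2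
    have h1 : A * (s + 0.0001 * u ^ 2) ≤ N * s * h := by
      have h2 : A * (A * h) ≤ (N * s) * h := by
        have := mul_le_mul_of_nonneg_right hAs hP.hh.le
        nlinarith
      have h3 : A * (s + 0.0001 * u ^ 2) ≤ A * (A * h) :=
        mul_le_mul_of_nonneg_left hhs (by nlinarith)
      linarith
    have h2 : A + 0.00002 * u ^ 2 ≤ N * h := by
      by_contra hneg
      push Not at hneg
      have h3 : N * h * s < (A + 0.00002 * u ^ 2) * s := mul_lt_mul_of_pos_right hneg hspos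
      have h4 : 0.00002 * u ^ 2 * s ≤ A * (0.0001 * u ^ 2) := by
        have h5 : 0.2 * s ≤ A := by nlinarith
        nlinarith [mul_le_mul_of_nonneg_right h5 hu4.le]
      nlinarith
    -- but the bound with δ needs the lower bound of N only
    by_cases hcase : N * 0.00001 ≤ 0.000008 * u ^ 2
    · nlinarith
    · push Not at hcase
      -- never happens as N ≤ 0.8 u^2
      exfalso
      have h3 : A + u ≤ 0.28 * u ^ 2 := by nlinarith
      have h4 : (A + u) ^ 2 ≤ (0.28 * u ^ 2) ^ 2 :=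
        pow_le_pow_left₀ (by nlinarith) h3 2
      have h5 : N * (0.32 * u ^ 2) ≤ (0.28 * u ^ 2) ^ 2 := by
        refine le_trans ?_ (hNs.trans h4)
        exact mul_le_mul_of_nonneg_left hs0 hNpos.le
      nlinarith
  · have h1 : 4 * (K * N + 2) ≤ (7 * u) ^ 2 := by
      have : K * N ≤ 10 * u ^ 2 := mul_le_mul hK hNup (by nlinarith) (by norm_num)
      nlinarith
    have h2 : 7 * u ≤ Real.exp (7 * u) := by
      have := Real.add_one_le_exp (7 * u)
      linarith
    have h3 : (7 * u) ^ 2 ≤ Real.exp (7 * u) ^ 2 := pow_le_pow_left₀ (by positivity) h2 2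
    have h4 : Real.exp (7 * u) ^ 2 = Real.exp (14 * u) := by
      rw [← Real.exp_nat_mul]
      congr 1
      push_cast
      ring
    linarith [h4 ▸ h3]

/-- PROOF. `N = #D`, `A = θ u²`, `δ = 10⁻⁵`. By `ent_typ` at least `2^(N K) / 4` elements of `𝒯` have
`∑_w log (K.choose (cnt ω w)) ≤ N (K log 2 - h + δ)`; by `card_cv` every value of `cv` is taken by at most
`exp (N (K log 2 - h + δ))` of them, so there are at least `exp (N (h - δ)) / 4` values of `cv`. For each of them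
`0 ≤ vv (cv ω) ≤ K N e^A`, so some value of `vv` belongs to at least `exp (N (h - δ) - A) / (4 (K N + 1))` values of `cv`; choose one
`ω` for each. `N ≥ A² / (2 log p log m)` (`card_ge`), and `hP.hs` gives `θ h u² ≥ 2 log p log m + 10⁻⁴ u²`, so
`N h ≥ θ u² (1 + 10⁻⁴ u² / (2 log p log m)) ≥ θ u² (1 + 2·10⁻⁴) ≥ A + 2·10⁻⁵ u²` (`2 log p log m ≤ u²/2`), provided the inequality
`N (h - δ) ≥ A² (h - δ) / (2 log p log m)` is used with `δ A² / (2 log p log m) ≤ 10⁻⁵ * 0.2745² u² / 0.32 ≤ 3·10⁻⁶ u²`.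
`log (4 (K N + 1)) = O(log u)`. -/
theorem pigeon : ∃ u₀ : ℝ, ∀ (K : ℕ) (h θ : ℝ) (p m : ℕ) (u : ℝ), Par K h θ p m u → u₀ ≤ u →
    ∀ 𝒯 : Finset (Smp K (Dl p m (θ * u ^ 2))),
      (2 : ℝ) ^ ((Dl p m (θ * u ^ 2)).card * K) / 2 ≤ 𝒯.card →
      ∃ F ⊆ 𝒯, (∀ ω ∈ F, ∀ ω' ∈ F, cv ω = cv ω' → ω = ω') ∧
        (∀ ω ∈ F, ∀ ω' ∈ F, vv p m (Dl p m (θ * u ^ 2)) (cv ω) =
          vv p m (Dl p m (θ * u ^ 2)) (cv ω')) ∧
        Real.exp (0.00001 * u ^ 2) ≤ F.card := by
  classical
  refine ⟨10 ^ 8, ?_⟩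
  intro K h θ p m u hP hu
  have hu5 : 5 ≤ u := by linarith
  obtain ⟨hp3, hsum⟩ := PigA_basic hP hu5
  have hθ0 := hP.hθ0
  have hA0 : 0 ≤ θ * u ^ 2 := by
    have : 0 ≤ θ := by linarith
    positivity
  obtain ⟨hsup, hs0⟩ := supp_Par hP hu5 0 (0, 0)
  have hN1 := card_ge (p := p) (m := m) hp3 hP.hm hA0
  generalize hAdef : θ * u ^ 2 = A at *
  have hN2 : ((Dl p m A).card : ℝ) ≤ (A + u) ^ 2 / (2 * Real.log p * Real.log m) := by
    have e : (Dl p m A).filter (fun w => ((0 : ℕ × ℕ).1 + 2 ^ 0 * w.1,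
        (0 : ℕ × ℕ).2 + 2 ^ 0 * w.2) ∈ Dl p m A) = Dl p m A := by
      apply filter_true_of_mem
      intro w hw
      simpa using hw
    have h1 := hsup
    simp only [pow_zero, div_one, one_mul, zero_add] at h1
    rw [filter_true_of_mem (fun w hw => hw)] at h1
    exact h1
  have hs1 : 2 * Real.log p * Real.log m ≤ u ^ 2 / 2 := by
    rw [← hsum]
    nlinarith [sq_nonneg (Real.log p - Real.log m)]
  obtain ⟨hn1, hn2, hn3⟩ := PigA_num hP hu ((Dl p m A).card : ℝ) (by rw [hAdef]; exact hN1)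
    (by rw [hAdef]; exact hN2) hs0 hs1
  rw [hAdef] at hn2
  set D := Dl p m A with hD
  set N : ℝ := (D.card : ℝ) with hN
  have hN0 : 0 ≤ N := Nat.cast_nonneg _
  intro 𝒯 h𝒯
  -- typical samples
  have hent := ent_typ (K := K) (h := h) (δ := 0.00001) (by norm_num) hP.hent D hn1
  set E := univ.filter (fun ω : Smp K D => D.card * (K * Real.log 2 - h + 0.00001) <
      ∑ w : {w // w ∈ D}, Real.log (K.choose (cnt ω w))) with hE
  have hEc : (E.card : ℝ) ≤ 2 ^ (D.card * K) / 4 := by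
    convert hent using 3
  set T := 𝒯 \ E with hT
  have hTc : (2 : ℝ) ^ (D.card * K) / 4 ≤ T.card := by
    have h1 : 𝒯.card ≤ T.card + E.card := by
      have := card_le_card_sdiff_add_card (s := 𝒯) (t := E)
      exact this
    have h2 : (𝒯.card : ℝ) ≤ T.card + E.card := by exact_mod_cast h1
    linarith
  set M : ℝ := Real.exp (N * (K * Real.log 2 - h + 0.00001)) with hM
  have hMpos : 0 < M := Real.exp_pos _
  have hfib : ∀ ω ∈ T, ((T.filter (fun ω' => cv ω' = cv ω)).card : ℝ) ≤ M := by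
    intro ω hω
    have h1 : ω ∉ E := (mem_sdiff.1 hω).2
    have h2 : ∑ w : {w // w ∈ D}, Real.log (K.choose (cnt ω w)) ≤
        N * (K * Real.log 2 - h + 0.00001) := by
      by_contra hneg
      exact h1 (mem_filter.2 ⟨mem_univ _, not_le.1 hneg⟩)
    have h3 : (T.filter (fun ω' => cv ω' = cv ω)).card ≤
        ∏ w : {w // w ∈ D}, K.choose (cnt ω w) := by
      have h4 := card_cv ω
      calc (T.filter (fun ω' => cv ω' = cv ω)).card ≤
          (univ.filter (fun ω' : Smp K D => cv ω' = cv ω)).card :=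
            card_le_card (filter_subset_filter _ (subset_univ _))
        _ = _ := by
          rw [← h4]
    have hpos : ∀ w : {w // w ∈ D}, (0 : ℝ) < (K.choose (cnt ω w) : ℝ) := by
      intro w
      have : cnt ω w ≤ K := by
        unfold cnt
        refine (card_le_univ _).trans ?_
        rw [Fintype.card_fin]
      exact_mod_cast Nat.choose_pos this
    have h5 : ((∏ w : {w // w ∈ D}, K.choose (cnt ω w) : ℕ) : ℝ) =
        Real.exp (∑ w : {w // w ∈ D}, Real.log (K.choose (cnt ω w))) := by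
      rw [Real.exp_sum]
      push_cast
      exact prod_congr rfl fun w _ => (Real.exp_log (hpos w)).symm
    calc ((T.filter (fun ω' => cv ω' = cv ω)).card : ℝ) ≤
        ((∏ w : {w // w ∈ D}, K.choose (cnt ω w) : ℕ) : ℝ) := by exact_mod_cast h3
      _ = Real.exp (∑ w : {w // w ∈ D}, Real.log (K.choose (cnt ω w))) := h5
      _ ≤ M := Real.exp_le_exp.2 h2
  set b : ℕ := ⌊K * N * Real.exp A⌋₊ with hb
  have hbub : (b : ℝ) ≤ K * N * Real.exp A := Nat.floor_le (by positivity)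
  have hval : ∀ ω ∈ T, 0 ≤ vv p m D (cv ω) ∧ vv p m D (cv ω) ≤ b := by
    intro ω _
    obtain ⟨h1, h2⟩ := PigA_vv hp3 hP.hm A ω
    refine ⟨h1, ?_⟩
    have h3 : vv p m D (cv ω) ≤ ⌊K * N * Real.exp A⌋ := Int.le_floor.2 h2
    have h4 : ((b : ℕ) : ℤ) = ⌊K * N * Real.exp A⌋ := by
      rw [hb]
      exact Int.natCast_floor_eq_floor (by positivity)
    rw [h4]
    exact h3
  obtain ⟨F, hFT, hF1, hF2, hF3⟩ := PigA_count T (fun ω => cv ω) (fun c => vv p m D c) M
    (Real.exp (0.00001 * u ^ 2)) b hMpos.le hMpos hfib hval (by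
      refine le_trans ?_ hTc
      have h1 : (b : ℝ) + 1 ≤ (K * N + 2) * Real.exp A := by
        have : 1 ≤ Real.exp A := Real.one_le_exp hA0
        nlinarith
      have h2 : 4 * ((b : ℝ) + 1) ≤ Real.exp (14 * u) * Real.exp A := by
        have h3 := mul_le_mul_of_nonneg_right hn3 (Real.exp_pos A).le
        nlinarith
      have h4 : (2 : ℝ) ^ (D.card * K) = Real.exp (N * K * Real.log 2) := by
        rw [mul_comm (N * K) (Real.log 2), Real.exp_mul, Real.exp_log (by norm_num), hN,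
          ← Nat.cast_mul, Real.rpow_natCast]
      have h5 : 4 * (((b : ℝ) + 1) * (Real.exp (0.00001 * u ^ 2) * M)) ≤
          (2 : ℝ) ^ (D.card * K) := by
        calc 4 * (((b : ℝ) + 1) * (Real.exp (0.00001 * u ^ 2) * M)) =
            (4 * ((b : ℝ) + 1)) * (Real.exp (0.00001 * u ^ 2) * M) := by ring
          _ ≤ (Real.exp (14 * u) * Real.exp A) * (Real.exp (0.00001 * u ^ 2) * M) :=
            mul_le_mul_of_nonneg_right h2 (by positivity)
          _ = Real.exp (14 * u + A + (0.00001 * u ^ 2 +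
              N * (K * Real.log 2 - h + 0.00001))) := by
            rw [hM, Real.exp_add, Real.exp_add, Real.exp_add]
          _ ≤ Real.exp (N * K * Real.log 2) := by
            apply Real.exp_le_exp.2
            nlinarith
          _ = (2 : ℝ) ^ (D.card * K) := h4.symm
      linarith)
  exact ⟨F, hFT.trans sdiff_subset, hF1, hF2, hF3⟩

end Pool.Agent.W_420c7c_h51
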