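import Pool.Agent.W_pnt_h80.PNT

set_option autoImplicit false

/-!
# The prime number theorem for the primes `1` and `3` modulo `4`
-/

namespace Pool.Agent.W_420c7c_h51

open Finset Filter Topology

private theorem PntA_sum_eq (P : ℕ → Prop) [DecidablePred P] (h0 : ¬ P 0) (N : ℕ) (g : ℕ → ℝ) :
    ∑ r ∈ (range (N + 1)).filter P, g r = ∑ r ∈ Ioc 0 N, if P r then g r else 0 := by
  rw [← Finset.sum_filter]
  refine Finset.sum_congr ?_ (fun _ _ => rfl)
  ext r
  simp only [Finset.mem_filter, Finset.mem_range, Finset.mem_Ioc]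
  constructor
  · rintro ⟨h1, h2⟩
    have : r ≠ 0 := by
      rintro rfl
      exact h0 h2
    exact ⟨⟨by omega, by omega⟩, h2⟩
  · rintro ⟨⟨h1, h2⟩, h3⟩
    exact ⟨by omega, h3⟩

private theorem PntA_diff (a : ℕ) (ha : a = 1 ∨ a = 3) (x : ℝ) :
    0 ≤ W_pnt_h80.psiR (q := 4) (a : ZMod 4) x -
      (∑ r ∈ (range (⌊x⌋₊ + 1)).filter (fun r => r.Prime ∧ r % 4 = a), Real.log r) ∧
    W_pnt_h80.psiR (q := 4) (a : ZMod 4) x -
      (∑ r ∈ (range (⌊x⌋₊ + 1)).filter (fun r => r.Prime ∧ r % 4 = a), Real.log r) ≤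
      Chebyshev.psi x - Chebyshev.theta x := by
  have hI : Finset.Icc 1 ⌊x⌋₊ = Finset.Ioc 0 ⌊x⌋₊ := by
    ext k
    simp only [Finset.mem_Icc, Finset.mem_Ioc]
    omega
  rw [PntA_sum_eq (fun r => r.Prime ∧ r % 4 = a) (fun h => Nat.not_prime_zero h.1),
    W_pnt_h80.psiR, hI, ← Finset.sum_sub_distrib, Chebyshev.psi_sub_theta_eq_sum_not_prime,
    Finset.sum_filter]
  have key : ∀ k : ℕ, ArithmeticFunction.vonMangoldt.residueClass (q := 4) (a : ZMod 4) k -
      (if k.Prime ∧ k % 4 = a then Real.log k else 0) =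
      if ¬ k.Prime then ArithmeticFunction.vonMangoldt.residueClass (q := 4) (a : ZMod 4) k
        else 0 := by
    intro k
    by_cases hk : k.Prime
    · rw [if_neg (not_not.mpr hk)]
      by_cases hka : k % 4 = a
      · have h1 : ((k : ℕ) : ZMod 4) = (a : ZMod 4) := by
          rw [ZMod.natCast_eq_natCast_iff']
          rcases ha with rfl | rfl <;> omega
        rw [if_pos ⟨hk, hka⟩, ArithmeticFunction.vonMangoldt.residueClass,
          Set.indicator_of_mem (by exact h1), ArithmeticFunction.vonMangoldt_apply_prime hk,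
          sub_self]
      · have h1 : ¬ ((k : ℕ) : ZMod 4) = (a : ZMod 4) := by
          rw [ZMod.natCast_eq_natCast_iff']
          rcases ha with rfl | rfl <;> omega
        rw [if_neg (fun h => hka h.2), ArithmeticFunction.vonMangoldt.residueClass,
          Set.indicator_of_notMem (by exact h1), sub_zero]
    · rw [if_pos hk, if_neg (fun h => hk h.1), sub_zero]
  constructor
  · refine Finset.sum_nonneg fun k _ => ?_
    rw [key]
    split_ifs
    · exact le_refl _
    · exact ArithmeticFunction.vonMangoldt.residueClass_nonneg _ k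
  · refine Finset.sum_le_sum fun k _ => ?_
    rw [key]
    split_ifs
    · exact le_refl _
    · exact ArithmeticFunction.vonMangoldt.residueClass_le _ k

/-- PROOF. `W_pnt_h80.psiR_tendsto` with `q = 4` (`φ(4) = 2`). `psiR a x` is the sum of `Λ(k)` over `k ≤ x`,
`k ≡ a mod 4`; it differs from the sum over the primes by at most the contribution of the proper prime powers,
`ψ(x) - θ(x) = O(√x)` (`Chebyshev.psi_sub_theta_le_mul_sqrt` or similar), which is `o(x)`. -/
theorem theta4 (a : ℕ) (ha : a = 1 ∨ a = 3) : Tendsto (fun x : ℝ =>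
    (∑ r ∈ (range (⌊x⌋₊ + 1)).filter (fun r => r.Prime ∧ r % 4 = a), Real.log r) / x)
    atTop (𝓝 (1 / 2)) := by
  have hu : IsUnit ((a : ℕ) : ZMod 4) := by
    rw [ZMod.isUnit_iff_coprime]
    rcases ha with rfl | rfl <;> norm_num
  have h1 := W_pnt_h80.psiR_tendsto hu
  have ht : ((Nat.totient 4 : ℕ) : ℝ)⁻¹ = 1 / 2 := by
    have : Nat.totient 4 = 2 := by decide
    rw [this]
    norm_num
  rw [ht] at h1
  have h2 : Tendsto (fun x : ℝ => (Chebyshev.psi x - Chebyshev.theta x) / x) atTop (𝓝 0) := by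
    have h3 := W_pnt_h80.psi_tendsto.sub W_pnt_h80.theta_tendsto
    rw [sub_self] at h3
    refine h3.congr fun x => ?_
    ring
  have h4 : Tendsto (fun x : ℝ => (W_pnt_h80.psiR (q := 4) (a : ZMod 4) x -
      (∑ r ∈ (range (⌊x⌋₊ + 1)).filter (fun r => r.Prime ∧ r % 4 = a), Real.log r)) / x)
      atTop (𝓝 0) := by
    refine tendsto_of_tendsto_of_tendsto_of_le_of_le' tendsto_const_nhds h2 ?_ ?_
    · filter_upwards [eventually_gt_atTop 0] with x hx
      exact div_nonneg (PntA_diff a ha x).1 hx.le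
    · filter_upwards [eventually_gt_atTop 0] with x hx
      exact div_le_div_of_nonneg_right (PntA_diff a ha x).2 hx.le
  have h5 := h1.sub h4
  rw [sub_zero] at h5
  refine h5.congr fun x => ?_
  ring

/-- PROOF. `theta4` twice, or Chebyshev's bound in Mathlib. -/
theorem theta_bound : ∃ x₀ : ℝ, ∀ x : ℝ, x₀ ≤ x →
    ∑ r ∈ (range (⌊x⌋₊ + 1)).filter Nat.Prime, Real.log r ≤ 2 * x := by
  refine ⟨0, fun x hx => ?_⟩
  have h1 := Chebyshev.theta_le_log4_mul_x hx
  have h2 : ∑ r ∈ (range (⌊x⌋₊ + 1)).filter Nat.Prime, Real.log r = Chebyshev.theta x := by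
    rw [PntA_sum_eq Nat.Prime Nat.not_prime_zero, Chebyshev.theta, Finset.sum_filter]
  have h3 : Real.log 4 ≤ 2 := by
    have h4 : Real.log 4 = 2 * Real.log 2 := by
      rw [show (4 : ℝ) = 2 ^ 2 by norm_num, Real.log_pow]
      norm_num
    have h5 := Real.log_two_lt_d9
    rw [h4]
    linarith
  rw [h2]
  exact h1.trans (mul_le_mul_of_nonneg_right h3 hx)

/-- PROOF. `W_pnt_h80.pi_tendsto` (or Chebyshev's upper bound). -/
theorem pi_bound : ∃ x₀ : ℝ, 3 ≤ x₀ ∧ ∀ x : ℝ, x₀ ≤ x →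
    (((range (⌊x⌋₊ + 1)).filter Nat.Prime).card : ℝ) ≤ 2 * x / Real.log x := by
  have h1 := W_pnt_h80.pi_tendsto.eventually (gt_mem_nhds (show (1 : ℝ) < 2 by norm_num))
  obtain ⟨x₁, hx₁⟩ := eventually_atTop.mp h1
  refine ⟨max 3 x₁, le_max_left _ _, fun x hx => ?_⟩
  have hx3 : 3 ≤ x := (le_max_left _ _).trans hx
  have h2 := hx₁ x ((le_max_right _ _).trans hx)
  have hlog : 0 < Real.log x := Real.log_pos (by linarith)
  have hc : ((range (⌊x⌋₊ + 1)).filter Nat.Prime).card = Nat.primeCounting ⌊x⌋₊ := by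
    rw [Nat.primeCounting, Nat.primeCounting', Nat.count_eq_card_filter_range]
  rw [hc, le_div_iff₀ hlog]
  rw [div_lt_iff₀ (by linarith)] at h2
  exact h2.le

end Pool.Agent.W_420c7c_h51
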