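import Pool.Agent.W_420c7c_h51.TypC1
import Pool.Agent.W_420c7c_h51.PntA

set_option autoImplicit false

/-!
# Almost all samples are typical
-/

namespace Pool.Agent.W_420c7c_h51

open Finset

open scoped Classical in
/-- PROOF (Markov). `∑_ω ∑_{r good prime, ¬ Gd ω r} log r = ∑_r log r #{ω : ¬ Gd ω r} ≤ δ' 2^(N K) ∑_{r ≤ L} log r`, and
`∑_{r ≤ L} log r ≤ 2 L` for large `L` (`theta_bound`), `L ≤ 3 u²`. So at most `2^(N K) / 4` samples have
failing mass more than `ε u²` if `6 δ' ≤ ε / 4`. -/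
theorem typ_mass (ε : ℝ) (hε : 0 < ε) (J : ℕ) (Q e : ℝ) (hQ : 0 < Q) (he : 0 < e) :
    ∃ u₀ : ℝ, ∀ (K : ℕ) (h θ : ℝ) (p m : ℕ) (u : ℝ), Par K h θ p m u → u₀ ≤ u →
    ((univ.filter (fun ω : Smp K (Dl p m (θ * u ^ 2)) => ε * u ^ 2 <
      ∑ r ∈ (range (⌊u ^ 2 / Real.log 2 ^ 2⌋₊ + 1)).filter (fun r =>
        GP p m ⌊u ^ (1 / 4 : ℝ)⌋₊ (10 ^ 8) (u ^ 2 / Real.log 2 ^ 2) r ∧
        ¬ Gd p m (Dl p m (θ * u ^ 2)) J Q e (ch ω) r), Real.log r)).card : ℝ) ≤
      2 ^ ((Dl p m (θ * u ^ 2)).card * K) / 4 := by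
  obtain ⟨u₁, h1⟩ := fail_frac (ε / 24) (by positivity) J Q e hQ he
  obtain ⟨x₀, h2⟩ := theta_bound
  refine ⟨max u₁ (max 1 x₀), fun K h θ p m u hP hu => ?_⟩
  have hu1 : u₁ ≤ u := (le_max_left _ _).trans hu
  have hu2 : (1 : ℝ) ≤ u := ((le_max_left _ _).trans (le_max_right _ _)).trans hu
  have hu3 : x₀ ≤ u := ((le_max_right _ _).trans (le_max_right _ _)).trans hu
  have hfr := h1 K h θ p m u hP hu1
  set D := Dl p m (θ * u ^ 2) with hD
  set L : ℝ := u ^ 2 / Real.log 2 ^ 2 with hL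
  have hl1 : (0.6931471803 : ℝ) < Real.log 2 := Real.log_two_gt_d9
  have hl2 : Real.log 2 < 0.6931471808 := Real.log_two_lt_d9
  have hl3 : (1 / 3 : ℝ) ≤ Real.log 2 ^ 2 := by nlinarith
  have hl4 : Real.log 2 ^ 2 ≤ 1 := by nlinarith
  have hl5 : 0 < Real.log 2 ^ 2 := by positivity
  have hu4 : 0 < u ^ 2 := by positivity
  have hL1 : L ≤ 3 * u ^ 2 := by
    rw [hL, div_le_iff₀ hl5]
    nlinarith
  have hL2 : x₀ ≤ L := by
    have h3 : u ^ 2 ≤ L := by
      rw [hL, le_div_iff₀ hl5]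
      nlinarith
    nlinarith
  have hth := h2 L hL2
  set R := range (⌊L⌋₊ + 1) with hR
  set T : ℕ := ⌊u ^ (1 / 4 : ℝ)⌋₊ with hT
  set M : ℝ := 2 ^ (D.card * K) with hM
  have hM0 : 0 < M := by positivity
  set B := univ.filter (fun ω : Smp K D => ε * u ^ 2 <
      ∑ r ∈ R.filter (fun r => GP p m T (10 ^ 8) L r ∧ ¬ Gd p m D J Q e (ch ω) r),
        Real.log r) with hB
  have hlog : ∀ r : ℕ, 0 ≤ Real.log (r : ℝ) := fun r => Real.log_natCast_nonneg r
  have hA : (B.card : ℝ) * (ε * u ^ 2) ≤ ∑ ω : Smp K D,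
      ∑ r ∈ R.filter (fun r => GP p m T (10 ^ 8) L r ∧ ¬ Gd p m D J Q e (ch ω) r),
        Real.log r := by
    calc (B.card : ℝ) * (ε * u ^ 2) = ∑ ω ∈ B, ε * u ^ 2 := by
          rw [sum_const, nsmul_eq_mul]
      _ ≤ ∑ ω ∈ B, ∑ r ∈ R.filter (fun r => GP p m T (10 ^ 8) L r ∧
            ¬ Gd p m D J Q e (ch ω) r), Real.log r := by
          refine sum_le_sum fun ω hω => ?_
          exact (mem_filter.1 hω).2.le
      _ ≤ _ := by
          refine sum_le_sum_of_subset_of_nonneg (subset_univ _) fun ω _ _ => ?_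
          exact sum_nonneg fun r _ => hlog r
  have hE : ∑ ω : Smp K D,
      ∑ r ∈ R.filter (fun r => GP p m T (10 ^ 8) L r ∧ ¬ Gd p m D J Q e (ch ω) r),
        Real.log r = ∑ r ∈ R.filter (fun r => GP p m T (10 ^ 8) L r),
          Real.log r * (univ.filter (fun ω : Smp K D =>
            ¬ Gd p m D J Q e (ch ω) r)).card := by
    have e1 : ∀ ω : Smp K D,
        ∑ r ∈ R.filter (fun r => GP p m T (10 ^ 8) L r ∧ ¬ Gd p m D J Q e (ch ω) r),
          Real.log r = ∑ r ∈ R.filter (fun r => GP p m T (10 ^ 8) L r),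
            if ¬ Gd p m D J Q e (ch ω) r then Real.log r else 0 := by
      intro ω
      rw [← sum_filter, filter_filter]
    rw [sum_congr rfl fun ω _ => e1 ω, sum_comm]
    refine sum_congr rfl fun r _ => ?_
    rw [← sum_filter, sum_const, nsmul_eq_mul, mul_comm]
  have hF : ∑ r ∈ R.filter (fun r => GP p m T (10 ^ 8) L r),
          Real.log r * (univ.filter (fun ω : Smp K D =>
            ¬ Gd p m D J Q e (ch ω) r)).card ≤ ε / 24 * M * (2 * L) := by
    calc _ ≤ ∑ r ∈ R.filter (fun r => GP p m T (10 ^ 8) L r), Real.log r * (ε / 24 * M) := by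
          refine sum_le_sum fun r hr => ?_
          exact mul_le_mul_of_nonneg_left (hfr r (mem_filter.1 hr).2) (hlog r)
      _ ≤ ∑ r ∈ R.filter Nat.Prime, Real.log r * (ε / 24 * M) := by
          refine sum_le_sum_of_subset_of_nonneg ?_ fun r _ _ => ?_
          · intro r hr
            rw [mem_filter] at hr ⊢
            exact ⟨hr.1, hr.2.1⟩
          · exact mul_nonneg (hlog r) (by positivity)
      _ = ε / 24 * M * ∑ r ∈ R.filter Nat.Prime, Real.log r := by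
          rw [← sum_mul, mul_comm]
      _ ≤ _ := mul_le_mul_of_nonneg_left hth (by positivity)
  have hG : (B.card : ℝ) * (ε * u ^ 2) ≤ M / 4 * (ε * u ^ 2) := by
    calc _ ≤ ε / 24 * M * (2 * L) := hA.trans (hE.le.trans hF)
      _ ≤ ε / 24 * M * (2 * (3 * u ^ 2)) := by
          refine mul_le_mul_of_nonneg_left ?_ (by positivity)
          linarith
      _ = _ := by ring
  exact le_of_mul_le_mul_right hG (by positivity)

end Pool.Agent.W_420c7c_h51
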