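import Pool.Agent.W_420c7c_h51.PairA
import Pool.Agent.W_420c7c_h51.TypC2
import Pool.Agent.W_420c7c_h51.PigA
import Pool.Agent.W_420c7c_s.Emb
import Pool.Agent.W_420c7c_s.Energy

set_option autoImplicit false

/-!
# The pair
-/

namespace Pool.Agent.W_420c7c_h51

open Finset

open scoped Classical in
/-- PROOF. Let `δ = 10⁻⁴` and `J, Q, e` the constants of the embedding lemma (`W_420c7c_s`, `Emb.lean`) for `δ`; `D = Dl p m (θ u²)`,
`𝒢 =` the good primes `≤ L`. `typ_mass` with `ε / 4`: the `ω` whose failing mass is at most `(ε/4) u²` are at least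
`3/4 * 2^(N K)`; `pigeon` gives `F` inside this set. Index set `I = {(r, σ, s) : r ∈ 𝒢}`, `λ = log r`, `R = √3.138 log p`,
`ρ² = (1/√π + δ) R`, `Ψ_i ω` the vector of the embedding of `x ↦ XX σ r p m D (op 0 (0,0) s (ch ω)) x` if `Gd ω r`, and `0` otherwise.
Energy decrement (`W_420c7c_s`, `Energy.lean`) with `κ = √(log u)`, `ε' = 5·10⁻⁵`: `∑ λ ≤ 162 * 2 L = O(u²)` (`theta_bound`), so
`1 + ∑ λ / κ ≤ 10⁻⁵ u²`; `#I ≤ 162 π(L) = O(u² / log u)` (`pi_bound`), so `48 κ #I / ε'^2 ≤ (ε/4) u²`. It gives `ω ≠ ω'` in `F`, so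
`cv ω ≠ cv ω'` and `vv (cv ω) = vv (cv ω')`. A good prime `r` which is not failing for `ω`, `ω'` and such that no `(r, σ, s)` is
exceptional satisfies `Sm`: for `f = op k ρ s (cv ω - cv ω')`, `k = 0` (then `ρ = (0,0)`):
`l1 = av |X - X'| ≤ ‖Ψ - Ψ'‖² + δ R ≤ 2 (1 + 3 ε') (1/√π + δ) R + δ R ≤ 1.9998 log p < 2 (log p - log 2)` (`XX_diff`);
`k ≥ 1`: `small_pos`. -/
theorem exists_pair (ε : ℝ) (hε : 0 < ε) : ∃ u₀ : ℝ, ∀ (K : ℕ) (h θ : ℝ) (p m : ℕ) (u : ℝ),
    Par K h θ p m u → u₀ ≤ u →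
    ∃ ω ω' : Smp K (Dl p m (θ * u ^ 2)), cv ω ≠ cv ω' ∧
      vv p m (Dl p m (θ * u ^ 2)) (cv ω) = vv p m (Dl p m (θ * u ^ 2)) (cv ω') ∧
      ∑ r ∈ (range (⌊u ^ 2 / Real.log 2 ^ 2⌋₊ + 1)).filter (fun r =>
        GP p m ⌊u ^ (1 / 4 : ℝ)⌋₊ (10 ^ 8) (u ^ 2 / Real.log 2 ^ 2) r ∧
        ¬ Sm p m (Dl p m (θ * u ^ 2)) (fun w => cv ω w - cv ω' w) r), Real.log r ≤ ε * u ^ 2 := by
  have hpi := Real.pi_pos
  obtain ⟨J, Q, e, hQ, he, hemb⟩ := Pool.Agent.W_420c7c_s.embed (1 / 10000) (by norm_num)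
  obtain ⟨u1, h1⟩ := typ_mass (ε / 4) (by positivity) J Q e hQ he
  obtain ⟨u2, h2⟩ := pigeon
  obtain ⟨x3, h3⟩ := theta_bound
  obtain ⟨x4, hx4, h4⟩ := pi_bound
  set C : ℝ := 48 * 162 * 3 / (5 / 100000) ^ 2 with hC
  set A : ℝ := max (2 * 10 ^ 8) (4 * C / ε) with hA
  refine ⟨max (max u1 u2) (max (max x3 x4) (max 50000 (Real.exp (A ^ 2)))),
    fun K h θ p m u hP hu => ?_⟩
  have hu1 : u1 ≤ u := (le_max_left _ _).trans ((le_max_left _ _).trans hu)
  have hu2 : u2 ≤ u := (le_max_right _ _).trans ((le_max_left _ _).trans hu)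
  have hux3 : x3 ≤ u :=
    (le_max_left _ _).trans ((le_max_left _ _).trans ((le_max_right _ _).trans hu))
  have hux4 : x4 ≤ u :=
    (le_max_right _ _).trans ((le_max_left _ _).trans ((le_max_right _ _).trans hu))
  have hu5 : (50000 : ℝ) ≤ u :=
    (le_max_left _ _).trans ((le_max_right _ _).trans ((le_max_right _ _).trans hu))
  have hu6 : Real.exp (A ^ 2) ≤ u :=
    (le_max_right _ _).trans ((le_max_right _ _).trans ((le_max_right _ _).trans hu))
  have hu0 : 0 < u := by linarith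
  have hA1 : (2 * 10 ^ 8 : ℝ) ≤ A := le_max_left _ _
  have hA2 : 4 * C / ε ≤ A := le_max_right _ _
  have hlogu : A ^ 2 ≤ Real.log u := (Real.le_log_iff_exp_le hu0).2 hu6
  set kap : ℝ := Real.sqrt (Real.log u) with hkap
  have hkapA : A ≤ kap := by
    rw [hkap]
    exact Real.le_sqrt_of_sq_le hlogu
  have hkap0 : 0 < kap := by linarith
  have hlogu0 : 0 < Real.log u := lt_of_lt_of_le (by positivity) hlogu
  have hkap2 : kap ^ 2 = Real.log u := Real.sq_sqrt hlogu0.le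
  have hmass := h1 K h θ p m u hP hu1
  set D := Dl p m (θ * u ^ 2) with hD
  set L : ℝ := u ^ 2 / Real.log 2 ^ 2 with hL
  have hl1 : (0.6931471803 : ℝ) < Real.log 2 := Real.log_two_gt_d9
  have hl2 : Real.log 2 < 0.6931471808 := Real.log_two_lt_d9
  have hl3 : (1 / 3 : ℝ) ≤ Real.log 2 ^ 2 := by nlinarith
  have hl4 : Real.log 2 ^ 2 ≤ 1 := by nlinarith
  have hl5 : 0 < Real.log 2 ^ 2 := by positivity
  have hu4 : 0 < u ^ 2 := by positivity
  have hL1 : L ≤ 3 * u ^ 2 := by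
    rw [hL, div_le_iff₀ hl5]
    nlinarith
  have hL2 : u ^ 2 ≤ L := by
    rw [hL, le_div_iff₀ hl5]
    nlinarith
  have huL : u ≤ L := by nlinarith
  set R := range (⌊L⌋₊ + 1) with hRdef
  set T : ℕ := ⌊u ^ (1 / 4 : ℝ)⌋₊ with hT
  set mass : Smp K D → ℝ := fun ω =>
    ∑ r ∈ R.filter (fun r => GP p m T (10 ^ 8) L r ∧ ¬ Gd p m D J Q e (ch ω) r), Real.log r
    with hmassdef
  set 𝒯 : Finset (Smp K D) := univ.filter (fun ω => ¬ (ε / 4 * u ^ 2 < mass ω)) with h𝒯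
  have hcard : (2 : ℝ) ^ (D.card * K) / 2 ≤ 𝒯.card := by
    have e1 := Finset.card_filter_add_card_filter_not (s := (univ : Finset (Smp K D)))
      (fun ω => ε / 4 * u ^ 2 < mass ω)
    have e2 : (univ : Finset (Smp K D)).card = 2 ^ (D.card * K) := by
      rw [Finset.card_univ, Fintype.card_fun, Fintype.card_bool, Fintype.card_prod,
        Fintype.card_fin, Fintype.card_coe]
    rw [e2] at e1
    have e3 : ((univ.filter (fun ω : Smp K D => ε / 4 * u ^ 2 < mass ω)).card : ℝ) +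
        (𝒯.card : ℝ) = 2 ^ (D.card * K) := by
      exact_mod_cast e1
    have e4 : ((univ.filter (fun ω : Smp K D => ε / 4 * u ^ 2 < mass ω)).card : ℝ) ≤
        2 ^ (D.card * K) / 4 := hmass
    have e5 : (0 : ℝ) < 2 ^ (D.card * K) := by positivity
    linarith
  obtain ⟨F, hF𝒯, hFinj, hFvv, hFcard⟩ := h2 K h θ p m u hP hu2 𝒯 hcard
  -- the real parameters
  have hlp : u / 5 ≤ Real.log p := by
    have := hP.hu1
    linarith
  have hlp0 : 10000 ≤ Real.log p := by linarith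
  set a : ℝ := Real.sqrt 3.138 with ha
  have ha0 : 0 < a := Real.sqrt_pos.2 (by norm_num)
  have ha2 : a ^ 2 = 3.138 := Real.sq_sqrt (by norm_num)
  have ha1 : a ≤ 1.7715 := Real.sqrt_le_iff.2 ⟨by norm_num, by norm_num⟩
  set b : ℝ := 1 / Real.sqrt Real.pi with hb
  have hb0 : 0 < b := by positivity
  have hab : b * a ≤ 0.99943 := by
    have e1 : b * a = Real.sqrt (3.138 / Real.pi) := by
      rw [hb, ha, Real.sqrt_div (by norm_num)]
      ring
    rw [e1]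
    refine Real.sqrt_le_iff.2 ⟨by norm_num, ?_⟩
    rw [div_le_iff₀ hpi]
    have := Real.pi_gt_d6
    nlinarith
  set Rr : ℝ := a * Real.log p with hRr
  have hRr0 : 0 < Rr := mul_pos ha0 (by linarith)
  set 𝒢 : Finset ℕ := R.filter (fun r => GP p m T (10 ^ 8) L r) with h𝒢
  have h𝒢r : ∀ r ∈ 𝒢, GP p m T (10 ^ 8) L r := fun r hr => (mem_filter.1 hr).2
  have h𝒢2 : ∀ r ∈ 𝒢, 2 ≤ r := fun r hr => (h𝒢r r hr).1.two_le
  have hne : ∀ r : 𝒢, (Ico 1 (r : ℕ)).Nonempty := by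
    intro r
    rw [nonempty_Ico]
    have := h𝒢2 r.1 r.2
    omega
  choose d Ψ hΨ1 hΨ2 using fun r : 𝒢 => hemb (Ico 1 (r : ℕ)) (hne r) Rr hRr0
  have hcardS : ∀ r : 𝒢, (((Ico 1 (r : ℕ)).card : ℕ) : ℝ) = ((r : ℕ) : ℝ) - 1 := by
    intro r
    have := h𝒢2 r.1 r.2
    rw [Nat.card_Ico, Nat.cast_sub (by omega)]
    norm_num
  let I : Type := 𝒢 × (Bool × (Bool × Bool → SignType))
  let X : I → Smp K D → ℕ → ℝ := fun i ω x =>
    XX i.2.1 i.1 p m D (op 0 (0, 0) i.2.2 (ch ω)) x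
  let Ψ' : ∀ i : I, Smp K D → EuclideanSpace ℝ (Fin (d i.1)) := fun i ω =>
    if Gd p m D J Q e (ch ω) i.1 then Ψ i.1 (X i ω) else 0
  set ρ2 : ℝ := (b + 1 / 10000) * Rr with hρ2
  have hρ20 : 0 < ρ2 := by positivity
  set rho : ℝ := Real.sqrt ρ2 with hrho
  have hrho0 : 0 < rho := Real.sqrt_pos.2 hρ20
  have hrho2 : rho ^ 2 = ρ2 := Real.sq_sqrt hρ20.le
  have hΨb : ∀ i : I, ∀ ω ∈ F, ‖Ψ' i ω‖ ^ 2 ≤ rho ^ 2 := by
    intro i ω _
    rw [hrho2]
    by_cases hg : Gd p m D J Q e (ch ω) i.1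
    · have e1 : Ψ' i ω = Ψ i.1 (X i ω) := if_pos hg
      rw [e1]
      refine hΨ2 i.1 (X i ω) ?_ ?_
      · have e2 := (hg i.2.1).1 i.2.2
        rw [hcardS]
        refine le_trans (le_of_eq rfl) (e2.trans (le_of_eq ?_))
        rw [hRr, mul_pow, ha2]
      · intro n hn
        have e2 := (hg i.2.1).2.1 i.2.2 n hn
        rw [hcardS]
        have e3 : -((2 * Real.pi * (n : ℝ) / Q) ^ 2 / 2) = -(2 * Real.pi * (n : ℝ) / Q) ^ 2 / 2 := by
          ring
        rw [e3]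
        exact e2
    · have e1 : Ψ' i ω = 0 := if_neg hg
      rw [e1, norm_zero, zero_pow two_ne_zero]
      exact hρ20.le
  -- the sums
  have hlog : ∀ r : ℕ, 0 ≤ Real.log (r : ℝ) := fun r => Real.log_natCast_nonneg r
  have h𝒢sub : 𝒢 ⊆ R.filter Nat.Prime := by
    intro r hr
    rw [mem_filter] at hr ⊢
    exact ⟨hr.1, hr.2.1⟩
  have hθ : ∑ r ∈ 𝒢, Real.log r ≤ 6 * u ^ 2 := by
    calc ∑ r ∈ 𝒢, Real.log r ≤ ∑ r ∈ R.filter Nat.Prime, Real.log r :=
          sum_le_sum_of_subset_of_nonneg h𝒢sub fun r _ _ => hlog r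
      _ ≤ 2 * L := h3 L (hux3.trans huL)
      _ ≤ 6 * u ^ 2 := by linarith
  have hπ : (𝒢.card : ℝ) ≤ 3 * u ^ 2 / Real.log u := by
    have e1 : (𝒢.card : ℝ) ≤ ((R.filter Nat.Prime).card : ℝ) := by
      exact_mod_cast card_le_card h𝒢sub
    have e2 := h4 L (hux4.trans huL)
    have e3 : 2 * Real.log u ≤ Real.log L := by
      have : Real.log (u ^ 2) = 2 * Real.log u := by
        rw [Real.log_pow]
        norm_num
      rw [← this]
      exact Real.log_le_log hu4 hL2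
    refine (e1.trans e2).trans ?_
    rw [div_le_div_iff₀ (by linarith) hlogu0]
    have e4 : 0 ≤ L := by linarith
    nlinarith [mul_le_mul hL1 e3 (by positivity) (by positivity : (0 : ℝ) ≤ 3 * u ^ 2)]
  have hcardI : (Fintype.card I : ℝ) = 162 * 𝒢.card := by
    have e1 : Fintype.card I = 𝒢.card * (2 * 81) := by
      rw [Fintype.card_prod, Fintype.card_prod, Fintype.card_coe, Fintype.card_bool,
        Fintype.card_fun, Fintype.card_prod, Fintype.card_bool]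
      have : Fintype.card SignType = 3 := by decide
      rw [this]
      norm_num
    rw [e1]
    push_cast
    ring
  have hsumI : ∑ i : I, Real.log ((i.1 : ℕ) : ℝ) = 162 * ∑ r ∈ 𝒢, Real.log r := by
    rw [Fintype.sum_prod_type]
    have e1 : ∀ r : 𝒢, ∑ _y : Bool × (Bool × Bool → SignType), Real.log ((r : ℕ) : ℝ) =
        162 * Real.log ((r : ℕ) : ℝ) := by
      intro r
      have e0 : Fintype.card (Bool × (Bool × Bool → SignType)) = 162 := by
        rw [Fintype.card_prod, Fintype.card_bool,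
          Fintype.card_fun, Fintype.card_prod, Fintype.card_bool]
        have : Fintype.card SignType = 3 := by decide
        rw [this]
        norm_num
      rw [sum_const, nsmul_eq_mul, Finset.card_univ, e0]
      norm_num
    rw [sum_congr rfl fun r _ => e1 r, ← mul_sum, Finset.sum_coe_sort 𝒢 fun r => Real.log (r : ℝ)]
  have hFexp : Real.exp (1 + (∑ i : I, Real.log ((i.1 : ℕ) : ℝ)) / kap) ≤ F.card := by
    refine le_trans (Real.exp_le_exp.2 ?_) hFcard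
    rw [hsumI]
    have e1 : 162 * ∑ r ∈ 𝒢, Real.log (r : ℝ) ≤ 972 * u ^ 2 := by linarith
    have e2 : (162 * ∑ r ∈ 𝒢, Real.log (r : ℝ)) / kap ≤ 0.000005 * u ^ 2 := by
      rw [div_le_iff₀ hkap0]
      have e3 : (2 * 10 ^ 8 : ℝ) ≤ kap := hA1.trans hkapA
      nlinarith
    nlinarith
  obtain ⟨ω, hω, ω', hω', hne', hexc⟩ := Pool.Agent.W_420c7c_s.edl (I := I) Ψ' F
    (fun i => Real.log ((i.1 : ℕ) : ℝ)) (fun _ => rho) (fun i => hlog _) (fun _ => hrho0) hΨb kap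
    (5 / 100000) hkap0 (by norm_num) hFexp
  have hexc2 : 48 * kap * Fintype.card I / (5 / 100000) ^ 2 ≤ ε / 4 * u ^ 2 := by
    rw [hcardI]
    have e1 : 48 * kap * (162 * (𝒢.card : ℝ)) / (5 / 100000) ^ 2 ≤
        48 * kap * (162 * (3 * u ^ 2 / Real.log u)) / (5 / 100000) ^ 2 := by
      gcongr
    refine e1.trans ?_
    have e2 : 48 * kap * (162 * (3 * u ^ 2 / Real.log u)) / (5 / 100000) ^ 2 =
        C / kap * u ^ 2 := by
      rw [← hkap2, hC]
      field_simp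
    rw [e2]
    refine mul_le_mul_of_nonneg_right ?_ hu4.le
    rw [div_le_iff₀ hkap0]
    have e3 := hA2.trans hkapA
    rw [div_le_iff₀ hε] at e3
    have e4 : ε / 4 * kap = kap * ε / 4 := by ring
    rw [e4, le_div_iff₀ (by norm_num : (0 : ℝ) < 4), mul_comm C 4]
    exact e3
  refine ⟨ω, ω', fun hcv => hne' (hFinj ω hω ω' hω' hcv), hFvv ω hω ω' hω', ?_⟩
  have hm1 : mass ω ≤ ε / 4 * u ^ 2 := not_lt.1 (mem_filter.1 (hF𝒯 hω)).2
  have hm2 : mass ω' ≤ ε / 4 * u ^ 2 := not_lt.1 (mem_filter.1 (hF𝒯 hω')).2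
  have hexc3 := hexc.trans hexc2
  -- the key step
  have key : ∀ r : 𝒢, Gd p m D J Q e (ch ω) r → Gd p m D J Q e (ch ω') r →
      (∀ y : Bool × (Bool × Bool → SignType),
        ¬ 2 * (1 + 3 * (5 / 100000)) * rho ^ 2 < ‖Ψ' (r, y) ω - Ψ' (r, y) ω'‖ ^ 2) →
      Sm p m D (fun w => cv ω w - cv ω' w) r := by
    intro r hg hg' hy σ f hf
    obtain ⟨k, ρ, s, hρ1, hρ2', rfl⟩ := hf
    have hr2 := h𝒢2 r.1 r.2
    rcases Nat.eq_zero_or_pos k with h0 | h0
    · subst h0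
      have eρ : ρ = (0, 0) := by
        rw [pow_zero, Nat.lt_one_iff] at hρ1 hρ2'
        exact Prod.ext hρ1 hρ2'
      subst eρ
      have e1 := not_lt.1 (hy (σ, s))
      have e2 : Ψ' (r, (σ, s)) ω = Ψ r (X (r, (σ, s)) ω) := if_pos hg
      have e3 : Ψ' (r, (σ, s)) ω' = Ψ r (X (r, (σ, s)) ω') := if_pos hg'
      rw [e2, e3] at e1
      have e4 := hΨ1 r (X (r, (σ, s)) ω) (X (r, (σ, s)) ω')
      have e5 : l1 σ r p m D (fun w =>
          ((op 0 (0, 0) s (fun w => cv ω w - cv ω' w) w : ℤ) : ℝ)) =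
          (∑ x ∈ Ico 1 (r : ℕ), |X (r, (σ, s)) ω x - X (r, (σ, s)) ω' x|) /
            ((Ico 1 (r : ℕ)).card : ℝ) := by
        rw [hcardS]
        unfold l1 av
        congr 1
        refine sum_congr rfl fun x _ => ?_
        show |_| = |_|
        rw [XX_diff]
      rw [e5]
      refine lt_of_le_of_lt e4 ?_
      rw [hrho2, hρ2, hRr] at e1
      rw [hRr]
      have e6 : (b + 1 / 10000) * a ≤ 0.99943 + 0.00017715 := by
        have : 1 / 10000 * a ≤ 0.00017715 := by linarith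
        nlinarith
      have e7 : (b + 1 / 10000) * (a * Real.log p) ≤ 0.99960715 * Real.log p := by
        rw [← mul_assoc]
        refine mul_le_mul_of_nonneg_right ?_ (by linarith)
        linarith
      have e8 : 1 / 10000 * (a * Real.log p) ≤ 0.00017715 * Real.log p := by
        rw [← mul_assoc]
        refine mul_le_mul_of_nonneg_right ?_ (by linarith)
        linarith
      nlinarith
    · exact small_pos hr2 (by linarith) D ω ω' k ρ s ((hg σ).2.2 k ρ s h0 hρ1 hρ2')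
        ((hg' σ).2.2 k ρ s h0 hρ1 hρ2')
  -- the masses
  set Cs : Finset ℕ := 𝒢.filter (fun r => Gd p m D J Q e (ch ω) r ∧ Gd p m D J Q e (ch ω') r ∧
    ¬ Sm p m D (fun w => cv ω w - cv ω' w) r) with hCs
  have hCs2 : ∑ r ∈ Cs, Real.log (r : ℝ) ≤ ε / 4 * u ^ 2 := by
    refine le_trans ?_ hexc3
    rw [hCs, sum_filter, Fintype.sum_prod_type,
      ← Finset.sum_coe_sort 𝒢 fun r => if Gd p m D J Q e (ch ω) r ∧ Gd p m D J Q e (ch ω') r ∧
        ¬ Sm p m D (fun w => cv ω w - cv ω' w) r then Real.log (r : ℝ) else 0]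
    refine sum_le_sum fun r _ => ?_
    have hnn : ∀ y ∈ (univ : Finset (Bool × (Bool × Bool → SignType))), (0 : ℝ) ≤
        if 2 * (1 + 3 * (5 / 100000)) * rho ^ 2 < ‖Ψ' (r, y) ω - Ψ' (r, y) ω'‖ ^ 2 then
          Real.log ((r : ℕ) : ℝ) else 0 := by
      intro y _
      split_ifs
      · exact hlog _
      · exact le_rfl
    split_ifs with hc
    · obtain ⟨c1, c2, c3⟩ := hc
      have : ∃ y : Bool × (Bool × Bool → SignType),
          2 * (1 + 3 * (5 / 100000)) * rho ^ 2 < ‖Ψ' (r, y) ω - Ψ' (r, y) ω'‖ ^ 2 := by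
        by_contra hcon
        push Not at hcon
        exact c3 (key r c1 c2 fun y => not_lt.2 (hcon y))
      obtain ⟨y, hy⟩ := this
      refine le_trans ?_ (Finset.single_le_sum hnn (mem_univ y))
      rw [if_pos hy]
    · exact sum_nonneg hnn
  have hsub : R.filter (fun r => GP p m T (10 ^ 8) L r ∧
      ¬ Sm p m D (fun w => cv ω w - cv ω' w) r) ⊆
      (R.filter (fun r => GP p m T (10 ^ 8) L r ∧ ¬ Gd p m D J Q e (ch ω) r) ∪
        R.filter (fun r => GP p m T (10 ^ 8) L r ∧ ¬ Gd p m D J Q e (ch ω') r)) ∪ Cs := by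
    intro r hr
    rw [mem_filter] at hr
    obtain ⟨c0, c1, c2⟩ := hr
    by_cases g1 : Gd p m D J Q e (ch ω) r
    · by_cases g2 : Gd p m D J Q e (ch ω') r
      · refine mem_union_right _ ?_
        rw [hCs, mem_filter, h𝒢, mem_filter]
        exact ⟨⟨c0, c1⟩, g1, g2, c2⟩
      · refine mem_union_left _ (mem_union_right _ ?_)
        rw [mem_filter]
        exact ⟨c0, c1, g2⟩
    · refine mem_union_left _ (mem_union_left _ ?_)
      rw [mem_filter]
      exact ⟨c0, c1, g1⟩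
  have hun : ∀ s t : Finset ℕ, ∑ r ∈ s ∪ t, Real.log (r : ℝ) ≤
      ∑ r ∈ s, Real.log (r : ℝ) + ∑ r ∈ t, Real.log (r : ℝ) := by
    intro s t
    rw [← sum_union_inter]
    have : 0 ≤ ∑ r ∈ s ∩ t, Real.log (r : ℝ) := sum_nonneg fun r _ => hlog r
    linarith
  have hfin := sum_le_sum_of_subset_of_nonneg hsub
    (f := fun r : ℕ => Real.log (r : ℝ)) fun r _ _ => hlog r
  have hε2 : 0 < ε * u ^ 2 := by positivity
  have hm1' : ∑ r ∈ R.filter (fun r => GP p m T (10 ^ 8) L r ∧ ¬ Gd p m D J Q e (ch ω) r),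
    Real.log r ≤ ε / 4 * u ^ 2 := hm1
  have hm2' : ∑ r ∈ R.filter (fun r => GP p m T (10 ^ 8) L r ∧ ¬ Gd p m D J Q e (ch ω') r),
    Real.log r ≤ ε / 4 * u ^ 2 := hm2
  have hu7 := hun (R.filter (fun r => GP p m T (10 ^ 8) L r ∧ ¬ Gd p m D J Q e (ch ω) r))
    (R.filter (fun r => GP p m T (10 ^ 8) L r ∧ ¬ Gd p m D J Q e (ch ω') r))
  have hu8 := hun (R.filter (fun r => GP p m T (10 ^ 8) L r ∧ ¬ Gd p m D J Q e (ch ω) r) ∪
    R.filter (fun r => GP p m T (10 ^ 8) L r ∧ ¬ Gd p m D J Q e (ch ω') r)) Cs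
  linarith

end Pool.Agent.W_420c7c_h51
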