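import Pool.Agent.W_420c7c_h51.TypA0
import Pool.Agent.W_420c7c_h51.OpB1

set_option autoImplicit false

/-!
# Depth zero, the quadratic mean
-/

namespace Pool.Agent.W_420c7c_h51

open Finset

private theorem typA1_basic {K : ℕ} {h θ : ℝ} {p m : ℕ} {u : ℝ} (hP : Par K h θ p m u)
    (hu : 5 ≤ u) : 0 < Real.log p ∧ 0 < Real.log m := by
  have hu1 := hP.hu1
  have hu2 := hP.hu2
  have hm := hP.hm
  have hm' : (1 : ℝ) < m := by
    have : 1 < m := by omega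
    exact_mod_cast this
  exact ⟨by linarith, Real.log_pos hm'⟩

/-- the error of the quadratic mean, for `r ≥ 10⁸` -/
private theorem typA1_err {r : ℝ} (hr : 10 ^ 8 ≤ r) :
    0 ≤ 25 * (1 + Real.log r) / (r - 1) ∧
      Real.pi ^ 2 / 12 + 25 * (1 + Real.log r) / (r - 1) ≤ 1.00001 * (Real.pi ^ 2 / 12) := by
  have hr0 : 0 < r - 1 := by linarith
  have hlog0 : 0 ≤ Real.log r := Real.log_nonneg (by linarith)
  have h10 : Real.log 10 ≤ 2.775 := by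
    have h1 : Real.log 10 ≤ Real.log (2 ^ 4 : ℝ) := Real.log_le_log (by norm_num) (by norm_num)
    rw [Real.log_pow] at h1
    have h2 := Real.log_two_lt_d9
    push_cast at h1
    linarith
  have hlog : Real.log r ≤ 22.2 + (r / 10 ^ 8 - 1) := by
    have e2 : Real.log r = 8 * Real.log 10 + Real.log (r / 10 ^ 8) := by
      have e1 : r = 10 ^ 8 * (r / 10 ^ 8) := by ring
      conv_lhs => rw [e1]
      rw [Real.log_mul (by norm_num) (by positivity), Real.log_pow]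
      norm_num
    have e4 := Real.log_le_sub_one_of_pos (show (0 : ℝ) < r / 10 ^ 8 by positivity)
    rw [e2]
    linarith
  have h1 : 25 * (1 + Real.log r) / (r - 1) ≤ 0.000008 := by
    rw [div_le_iff₀ hr0]
    linarith
  have hpi : 0.8 ≤ Real.pi ^ 2 / 12 := by
    have h1 := Real.pi_gt_d2
    nlinarith
  refine ⟨by positivity, ?_⟩
  linarith

/-- the threshold -/
private theorem typA1_thr {K : ℕ} {θ u a b q e : ℝ} (ha : 0 < a) (hb : 0 < b) (hu : 10 ^ 6 ≤ u)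
    (hθ0 : 1 / 10 ≤ θ) (hq : 0 ≤ q) (he0 : 0 ≤ e) (he : q + e ≤ 1.00001 * q)
    (hR : K / 4 * q * θ ^ 2 * u ^ 4 ≤ 3.137 * (2 * a ^ 3 * b)) :
    K * ((θ * u ^ 2 + u) ^ 2 / (2 * a * b) * (q + e)) / 4 + 0.0005 * a ^ 2 ≤ 3.138 * a ^ 2 := by
  have hu0 : 0 < u := by linarith
  have hθ : 0 < θ := by linarith
  have h1 : u ≤ 0.00001 * (θ * u ^ 2) := by
    have h2 : (1 : ℝ) ≤ 0.00001 * (θ * u) := by nlinarith
    calc u = 1 * u := by ring
      _ ≤ 0.00001 * (θ * u) * u := mul_le_mul_of_nonneg_right h2 hu0.le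
      _ = 0.00001 * (θ * u ^ 2) := by ring
  have hθu : 0 ≤ θ * u ^ 2 := by positivity
  have hW : (θ * u ^ 2 + u) ^ 2 ≤ 1.00003 * (θ ^ 2 * u ^ 4) := by
    have h3 : θ * u ^ 2 + u ≤ 1.00001 * (θ * u ^ 2) := by linarith
    have h4 : (θ * u ^ 2 + u) ^ 2 ≤ (1.00001 * (θ * u ^ 2)) ^ 2 :=
      pow_le_pow_left₀ (by positivity) h3 2
    have h5 : (1.00001 * (θ * u ^ 2)) ^ 2 = 1.0000200001 * (θ ^ 2 * u ^ 4) := by ring
    rw [h5] at h4
    have h6 : 0 ≤ θ ^ 2 * u ^ 4 := by positivity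
    linarith
  have hK : (0 : ℝ) ≤ K := Nat.cast_nonneg K
  have hab : 0 < 2 * a * b := by positivity
  have h7 : K * ((θ * u ^ 2 + u) ^ 2 / (2 * a * b) * (q + e)) / 4 ≤
      K * ((1.00003 * (θ ^ 2 * u ^ 4)) / (2 * a * b) * (1.00001 * q)) / 4 := by
    refine div_le_div_of_nonneg_right (mul_le_mul_of_nonneg_left ?_ hK) (by norm_num)
    refine mul_le_mul (div_le_div_of_nonneg_right hW hab.le) he (by linarith) (by positivity)
  have h8 : K * ((1.00003 * (θ ^ 2 * u ^ 4)) / (2 * a * b) * (1.00001 * q)) / 4 =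
      1.00003 * 1.00001 * (K / 4 * q * θ ^ 2 * u ^ 4) / (2 * a * b) := by ring
  have h9 : 1.00003 * 1.00001 * (K / 4 * q * θ ^ 2 * u ^ 4) / (2 * a * b) ≤
      1.00003 * 1.00001 * 3.137 * a ^ 2 := by
    rw [div_le_iff₀ hab]
    calc 1.00003 * 1.00001 * (K / 4 * q * θ ^ 2 * u ^ 4)
        ≤ 1.00003 * 1.00001 * (3.137 * (2 * a ^ 3 * b)) :=
          mul_le_mul_of_nonneg_left hR (by norm_num)
      _ = 1.00003 * 1.00001 * 3.137 * a ^ 2 * (2 * a * b) := by ring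
  have ha2 : 0 ≤ a ^ 2 := by positivity
  rw [h8] at h7
  have h10 := h7.trans h9
  have h11 : 1.00003 * 1.00001 * 3.137 * a ^ 2 ≤ 3.1375 * a ^ 2 := by
    refine mul_le_mul_of_nonneg_right ?_ ha2
    norm_num
  linarith

/-- the final inequality, in terms of `v = u^(1/8)` -/
private theorem typA1_fin {K : ℕ} {δ u v t κ a l : ℝ} (hK : K ≤ 10)
    (hv : 1 ≤ v) (hvδ : 4 * 10 ^ 15 ≤ δ * v ^ 2) (hu : u = v ^ 8) (ht0 : 0 ≤ t)
    (ht : t ≤ 0.3 * u ^ 2) (hκ0 : 0 ≤ κ) (hκ : κ ≤ 16 * v ^ 12) (ha : 1 / 5 * u ≤ a)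
    (hl0 : 0 ≤ l) (hl : l ≤ 32 * v) :
    3 * K ^ 2 * κ * t * l ^ 2 ≤ δ * (0.0005 * a ^ 2) ^ 2 := by
  have hv0 : 0 < v := by linarith
  have hδ : 0 < δ := by
    by_contra h
    have : δ * v ^ 2 ≤ 0 := mul_nonpos_of_nonpos_of_nonneg (not_lt.1 h) (by positivity)
    linarith
  have hK' : (K : ℝ) ≤ 10 := by exact_mod_cast hK
  have hK0 : (0 : ℝ) ≤ K := Nat.cast_nonneg K
  have hK2 : (K : ℝ) ^ 2 ≤ 100 := by nlinarith
  have ht' : t ≤ 0.3 * v ^ 16 := by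
    rw [hu] at ht
    calc t ≤ _ := ht
      _ = _ := by ring
  have hl2 : l ^ 2 ≤ 1024 * v ^ 2 := by
    have := pow_le_pow_left₀ hl0 hl 2
    calc l ^ 2 ≤ _ := this
      _ = _ := by ring
  have hu0 : 0 < u := by rw [hu]; positivity
  have ha4 : (1 / 5 * u) ^ 4 ≤ a ^ 4 := pow_le_pow_left₀ (by positivity) ha 4
  have h1 : 3 * K ^ 2 * κ * t * l ^ 2 ≤ 3 * 100 * (16 * v ^ 12) * (0.3 * v ^ 16) * (1024 * v ^ 2) := by
    refine mul_le_mul (mul_le_mul (mul_le_mul (mul_le_mul_of_nonneg_left hK2 (by norm_num)) hκ hκ0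
      (by norm_num)) ht' ht0 (by positivity)) hl2 (by positivity) (by positivity)
  have h2 : 3 * 100 * (16 * v ^ 12) * (0.3 * v ^ 16) * (1024 * v ^ 2) = 1474560 * v ^ 30 := by ring
  have h3 : δ * (0.0005 * a ^ 2) ^ 2 = 0.00000025 * δ * a ^ 4 := by ring
  have h4 : 0.00000025 * δ * (1 / 5 * u) ^ 4 ≤ 0.00000025 * δ * a ^ 4 :=
    mul_le_mul_of_nonneg_left ha4 (by positivity)
  have h5 : 0.00000025 * δ * (1 / 5 * u) ^ 4 = 0.0000000004 * (δ * v ^ 2) * v ^ 30 := by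
    rw [hu]
    ring
  have h6 : 0.0000000004 * (4 * 10 ^ 15) * v ^ 30 ≤ 0.0000000004 * (δ * v ^ 2) * v ^ 30 :=
    mul_le_mul_of_nonneg_right (mul_le_mul_of_nonneg_left hvδ (by norm_num)) (by positivity)
  have h7 : 1474560 * v ^ 30 ≤ 0.0000000004 * (4 * 10 ^ 15) * v ^ 30 :=
    mul_le_mul_of_nonneg_right (by norm_num) (by positivity)
  rw [h3]
  rw [h2] at h1
  rw [h5] at h4
  linarith

/-- Depth `0`, quadratic mean. PROOF. `sq_fail` with `k = 0`, `ρ = (0,0)`, `t = (θ u² + u)² / (2 log p log m)` (`supp_Par`),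
`κ = (3 u/(T+1) + 1)^2` (`mult_Par`). By `hP.hR`, `K/4 (π²/12) t ≤ 3.137 log² p (1 + 1/(θ u))²`, and
`25 (1 + log r)/(r - 1) ≤ 10⁻⁵ π²/12` for `r ≥ 10⁸`; so the left side of `hthr` without `gap` is at most `3.1375 log² p` for large `u`;
`gap = 0.0005 log² p ≥ 0.00002 u²`. `r ≤ L = u²/log² 2`, so the failure probability is
`O(κ t log² u / u⁴) = O(log² u / T²)`, `T + 1 ≥ u^(1/4)`. -/
theorem fail_sq (δ : ℝ) (hδ : 0 < δ) : ∃ u₀ : ℝ, ∀ (K : ℕ) (h θ : ℝ) (p m : ℕ) (u : ℝ),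
    Par K h θ p m u → u₀ ≤ u →
    ∀ r, GP p m ⌊u ^ (1 / 4 : ℝ)⌋₊ (10 ^ 8) (u ^ 2 / Real.log 2 ^ 2) r → ∀ σ s,
      ((univ.filter (fun ω : Smp K (Dl p m (θ * u ^ 2)) => 3.138 * Real.log p ^ 2 <
        qd σ r p m (Dl p m (θ * u ^ 2)) (op 0 (0, 0) s (ch ω)))).card : ℝ) ≤
      δ * 2 ^ ((Dl p m (θ * u ^ 2)).card * K) := by
  refine ⟨max (10 ^ 6) ((4 * 10 ^ 15 / δ) ^ 4), ?_⟩
  intro K h θ p m u hP hu r hr σ s
  have hu6 : 10 ^ 6 ≤ u := (le_max_left _ _).trans hu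
  have huδ : (4 * 10 ^ 15 / δ) ^ 4 ≤ u := (le_max_right _ _).trans hu
  have hu5 : 5 ≤ u := by linarith
  have hu0 : 0 < u := by linarith
  obtain ⟨ha, hb⟩ := typA1_basic hP hu5
  set v : ℝ := u ^ (1 / 8 : ℝ) with hv
  have hv0 : 0 < v := Real.rpow_pos_of_pos hu0 _
  have hv8 : u = v ^ 8 := by
    rw [hv, ← Real.rpow_natCast, ← Real.rpow_mul hu0.le]
    norm_num
  have hv2 : u ^ (1 / 4 : ℝ) = v ^ 2 := by
    rw [hv, ← Real.rpow_natCast, ← Real.rpow_mul hu0.le]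
    norm_num
  have hv1 : 1 ≤ v := Real.one_le_rpow (by linarith) (by norm_num)
  have hvδ : 4 * 10 ^ 15 ≤ δ * v ^ 2 := by
    have h1 : 4 * 10 ^ 15 / δ ≤ v ^ 2 := by
      have h2 : (4 * 10 ^ 15 / δ) ^ 4 ≤ (v ^ 2) ^ 4 := by
        rw [← pow_mul, ← hv8]
        exact huδ
      exact le_of_pow_le_pow_left₀ (by norm_num) (by positivity) h2
    rw [div_le_iff₀ hδ] at h1
    linarith
  obtain ⟨hsupp, h032⟩ := supp_Par hP hu5 0 (0, 0)
  have hκ := mult_Par hP hu5 hr 0 (0, 0)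
  have hr8 : 10 ^ 8 ≤ r := hr.2.1
  have hr8' : (10 : ℝ) ^ 8 ≤ r := by exact_mod_cast hr8
  obtain ⟨he0, he⟩ := typA1_err hr8'
  simp only [pow_zero, one_mul, div_one] at hsupp
  simp only [pow_zero, one_mul] at hκ
  set T := ⌊u ^ (1 / 4 : ℝ)⌋₊ with hT
  have hT1 : v ^ 2 ≤ (T : ℝ) + 1 := by
    rw [← hv2]
    exact (Nat.lt_floor_add_one _).le
  have hT0 : (0 : ℝ) < (T : ℝ) + 1 := by positivity
  set t : ℝ := (θ * u ^ 2 + u) ^ 2 / (2 * Real.log p * Real.log m) with ht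
  set κ : ℝ := (3 * u / ((T : ℝ) + 1) + 1) ^ 2 with hκd
  have hκ1 : 1 ≤ κ := by
    have : 0 ≤ 3 * u / ((T : ℝ) + 1) := by positivity
    have h2 : (1 : ℝ) ^ 2 ≤ (3 * u / ((T : ℝ) + 1) + 1) ^ 2 :=
      pow_le_pow_left₀ (by norm_num) (by linarith) 2
    linarith
  have hgap : 0 < 0.0005 * Real.log p ^ 2 := by positivity
  have hsq := sq_fail (σ := σ) (K := K) hr (by omega) hP.hK0 0 (Dl p m (θ * u ^ 2)) (0, 0) s t κ
    (0.0005 * Real.log p ^ 2) (3.138 * Real.log p ^ 2) (by simpa only [pow_zero, one_mul] using hsupp)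
    (by simpa only [pow_zero, one_mul] using hκ) hκ1 hgap
    (typA1_thr ha hb hu6 hP.hθ0 (by positivity) he0 he hP.hR)
  have ht0 : 0 ≤ t := by positivity
  have htu : t ≤ 0.3 * u ^ 2 := by
    rw [ht, div_le_iff₀ (by positivity)]
    have hθ := hP.hθ
    have hθ0 := hP.hθ0
    have hθp : 0 ≤ θ := by linarith
    have h1 : θ * u ^ 2 + u ≤ 0.3 * u ^ 2 := by nlinarith
    have h2 : (θ * u ^ 2 + u) ^ 2 ≤ (0.3 * u ^ 2) ^ 2 := pow_le_pow_left₀ (by positivity) h1 2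
    have h3 : 0.3 * u ^ 2 * (0.32 * u ^ 2) ≤ 0.3 * u ^ 2 * (2 * Real.log p * Real.log m) :=
      mul_le_mul_of_nonneg_left h032 (by positivity)
    have h4 : 0 ≤ u ^ 4 := by positivity
    have h5 : (0.3 * u ^ 2) ^ 2 = 0.09 * u ^ 4 := by ring
    have h6 : 0.3 * u ^ 2 * (0.32 * u ^ 2) = 0.096 * u ^ 4 := by ring
    linarith
  have hκ16 : κ ≤ 16 * v ^ 12 := by
    have h1 : 3 * u / ((T : ℝ) + 1) ≤ 3 * v ^ 6 := by
      rw [div_le_iff₀ hT0]
      calc 3 * u = 3 * v ^ 6 * v ^ 2 := by rw [hv8]; ring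
        _ ≤ 3 * v ^ 6 * ((T : ℝ) + 1) := mul_le_mul_of_nonneg_left hT1 (by positivity)
    have h2 : (1 : ℝ) ≤ v ^ 6 := one_le_pow₀ hv1
    have h3 : 0 ≤ 3 * u / ((T : ℝ) + 1) := by positivity
    calc κ ≤ (4 * v ^ 6) ^ 2 := pow_le_pow_left₀ (by positivity) (by linarith) 2
      _ = 16 * v ^ 12 := by ring
  have hr0 : (0 : ℝ) < r := by linarith
  have hl0 : 0 ≤ 2 * Real.log r + 3 := by
    have : 0 ≤ Real.log r := Real.log_nonneg (by linarith)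
    linarith
  have hl : 2 * Real.log r + 3 ≤ 32 * v := by
    have h2 := Real.log_two_gt_d9
    have h3 : (r : ℝ) ≤ 4 * u ^ 2 := by
      refine hr.2.2.1.trans ?_
      rw [div_le_iff₀ (by positivity)]
      have : (1 : ℝ) ≤ 4 * Real.log 2 ^ 2 := by nlinarith
      nlinarith [mul_le_mul_of_nonneg_left this (show (0 : ℝ) ≤ u ^ 2 by positivity)]
    have h4 : Real.log r ≤ Real.log (4 * u ^ 2) := Real.log_le_log hr0 h3
    have h5 : Real.log (4 * u ^ 2) = 2 * Real.log 2 + 2 * Real.log u := by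
      rw [Real.log_mul (by norm_num) (by positivity), Real.log_pow,
        show (4 : ℝ) = 2 ^ 2 by norm_num, Real.log_pow]
      norm_num
    have h6 : Real.log u = 8 * Real.log v := by
      rw [hv8, Real.log_pow]
      norm_num
    have h7 := Real.log_le_sub_one_of_pos hv0
    have h8 := Real.log_two_lt_d9
    linarith
  have hfin := typA1_fin (K := K) hP.hK hv1 hvδ hv8 ht0 htu (by linarith) hκ16 hP.hu1 hl0 hl
  have hpos : (0 : ℝ) < (0.0005 * Real.log p ^ 2) ^ 2 := by positivity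
  refine le_of_mul_le_mul_right ?_ hpos
  refine hsq.trans ?_
  calc (2 : ℝ) ^ ((Dl p m (θ * u ^ 2)).card * K) * (3 * K ^ 2 * κ * t * (2 * Real.log r + 3) ^ 2)
      ≤ 2 ^ ((Dl p m (θ * u ^ 2)).card * K) * (δ * (0.0005 * Real.log p ^ 2) ^ 2) :=
        mul_le_mul_of_nonneg_left hfin (by positivity)
    _ = _ := by ring

end Pool.Agent.W_420c7c_h51
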