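import Pool.Agent.W_420c7c_h51.TypA0
import Pool.Agent.W_420c7c_h51.OpB2

set_option autoImplicit false

/-!
# Depth zero, the cosine mean
-/

namespace Pool.Agent.W_420c7c_h51

open Finset

/-- the correction for `r ≥ 10⁸` -/
private theorem corr_small {r : ℝ} (hr : 100000000 ≤ r) :
    25 * (1 + Real.log r) / (r - 1) ≤ 0.00011 := by
  set ρ : ℝ := r ^ (1 / 4 : ℝ) with hρ
  have hr0 : (0 : ℝ) < r := by linarith
  have hρ4 : ρ ^ 4 = r := by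
    rw [hρ, ← Real.rpow_natCast, ← Real.rpow_mul hr0.le]
    norm_num
  have hρ0 : 0 < ρ := Real.rpow_pos_of_pos hr0 _
  have h100 : 100 ≤ ρ := by
    by_contra hlt
    push Not at hlt
    have h1 : ρ ^ 4 < 100 ^ 4 := pow_lt_pow_left₀ hlt hρ0.le (by norm_num)
    rw [hρ4] at h1
    norm_num at h1
    linarith
  have hlog : Real.log r ≤ 4 * (ρ - 1) := by
    rw [← hρ4, Real.log_pow]
    have := Real.log_le_sub_one_of_pos hρ0
    push_cast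
    linarith
  have h3 : (1000000 : ℝ) ≤ ρ ^ 3 := by
    have := pow_le_pow_left₀ (by norm_num) h100 3
    norm_num at this
    linarith
  have h4 : 1000000 * ρ ≤ r := by
    rw [← hρ4]
    nlinarith
  rw [div_le_iff₀ (by linarith)]
  linarith

private theorem main_X {K N P θ l μ u : ℝ} (hK : 0 ≤ K) (hP : 0 ≤ P) (hθ : 1 / 10 ≤ θ)
    (hu : 100000000 ≤ u) (hlm0 : 0 < 2 * l * μ) (hN : N ≤ (θ * u ^ 2 + u) ^ 2 / (2 * l * μ))
    (hR : K / 4 * P * θ ^ 2 * u ^ 4 ≤ 3.137 * (2 * l ^ 3 * μ)) :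
    K * (N * P) ≤ 4 * (1.00001 * 3.137 * l ^ 2) := by
  obtain ⟨a, ha⟩ : ∃ a : ℝ, a = θ * u ^ 2 := ⟨_, rfl⟩
  have hau : 10000000 * u ≤ a := by
    have h1 : 10000000 ≤ θ * u := by nlinarith
    have h2 : 10000000 * u ≤ θ * u * u := mul_le_mul_of_nonneg_right h1 (by linarith)
    rw [ha]
    linarith
  have ha0 : 0 ≤ a := by linarith
  rw [← ha] at hN
  have hR' : K / 4 * P * a ^ 2 ≤ 3.137 * (2 * l ^ 3 * μ) := by
    have : K / 4 * P * a ^ 2 = K / 4 * P * θ ^ 2 * u ^ 4 := by rw [ha]; ring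
    linarith
  have h3 : (a + u) ^ 2 ≤ 1.00001 * a ^ 2 := by
    have h4 : a + u ≤ 1.0000001 * a := by linarith
    have h5 := pow_le_pow_left₀ (by linarith) h4 2
    have h6 : (1.0000001 * a) ^ 2 = 1.00000020000001 * a ^ 2 := by ring
    have h7 : 0 ≤ a ^ 2 := sq_nonneg a
    linarith
  have h6 : N * (2 * l * μ) ≤ 1.00001 * a ^ 2 := by
    rw [le_div_iff₀ hlm0] at hN
    linarith
  have hKP : 0 ≤ K / 4 * P := by positivity
  have h7 : K / 4 * P * (N * (2 * l * μ)) ≤ K / 4 * P * (1.00001 * a ^ 2) :=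
    mul_le_mul_of_nonneg_left h6 hKP
  have h8 : K / 4 * P * (1.00001 * a ^ 2) = 1.00001 * (K / 4 * P * a ^ 2) := by ring
  have h9 : (K * (N * P)) * (2 * l * μ) = 4 * (K / 4 * P * (N * (2 * l * μ))) := by ring
  have h10 : (4 * (1.00001 * 3.137 * l ^ 2)) * (2 * l * μ) =
      4 * (1.00001 * (3.137 * (2 * l ^ 3 * μ))) := by ring
  have h11 : (K * (N * P)) * (2 * l * μ) ≤ (4 * (1.00001 * 3.137 * l ^ 2)) * (2 * l * μ) := by
    rw [h9, h10]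
    linarith
  exact le_of_mul_le_mul_right h11 hlm0

private theorem main_Xe {K N P l ε : ℝ} (hK : 0 ≤ K) (hN : 0 ≤ N) (hP : 0.8216 ≤ P)
    (hε : ε ≤ 0.00011) (hX : K * (N * P) ≤ 4 * (1.00001 * 3.137 * l ^ 2)) :
    K * (N * (P + ε)) ≤ 4 * 3.13746 * l ^ 2 := by
  have h1 : P + ε ≤ 1.000135 * P := by linarith
  have h2 : K * (N * (P + ε)) ≤ K * (N * (1.000135 * P)) :=
    mul_le_mul_of_nonneg_left (mul_le_mul_of_nonneg_left h1 hN) hK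
  have h3 : K * (N * (1.000135 * P)) = 1.000135 * (K * (N * P)) := by ring
  have h4 : 0 ≤ l ^ 2 := sq_nonneg l
  linarith

private theorem main_first {X t l A : ℝ} (hl : 0 < l) (ht2 : t ^ 2 = A ^ 2 / (3.138 * l ^ 2))
    (hX : X ≤ 4 * 3.13746 * l ^ 2) : t ^ 2 / 8 * X ≤ A ^ 2 / 2 - 0.00007 * A ^ 2 := by
  have h1 : t ^ 2 / 8 * X ≤ t ^ 2 / 8 * (4 * 3.13746 * l ^ 2) :=
    mul_le_mul_of_nonneg_left hX (by positivity)
  have h2 : t ^ 2 / 8 * (4 * 3.13746 * l ^ 2) = A ^ 2 * (3.13746 / 6.276) := by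
    rw [ht2]
    field_simp
    norm_num
    ring
  have h3 : 0 ≤ A ^ 2 := sq_nonneg A
  rw [h2] at h1
  refine h1.trans ?_
  have h4 : (3.13746 / 6.276 : ℝ) ≤ 1 / 2 - 0.00007 := by norm_num
  have h5 := mul_le_mul_of_nonneg_left h4 h3
  linarith

private theorem card_bd {N θ l μ u : ℝ} (hθ0 : 0 ≤ θ) (hθ1 : θ ≤ 0.2745) (hu : 100000000 ≤ u)
    (hlm : 0.32 * u ^ 2 ≤ 2 * l * μ) (hN : N ≤ (θ * u ^ 2 + u) ^ 2 / (2 * l * μ)) :
    N ≤ 3.125 * u ^ 2 := by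
  have hu2 : 0 < u ^ 2 := by positivity
  have hlm0 : 0 < 2 * l * μ := by linarith
  have h1 : θ * u ^ 2 + u ≤ u ^ 2 := by
    have h2 : u ≤ 0.5 * u ^ 2 := by nlinarith
    have h3 : θ * u ^ 2 ≤ 0.2745 * u ^ 2 := mul_le_mul_of_nonneg_right hθ1 hu2.le
    linarith
  have h0 : 0 ≤ θ * u ^ 2 + u := by positivity
  have h2 : (θ * u ^ 2 + u) ^ 2 ≤ (u ^ 2) ^ 2 := pow_le_pow_left₀ h0 h1 2
  refine hN.trans ?_
  rw [div_le_iff₀ hlm0]
  have h3 : 3.125 * u ^ 2 * (0.32 * u ^ 2) ≤ 3.125 * u ^ 2 * (2 * l * μ) :=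
    mul_le_mul_of_nonneg_left hlm (by positivity)
  have h4 : 3.125 * u ^ 2 * (0.32 * u ^ 2) = (u ^ 2) ^ 2 := by ring
  linarith

private theorem term2_bd {N K b B y : ℝ} (hy : 10 ≤ y) (hNK : N * K ≤ 31.25 * y ^ 16)
    (hNK0 : 0 ≤ N * K) (hB : 0 ≤ B) (hb0 : 0 ≤ b) (hb : b ≤ B / y ^ 7) :
    N * K * b ^ 4 ≤ 31.25 * B ^ 4 / y ^ 12 := by
  have hb4 : b ^ 4 ≤ B ^ 4 / y ^ 28 := by
    have h1 := pow_le_pow_left₀ hb0 hb 4
    have h2 : (B / y ^ 7) ^ 4 = B ^ 4 / y ^ 28 := by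
      rw [div_pow, ← pow_mul]
    linarith
  have h1 : N * K * b ^ 4 ≤ 31.25 * y ^ 16 * (B ^ 4 / y ^ 28) :=
    mul_le_mul hNK hb4 (by positivity) (by positivity)
  have h2 : 31.25 * y ^ 16 * (B ^ 4 / y ^ 28) = 31.25 * B ^ 4 / y ^ 12 := by
    have : y ≠ 0 := by linarith
    field_simp
  linarith

private theorem second_bd {Z B4 A y : ℝ} (hy : 1 ≤ y) (hA : 0 < A) (hB : 0 ≤ B4)
    (hZ : Z ≤ 31.25 * B4 / y ^ 12) (hy2 : B4 * (0.5 / (0.00007 * A ^ 2)) ≤ y) :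
    Z / 64 ≤ 0.00007 * A ^ 2 := by
  have h1 : 31.25 * B4 / y ^ 12 / 64 ≤ 0.00007 * A ^ 2 := by
    rw [div_div, div_le_iff₀ (by positivity)]
    have h2 : B4 * (0.5 / (0.00007 * A ^ 2)) ≤ y ^ 12 := by
      have h3 : y ≤ y ^ 12 := le_self_pow₀ hy (by norm_num)
      linarith
    have h4 : B4 * 0.5 ≤ y ^ 12 * (0.00007 * A ^ 2) := by
      rw [← mul_div_assoc, div_le_iff₀ (by positivity)] at h2
      exact h2
    linarith
  linarith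

private theorem term1_bd {K κ t lr A u y : ℝ} (hy : 10 ≤ y) (hy8 : y ^ 8 = u) (hK0 : 0 ≤ K)
    (hK : K ≤ 10) (hκ0 : 0 ≤ κ) (hκ : κ ≤ 16 * y ^ 12) (ht0 : 0 ≤ t) (ht3 : t ≤ 3 * A / u)
    (hlr0 : 0 ≤ lr) (hlr : lr ≤ 24 * y) :
    t ^ 2 * K * κ * (2 * lr + 3) ^ 2 ≤ 3745440 * A ^ 2 / y ^ 2 := by
  have hy0 : 0 < y := by linarith
  have h1 : t ^ 2 ≤ 9 * A ^ 2 / y ^ 16 := by
    have h2 := pow_le_pow_left₀ ht0 ht3 2
    have h3 : (3 * A / u) ^ 2 = 9 * A ^ 2 / y ^ 16 := by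
      rw [← hy8, div_pow, ← pow_mul]
      ring
    linarith
  have h4 : (2 * lr + 3) ^ 2 ≤ 2601 * y ^ 2 := by
    have h5 : 2 * lr + 3 ≤ 51 * y := by linarith
    have h6 := pow_le_pow_left₀ (by linarith) h5 2
    have h7 : (51 * y) ^ 2 = 2601 * y ^ 2 := by ring
    linarith
  have h8 : t ^ 2 * K ≤ 9 * A ^ 2 / y ^ 16 * 10 := mul_le_mul h1 hK hK0 (by positivity)
  have h9 : t ^ 2 * K * κ ≤ 9 * A ^ 2 / y ^ 16 * 10 * (16 * y ^ 12) :=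
    mul_le_mul h8 hκ hκ0 (by positivity)
  have h10 : t ^ 2 * K * κ * (2 * lr + 3) ^ 2 ≤
      9 * A ^ 2 / y ^ 16 * 10 * (16 * y ^ 12) * (2601 * y ^ 2) :=
    mul_le_mul h9 h4 (by positivity) (by positivity)
  have h11 : 9 * A ^ 2 / y ^ 16 * 10 * (16 * y ^ 12) * (2601 * y ^ 2) = 3745440 * A ^ 2 / y ^ 2 := by
    field_simp
    ring
  linarith

private theorem sum_bd {S1 S2 A2 B4 de y : ℝ} (hy : 1 ≤ y) (hB : 0 ≤ B4)
    (hde : 0 < de) (h1 : S1 ≤ 3745440 * A2 / y ^ 2) (h2 : S2 ≤ 31.25 * B4 / y ^ 12)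
    (hC : (3745440 * A2 + 31.25 * B4) / de ≤ y) : S1 + S2 ≤ de := by
  have h3 : 31.25 * B4 / y ^ 12 ≤ 31.25 * B4 / y ^ 2 := by
    have h4 : y ^ 2 ≤ y ^ 12 := pow_le_pow_right₀ hy (by norm_num)
    exact div_le_div_of_nonneg_left (by positivity) (by positivity) h4
  have h5 : (3745440 * A2 + 31.25 * B4) / y ^ 2 ≤ de := by
    rw [div_le_iff₀ (by positivity)]
    have h6 : (3745440 * A2 + 31.25 * B4) / de ≤ y ^ 2 := by
      have h7 : y ≤ y ^ 2 := le_self_pow₀ hy (by norm_num)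
      linarith
    rw [div_le_iff₀ hde] at h6
    linarith
  rw [add_div] at h5
  linarith

private theorem kap_bd {u y T1 : ℝ} (hy : 10 ≤ y) (hy8 : y ^ 8 = u) (hT : y ^ 2 ≤ T1) :
    1 ≤ (3 * u / (2 ^ 0 * T1) + 1) ^ 2 ∧ (3 * u / (2 ^ 0 * T1) + 1) ^ 2 ≤ 16 * y ^ 12 := by
  have hy0 : 0 < y := by linarith
  have hT0 : 0 < T1 := lt_of_lt_of_le (by positivity) hT
  have hu0 : 0 < u := by rw [← hy8]; positivity
  have h0 : 0 ≤ 3 * u / (2 ^ 0 * T1) := by positivity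
  constructor
  · nlinarith
  · have h1 : 3 * u / (2 ^ 0 * T1) ≤ 3 * y ^ 6 := by
      rw [pow_zero, one_mul, div_le_iff₀ hT0, ← hy8]
      have h2 : 3 * y ^ 6 * y ^ 2 ≤ 3 * y ^ 6 * T1 := mul_le_mul_of_nonneg_left hT (by positivity)
      have h3 : 3 * y ^ 6 * y ^ 2 = 3 * y ^ 8 := by ring
      linarith
    have h2 : (1 : ℝ) ≤ y ^ 6 := one_le_pow₀ (by linarith)
    have h4 : 3 * u / (2 ^ 0 * T1) + 1 ≤ 4 * y ^ 6 := by linarith
    have h5 := pow_le_pow_left₀ (by linarith) h4 2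
    have h6 : (4 * y ^ 6) ^ 2 = 16 * y ^ 12 := by ring
    linarith

/-- Depth `0`, cosine mean. PROOF. `cos_fail` with `t = 2 π n / (Q √3.138 log p) = O(1/u)`, `κ` as in `fail_sq`,
`g = (2 π n / Q)² / 2`: `t²/8 * K #D (π²/12 + 25 (1 + log r)/(r-1)) = (2 π n/Q)²/2 * (K #D (..)/4) / (3.138 log² p)
≤ (2 π n/Q)²/2 * 3.1375/3.138` for large `u` (as in `fail_sq`), the difference to `g` is a positive constant, and
`#D K (|t| 2 log r)⁴ = O(log⁴ u / u²) → 0`. The failure probability is `O(log² u / T² + log⁴ u / u²) / e²`. -/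
theorem fail_cos (δ : ℝ) (hδ : 0 < δ) (n : ℕ) (hn : 1 ≤ n) (Q e : ℝ) (hQ : 0 < Q) (he : 0 < e) :
    ∃ u₀ : ℝ, ∀ (K : ℕ) (h θ : ℝ) (p m : ℕ) (u : ℝ),
    Par K h θ p m u → u₀ ≤ u →
    ∀ r, GP p m ⌊u ^ (1 / 4 : ℝ)⌋₊ (10 ^ 8) (u ^ 2 / Real.log 2 ^ 2) r → ∀ σ s,
      ((univ.filter (fun ω : Smp K (Dl p m (θ * u ^ 2)) =>
        cs σ r p m (Dl p m (θ * u ^ 2)) (2 * Real.pi * n / (Q * (Real.sqrt 3.138 * Real.log p)))
          (op 0 (0, 0) s (ch ω)) < Real.exp (-(2 * Real.pi * n / Q) ^ 2 / 2) - e)).card : ℝ) ≤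
      δ * 2 ^ ((Dl p m (θ * u ^ 2)).card * K) := by
  obtain ⟨A, hA⟩ : ∃ A : ℝ, A = 2 * Real.pi * n / Q := ⟨_, rfl⟩
  have hn0 : (0 : ℝ) < n := by exact_mod_cast hn
  have hA0 : 0 < A := by
    rw [hA]
    have := Real.pi_pos
    positivity
  obtain ⟨B, hB⟩ : ∃ B : ℝ, B = 144 * A := ⟨_, rfl⟩
  have hB0 : 0 < B := by rw [hB]; positivity
  obtain ⟨de, hde'⟩ : ∃ de : ℝ, de = δ * e ^ 2 := ⟨_, rfl⟩
  have hde : 0 < de := by rw [hde']; positivity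
  obtain ⟨c1, hc1⟩ : ∃ c1 : ℝ, c1 = B ^ 4 * (0.5 / (0.00007 * A ^ 2)) := ⟨_, rfl⟩
  obtain ⟨c2, hc2⟩ : ∃ c2 : ℝ, c2 = (3745440 * A ^ 2 + 31.25 * B ^ 4) / de := ⟨_, rfl⟩
  have hc10 : 0 < c1 := by rw [hc1]; positivity
  have hc20 : 0 < c2 := by rw [hc2]; positivity
  obtain ⟨C, hC⟩ : ∃ C : ℝ, C = 10 + c1 + c2 + B := ⟨_, rfl⟩
  refine ⟨C ^ 8, ?_⟩
  intro K h θ p m u hP hu r hr σ s
  have hC10 : 10 ≤ C := by linarith
  have hC0 : 0 < C ^ 8 := by positivity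
  have hu0 : 0 < u := lt_of_lt_of_le hC0 hu
  obtain ⟨y, hy⟩ : ∃ y : ℝ, y = u ^ (1 / 8 : ℝ) := ⟨_, rfl⟩
  have hy0 : 0 < y := by rw [hy]; exact Real.rpow_pos_of_pos hu0 _
  have hy8 : y ^ 8 = u := by
    rw [hy, ← Real.rpow_natCast, ← Real.rpow_mul hu0.le]
    norm_num
  have hyC : C ≤ y := by
    by_contra hlt
    push Not at hlt
    have h1 : y ^ 8 < C ^ 8 := pow_lt_pow_left₀ hlt hy0.le (by norm_num)
    rw [hy8] at h1
    exact absurd h1 (not_lt.2 hu)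
  have hy10 : 10 ≤ y := hC10.trans hyC
  have hy1 : 1 ≤ y := by linarith
  have hyc1 : c1 ≤ y := by linarith
  have hyc2 : c2 ≤ y := by linarith
  have hyB : B ≤ y := by linarith
  have hy2 : u ^ (1 / 4 : ℝ) = y ^ 2 := by
    rw [hy, ← Real.rpow_natCast, ← Real.rpow_mul hu0.le]
    norm_num
  have hu8 : 100000000 ≤ u := by
    rw [← hy8]
    have := pow_le_pow_left₀ (by norm_num) hy10 8
    norm_num at this
    exact this
  have hu1 : 1 ≤ u := by linarith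
  -- the logarithms
  obtain ⟨l, hl⟩ : ∃ l : ℝ, l = Real.log p := ⟨_, rfl⟩
  obtain ⟨μ, hμ⟩ : ∃ μ : ℝ, μ = Real.log m := ⟨_, rfl⟩
  have hl1 : 1 / 5 * u ≤ l := by rw [hl]; exact hP.hu1
  have hl0 : 0 < l := by linarith
  obtain ⟨hN, hlm⟩ := supp_Par hP (by linarith) 0 (0, 0)
  rw [← hl, ← hμ] at hN hlm
  have hlm0 : 0 < 2 * l * μ := lt_of_lt_of_le (by positivity) hlm
  obtain ⟨D, hD⟩ : ∃ D, D = Dl p m (θ * u ^ 2) := ⟨_, rfl⟩
  rw [← hD] at hN ⊢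
  have hfil : D.filter (fun w => (((0, 0) : ℕ × ℕ).1 + 2 ^ 0 * w.1,
      ((0, 0) : ℕ × ℕ).2 + 2 ^ 0 * w.2) ∈ D) = D := by
    refine filter_true_of_mem ?_
    intro w hw
    simpa using hw
  rw [hfil] at hN
  rw [pow_zero, div_one] at hN
  have hK0 := hP.hK0
  have hKr : (K : ℝ) ≤ 10 := by exact_mod_cast hP.hK
  have hKr0 : (1 : ℝ) ≤ K := by exact_mod_cast hK0
  have hKr1 : (0 : ℝ) ≤ K := by linarith
  have hθ0 := hP.hθ0
  have hθ1 := hP.hθ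
  -- the bound for t
  obtain ⟨t, ht⟩ : ∃ t : ℝ, t = 2 * Real.pi * n / (Q * (Real.sqrt 3.138 * Real.log p)) := ⟨_, rfl⟩
  rw [← ht]
  obtain ⟨q, hq⟩ : ∃ q : ℝ, q = Real.sqrt 3.138 := ⟨_, rfl⟩
  have hsq : (5 / 3 : ℝ) ≤ q := by
    rw [hq]
    refine Real.le_sqrt_of_sq_le ?_
    norm_num
  have hsq0 : 0 < q := lt_of_lt_of_le (by norm_num) hsq
  have hsqs : q ^ 2 = 3.138 := by rw [hq]; exact Real.sq_sqrt (by norm_num)
  have htA : t = A / (q * l) := by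
    rw [ht, hA, ← hl, div_div, ← hq]
  have ht0 : 0 < t := by
    rw [htA]
    positivity
  have ht2 : t ^ 2 = A ^ 2 / (3.138 * l ^ 2) := by
    rw [htA, div_pow, mul_pow, hsqs]
  have ht3 : t ≤ 3 * A / u := by
    rw [htA, div_le_div_iff₀ (by positivity) hu0]
    have h1 : 1 / 3 * u ≤ q * l := by
      have h2 : 5 / 3 * (1 / 5 * u) ≤ q * l := mul_le_mul hsq hl1 (by positivity) hsq0.le
      linarith
    have h2 := mul_le_mul_of_nonneg_left h1 hA0.le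
    linarith
  -- log r
  have hr' := hr
  obtain ⟨hrp, hr0, hrL, -⟩ := hr
  have hr8 : (100000000 : ℝ) ≤ (r : ℝ) := by
    have : 100000000 ≤ r := le_trans (by norm_num) hr0
    exact_mod_cast this
  obtain ⟨R, hRr⟩ : ∃ R : ℝ, R = (r : ℝ) := ⟨_, rfl⟩
  have hR8 : 100000000 ≤ R := by rw [hRr]; exact hr8
  have hRpos : 0 < R := by linarith
  have hR4 : R ≤ u ^ 3 := by
    have hlog2 : (1 / 2 : ℝ) ≤ Real.log 2 := by
      have := Real.log_two_gt_d9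
      linarith
    have h1 : u ^ 2 / Real.log 2 ^ 2 ≤ 4 * u ^ 2 := by
      rw [div_le_iff₀ (by positivity)]
      have h2 : (1 / 4 : ℝ) ≤ Real.log 2 ^ 2 := by nlinarith
      have h3 := mul_le_mul_of_nonneg_left h2 (by positivity : (0 : ℝ) ≤ 4 * u ^ 2)
      linarith
    have h2 : 4 * u ^ 2 ≤ u * u ^ 2 :=
      mul_le_mul_of_nonneg_right (by linarith) (by positivity)
    have h3 : u * u ^ 2 = u ^ 3 := by ring
    rw [hRr]
    linarith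
  obtain ⟨lr, hlrd⟩ : ∃ lr : ℝ, lr = Real.log R := ⟨_, rfl⟩
  have hlr : lr ≤ 24 * y := by
    have h1 : Real.log R ≤ Real.log (u ^ 3) := Real.log_le_log hRpos hR4
    rw [← hy8, ← pow_mul, Real.log_pow] at h1
    have h2 := Real.log_le_sub_one_of_pos hy0
    push_cast at h1
    linarith
  have hlr0 : 0 ≤ lr := by rw [hlrd]; exact Real.log_nonneg (by linarith)
  -- the main quantity
  obtain ⟨b, hbd⟩ : ∃ b : ℝ, b = |t| * (2 * lr) := ⟨_, rfl⟩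
  have hb : b ≤ B / y ^ 7 := by
    rw [hbd, abs_of_pos ht0]
    have h1 : t * (2 * lr) ≤ 3 * A / u * (48 * y) :=
      mul_le_mul ht3 (by linarith) (by linarith) (by positivity)
    have h2 : 3 * A / u * (48 * y) = B / y ^ 7 := by
      rw [← hy8, hB]
      field_simp
      ring
    linarith
  have hb0 : 0 ≤ b := by rw [hbd]; positivity
  have hb1 : b ≤ 1 := by
    refine hb.trans ?_
    rw [div_le_one (by positivity)]
    have h2 : y ≤ y ^ 7 := le_self_pow₀ hy1 (by norm_num)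
    linarith
  -- the cardinality
  obtain ⟨N, hNd⟩ : ∃ N : ℝ, N = (D.card : ℝ) := ⟨_, rfl⟩
  have hN0 : 0 ≤ N := by rw [hNd]; positivity
  rw [← hNd] at hN
  have hN2 : N ≤ 3.125 * u ^ 2 := card_bd (by linarith) hθ1 hu8 hlm hN
  have hNK : N * K ≤ 31.25 * y ^ 16 := by
    have h1 : N * K ≤ (3.125 * u ^ 2) * 10 := mul_le_mul hN2 hKr hKr1 (by positivity)
    have h2 : u ^ 2 = y ^ 16 := by rw [← hy8, ← pow_mul]
    rw [h2] at h1
    linarith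
  have hNK0 : 0 ≤ N * K := by positivity
  have hterm2 : N * K * b ^ 4 ≤ 31.25 * B ^ 4 / y ^ 12 := term2_bd hy10 hNK hNK0 hB0.le hb0 hb
  -- κ
  obtain ⟨T, hT⟩ : ∃ T : ℕ, T = ⌊u ^ (1 / 4 : ℝ)⌋₊ := ⟨_, rfl⟩
  have hT1 : y ^ 2 ≤ (T : ℝ) + 1 := by
    rw [← hy2, hT]
    exact (Nat.lt_floor_add_one _).le
  obtain ⟨κ, hκ⟩ : ∃ κ : ℝ, κ = (3 * u / (2 ^ 0 * ((T : ℝ) + 1)) + 1) ^ 2 := ⟨_, rfl⟩
  obtain ⟨hκ1, hκ2⟩ := kap_bd hy10 hy8 hT1
  rw [← hκ] at hκ1 hκ2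
  have hκD : ∀ h' : ℤ, ((D.filter (fun w => smon p m w ≡ h' [ZMOD r])).card : ℝ) ≤ κ := by
    intro h'
    have h1 := mult_Par hP (by linarith) hr' 0 (0, 0) h'
    rw [← hD, ← hT] at h1
    rw [hκ]
    refine le_trans (le_of_eq ?_) h1
    congr 2
    ext w
    simp only [mem_filter]
    constructor
    · rintro ⟨h1, h2⟩
      exact ⟨h1, by simpa using h1, h2⟩
    · rintro ⟨h1, -, h2⟩
      exact ⟨h1, h2⟩
  -- the second condition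
  obtain ⟨ε, hε⟩ : ∃ ε : ℝ, ε = 25 * (1 + lr) / (R - 1) := ⟨_, rfl⟩
  have hε1 : ε ≤ 0.00011 := by rw [hε, hlrd]; exact corr_small hR8
  obtain ⟨P, hPd⟩ : ∃ P : ℝ, P = Real.pi ^ 2 / 12 := ⟨_, rfl⟩
  have hP1 : 0.8216 ≤ P := by
    rw [hPd]
    have := Real.pi_gt_d2
    nlinarith
  have hX : K * (N * P) ≤ 4 * (1.00001 * 3.137 * l ^ 2) := by
    have hR := hP.hR
    rw [← hPd, ← hl, ← hμ] at hR
    exact main_X hKr1 (by linarith) hθ0 hu8 hlm0 hN hR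
  have hXε := main_Xe hKr1 hN0 hP1 hε1 hX
  have hfirst := main_first hl0 ht2 hXε
  have hsecond : N * K * b ^ 4 / 64 ≤ 0.00007 * A ^ 2 :=
    second_bd hy1 hA0 (by positivity) hterm2 (by rw [← hc1]; exact hyc1)
  have hg : t ^ 2 / 8 * (K * (D.card * (Real.pi ^ 2 / 12 + 25 * (1 + Real.log r) / ((r : ℝ) - 1)))) +
      D.card * K * (|t| * (2 * Real.log r)) ^ 4 / 64 ≤ A ^ 2 / 2 := by
    rw [← hNd, ← hPd, ← hRr, ← hlrd, ← hε, ← hbd]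
    linarith
  have h1000 : 1000 ≤ r := le_trans (by norm_num) hr0
  have ht1 : |t| * (2 * Real.log r) ≤ 1 := by
    rw [← hRr, ← hlrd, ← hbd]
    exact hb1
  have key := cos_fail (σ := σ) hr' h1000 hK0 D s t κ e (A ^ 2 / 2) hκD hκ1 he ht1 hg
  have e1 : Real.exp (-(2 * Real.pi * n / Q) ^ 2 / 2) - e = Real.exp (-(A ^ 2 / 2)) - e := by
    rw [← hA]
    congr 2
    ring
  rw [e1]
  obtain ⟨c, hc⟩ : ∃ c : ℝ, c = ((univ.filter (fun ω : Smp K D =>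
        cs σ r p m D t (op 0 (0, 0) s (ch ω)) < Real.exp (-(A ^ 2 / 2)) - e)).card : ℝ) := ⟨_, rfl⟩
  rw [← hc]
  have key' : c * e ^ 2 ≤ 2 ^ (D.card * K) * (t ^ 2 * K * κ * (2 * Real.log r + 3) ^ 2 +
        D.card * K * (|t| * (2 * Real.log r)) ^ 4) := by
    rw [hc]
    convert key
  rw [← hNd, ← hRr, ← hlrd, ← hbd] at key'
  have hterm1 := term1_bd hy10 hy8 hKr1 hKr (by linarith) hκ2 ht0.le ht3 hlr0 hlr
  have hsum : t ^ 2 * K * κ * (2 * lr + 3) ^ 2 + N * K * b ^ 4 ≤ de :=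
    sum_bd hy1 (by positivity) hde hterm1 hterm2 (by rw [← hc2]; exact hyc2)
  have hfin : c * e ^ 2 ≤ (δ * 2 ^ (D.card * K)) * e ^ 2 := by
    refine key'.trans ?_
    have h1 := mul_le_mul_of_nonneg_left hsum (by positivity : (0 : ℝ) ≤ 2 ^ (D.card * K))
    refine h1.trans (le_of_eq ?_)
    rw [hde']
    ring
  exact le_of_mul_le_mul_right hfin (by positivity)

end Pool.Agent.W_420c7c_h51
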