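import Pool.Agent.W_420c7c_h51.TypA0
import Pool.Agent.W_420c7c_h51.OpB1

set_option autoImplicit false

/-!
# Positive depth
-/

namespace Pool.Agent.W_420c7c_h51

open Finset

private theorem typB1_log {r : ℕ} (h8 : 10 ^ 8 ≤ r) :
    25 * (1 + Real.log r) / ((r : ℝ) - 1) ≤ 0.0075 := by
  have hr1 : (10 ^ 8 : ℝ) ≤ r := by exact_mod_cast h8
  have e1 : (r : ℝ) = 10 ^ 8 * (r / 10 ^ 8) := by ring
  have e2 : Real.log r = 8 * Real.log 10 + Real.log (r / 10 ^ 8) := by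
    conv_lhs => rw [e1]
    rw [Real.log_mul (by norm_num) (by positivity), Real.log_pow]
    norm_num
  have e3 := Real.log_le_sub_one_of_pos (show (0 : ℝ) < 10 by norm_num)
  have e4 := Real.log_le_sub_one_of_pos (show (0 : ℝ) < r / 10 ^ 8 by positivity)
  rw [div_le_iff₀ (by linarith), e2]
  linarith

private theorem typB1_term {K : ℕ} {h θ : ℝ} {p m : ℕ} {u v : ℝ} (hP : Par K h θ p m u)
    (hu : 10 ^ 4 ≤ u) (hv0 : 0 < v) (hv : u = v ^ 8) {r : ℕ}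
    (hr : GP p m ⌊u ^ (1 / 4 : ℝ)⌋₊ (10 ^ 8) (u ^ 2 / Real.log 2 ^ 2) r) (σ : Bool)
    (s : Bool × Bool → SignType) {k : ℕ} (hk : 1 ≤ k) (hk2 : (2 : ℝ) ^ k ≤ 3 * Real.sqrt u)
    (ρ : ℕ × ℕ) :
    ((univ.filter (fun ω : Smp K (Dl p m (θ * u ^ 2)) => 0.9 * Real.log p ^ 2 <
        qd σ r p m (Dl p m (θ * u ^ 2)) (op k ρ s (ch ω)))).card : ℝ) ≤
      (10 ^ 12 / v ^ 2 * 2 ^ ((Dl p m (θ * u ^ 2)).card * K)) * (1 / 16) ^ k := by
  have hu5 : 5 ≤ u := by linarith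
  have h8 : 10 ^ 8 ≤ r := hr.2.1
  have hr1 : (10 ^ 8 : ℝ) ≤ r := by exact_mod_cast h8
  obtain ⟨hsupp, h032⟩ := supp_Par hP hu5 k ρ
  have hmult := fun h' => mult_Par hP hu5 hr k ρ h'
  have hv4 : 100 ≤ v ^ 4 := by
    have h1 : (100 : ℝ) ^ 2 ≤ (v ^ 4) ^ 2 := by
      have : (v ^ 4) ^ 2 = u := by rw [hv]; ring
      rw [this]
      linarith
    exact (pow_le_pow_iff_left₀ (by norm_num) (by positivity) (by norm_num)).1 h1
  have hv1 : 1 ≤ v := by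
    by_contra hlt
    push Not at hlt
    have : v ^ 4 ≤ 1 := pow_le_one₀ hv0.le hlt.le
    linarith
  have hsq : Real.sqrt u = v ^ 4 := by
    have : u = (v ^ 4) ^ 2 := by rw [hv]; ring
    rw [this, Real.sqrt_sq (by positivity)]
  rw [hsq] at hk2
  have h14 : u ^ (1 / 4 : ℝ) = v ^ 2 := by
    rw [hv, ← Real.rpow_natCast v 8, ← Real.rpow_mul hv0.le, ← Real.rpow_natCast v 2]
    norm_num
  set T : ℕ := ⌊u ^ (1 / 4 : ℝ)⌋₊ with hT
  have hT1 : v ^ 2 ≤ (T : ℝ) + 1 := by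
    rw [← h14]
    exact (Nat.lt_floor_add_one _).le
  have h2k : (0 : ℝ) < 2 ^ k := by positivity
  have h2k2 : (2 : ℝ) ≤ 2 ^ k := by
    calc (2 : ℝ) = 2 ^ 1 := by norm_num
      _ ≤ 2 ^ k := pow_le_pow_right₀ (by norm_num) hk
  have hu0 : 0 < u := by linarith
  set lp : ℝ := Real.log p with hlp
  set lm : ℝ := Real.log m with hlm
  have hlp1 : u / 5 ≤ lp := by
    have := hP.hu1
    linarith
  have hlp0 : 0 < lp := by linarith
  have hlm0 : 0 < lm := by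
    by_contra hneg
    push Not at hneg
    have : 2 * lp * lm ≤ 0 := mul_nonpos_of_nonneg_of_nonpos (by linarith) hneg
    have h2 : 0 < 0.32 * u ^ 2 := by positivity
    linarith
  have hlplm : 0 < 2 * lp * lm := by positivity
  have hθ0 := hP.hθ0
  have hθ := hP.hθ
  have hθp : 0 < θ := by linarith
  set t : ℝ := (θ * u ^ 2 / 2 ^ k + u) ^ 2 / (2 * lp * lm) with ht
  set κ : ℝ := (3 * u / (2 ^ k * ((T : ℝ) + 1)) + 1) ^ 2 with hκ
  set M : ℝ := 2 ^ ((Dl p m (θ * u ^ 2)).card * K) with hM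
  have hM0 : 0 < M := by positivity
  have hK1 : (1 : ℝ) ≤ K := by exact_mod_cast hP.hK0
  have hK10 : (K : ℝ) ≤ 10 := by exact_mod_cast hP.hK
  have hκ1 : 1 ≤ κ := by
    rw [hκ]
    have : 0 ≤ 3 * u / (2 ^ k * ((T : ℝ) + 1)) := by positivity
    nlinarith
  have hπ1 := Real.pi_gt_three
  -- the threshold
  have hthr : K * (t * (Real.pi ^ 2 / 12 + 25 * (1 + Real.log r) / ((r : ℝ) - 1))) / 4 +
      0.1 * lp ^ 2 ≤ 0.9 * lp ^ 2 := by
    have hE := typB1_log h8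
    have h1 : Real.pi ^ 2 / 12 + 25 * (1 + Real.log r) / ((r : ℝ) - 1) ≤
        1.01 * (Real.pi ^ 2 / 12) := by
      nlinarith
    have hx : θ * u ^ 2 / 2 ^ k + u ≤ 0.501 * (θ * u ^ 2) := by
      have h2 : θ * u ^ 2 / 2 ^ k ≤ θ * u ^ 2 / 2 :=
        div_le_div_of_nonneg_left (by positivity) (by norm_num) h2k2
      have h3 : u * 1000 ≤ θ * u ^ 2 := by
        have : 1000 ≤ θ * u := by nlinarith
        nlinarith
      linarith
    have hx2 : (θ * u ^ 2 / 2 ^ k + u) ^ 2 ≤ (0.501 * (θ * u ^ 2)) ^ 2 :=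
      pow_le_pow_left₀ (by positivity) hx 2
    have ht2 : t ≤ (0.501 * (θ * u ^ 2)) ^ 2 / (2 * lp * lm) :=
      div_le_div_of_nonneg_right hx2 hlplm.le
    have ht0 : 0 ≤ t := by positivity
    have h4 : t * (Real.pi ^ 2 / 12 + 25 * (1 + Real.log r) / ((r : ℝ) - 1)) ≤
        (0.501 * (θ * u ^ 2)) ^ 2 / (2 * lp * lm) * (1.01 * (Real.pi ^ 2 / 12)) := by
      calc _ ≤ t * (1.01 * (Real.pi ^ 2 / 12)) := mul_le_mul_of_nonneg_left h1 ht0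
        _ ≤ _ := mul_le_mul_of_nonneg_right ht2 (by positivity)
    have h5 := mul_le_mul_of_nonneg_left h4 (by linarith : (0 : ℝ) ≤ K)
    have h6 : (K : ℝ) * ((0.501 * (θ * u ^ 2)) ^ 2 / (2 * lp * lm) *
        (1.01 * (Real.pi ^ 2 / 12))) = 4 * (0.501 ^ 2 * 1.01) *
        (K / 4 * (Real.pi ^ 2 / 12) * θ ^ 2 * u ^ 4) / (2 * lp * lm) := by
      field_simp
      try ring
    have h7 : (K / 4 * (Real.pi ^ 2 / 12) * θ ^ 2 * u ^ 4) / (2 * lp * lm) ≤ 3.137 * lp ^ 2 := by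
      rw [div_le_iff₀ hlplm]
      have := hP.hR
      calc _ ≤ 3.137 * (2 * lp ^ 3 * lm) := this
        _ = _ := by ring
    have h8' : 4 * (0.501 ^ 2 * 1.01) *
        (K / 4 * (Real.pi ^ 2 / 12) * θ ^ 2 * u ^ 4) / (2 * lp * lm) =
        4 * (0.501 ^ 2 * 1.01) *
        ((K / 4 * (Real.pi ^ 2 / 12) * θ ^ 2 * u ^ 4) / (2 * lp * lm)) := by ring
    rw [h6, h8'] at h5
    have hlp2 : 0 < lp ^ 2 := by positivity
    nlinarith
  have hgap : (0 : ℝ) < 0.1 * lp ^ 2 := by positivity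
  have key := sq_fail (σ := σ) hr (by omega) hP.hK0 k (Dl p m (θ * u ^ 2)) ρ s t κ
    (0.1 * lp ^ 2) (0.9 * lp ^ 2) hsupp hmult hκ1 hgap hthr
  -- the bounds
  have hκ2 : κ ≤ 36 * v ^ 12 / 4 ^ k := by
    have h1 : 3 * u / (2 ^ k * ((T : ℝ) + 1)) ≤ 3 * v ^ 6 / 2 ^ k := by
      rw [div_le_div_iff₀ (by positivity) h2k, hv]
      have h3 : v ^ 6 * v ^ 2 ≤ v ^ 6 * ((T : ℝ) + 1) :=
        mul_le_mul_of_nonneg_left hT1 (by positivity)
      nlinarith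
    have h2 : (1 : ℝ) ≤ 3 * v ^ 6 / 2 ^ k := by
      rw [le_div_iff₀ h2k]
      have : v ^ 4 ≤ v ^ 6 := pow_le_pow_right₀ hv1 (by norm_num)
      linarith
    calc κ ≤ (3 * v ^ 6 / 2 ^ k + 3 * v ^ 6 / 2 ^ k) ^ 2 :=
          pow_le_pow_left₀ (by positivity) (add_le_add h1 h2) 2
      _ = 36 * v ^ 12 / 4 ^ k := by
        have : (4 : ℝ) ^ k = 2 ^ k * 2 ^ k := by rw [← mul_pow]; norm_num
        rw [this]
        field_simp
        ring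
  have ht2 : t ≤ v ^ 16 / 4 ^ k := by
    have h1 : θ * u ^ 2 / 2 ^ k + u ≤ 0.3045 * v ^ 16 / 2 ^ k := by
      have h3 : u ≤ 0.03 * v ^ 16 / 2 ^ k := by
        rw [le_div_iff₀ h2k, hv]
        have h4 : v ^ 8 * 2 ^ k ≤ v ^ 8 * (3 * v ^ 4) :=
          mul_le_mul_of_nonneg_left hk2 (by positivity)
        have h5 : v ^ 12 * 100 ≤ v ^ 12 * v ^ 4 :=
          mul_le_mul_of_nonneg_left hv4 (by positivity)
        calc v ^ 8 * 2 ^ k ≤ v ^ 8 * (3 * v ^ 4) := h4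
          _ = 0.03 * (v ^ 12 * 100) := by ring
          _ ≤ 0.03 * (v ^ 12 * v ^ 4) := mul_le_mul_of_nonneg_left h5 (by norm_num)
          _ = 0.03 * v ^ 16 := by ring
      have h4 : θ * u ^ 2 / 2 ^ k ≤ 0.2745 * v ^ 16 / 2 ^ k := by
        refine div_le_div_of_nonneg_right ?_ h2k.le
        have : u ^ 2 = v ^ 16 := by rw [hv]; ring
        rw [this]
        exact mul_le_mul_of_nonneg_right hθ (by positivity)
      calc _ ≤ 0.2745 * v ^ 16 / 2 ^ k + 0.03 * v ^ 16 / 2 ^ k := add_le_add h4 h3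
        _ = _ := by ring
    have h2 : (θ * u ^ 2 / 2 ^ k + u) ^ 2 ≤ (0.3045 * v ^ 16 / 2 ^ k) ^ 2 :=
      pow_le_pow_left₀ (by positivity) h1 2
    have h3 : 0.32 * v ^ 16 ≤ 2 * lp * lm := by
      have : u ^ 2 = v ^ 16 := by rw [hv]; ring
      rw [← this]
      exact h032
    rw [ht, div_le_iff₀ hlplm]
    have h4 : (4 : ℝ) ^ k = 2 ^ k * 2 ^ k := by rw [← mul_pow]; norm_num
    calc _ ≤ (0.3045 * v ^ 16 / 2 ^ k) ^ 2 := h2
      _ = (0.3045 ^ 2 * v ^ 16) * (v ^ 16 / 4 ^ k) := by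
        rw [h4]
        field_simp
      _ ≤ (2 * lp * lm) * (v ^ 16 / 4 ^ k) := by
        refine mul_le_mul_of_nonneg_right (le_trans ?_ h3) (by positivity)
        exact mul_le_mul_of_nonneg_right (by norm_num) (by positivity)
      _ = _ := by ring
  have hl : 2 * Real.log r + 3 ≤ 35 * v := by
    have h1 : (r : ℝ) ≤ 3 * u ^ 2 := by
      refine hr.2.2.1.trans ?_
      have h2 := Real.log_two_gt_d9
      rw [div_le_iff₀ (by positivity)]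
      have h3 : 1 ≤ 3 * Real.log 2 ^ 2 := by nlinarith
      have h4 : u ^ 2 * 1 ≤ u ^ 2 * (3 * Real.log 2 ^ 2) :=
        mul_le_mul_of_nonneg_left h3 (by positivity)
      linarith
    have h2 : Real.log r ≤ Real.log (3 * u ^ 2) := Real.log_le_log (by linarith) h1
    have h3 : Real.log (3 * u ^ 2) = Real.log 3 + 16 * Real.log v := by
      rw [Real.log_mul (by norm_num) (by positivity), hv, ← pow_mul, Real.log_pow]
      norm_num
    have h4 := Real.log_le_sub_one_of_pos (show (0 : ℝ) < 3 by norm_num)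
    have h5 := Real.log_le_sub_one_of_pos hv0
    rw [h3] at h2
    linarith
  have hl0 : 0 ≤ 2 * Real.log r + 3 := by
    have : 0 ≤ Real.log (r : ℝ) := Real.log_nonneg (by linarith)
    linarith
  have hgap2 : 0.004 * v ^ 16 ≤ 0.1 * lp ^ 2 := by
    have h1 : (u / 5) ^ 2 ≤ lp ^ 2 := pow_le_pow_left₀ (by positivity) hlp1 2
    have h2 : u ^ 2 = v ^ 16 := by rw [hv]; ring
    have h3 : (u / 5) ^ 2 = v ^ 16 / 25 := by rw [← h2]; ring
    rw [h3] at h1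
    linarith
  have hgap3 : (0.004 * v ^ 16) ^ 2 ≤ (0.1 * lp ^ 2) ^ 2 :=
    pow_le_pow_left₀ (by positivity) hgap2 2
  have hR : M * (3 * (K : ℝ) ^ 2 * κ * t * (2 * Real.log r + 3) ^ 2) ≤
      M * (3 * (10 : ℝ) ^ 2 * (36 * v ^ 12 / 4 ^ k) * (v ^ 16 / 4 ^ k) * (35 * v) ^ 2) := by
    gcongr
  set N : ℝ := ((univ.filter (fun ω : Smp K (Dl p m (θ * u ^ 2)) => 0.9 * lp ^ 2 <
        qd σ r p m (Dl p m (θ * u ^ 2)) (op k ρ s (ch ω)))).card : ℝ) with hN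
  have hN0 : 0 ≤ N := Nat.cast_nonneg _
  have h16 : (16 : ℝ) ^ k = 4 ^ k * 4 ^ k := by rw [← mul_pow]; norm_num
  have hfin : N * (0.004 * v ^ 16) ^ 2 ≤ (13230000 * v ^ 30 / 16 ^ k) * M := by
    calc N * (0.004 * v ^ 16) ^ 2 ≤ N * (0.1 * lp ^ 2) ^ 2 :=
          mul_le_mul_of_nonneg_left hgap3 hN0
      _ ≤ _ := key.trans hR
      _ = _ := by
        rw [h16]
        field_simp
        ring
  have hv32 : 0 < (0.004 * v ^ 16) ^ 2 := by positivity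
  have hN2 : N ≤ (13230000 * v ^ 30 / 16 ^ k) * M / (0.004 * v ^ 16) ^ 2 :=
    (le_div_iff₀ hv32).2 hfin
  refine hN2.trans ?_
  have e1 : (13230000 * v ^ 30 / 16 ^ k) * M / (0.004 * v ^ 16) ^ 2 =
      (826875000000 / v ^ 2 * M) * (1 / 16) ^ k := by
    rw [one_div_pow]
    field_simp
    norm_num
  rw [e1]
  gcongr
  norm_num

/-- Depth `k ≥ 1`, `2^k ≤ 3 √u`. PROOF. `sq_fail` with `t_k = (θ u²/2^k + u)² / (2 log p log m)`, `κ_k = (3 u/(2^k (T+1)) + 1)²`. By `hP.hR`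
`K/4 (π²/12) t_k ≤ 3.137 log² p (2^(-k) + 1/(θ u))² = 3.137 log² p 4^(-k) (1 + 2^k/(θ u))² ≤ 0.785 log² p` for large `u` (`k ≥ 1`,
`2^k/(θ u) ≤ 30/√u`), `r ≥ 10⁸`; `gap = 0.1 log² p ≥ 0.004 u²`. With `κ_k ≤ 18 u²/(4^k T²) + 2`, `t_k ≤ C (u²/4^k + 1)` the sum over
`ρ` (`4^k` terms) and `k` of the failure probabilities is at most
`C log² u ∑_k 4^k (u²/(4^k T²) + 1)(u²/4^k + 1) / u⁴ → 0`. -/
theorem fail_pos (δ : ℝ) (hδ : 0 < δ) : ∃ u₀ : ℝ, ∀ (K : ℕ) (h θ : ℝ) (p m : ℕ) (u : ℝ),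
    Par K h θ p m u → u₀ ≤ u →
    ∀ r, GP p m ⌊u ^ (1 / 4 : ℝ)⌋₊ (10 ^ 8) (u ^ 2 / Real.log 2 ^ 2) r → ∀ σ s,
      ∑ k ∈ (range (⌊u⌋₊ + 1)).filter (fun k => 1 ≤ k ∧ (2 : ℝ) ^ k ≤ 3 * Real.sqrt u),
        ∑ ρ ∈ range (2 ^ k) ×ˢ range (2 ^ k),
      ((univ.filter (fun ω : Smp K (Dl p m (θ * u ^ 2)) => 0.9 * Real.log p ^ 2 <
        qd σ r p m (Dl p m (θ * u ^ 2)) (op k ρ s (ch ω)))).card : ℝ) ≤
      δ * 2 ^ ((Dl p m (θ * u ^ 2)).card * K) := by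
  refine ⟨max (10 ^ 4) ((2 * 10 ^ 12 / δ) ^ 4), ?_⟩
  intro K h θ p m u hP hu r hr σ s
  have hu4 : 10 ^ 4 ≤ u := (le_max_left _ _).trans hu
  have huδ : (2 * 10 ^ 12 / δ) ^ 4 ≤ u := (le_max_right _ _).trans hu
  have hu0 : 0 < u := by linarith
  obtain ⟨v, hv0, hv⟩ : ∃ v : ℝ, 0 < v ∧ u = v ^ 8 := by
    refine ⟨u ^ (1 / 8 : ℝ), by positivity, ?_⟩
    rw [← Real.rpow_natCast, ← Real.rpow_mul hu0.le]
    norm_num
  have hv2 : 2 * 10 ^ 12 / δ ≤ v ^ 2 := by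
    have h1 : (2 * 10 ^ 12 / δ) ^ 4 ≤ (v ^ 2) ^ 4 := by
      have : (v ^ 2) ^ 4 = u := by rw [hv]; ring
      rw [this]
      exact huδ
    exact (pow_le_pow_iff_left₀ (by positivity) (by positivity) (by norm_num)).1 h1
  set M : ℝ := 2 ^ ((Dl p m (θ * u ^ 2)).card * K) with hM
  have hM0 : 0 < M := by positivity
  have hC0 : 0 ≤ 10 ^ 12 / v ^ 2 * M := by positivity
  have h1 : ∀ k ∈ (range (⌊u⌋₊ + 1)).filter (fun k => 1 ≤ k ∧ (2 : ℝ) ^ k ≤ 3 * Real.sqrt u),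
      ∑ ρ ∈ range (2 ^ k) ×ˢ range (2 ^ k),
      ((univ.filter (fun ω : Smp K (Dl p m (θ * u ^ 2)) => 0.9 * Real.log p ^ 2 <
        qd σ r p m (Dl p m (θ * u ^ 2)) (op k ρ s (ch ω)))).card : ℝ) ≤
      (10 ^ 12 / v ^ 2 * M) * (1 / 4) ^ k := by
    intro k hk
    rw [mem_filter] at hk
    refine (sum_le_card_nsmul _ _ _ fun ρ _ =>
      typB1_term hP hu4 hv0 hv hr σ s hk.2.1 hk.2.2 ρ).trans ?_
    rw [card_product, card_range, nsmul_eq_mul]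
    push_cast
    have : (1 / 4 : ℝ) ^ k = 2 ^ k * 2 ^ k * (1 / 16) ^ k := by
      rw [← mul_pow, ← mul_pow]
      norm_num
    rw [this]
    refine le_of_eq ?_
    ring
  refine (sum_le_sum h1).trans ?_
  rw [← mul_sum]
  have h2 : ∑ k ∈ (range (⌊u⌋₊ + 1)).filter (fun k => 1 ≤ k ∧ (2 : ℝ) ^ k ≤ 3 * Real.sqrt u),
      (1 / 4 : ℝ) ^ k ≤ 2 := by
    refine (sum_le_sum_of_subset_of_nonneg (filter_subset _ _) fun i _ _ => by positivity).trans ?_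
    rw [geom_sum_eq (by norm_num)]
    have : (0 : ℝ) < (1 / 4) ^ (⌊u⌋₊ + 1) := by positivity
    rw [div_le_iff_of_neg (by norm_num)]
    linarith
  refine (mul_le_mul_of_nonneg_left h2 hC0).trans ?_
  have h3 : 2 * 10 ^ 12 / v ^ 2 ≤ δ := by
    rw [div_le_iff₀ (by positivity)]
    rw [div_le_iff₀ hδ] at hv2
    linarith
  calc 10 ^ 12 / v ^ 2 * M * 2 = (2 * 10 ^ 12 / v ^ 2) * M := by ring
    _ ≤ δ * M := mul_le_mul_of_nonneg_right h3 hM0.le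

end Pool.Agent.W_420c7c_h51
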