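import Pool.Agent.W_420c7c_h51.TypA0
import Pool.Agent.W_420c7c_h51.OpA1

set_option autoImplicit false

/-!
# Large depth
-/

namespace Pool.Agent.W_420c7c_h51

open Finset

private lemma TypB2_perm (r : ℕ) (hr : r.Prime) (h : ℤ) (hh : ¬ (r : ℤ) ∣ h) (g : ℤ → ℝ)
    (hg : ∀ x y : ℤ, x ≡ y [ZMOD r] → g x = g y) :
    ∑ x ∈ Ico 1 r, g ((x : ℤ) * h) = ∑ x ∈ Ico 1 r, g (x : ℤ) := by
  have hr0 : (0 : ℤ) < r := by exact_mod_cast hr.pos
  have hrp : Prime (r : ℤ) := Nat.prime_iff_prime_int.mp hr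
  set f : ℕ → ℕ := fun x => (((x : ℤ) * h) % r).toNat with hf
  have hfz : ∀ x : ℕ, ((f x : ℕ) : ℤ) = ((x : ℤ) * h) % r := by
    intro x
    simp only [hf]
    exact Int.toNat_of_nonneg (Int.emod_nonneg _ hr0.ne')
  have hnd : ∀ x ∈ Ico 1 r, ¬ (r : ℤ) ∣ (x : ℤ) * h := by
    intro x hx hd
    rw [Finset.mem_Ico] at hx
    rcases hrp.dvd_or_dvd hd with h1 | h1
    · have h2 : r ∣ x := by exact_mod_cast h1
      have h3 := Nat.le_of_dvd (by omega) h2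
      omega
    · exact hh h1
  have hmaps : ∀ x ∈ Ico 1 r, f x ∈ Ico 1 r := by
    intro x hx
    have h1 := hnd x hx
    have h2 := Int.emod_lt_of_pos ((x : ℤ) * h) hr0
    have h3 := Int.emod_nonneg ((x : ℤ) * h) hr0.ne'
    have h4 : ((x : ℤ) * h) % r ≠ 0 := fun h0 => h1 (Int.dvd_of_emod_eq_zero h0)
    have h5 := hfz x
    rw [Finset.mem_Ico]
    omega
  have hinj : ∀ x ∈ Ico 1 r, ∀ y ∈ Ico 1 r, f x = f y → x = y := by
    intro x hx y hy hxy
    have h1 : ((x : ℤ) * h) % r = ((y : ℤ) * h) % r := by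
      rw [← hfz, ← hfz, hxy]
    have h2 : (r : ℤ) ∣ ((x : ℤ) - y) * h := by
      have := Int.emod_emod_of_dvd
      have h3 := Int.ModEq.dvd (show (y : ℤ) * h ≡ (x : ℤ) * h [ZMOD r] from h1.symm)
      have h4 : (x : ℤ) * h - y * h = ((x : ℤ) - y) * h := by ring
      rwa [h4] at h3
    rcases hrp.dvd_or_dvd h2 with h3 | h3
    · rw [Finset.mem_Ico] at hx hy
      have h4 : |(x : ℤ) - y| < r := by
        rw [abs_lt]; constructor <;> omega
      have h5 := Int.eq_zero_of_abs_lt_dvd h3 h4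
      omega
    · exact absurd h3 hh
  have hsurj : ∀ y ∈ Ico 1 r, ∃ x, ∃ _ : x ∈ Ico 1 r, f x = y := by
    intro y hy
    obtain ⟨x, hx, hxy⟩ := Finset.surj_on_of_inj_on_of_card_le (s := Ico 1 r) (t := Ico 1 r)
      (fun x _ => f x) hmaps (fun x y hx hy hxy => hinj x hx y hy hxy) le_rfl y hy
    exact ⟨x, hx, hxy.symm⟩
  refine Finset.sum_bij (fun x _ => f x) hmaps (fun x hx y hy hxy => hinj x hx y hy hxy)
    hsurj ?_
  intro x _
  refine hg _ _ ?_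
  rw [hfz]
  exact (Int.mod_modEq _ _).symm

private lemma TypB2_ch {K : ℕ} {D : Finset (ℕ × ℕ)} (ω : Smp K D) (w : ℕ × ℕ) :
    |ch ω w| ≤ K / 2 := by
  unfold ch
  split_ifs with h
  · refine (Finset.abs_sum_le_sum_abs _ _).trans ?_
    have : ∀ j ∈ (Finset.univ : Finset (Fin K)), |hf (ω (⟨w, h⟩, j))| ≤ 1 / 2 := by
      intro j _
      unfold hf
      split_ifs <;> norm_num [abs_le]
    refine (Finset.sum_le_sum this).trans ?_
    simp
    linarith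
  · rw [abs_zero]; positivity

private lemma TypB2_log (r : ℕ) (hr : 10 ^ 8 ≤ r) :
    25 * (1 + Real.log r) / ((r : ℝ) - 1) ≤ 0.00001 := by
  have hr' : (10 : ℝ) ^ 8 ≤ r := by exact_mod_cast hr
  have hpos : (0 : ℝ) < (r : ℝ) - 1 := by linarith
  rw [div_le_iff₀ hpos]
  have h1 : Real.log r = Real.log ((r : ℝ) / 10 ^ 8) + 8 * Real.log 10 := by
    rw [Real.log_div (by positivity) (by positivity), Real.log_pow]
    push_cast
    ring
  have h2 : Real.log ((r : ℝ) / 10 ^ 8) ≤ (r : ℝ) / 10 ^ 8 - 1 :=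
    Real.log_le_sub_one_of_pos (by positivity)
  have h3 : Real.log 10 ≤ 3 := by
    have h4 : Real.log 10 ≤ Real.log (2 ^ 4) := Real.log_le_log (by norm_num) (by norm_num)
    rw [Real.log_pow] at h4
    have := Real.log_two_lt_d9
    push_cast at h4
    linarith
  rw [h1]
  linarith

/-- Large depth. PROOF. If `2^k > 3 √u` then by `supp_Par` at most `t = (0.0915 u^(3/2) + u)² / (0.32 u²) ≤ 0.0268 u + o(u)`
monomials `w` have `ρ + 2^k w ∈ D`; `|ch| ≤ K/2 ≤ 5`, so by the triangle inequality (in `ℓ²` over `x`) and `msq`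
`qd ≤ (5 t)² (π²/12 + 10⁻⁵) ≤ 0.015 u² ≤ 0.9 (log p)²` for large `u` (`x ↦ x smon w` permutes the residues; `log p ≥ u/5`). -/
theorem big_depth : ∃ u₀ : ℝ, ∀ (K : ℕ) (h θ : ℝ) (p m : ℕ) (u : ℝ),
    Par K h θ p m u → u₀ ≤ u →
    ∀ r, GP p m ⌊u ^ (1 / 4 : ℝ)⌋₊ (10 ^ 8) (u ^ 2 / Real.log 2 ^ 2) r → ∀ σ s k ρ,
      3 * Real.sqrt u < (2 : ℝ) ^ k → ∀ ω : Smp K (Dl p m (θ * u ^ 2)),
      qd σ r p m (Dl p m (θ * u ^ 2)) (op k ρ s (ch ω)) ≤ 0.9 * Real.log p ^ 2 := by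
  refine ⟨10000, ?_⟩
  intro K h θ p m u hP hu r hr σ s k ρ hk
  have hsupp := supp_Par hP (by linarith) k ρ
  set D := Dl p m (θ * u ^ 2) with hD
  intro ω
  have hrP : r.Prime := hr.1
  have hr8 : 10 ^ 8 ≤ r := hr.2.1
  have h5 : 5 ≤ r := le_trans (by norm_num) hr8
  have hr0 : 0 < r := hrP.pos
  have hr1 : (0 : ℝ) < (r : ℝ) - 1 := by
    have : (5 : ℝ) ≤ r := by exact_mod_cast h5
    linarith
  have hu1 : 1 ≤ u := by linarith
  obtain ⟨hc, hlog⟩ := hsupp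
  set S := D.filter (fun w => (ρ.1 + 2 ^ k * w.1, ρ.2 + 2 ^ k * w.2) ∈ D) with hS
  set M := Real.pi ^ 2 / 12 + 25 * (1 + Real.log r) / ((r : ℝ) - 1) with hM
  set f : ℕ × ℕ → ℝ := op k ρ s (ch ω) with hf
  -- the size of the coefficients
  have hf5 : ∀ w, |f w| ≤ 5 := by
    intro w
    have h1 := TypB2_ch ω (ρ.1 + 2 ^ k * w.1, ρ.2 + 2 ^ k * w.2)
    have h2 : (K : ℝ) ≤ 10 := by exact_mod_cast hP.hK
    have h3 : |(((s (w.1.bodd, w.2.bodd) : SignType) : ℤ) : ℝ)| ≤ 1 := by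
      rcases s (w.1.bodd, w.2.bodd) with _ | _ | _ <;> simp
    simp only [hf, op]
    rw [abs_mul]
    have h4 : |(((s (w.1.bodd, w.2.bodd) : SignType) : ℤ) : ℝ)| *
        |ch ω (ρ.1 + 2 ^ k * w.1, ρ.2 + 2 ^ k * w.2)| ≤ 1 * ((K : ℝ) / 2) :=
      mul_le_mul h3 h1 (abs_nonneg _) (by norm_num)
    linarith
  have hf0 : ∀ w ∈ D, w ∉ S → f w = 0 := by
    intro w hw hwS
    have h1 : (ρ.1 + 2 ^ k * w.1, ρ.2 + 2 ^ k * w.2) ∉ D := by
      intro h2
      exact hwS (Finset.mem_filter.mpr ⟨hw, h2⟩)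
    simp only [hf, op, ch]
    rw [dif_neg h1, mul_zero]
  -- the pointwise bound
  have hpt : ∀ x : ℕ, XX σ r p m D f x ^ 2 ≤
      25 * S.card * ∑ w ∈ S, ell σ r ((x : ℤ) * smon p m w) ^ 2 := by
    intro x
    have h1 : XX σ r p m D f x = ∑ w ∈ S, f w * ell σ r ((x : ℤ) * smon p m w) := by
      unfold XX
      symm
      refine Finset.sum_subset (Finset.filter_subset _ _) ?_
      intro w hw hwS
      rw [hf0 w hw hwS, zero_mul]
    rw [h1]
    have h2 := sq_sum_le_card_mul_sum_sq (s := S)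
      (f := fun w => f w * ell σ r ((x : ℤ) * smon p m w))
    refine h2.trans ?_
    have h3 : ∑ w ∈ S, (f w * ell σ r ((x : ℤ) * smon p m w)) ^ 2 ≤
        25 * ∑ w ∈ S, ell σ r ((x : ℤ) * smon p m w) ^ 2 := by
      rw [Finset.mul_sum]
      refine Finset.sum_le_sum fun w _ => ?_
      rw [mul_pow]
      have h4 : f w ^ 2 ≤ 25 := by
        have := hf5 w
        rw [← sq_abs]
        nlinarith [abs_nonneg (f w)]
      exact mul_le_mul_of_nonneg_right h4 (sq_nonneg _)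
    calc (S.card : ℝ) * _ ≤ S.card * (25 * ∑ w ∈ S, ell σ r ((x : ℤ) * smon p m w) ^ 2) :=
          mul_le_mul_of_nonneg_left h3 (Nat.cast_nonneg _)
      _ = _ := by ring
  -- the mean
  have hperm : ∀ w, ∑ x ∈ Ico 1 r, ell σ r ((x : ℤ) * smon p m w) ^ 2 =
      ∑ x ∈ Ico 1 r, ell σ r (x : ℤ) ^ 2 := by
    intro w
    exact TypB2_perm r hrP (smon p m w) (not_dvd_smon hr w) (fun z => ell σ r z ^ 2)
      (fun x y hxy => by rw [ell_mod σ r hr0 x y hxy])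
  have hmsq := msq σ r hrP h5
  rw [← hM] at hmsq
  have hsum : ∑ x ∈ Ico 1 r, ell σ r (x : ℤ) ^ 2 ≤ M * ((r : ℝ) - 1) := by
    unfold av at hmsq
    rwa [div_le_iff₀ hr1] at hmsq
  have hqd : qd σ r p m D f ≤ 25 * (S.card : ℝ) ^ 2 * M := by
    unfold qd av
    rw [div_le_iff₀ hr1]
    calc ∑ x ∈ Ico 1 r, XX σ r p m D f x ^ 2
        ≤ ∑ x ∈ Ico 1 r, 25 * S.card * ∑ w ∈ S, ell σ r ((x : ℤ) * smon p m w) ^ 2 :=
          Finset.sum_le_sum fun x _ => hpt x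
      _ = 25 * S.card * ∑ w ∈ S, ∑ x ∈ Ico 1 r, ell σ r ((x : ℤ) * smon p m w) ^ 2 := by
          rw [← Finset.mul_sum, Finset.sum_comm]
      _ = 25 * S.card * (S.card * ∑ x ∈ Ico 1 r, ell σ r (x : ℤ) ^ 2) := by
          rw [Finset.sum_congr rfl fun w _ => hperm w, Finset.sum_const, nsmul_eq_mul]
      _ ≤ 25 * S.card * (S.card * (M * ((r : ℝ) - 1))) := by gcongr
      _ = _ := by ring
  -- numerics
  have hM1 : M ≤ 0.83 := by
    have h1 := TypB2_log r hr8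
    have h2 := Real.pi_lt_d4
    have h3 := Real.pi_pos
    have h4 : Real.pi ^ 2 ≤ 3.1416 ^ 2 := pow_le_pow_left₀ h3.le h2.le 2
    rw [hM]
    norm_num at h1 h4 ⊢
    linarith
  have hM0 : 0 ≤ M := by
    have h1 : 0 ≤ Real.log r := Real.log_natCast_nonneg r
    have h2 : 0 ≤ 25 * (1 + Real.log r) / ((r : ℝ) - 1) := by positivity
    have h3 : 0 ≤ Real.pi ^ 2 / 12 := by positivity
    rw [hM]
    linarith
  have hsq : (100 : ℝ) ≤ Real.sqrt u := by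
    rw [Real.le_sqrt (by norm_num) (by linarith)]
    linarith
  have hss : Real.sqrt u * Real.sqrt u = u := Real.mul_self_sqrt (by linarith)
  have hS1 : (S.card : ℝ) ≤ 0.0325 * u := by
    refine hc.trans ?_
    have hpos : (0 : ℝ) < 2 * Real.log p * Real.log m := lt_of_lt_of_le (by positivity) hlog
    rw [div_le_iff₀ hpos]
    have e1 : θ * u ^ 2 / 2 ^ k ≤ 0.0915 * (Real.sqrt u * u) := by
      rw [div_le_iff₀ (by positivity)]
      have h1 : θ * u ^ 2 ≤ 0.2745 * u ^ 2 := mul_le_mul_of_nonneg_right hP.hθ (sq_nonneg u)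
      have h2 : 0.0915 * (Real.sqrt u * u) * (3 * Real.sqrt u) ≤
          0.0915 * (Real.sqrt u * u) * 2 ^ k :=
        mul_le_mul_of_nonneg_left hk.le (by positivity)
      have h3 : 0.0915 * (Real.sqrt u * u) * (3 * Real.sqrt u) = 0.2745 * u ^ 2 := by
        have : 0.0915 * (Real.sqrt u * u) * (3 * Real.sqrt u) =
          0.2745 * u * (Real.sqrt u * Real.sqrt u) := by ring
        rw [this, hss]; ring
      linarith
    have e2 : θ * u ^ 2 / 2 ^ k + u ≤ 0.1015 * (Real.sqrt u * u) := by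
      nlinarith
    have e3 : 0 ≤ θ * u ^ 2 / 2 ^ k + u := by
      have := hP.hθ0
      have h4 : 0 ≤ θ * u ^ 2 / 2 ^ k := by positivity
      linarith
    have e4 : (θ * u ^ 2 / 2 ^ k + u) ^ 2 ≤ (0.1015 * (Real.sqrt u * u)) ^ 2 :=
      pow_le_pow_left₀ e3 e2 2
    have e5 : (0.1015 * (Real.sqrt u * u)) ^ 2 = 0.1015 ^ 2 * u ^ 3 := by
      have : (0.1015 * (Real.sqrt u * u)) ^ 2 = 0.1015 ^ 2 * u ^ 2 * (Real.sqrt u * Real.sqrt u) := by
        ring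
      rw [this, hss]; ring
    have e6 : 0.0325 * u * (0.32 * u ^ 2) ≤ 0.0325 * u * (2 * Real.log p * Real.log m) :=
      mul_le_mul_of_nonneg_left hlog (by positivity)
    have e7 : (0.1015 : ℝ) ^ 2 * u ^ 3 ≤ 0.0325 * u * (0.32 * u ^ 2) := by
      have : (0 : ℝ) ≤ u ^ 3 := by positivity
      nlinarith
    linarith
  have hlp : (0.2 * u) ^ 2 ≤ Real.log p ^ 2 := by
    refine pow_le_pow_left₀ (by positivity) ?_ 2
    have := hP.hu1
    linarith
  calc qd σ r p m D f ≤ 25 * (S.card : ℝ) ^ 2 * M := hqd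
    _ ≤ 25 * (0.0325 * u) ^ 2 * 0.83 := by gcongr
    _ ≤ 0.9 * (0.2 * u) ^ 2 := by nlinarith [sq_nonneg u]
    _ ≤ 0.9 * Real.log p ^ 2 := by linarith

end Pool.Agent.W_420c7c_h51
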