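import Pool.Agent.W_420c7c_h51.TypA1
import Pool.Agent.W_420c7c_h51.TypA2
import Pool.Agent.W_420c7c_h51.TypB1
import Pool.Agent.W_420c7c_h51.TypB2

set_option autoImplicit false

/-!
# A good prime is good for almost all samples
-/

namespace Pool.Agent.W_420c7c_h51

open Finset

open scoped Classical in
/-- PROOF. Union bound over `σ`, the `3^4 = 81` patterns `s` and `1 ≤ n ≤ J` of `fail_sq`, `fail_cos`, `fail_pos` with
`δ / (162 (J + 2))`, and `big_depth` for the other `k` (`2^k ≤ 3 √u` implies `k ≤ ⌊u⌋₊`). -/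
theorem fail_frac (δ : ℝ) (hδ : 0 < δ) (J : ℕ) (Q e : ℝ) (hQ : 0 < Q) (he : 0 < e) :
    ∃ u₀ : ℝ, ∀ (K : ℕ) (h θ : ℝ) (p m : ℕ) (u : ℝ), Par K h θ p m u → u₀ ≤ u →
    ∀ r, GP p m ⌊u ^ (1 / 4 : ℝ)⌋₊ (10 ^ 8) (u ^ 2 / Real.log 2 ^ 2) r →
      ((univ.filter (fun ω : Smp K (Dl p m (θ * u ^ 2)) =>
        ¬ Gd p m (Dl p m (θ * u ^ 2)) J Q e (ch ω) r)).card : ℝ) ≤
      δ * 2 ^ ((Dl p m (θ * u ^ 2)).card * K) := by
  set δ' : ℝ := δ / (162 * (J + 2)) with hδ'
  have hJ : (0 : ℝ) < 162 * (J + 2) := by positivity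
  have hδ'0 : 0 < δ' := div_pos hδ hJ
  obtain ⟨u1, hu1⟩ := fail_sq δ' hδ'0
  obtain ⟨u2, hu2⟩ := fail_pos δ' hδ'0
  obtain ⟨u3, hu3⟩ := big_depth
  choose! u4 hu4 using fun n hn => fail_cos δ' hδ'0 n hn Q e hQ he
  set U : ℝ := max (max u1 u2) (max u3 (max 9 (∑ n ∈ Icc 1 J, |u4 n|))) with hU
  refine ⟨U, fun K h θ p m u hP hu r hr => ?_⟩
  have hUu1 : u1 ≤ u := (le_max_left _ _).trans ((le_max_left _ _).trans hu)
  have hUu2 : u2 ≤ u := (le_max_right _ _).trans ((le_max_left _ _).trans hu)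
  have hUu3 : u3 ≤ u := (le_max_left _ _).trans ((le_max_right _ _).trans hu)
  have hU9 : (9 : ℝ) ≤ u := (le_max_left _ _).trans ((le_max_right _ _).trans
    ((le_max_right _ _).trans hu))
  have hU4 : ∀ n ∈ Icc 1 J, u4 n ≤ u := by
    intro n hn
    have h1 : |u4 n| ≤ ∑ n ∈ Icc 1 J, |u4 n| :=
      Finset.single_le_sum (f := fun n => |u4 n|) (fun _ _ => abs_nonneg _) hn
    exact (le_abs_self _).trans (h1.trans ((le_max_right _ _).trans ((le_max_right _ _).trans
      ((le_max_right _ _).trans hu))))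
  set D := Dl p m (θ * u ^ 2) with hD
  set M : ℝ := 2 ^ (D.card * K) with hM
  have hM0 : 0 ≤ M := by positivity
  set I : Finset ℕ := (range (⌊u⌋₊ + 1)).filter (fun k => 1 ≤ k ∧ (2 : ℝ) ^ k ≤ 3 * Real.sqrt u)
    with hI
  set A : Bool → (Bool × Bool → SignType) → Finset (Smp K D) := fun σ s =>
    univ.filter (fun ω : Smp K D => 3.138 * Real.log p ^ 2 <
        qd σ r p m D (op 0 (0, 0) s (ch ω))) with hA
  set B : Bool → (Bool × Bool → SignType) → ℕ → Finset (Smp K D) := fun σ s n =>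
    univ.filter (fun ω : Smp K D =>
        cs σ r p m D (2 * Real.pi * n / (Q * (Real.sqrt 3.138 * Real.log p)))
          (op 0 (0, 0) s (ch ω)) < Real.exp (-(2 * Real.pi * n / Q) ^ 2 / 2) - e) with hB
  set E : Bool → (Bool × Bool → SignType) → ℕ → (ℕ × ℕ) → Finset (Smp K D) := fun σ s k ρ =>
    univ.filter (fun ω : Smp K D => 0.9 * Real.log p ^ 2 <
        qd σ r p m D (op k ρ s (ch ω))) with hE
  have hsub : (univ.filter (fun ω : Smp K D => ¬ Gd p m D J Q e (ch ω) r)) ⊆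
      (univ : Finset Bool).biUnion fun σ => (univ : Finset (Bool × Bool → SignType)).biUnion fun s =>
        (A σ s ∪ (Icc 1 J).biUnion (B σ s)) ∪
          I.biUnion fun k => (range (2 ^ k) ×ˢ range (2 ^ k)).biUnion (E σ s k) := by
    intro ω hω
    rw [mem_filter] at hω
    by_contra hcon
    apply hω.2
    have key : ∀ σ s, ω ∉ A σ s ∧ (∀ n ∈ Icc 1 J, ω ∉ B σ s n) ∧
        ∀ k ∈ I, ∀ ρ ∈ range (2 ^ k) ×ˢ range (2 ^ k), ω ∉ E σ s k ρ := by
      intro σ s
      refine ⟨fun h0 => hcon ?_, fun n hn h0 => hcon ?_, fun k hk ρ hρ h0 => hcon ?_⟩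
      · exact mem_biUnion.2 ⟨σ, mem_univ _, mem_biUnion.2 ⟨s, mem_univ _,
          mem_union_left _ (mem_union_left _ h0)⟩⟩
      · exact mem_biUnion.2 ⟨σ, mem_univ _, mem_biUnion.2 ⟨s, mem_univ _,
          mem_union_left _ (mem_union_right _ (mem_biUnion.2 ⟨n, hn, h0⟩))⟩⟩
      · exact mem_biUnion.2 ⟨σ, mem_univ _, mem_biUnion.2 ⟨s, mem_univ _,
          mem_union_right _ (mem_biUnion.2 ⟨k, hk, mem_biUnion.2 ⟨ρ, hρ, h0⟩⟩)⟩⟩
    intro σ
    refine ⟨fun s => ?_, fun s n hn => ?_, fun k ρ s hk hρ1 hρ2 => ?_⟩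
    · have h1 := (key σ s).1
      rw [hA, mem_filter] at h1
      exact not_lt.1 fun h2 => h1 ⟨mem_univ _, h2⟩
    · have h1 := (key σ s).2.1 n hn
      rw [hB, mem_filter] at h1
      exact not_lt.1 fun h2 => h1 ⟨mem_univ _, h2⟩
    · by_cases hbig : 3 * Real.sqrt u < (2 : ℝ) ^ k
      · exact hu3 K h θ p m u hP hUu3 r hr σ s k ρ hbig ω
      · push Not at hbig
        have hkI : k ∈ I := by
          rw [hI, mem_filter, mem_range]
          refine ⟨?_, hk, hbig⟩
          have h1 : (k : ℝ) ≤ u := by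
            have h2 : (k : ℝ) ≤ (2 : ℝ) ^ k := by
              exact_mod_cast (Nat.lt_two_pow_self (n := k)).le
            have h3 : 3 * Real.sqrt u ≤ u := by
              have h4 : 3 ≤ Real.sqrt u := by
                rw [show (3 : ℝ) = Real.sqrt 9 by
                  rw [show (9 : ℝ) = 3 ^ 2 by norm_num, Real.sqrt_sq (by norm_num)]]
                exact Real.sqrt_le_sqrt hU9
              have h5 : Real.sqrt u * Real.sqrt u = u := Real.mul_self_sqrt (by linarith)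
              nlinarith [Real.sqrt_nonneg u]
            linarith
          have h6 : k ≤ ⌊u⌋₊ := Nat.le_floor h1
          omega
        have h1 := (key σ s).2.2 k hkI ρ (by
          rw [mem_product, mem_range, mem_range]
          exact ⟨hρ1, hρ2⟩)
        rw [hE, mem_filter] at h1
        exact not_lt.1 fun h2 => h1 ⟨mem_univ _, h2⟩
  have hcard1 := card_le_card hsub
  have hone : ∀ σ s, (((A σ s ∪ (Icc 1 J).biUnion (B σ s)) ∪
          I.biUnion fun k => (range (2 ^ k) ×ˢ range (2 ^ k)).biUnion (E σ s k)).card : ℝ) ≤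
      (J + 2) * (δ' * M) := by
    intro σ s
    have h1 : ((A σ s).card : ℝ) ≤ δ' * M := hu1 K h θ p m u hP hUu1 r hr σ s
    have h2 : (((Icc 1 J).biUnion (B σ s)).card : ℝ) ≤ J * (δ' * M) := by
      calc (((Icc 1 J).biUnion (B σ s)).card : ℝ) ≤ ∑ n ∈ Icc 1 J, ((B σ s n).card : ℝ) := by
            exact_mod_cast card_biUnion_le
        _ ≤ ∑ n ∈ Icc 1 J, δ' * M := by
            refine Finset.sum_le_sum fun n hn => ?_
            exact hu4 n (mem_Icc.1 hn).1 K h θ p m u hP (hU4 n hn) r hr σ s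
        _ = J * (δ' * M) := by
            rw [Finset.sum_const, nsmul_eq_mul, Nat.card_Icc, Nat.add_sub_cancel]
    have h3 : ((I.biUnion fun k => (range (2 ^ k) ×ˢ range (2 ^ k)).biUnion (E σ s k)).card : ℝ) ≤
        δ' * M := by
      have h4 : ∑ k ∈ I, ∑ ρ ∈ range (2 ^ k) ×ˢ range (2 ^ k), ((E σ s k ρ).card : ℝ) ≤ δ' * M :=
        hu2 K h θ p m u hP hUu2 r hr σ s
      refine le_trans ?_ h4
      have h5 : (I.biUnion fun k => (range (2 ^ k) ×ˢ range (2 ^ k)).biUnion (E σ s k)).card ≤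
          ∑ k ∈ I, ∑ ρ ∈ range (2 ^ k) ×ˢ range (2 ^ k), (E σ s k ρ).card :=
        card_biUnion_le.trans (Finset.sum_le_sum fun k _ => card_biUnion_le)
      exact_mod_cast h5
    have h6 : (((A σ s ∪ (Icc 1 J).biUnion (B σ s)) ∪
          I.biUnion fun k => (range (2 ^ k) ×ˢ range (2 ^ k)).biUnion (E σ s k)).card : ℝ) ≤
        (A σ s).card + ((Icc 1 J).biUnion (B σ s)).card +
          (I.biUnion fun k => (range (2 ^ k) ×ˢ range (2 ^ k)).biUnion (E σ s k)).card := by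
      have h7 := (card_union_le (A σ s ∪ (Icc 1 J).biUnion (B σ s))
        (I.biUnion fun k => (range (2 ^ k) ×ˢ range (2 ^ k)).biUnion (E σ s k))).trans
        (Nat.add_le_add_right (card_union_le (A σ s) ((Icc 1 J).biUnion (B σ s))) _)
      exact_mod_cast h7
    linarith
  have hcardS : (Fintype.card (Bool × Bool → SignType)) = 81 := by
    rw [Fintype.card_fun, Fintype.card_prod, Fintype.card_bool]
    have : Fintype.card SignType = 3 := by decide
    rw [this]
    norm_num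
  calc ((univ.filter (fun ω : Smp K D => ¬ Gd p m D J Q e (ch ω) r)).card : ℝ)
      ≤ ∑ σ : Bool, ∑ s : Bool × Bool → SignType, (((A σ s ∪ (Icc 1 J).biUnion (B σ s)) ∪
          I.biUnion fun k => (range (2 ^ k) ×ˢ range (2 ^ k)).biUnion (E σ s k)).card : ℝ) := by
        have h1 := hcard1.trans (card_biUnion_le.trans (Finset.sum_le_sum fun σ _ => card_biUnion_le))
        exact_mod_cast h1
    _ ≤ ∑ σ : Bool, ∑ s : Bool × Bool → SignType, (J + 2) * (δ' * M) :=
        Finset.sum_le_sum fun σ _ => Finset.sum_le_sum fun s _ => hone σ s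
    _ = δ * M := by
        rw [Finset.sum_const, Finset.sum_const, Finset.card_univ, Finset.card_univ, hcardS,
          Fintype.card_bool, nsmul_eq_mul, nsmul_eq_mul, hδ']
        field_simp
        norm_num

end Pool.Agent.W_420c7c_h51
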