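import Pool.Agent.W_420c7c_h51.Defs
import Pool.Agent.W_420c7v_h4.LOne

set_option autoImplicit false

/-!
# The value of `expZeta` at `1`
-/

namespace Pool.Agent.W_420c7c_h51

open Finset Filter Topology Pool.Agent.KSV

/-- the coefficients `z ^ n`, `n ≥ 1` -/
private noncomputable def VanA_a (z : ℂ) (n : ℕ) : ℂ := if n = 0 then 0 else z ^ n

private theorem VanA_bd {z : ℂ} (hz : ‖z‖ = 1) (h1 : z ≠ 1) (n : ℕ) :
    ‖∑ k ∈ range n, VanA_a z k‖ ≤ 1 + 2 / ‖z - 1‖ := by
  have hz1 : 0 < ‖z - 1‖ := norm_pos_iff.2 (sub_ne_zero.2 h1)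
  rcases Nat.eq_zero_or_pos n with rfl | hn
  · simp only [range_zero, sum_empty, norm_zero]
    positivity
  · have e : ∑ k ∈ range n, VanA_a z k = (z ^ n - 1) / (z - 1) - 1 := by
      rw [← geom_sum_eq h1]
      obtain ⟨m, rfl⟩ : ∃ m, n = m + 1 := ⟨n - 1, by omega⟩
      rw [sum_range_succ', sum_range_succ' (fun i => z ^ i)]
      simp [VanA_a]
    rw [e]
    refine (norm_sub_le _ _).trans ?_
    rw [norm_div, norm_one]
    have h3 : ‖z ^ n - 1‖ ≤ 2 := by
      refine (norm_sub_le _ _).trans ?_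
      rw [norm_pow, hz, one_pow, norm_one]
      norm_num
    have h4 : ‖z ^ n - 1‖ / ‖z - 1‖ ≤ 2 / ‖z - 1‖ := by gcongr
    linarith

private theorem VanA_norm {z : ℂ} (hz : ‖z‖ = 1) (n : ℕ) : ‖VanA_a z n‖ ≤ 1 := by
  unfold VanA_a
  split_ifs
  · simp
  · rw [norm_pow, hz, one_pow]

private theorem VanA_pow {z : ℂ} (hz : ‖z‖ = 1) (h1 : z ≠ 1) :
    Tendsto (fun t : ℝ => - Complex.log (1 - z * (t : ℂ))) (𝓝[<] 1) (𝓝 (limV (VanA_a z))) := by
  have h2 := LOne_dom (a := VanA_a z) (B := 1 + 2 / ‖z - 1‖) (by simp [VanA_a])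
    (VanA_bd hz h1) (l := 𝓝[<] (1 : ℝ)) (U := fun t n => t ^ n / n)
    (fun n hn => by
      have h2 : Tendsto (fun t : ℝ => t ^ n / n) (𝓝 1) (𝓝 (1 ^ n / n)) :=
        ((continuous_pow n).div_const _).tendsto 1
      rw [one_pow] at h2
      exact h2.mono_left nhdsWithin_le_nhds)
    (by
      have h3 : ∀ᶠ t : ℝ in 𝓝[<] 1, t ∈ Set.Ioo (0 : ℝ) 1 := Ioo_mem_nhdsLT one_pos
      filter_upwards [h3] with t ht n hn
      exact LOne_pow_bound ht.1.le ht.2.le hn)
  refine h2.congr' ?_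
  have h3 : ∀ᶠ t : ℝ in 𝓝[<] 1, t ∈ Set.Ioo (0 : ℝ) 1 := Ioo_mem_nhdsLT one_pos
  filter_upwards [h3] with t ht
  have hst : Summable fun n : ℕ => t ^ n := summable_geometric_of_lt_one ht.1.le ht.2
  have hle : ∀ n : ℕ, t ^ n / n ≤ t ^ n := by
    intro n
    rcases Nat.eq_zero_or_pos n with rfl | hn
    · simp
    · exact div_le_self (pow_nonneg ht.1.le _) (by exact_mod_cast hn)
  have h0' : ∀ n : ℕ, 0 ≤ t ^ n / n := fun n => div_nonneg (pow_nonneg ht.1.le _) (Nat.cast_nonneg _)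
  have hsu : Summable fun n : ℕ => t ^ n / n := Summable.of_nonneg_of_le h0' hle hst
  have h5 := LOne_abel (a := VanA_a z) (VanA_bd hz h1) (u := fun n => t ^ n / n)
    hsu.tendsto_atTop_zero ?_ ?_
  · rw [← h5]
    have h6 : ‖z * (t : ℂ)‖ < 1 := by
      rw [norm_mul, hz, one_mul, Complex.norm_real, Real.norm_of_nonneg ht.1.le]
      exact ht.2
    rw [← (Complex.hasSum_taylorSeries_neg_log h6).tsum_eq]
    refine tsum_congr fun n => ?_
    unfold VanA_a
    split_ifs with hn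
    · rw [hn]; simp
    · push_cast
      rw [mul_pow]
      ring
  · refine Summable.of_norm_bounded hsu fun n => ?_
    rw [norm_mul, Complex.norm_real, Real.norm_of_nonneg (h0' n)]
    exact mul_le_of_le_one_left (h0' n) (VanA_norm hz n)
  · have hsu' : Summable fun n : ℕ => t ^ (n + 1) / (n + 1 : ℕ) := (summable_nat_add_iff 1).2 hsu
    refine Summable.of_nonneg_of_le (fun n => abs_nonneg _) (fun n => ?_) (hsu.add hsu')
    refine (abs_sub _ _).trans (le_of_eq ?_)
    rw [abs_of_nonneg (h0' n), abs_of_nonneg (h0' (n + 1))]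

private theorem VanA_ser {z : ℂ} (hz : ‖z‖ = 1) (h1 : z ≠ 1) {E : ℂ → ℂ}
    (hE : ∀ s : ℝ, 1 < s → HasSum (fun n : ℕ => z ^ n / (n : ℂ) ^ (s : ℂ)) (E s)) :
    Tendsto (fun s : ℝ => E (s : ℂ)) (𝓝[>] 1) (𝓝 (limV (VanA_a z))) := by
  have h2 := LOne_dom (a := VanA_a z) (B := 1 + 2 / ‖z - 1‖) (by simp [VanA_a])
    (VanA_bd hz h1) (l := 𝓝[>] (1 : ℝ)) (U := fun s n => (n : ℝ) ^ (-s))
    (fun n hn => by
      have hn0 : (n : ℝ) ≠ 0 := by
        have : (1 : ℝ) ≤ n := by exact_mod_cast hn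
        linarith
      have h2 : Tendsto (fun s : ℝ => (n : ℝ) ^ (-s)) (𝓝 1) (𝓝 ((n : ℝ) ^ (-1 : ℝ))) :=
        ((Real.continuous_const_rpow hn0).comp continuous_neg).tendsto 1
      rw [Real.rpow_neg_one, ← one_div] at h2
      exact h2.mono_left nhdsWithin_le_nhds)
    (by
      have h3 : ∀ᶠ s : ℝ in 𝓝[>] 1, s ∈ Set.Ioo (1 : ℝ) 2 := Ioo_mem_nhdsGT (by norm_num)
      filter_upwards [h3] with s hs n hn
      exact LOne_rpow_bound hs.1.le hs.2.le hn)
  refine h2.congr' ?_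
  have h3 : ∀ᶠ s : ℝ in 𝓝[>] 1, s ∈ Set.Ioo (1 : ℝ) 2 := Ioo_mem_nhdsGT (by norm_num)
  filter_upwards [h3] with s hs
  have hs1 := hs.1
  have h0' : ∀ n : ℕ, 0 ≤ (n : ℝ) ^ (-s) := fun n => Real.rpow_nonneg (Nat.cast_nonneg _) _
  have hsu : Summable fun n : ℕ => (n : ℝ) ^ (-s) := by
    have := Real.summable_one_div_nat_rpow.2 hs1
    refine this.congr fun n => ?_
    rw [Real.rpow_neg (Nat.cast_nonneg _), one_div]
  have h5 := LOne_abel (a := VanA_a z) (VanA_bd hz h1) (u := fun n => (n : ℝ) ^ (-s))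
    hsu.tendsto_atTop_zero ?_ ?_
  · rw [← h5, ← (hE s hs1).tsum_eq]
    refine tsum_congr fun n => ?_
    unfold VanA_a
    split_ifs with hn
    · rw [hn]
      have : (s : ℂ) ≠ 0 := by
        rw [Ne, Complex.ofReal_eq_zero]
        linarith
      simp [this]
    · rw [Real.rpow_neg (Nat.cast_nonneg _), Complex.ofReal_inv,
        Complex.ofReal_cpow (Nat.cast_nonneg _), Complex.ofReal_natCast, div_eq_mul_inv]
  · refine Summable.of_norm_bounded hsu fun n => ?_
    rw [norm_mul, Complex.norm_real, Real.norm_of_nonneg (h0' n)]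
    exact mul_le_of_le_one_left (h0' n) (VanA_norm hz n)
  · have hsu' : Summable fun n : ℕ => ((n + 1 : ℕ) : ℝ) ^ (-s) := (summable_nat_add_iff 1).2 hsu
    refine Summable.of_nonneg_of_le (fun n => abs_nonneg _) (fun n => ?_) (hsu.add hsu')
    refine (abs_sub _ _).trans (le_of_eq ?_)
    rw [abs_of_nonneg (h0' n), abs_of_nonneg (h0' (n + 1))]

/-- `expZeta` at `1`: for `0 < x < R`, `∑_{n ≥ 1} exp (2 π i n x / R) / n^s → - log (1 - exp (2 π i x / R))`
as `s → 1+`; so the value of the entire function is the logarithm.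
PROOF. `HurwitzZeta.expZeta a s` is continuous at `s = 1` for `a ≠ 0` (`differentiableAt_expZeta`). For real `s > 1` it is
`∑_{n ≥ 1} z^n n^(-s)`, `z = exp (2 π i x / R) ≠ 1` (`hasSum_expZeta_of_one_lt_re`). With `B_n = ∑_{k ≤ n} z^k`
(bounded by `2 / |1 - z|`) partial summation gives `∑ z^n n^(-s) = ∑ B_n (n^(-s) - (n+1)^(-s))` for `s ≥ 1`, dominated
convergence as `s → 1+` gives `∑ B_n (1/n - 1/(n+1)) = lim_N ∑_{n ≤ N} z^n / n`, which is `- log (1 - z)` (Abel's theorem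
`Complex.tendsto_tsum_powerSeries_nhdsWithin_lt` with `Complex.hasSum_taylorSeries_neg_log`). -/
theorem expZeta_one (R x : ℕ) (hx : 1 ≤ x) (hxr : x < R) :
    HurwitzZeta.expZeta (((x : ℝ) / (R : ℝ) : ℝ) : UnitAddCircle) 1 =
      - Complex.log (1 - Complex.exp (2 * Real.pi * Complex.I * x / R)) := by
  have hR : (0 : ℝ) < R := by
    have : 0 < R := by omega
    exact_mod_cast this
  have hx0 : (0 : ℝ) < x := by exact_mod_cast hx
  have hxR : (x : ℝ) < R := by exact_mod_cast hxr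
  set y : ℝ := (x : ℝ) / (R : ℝ) with hy
  have hy0 : 0 < y := by positivity
  have hy1 : y < 1 := (div_lt_one hR).2 hxR
  have hne : (y : UnitAddCircle) ≠ 0 := by
    rw [Ne, AddCircle.coe_eq_zero_iff]
    rintro ⟨n, hn⟩
    simp only [zsmul_eq_mul, mul_one] at hn
    rw [← hn] at hy0 hy1
    have h1 : (0 : ℤ) < n := by exact_mod_cast hy0
    have h2 : n < 1 := by exact_mod_cast hy1
    omega
  have ez : (2 * Real.pi * Complex.I * x / R : ℂ) = ((2 * Real.pi * y : ℝ) : ℂ) * Complex.I := by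
    rw [hy]
    push_cast
    ring
  set z : ℂ := Complex.exp (2 * Real.pi * Complex.I * x / R) with hzd
  have hz : ‖z‖ = 1 := by rw [hzd, ez, Complex.norm_exp_ofReal_mul_I]
  have hz1 : z ≠ 1 := by
    intro h
    rw [hzd, ez, Complex.exp_eq_one_iff] at h
    obtain ⟨n, hn⟩ := h
    have h3 : ((2 * Real.pi * y : ℝ) : ℂ) * Complex.I =
        ((2 * Real.pi * n : ℝ) : ℂ) * Complex.I := by
      rw [hn]
      push_cast
      ring
    have h4 := mul_right_cancel₀ Complex.I_ne_zero h3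
    have h5 : 2 * Real.pi * y = 2 * Real.pi * n := by exact_mod_cast h4
    have h6 : y = n := mul_left_cancel₀ (by positivity) h5
    rw [h6] at hy0 hy1
    have h1 : (0 : ℤ) < n := by exact_mod_cast hy0
    have h2 : n < 1 := by exact_mod_cast hy1
    omega
  -- the Dirichlet series side
  have hE : ∀ s : ℝ, 1 < s →
      HasSum (fun n : ℕ => z ^ n / (n : ℂ) ^ (s : ℂ)) (HurwitzZeta.expZeta (y : UnitAddCircle) s) := by
    intro s hs
    have h1 := HurwitzZeta.hasSum_expZeta_of_one_lt_re y (s := (s : ℂ)) (by simpa using hs)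
    refine h1.congr_fun fun n => ?_
    rw [hzd, ← Complex.exp_nat_mul]
    congr 2
    rw [hy]
    push_cast
    ring
  have h1 := VanA_ser hz hz1 hE
  have h2 : Tendsto (fun s : ℝ => HurwitzZeta.expZeta (y : UnitAddCircle) (s : ℂ)) (𝓝[>] 1)
      (𝓝 (HurwitzZeta.expZeta (y : UnitAddCircle) 1)) := by
    have h3 : ContinuousAt (HurwitzZeta.expZeta (y : UnitAddCircle)) ((1 : ℝ) : ℂ) :=
      (HurwitzZeta.differentiableAt_expZeta _ _ (Or.inr hne)).continuousAt
    have h4 : Tendsto (fun s : ℝ => (s : ℂ)) (𝓝[>] 1) (𝓝 ((1 : ℝ) : ℂ)) :=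
      (Complex.continuous_ofReal.tendsto 1).mono_left nhdsWithin_le_nhds
    have h5 := h3.tendsto.comp h4
    rw [Complex.ofReal_one] at h5
    exact h5
  have h3 := tendsto_nhds_unique h1 h2
  rw [← h3]
  -- the power series side
  refine tendsto_nhds_unique (VanA_pow hz hz1) ?_
  have hsl : 1 - z ∈ Complex.slitPlane := by
    rw [Complex.mem_slitPlane_iff]
    left
    rw [Complex.sub_re, Complex.one_re]
    have h5 : z.re ≤ 1 := by
      have := Complex.re_le_norm z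
      rwa [hz] at this
    rcases h5.lt_or_eq with h6 | h6
    · linarith
    · exfalso
      apply hz1
      have h7 : z.re ^ 2 + z.im ^ 2 = 1 := by
        have h8 := Complex.sq_norm z
        rw [hz, Complex.normSq_apply] at h8
        nlinarith
      have h8 : z.im = 0 := by
        rw [h6] at h7
        nlinarith
      exact Complex.ext h6 h8
  have h4 : ContinuousAt (fun t : ℝ => - Complex.log (1 - z * (t : ℂ))) 1 := by
    refine ContinuousAt.neg (ContinuousAt.clog ?_ ?_)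
    · fun_prop
    · rw [Complex.ofReal_one, mul_one]
      exact hsl
  have h5 := h4.tendsto.mono_left (nhdsWithin_le_nhds (s := Set.Iio 1))
  simpa using h5

end Pool.Agent.W_420c7c_h51
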