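import Pool.Agent.W_420c7c_h51.VanA
import Pool.Agent.W_420c7c_h51.NormZ

set_option autoImplicit false

/-!
# Nonvanishing of the character sums of `log |1 - ζ^x|`
-/

namespace Pool.Agent.W_420c7c_h51

open Finset

private lemma VanB_pow (R k : ℕ) : zr R ^ k = Complex.exp (2 * Real.pi * Complex.I * k / R) := by
  rw [zr, ← Complex.exp_nat_mul]
  congr 1
  ring

private lemma VanB_sum (R : ℕ) [NeZero R] (f : ZMod R → ℂ) (g : ℕ → ℂ) :
    ∑ x ∈ range R, f (x : ZMod R) * g x = ∑ k : ZMod R, f k * g k.val := by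
  refine Finset.sum_nbij' (fun x => (x : ZMod R)) (fun k => k.val) ?_ ?_ ?_ ?_ ?_
  · intro a _
    exact Finset.mem_univ _
  · intro k _
    exact Finset.mem_range.2 k.val_lt
  · intro a ha
    exact ZMod.val_cast_of_lt (Finset.mem_range.1 ha)
  · intro k _
    exact ZMod.natCast_zmod_val k
  · intro a ha
    rw [ZMod.val_cast_of_lt (Finset.mem_range.1 ha)]

private lemma VanB_exp (R : ℕ) [NeZero R] {k : ZMod R} (hk : k ≠ 0) :
    HurwitzZeta.expZeta (ZMod.toAddCircle k) 1 = - Complex.log (1 - zr R ^ k.val) := by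
  rw [ZMod.toAddCircle_apply, VanB_pow]
  exact expZeta_one R k.val (Nat.one_le_iff_ne_zero.2 (by rwa [ne_eq, ZMod.val_eq_zero])) k.val_lt

private lemma VanB_neg (R : ℕ) [NeZero R] (k : ZMod R) :
    zr R ^ (-k).val = (starRingEnd ℂ) (zr R ^ k.val) := by
  have hR : R ≠ 0 := NeZero.ne R
  have h1 : zr R ^ R = 1 := (zr_prim R hR).pow_eq_one
  have hn : ‖zr R ^ k.val‖ = 1 := by
    rw [norm_pow, (zr_prim R hR).norm'_eq_one hR, one_pow]
  have h2 : zr R ^ (-k).val * zr R ^ k.val = 1 := by
    rw [← pow_add]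
    by_cases hk : k = 0
    · subst hk
      simp
    · rw [ZMod.neg_val, if_neg hk, Nat.sub_add_cancel k.val_lt.le, h1]
  have h3 : (starRingEnd ℂ) (zr R ^ k.val) * zr R ^ k.val = 1 := by
    rw [mul_comm, Complex.mul_conj, Complex.normSq_eq_norm_sq, hn]
    simp
  have h4 : zr R ^ k.val ≠ 0 := by
    intro h
    rw [h] at h3
    simp at h3
  exact mul_right_cancel₀ h4 (h2.trans h3.symm)

/-- PROOF. `DirichletCharacter.LFunction_apply_one_ne_zero` for `χ⁻¹` (not `1`);
`ZMod.LFunction_dft` at `s = 1` with `Φ = χ` (`Φ 0 = 0`): `LFunction (𝓕 χ) 1 = ∑_j χ j expZeta (-j / R) 1`, and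
`𝓕 χ = gaussSum * χ⁻¹ (-·)` for primitive `χ` (`DirichletCharacter.fourierTransform_eq_inv_mul_gaussSum` or similar; the Gauss
sum is not zero, since `𝓕 χ ≠ 0`), so the left side is not zero. The right side is `- ∑_j χ j log (1 - ζ^(-j))` by
`expZeta_one`; as `χ` is even, replace `j` by `-j` and add: `log (1 - ζ^j) + log (1 - ζ^(-j)) = 2 log ‖1 - ζ^j‖` (conjugates). -/
theorem sum_log_ne (R : ℕ) [NeZero R] (hR : 3 ≤ R) (χ : DirichletCharacter ℂ R)
    (hprim : χ.IsPrimitive) (hχ : χ ≠ 1) (he : χ (-1) = 1) :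
    ∑ x ∈ range R, χ (x : ZMod R) * (Real.log ‖1 - zr R ^ x‖ : ℝ) ≠ 0 := by
  intro h0
  have hR0 : R ≠ 0 := NeZero.ne R
  have hR1 : R ≠ 1 := by omega
  rw [VanB_sum R (fun k => χ k) (fun x => ((Real.log ‖1 - zr R ^ x‖ : ℝ) : ℂ))] at h0
  have hz : χ (0 : ZMod R) = 0 := χ.map_zero' hR1
  have hev : ∀ k : ZMod R, χ (-k) = χ k := by
    intro k
    rw [← neg_one_mul, map_mul, he, one_mul]
  -- the sum of the logarithms
  have hS : ∑ k : ZMod R, χ k * Complex.log (1 - zr R ^ k.val) = 0 := by
    have e1 : ∑ k : ZMod R, χ k * Complex.log (1 - zr R ^ k.val) =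
        ∑ k : ZMod R, χ k * (starRingEnd ℂ) (Complex.log (1 - zr R ^ k.val)) := by
      rw [← Equiv.sum_comp (Equiv.neg (ZMod R))]
      refine Finset.sum_congr rfl fun k _ => ?_
      simp only [Equiv.neg_apply]
      by_cases hk : k = 0
      · subst hk
        simp [hz]
      · rw [hev, VanB_neg]
        congr 1
        have h1 : (1 : ℂ) - (starRingEnd ℂ) (zr R ^ k.val) =
            (starRingEnd ℂ) (1 - zr R ^ k.val) := by
          simp
        rw [h1, Complex.log_conj]
        intro harg
        have hre : 0 < (1 - zr R ^ k.val).re := by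
          have hn : ‖zr R ^ k.val‖ = 1 := by
            rw [norm_pow, (zr_prim R hR0).norm'_eq_one hR0, one_pow]
          have hne : zr R ^ k.val ≠ 1 := by
            intro h
            have := (zr_prim R hR0).dvd_of_pow_eq_one _ h
            have h2 := Nat.le_of_dvd (Nat.pos_of_ne_zero (by rwa [ne_eq, ZMod.val_eq_zero])) this
            have h3 := k.val_lt
            omega
          have h4 : (zr R ^ k.val).re ≤ 1 := hn ▸ Complex.re_le_norm _
          have h5 : (zr R ^ k.val).re ≠ 1 := by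
            intro h
            apply hne
            apply Complex.ext
            · simpa using h
            · have := Complex.sq_norm (zr R ^ k.val)
              rw [hn, Complex.normSq_apply, h] at this
              have h6 : (zr R ^ k.val).im * (zr R ^ k.val).im = 0 := by linarith
              simpa using h6
          have h6 : (zr R ^ k.val).re < 1 := lt_of_le_of_ne h4 h5
          simp only [Complex.sub_re, Complex.one_re]
          linarith
        have := (Complex.abs_arg_lt_pi_div_two_iff.2 (Or.inl hre))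
        rw [harg, abs_of_pos Real.pi_pos] at this
        linarith [Real.pi_pos]
    have e2 : (∑ k : ZMod R, χ k * Complex.log (1 - zr R ^ k.val)) +
        ∑ k : ZMod R, χ k * (starRingEnd ℂ) (Complex.log (1 - zr R ^ k.val)) =
        2 * ∑ k : ZMod R, χ k * ((Real.log ‖1 - zr R ^ k.val‖ : ℝ) : ℂ) := by
      rw [← Finset.sum_add_distrib, Finset.mul_sum]
      refine Finset.sum_congr rfl fun k _ => ?_
      rw [← mul_add, Complex.add_conj, Complex.log_re]
      push_cast
      ring
    rw [← e1, h0, mul_zero] at e2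
    have : (2 : ℂ) * ∑ k : ZMod R, χ k * Complex.log (1 - zr R ^ k.val) = 0 := by
      rw [two_mul]
      exact e2
    exact (mul_eq_zero.1 this).resolve_left two_ne_zero
  have hL := ZMod.LFunction_dft (fun k => χ k) (s := 1) (Or.inl hz)
  have hright : ∑ j : ZMod R, χ j * HurwitzZeta.expZeta (ZMod.toAddCircle (-j)) 1 = 0 := by
    rw [← Equiv.sum_comp (Equiv.neg (ZMod R))]
    simp only [Equiv.neg_apply, neg_neg]
    rw [← neg_eq_zero, ← Finset.sum_neg_distrib, ← hS]
    refine Finset.sum_congr rfl fun k _ => ?_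
    by_cases hk : k = 0
    · subst hk
      simp [hz]
    · rw [VanB_exp R hk, hev]
      ring
  rw [hright] at hL
  have hdft : (ZMod.dft (fun k => χ k) : ZMod R → ℂ) =
      fun k => gaussSum χ ZMod.stdAddChar * χ⁻¹ k := by
    funext k
    rw [hprim.fourierTransform_eq_inv_mul_gaussSum]
    have : χ⁻¹ (-k) = χ⁻¹ k := by
      rw [← neg_one_mul, map_mul]
      have h1 : χ⁻¹ (-1) = 1 := by
        rw [MulChar.inv_apply_eq_inv', he, inv_one]
      rw [h1, one_mul]
    rw [this, mul_comm]
  rw [hdft] at hL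
  have hL2 : gaussSum χ ZMod.stdAddChar * DirichletCharacter.LFunction χ⁻¹ 1 = 0 := by
    rw [← hL, DirichletCharacter.LFunction, ZMod.LFunction, ZMod.LFunction, Finset.mul_sum,
      Finset.mul_sum, Finset.mul_sum]
    refine Finset.sum_congr rfl fun k _ => ?_
    ring
  rcases mul_eq_zero.1 hL2 with h | h
  · have h1 : (ZMod.dft (fun k => χ k) : ZMod R → ℂ) = 0 := by
      rw [hdft, h]
      funext k
      simp
    have h2 : (fun k => χ k : ZMod R → ℂ) = 0 := by
      simpa using h1
    have h3 := congrFun h2 1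
    simp at h3
  · exact DirichletCharacter.LFunction_apply_one_ne_zero (by rwa [ne_eq, inv_eq_one]) h

end Pool.Agent.W_420c7c_h51
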