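import Pool.Agent.W_420c7c_h51.VanB
import Pool.Agent.W_420c7c_h51.FouC1

set_option autoImplicit false

/-!
# Nonvanishing of the character sums of `log |1 + ζ^x|`
-/

namespace Pool.Agent.W_420c7c_h51

open Finset

/-- sums over `ZMod R` -/
private theorem VanC1_sum_zmod (R : ℕ) [NeZero R] (F : ZMod R → ℂ) :
    ∑ x ∈ range R, F (x : ZMod R) = ∑ x : ZMod R, F x := by
  refine Finset.sum_nbij' (fun x => (x : ZMod R)) (fun x => x.val) ?_ ?_ ?_ ?_ ?_
  · intro a _; exact mem_univ _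
  · intro a _; exact mem_range.2 (ZMod.val_lt a)
  · intro a ha
    simpa using ZMod.val_natCast_of_lt (mem_range.1 ha)
  · intro a _
    simp
  · intro a _
    rfl

/-- `log |1 - ζ^t|` -/
private noncomputable def VanC1_U (r : ℕ) [Fact r.Prime] (t : ZMod r) : ℝ :=
  Real.log ‖1 - ZMod.stdAddChar t‖

private theorem VanC1_zr_pow (R : ℕ) [NeZero R] (k : ℕ) :
    zr R ^ k = ZMod.stdAddChar (k : ZMod R) := by
  have h := ZMod.stdAddChar_coe (N := R) (k : ℤ)
  push_cast at h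
  rw [h, zr, ← Complex.exp_nat_mul]
  congr 1
  ring

private theorem VanC1_ne (r : ℕ) [Fact r.Prime] (t : ZMod r) (ht : t ≠ 0) :
    1 - ZMod.stdAddChar t ≠ (0 : ℂ) := by
  intro h
  apply ht
  apply ZMod.injective_stdAddChar
  rw [AddChar.map_zero_eq_one]
  exact (sub_eq_zero.1 h).symm

private theorem VanC1_ell (r : ℕ) [Fact r.Prime] (h5 : 5 ≤ r) (x : ℕ) (hx : (x : ZMod r) ≠ 0) :
    ell false r (x : ℤ) = VanC1_U r (2 * (x : ZMod r)) - VanC1_U r (x : ZMod r) := by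
  have hr : r.Prime := Fact.out
  have e1 : Complex.exp (2 * Real.pi * Complex.I * ((x : ℤ) : ℂ) / r) =
      ZMod.stdAddChar (x : ZMod r) := by
    have h := ZMod.stdAddChar_coe (N := r) (x : ℤ)
    rw [← h]
    push_cast
    rfl
  have hu : (2 : ZMod r) ≠ 0 := by
    have := (ZMod.isUnit_iff_coprime 2 r).2 ((Nat.coprime_primes Nat.prime_two hr).2 (by omega))
    have h2 : IsUnit (2 : ZMod r) := by simpa using this
    exact h2.ne_zero
  have e2 : (1 + ZMod.stdAddChar (x : ZMod r)) * (1 - ZMod.stdAddChar (x : ZMod r)) =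
      (1 - ZMod.stdAddChar (2 * (x : ZMod r)) : ℂ) := by
    rw [two_mul, AddChar.map_add_eq_mul]
    ring
  have e3 := VanC1_ne r (2 * (x : ZMod r)) (mul_ne_zero hu hx)
  have e4 := VanC1_ne r (x : ZMod r) hx
  have e5 : 1 + ZMod.stdAddChar (x : ZMod r) ≠ (0 : ℂ) := by
    intro h
    rw [h, zero_mul] at e2
    exact e3 e2.symm
  have e6 : zt false = 1 := by simp [zt]
  rw [VanC1_U, VanC1_U, ← e2, norm_mul,
    Real.log_mul (norm_ne_zero_iff.2 e5) (norm_ne_zero_iff.2 e4), ell, e1, e6, one_mul]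
  ring

/-- PROOF. `χ ≠ 1` modulo the prime `r` is primitive: `sum_log_ne` with `R = r`. `‖1 + ζ^x‖ = ‖1 - ζ^(2x)‖ / ‖1 - ζ^x‖` for `r ∤ x`
(`r` odd), so the sum is `(χ(2)⁻¹ - 1) ∑ χ x log ‖1 - ζ^x‖` (substitute `y = 2 x` modulo `r`). -/
theorem sum_ell_ne_false (r : ℕ) [Fact r.Prime] (h5 : 5 ≤ r) (χ : DirichletCharacter ℂ r)
    (he : χ (-1) = 1) (h2 : χ 2 ≠ 1) :
    ∑ x ∈ Ico 1 r, χ (x : ZMod r) * (ell false r x : ℝ) ≠ 0 := by
  have hr : r.Prime := Fact.out
  have hu : IsUnit (2 : ZMod r) := by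
    have := (ZMod.isUnit_iff_coprime 2 r).2 ((Nat.coprime_primes Nat.prime_two hr).2 (by omega))
    simpa using this
  have hχ : χ ≠ 1 := by
    rintro rfl
    exact h2 (MulChar.one_apply hu)
  have hprim : χ.IsPrimitive := by
    rw [DirichletCharacter.isPrimitive_def]
    rcases (Nat.dvd_prime hr).1 (DirichletCharacter.conductor_dvd_level χ) with h | h
    · exact absurd (DirichletCharacter.eq_one_iff_conductor_eq_one.2 h) hχ
    · exact h
  have hS := sum_log_ne r (by omega) χ hprim hχ he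
  have hS2 : ∑ x ∈ range r, χ (x : ZMod r) * ((Real.log ‖1 - zr r ^ x‖ : ℝ) : ℂ) =
      ∑ t : ZMod r, χ t * ((VanC1_U r t : ℝ) : ℂ) := by
    rw [← VanC1_sum_zmod]
    refine Finset.sum_congr rfl fun x _ => ?_
    rw [VanC1_zr_pow, VanC1_U]
  rw [hS2] at hS
  set S := ∑ t : ZMod r, χ t * ((VanC1_U r t : ℝ) : ℂ) with hSd
  have h0 : χ ((0 : ℕ) : ZMod r) = 0 := by
    rw [Nat.cast_zero]
    exact MulChar.map_zero χ
  have h1 : ∑ x ∈ Ico 1 r, χ (x : ZMod r) * ((ell false r x : ℝ) : ℂ) =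
      ∑ x : ZMod r, χ x * ((VanC1_U r (2 * x) - VanC1_U r x : ℝ) : ℂ) := by
    rw [← VanC1_sum_zmod, Finset.range_eq_Ico, Finset.sum_eq_sum_Ico_succ_bot hr.pos]
    rw [h0, zero_mul, zero_add, zero_add]
    refine Finset.sum_congr rfl fun x hx => ?_
    rw [mem_Ico] at hx
    rw [VanC1_ell r h5]
    intro h
    rw [ZMod.natCast_eq_zero_iff] at h
    have := Nat.le_of_dvd (by omega) h
    omega
  have h3 : χ 2 * ∑ x : ZMod r, χ x * ((VanC1_U r (2 * x) : ℝ) : ℂ) = S := by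
    have hb : Function.Bijective (fun x : ZMod r => 2 * x) := by
      rw [Finite.injective_iff_bijective.symm]
      intro x y hxy
      exact hu.mul_left_cancel hxy
    rw [hSd, ← hb.sum_comp (fun t : ZMod r => χ t * ((VanC1_U r t : ℝ) : ℂ)), Finset.mul_sum]
    refine Finset.sum_congr rfl fun x _ => ?_
    rw [map_mul]
    ring
  intro h4
  rw [h1] at h4
  push_cast at h4
  simp_rw [mul_sub] at h4
  rw [Finset.sum_sub_distrib, sub_eq_zero] at h4
  rw [h4, ← hSd] at h3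
  have h5' : (χ 2 - 1) * S = 0 := by rw [sub_mul, h3, one_mul, sub_self]
  rcases mul_eq_zero.1 h5' with h | h
  · exact h2 (sub_eq_zero.1 h)
  · exact hS h

end Pool.Agent.W_420c7c_h51
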