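import Pool.Agent.W_420c7c_h51.VanB
import Pool.Agent.W_420c7c_h51.FouC1

set_option autoImplicit false

/-!
# Nonvanishing of the character sums of `log |1 + ω ζ^x|`
-/

namespace Pool.Agent.W_420c7c_h51

open Finset

/-- the nontrivial character modulo `3` -/
private noncomputable def c3 : DirichletCharacter ℂ 3 :=
  (quadraticChar (ZMod 3)).ringHomComp (Int.castRingHom ℂ)

private theorem c3_zero : c3 (0 : ZMod 3) = 0 := by
  have : quadraticChar (ZMod 3) 0 = 0 := by decide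
  simp [c3, MulChar.ringHomComp_apply, this]

private theorem c3_one : c3 (1 : ZMod 3) = 1 := by
  simp [c3, MulChar.ringHomComp_apply]

private theorem c3_two : c3 (2 : ZMod 3) = -1 := by
  have : quadraticChar (ZMod 3) 2 = -1 := by decide
  simp [c3, MulChar.ringHomComp_apply, this]

/-- the product of `c3` and `χ` modulo `3 r` -/
private noncomputable def chp (r : ℕ) [Fact r.Prime] (χ : DirichletCharacter ℂ r) :
    DirichletCharacter ℂ (3 * r) where
  toFun x := c3 (ZMod.castHom (dvd_mul_right 3 r) (ZMod 3) x) *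
    χ (ZMod.castHom (dvd_mul_left r 3) (ZMod r) x)
  map_one' := by simp
  map_mul' x y := by
    simp only [map_mul]
    ring
  map_nonunit' := by
    intro x hx
    have : NeZero (3 * r) := ⟨by have := (Fact.out : r.Prime).pos; positivity⟩
    obtain ⟨k, rfl⟩ : ∃ k : ℕ, (k : ZMod (3 * r)) = x := ⟨x.val, by simp⟩
    rw [ZMod.isUnit_iff_coprime, Nat.coprime_mul_iff_right] at hx
    simp only [map_natCast]
    by_cases h3 : k.Coprime 3
    · have hr : ¬ k.Coprime r := fun h => hx ⟨h3, h⟩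
      rw [MulChar.map_nonunit χ (by rwa [ZMod.isUnit_iff_coprime]), mul_zero]
    · rw [MulChar.map_nonunit c3 (by rwa [ZMod.isUnit_iff_coprime]), zero_mul]

private theorem chp_nat (r : ℕ) [Fact r.Prime] (χ : DirichletCharacter ℂ r) (k : ℕ) :
    chp r χ (k : ZMod (3 * r)) = c3 (k : ZMod 3) * χ (k : ZMod r) := by
  change c3 (ZMod.castHom (dvd_mul_right 3 r) (ZMod 3) (k : ZMod (3 * r))) *
    χ (ZMod.castHom (dvd_mul_left r 3) (ZMod r) (k : ZMod (3 * r))) = _
  simp only [map_natCast]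

private theorem chp_prim (r : ℕ) [Fact r.Prime] (h5 : 5 ≤ r) (χ : DirichletCharacter ℂ r)
    (he : χ (-1) = -1) : (chp r χ).IsPrimitive := by
  have hr : r.Prime := Fact.out
  have hcop : Nat.Coprime 3 r := (Nat.coprime_primes Nat.prime_three hr).2 (by omega)
  have : NeZero (3 * r) := ⟨by have := hr.pos; positivity⟩
  rw [DirichletCharacter.isPrimitive_def]
  have hf := DirichletCharacter.factorsThrough_conductor (chp r χ)
  obtain ⟨d, hdd⟩ : ∃ d, d = (chp r χ).conductor := ⟨_, rfl⟩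
  rw [← hdd] at hf ⊢
  obtain ⟨hd, χ₀, hχ₀⟩ := hf
  by_contra hne
  -- for `k` coprime to `3 r` and `k ≡ 1` modulo `d` the value is `1`
  have key : ∀ k : ℕ, k.Coprime (3 * r) → (k : ZMod d) = 1 → chp r χ (k : ZMod (3 * r)) = 1 := by
    intro k hk hk1
    have hu : IsUnit (k : ZMod (3 * r)) := by rwa [ZMod.isUnit_iff_coprime]
    obtain ⟨a, ha⟩ := hu
    rw [← ha, hχ₀, DirichletCharacter.changeLevel_eq_cast_of_dvd, ha, ZMod.cast_natCast hd, hk1,
      map_one]
  -- `d ∣ 3` or `d ∣ r`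
  obtain ⟨e, he1⟩ := hd
  have he2 : e ≠ 1 := by
    rintro rfl
    exact hne (by rw [he1, mul_one])
  obtain ⟨q, hq, hqe⟩ := Nat.exists_prime_and_dvd he2
  have hq3 : q ∣ 3 * r := he1 ▸ (hqe.mul_left d)
  rcases (Nat.Prime.dvd_mul hq).1 hq3 with h3 | h3
  · have hq' : q = 3 := (Nat.prime_dvd_prime_iff_eq hq Nat.prime_three).1 h3
    subst hq'
    obtain ⟨e', rfl⟩ := hqe
    have hdr : d ∣ r := ⟨e', by
      have : 3 * r = 3 * (d * e') := by rw [he1]; ring
      exact Nat.eq_of_mul_eq_mul_left (by norm_num) this⟩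
    obtain ⟨k, hk3, hkr⟩ := Nat.chineseRemainder hcop 2 1
    have h1 := key k ?_ ?_
    · rw [chp_nat, (ZMod.natCast_eq_natCast_iff k 2 3).2 hk3, (ZMod.natCast_eq_natCast_iff k 1 r).2 hkr] at h1
      push_cast at h1
      rw [c3_two, map_one] at h1
      norm_num at h1
    · rw [Nat.coprime_mul_iff_right]
      constructor
      · rw [← ZMod.isUnit_iff_coprime, (ZMod.natCast_eq_natCast_iff k 2 3).2 hk3]
        rw [ZMod.isUnit_iff_coprime]
        norm_num
      · rw [← ZMod.isUnit_iff_coprime, (ZMod.natCast_eq_natCast_iff k 1 r).2 hkr]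
        simp
    · have := (ZMod.natCast_eq_natCast_iff k 1 d).2 (hkr.of_dvd hdr)
      simpa using this
  · have hq' : q = r := (Nat.prime_dvd_prime_iff_eq hq hr).1 h3
    subst hq'
    obtain ⟨e', rfl⟩ := hqe
    have hdr : d ∣ 3 := ⟨e', by
      have : q * 3 = q * (d * e') := by rw [mul_comm, he1]; ring
      exact Nat.eq_of_mul_eq_mul_left hr.pos this⟩
    obtain ⟨k, hk3, hkr⟩ := Nat.chineseRemainder hcop 1 (q - 1)
    have hm1 : ((q - 1 : ℕ) : ZMod q) = -1 := by
      rw [Nat.cast_sub hr.one_lt.le]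
      simp
    have h1 := key k ?_ ?_
    · rw [chp_nat, (ZMod.natCast_eq_natCast_iff k 1 3).2 hk3, (ZMod.natCast_eq_natCast_iff k (q - 1) q).2 hkr, hm1, he] at h1
      push_cast at h1
      rw [c3_one] at h1
      norm_num at h1
    · rw [Nat.coprime_mul_iff_right]
      constructor
      · rw [← ZMod.isUnit_iff_coprime, (ZMod.natCast_eq_natCast_iff k 1 3).2 hk3]
        simp
      · rw [← ZMod.isUnit_iff_coprime, (ZMod.natCast_eq_natCast_iff k (q - 1) q).2 hkr, hm1]
        exact isUnit_one.neg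
    · have := (ZMod.natCast_eq_natCast_iff k 1 d).2 (hk3.of_dvd hdr)
      simpa using this

private theorem chp_even (r : ℕ) [Fact r.Prime] (χ : DirichletCharacter ℂ r)
    (he : χ (-1) = -1) : chp r χ (-1) = 1 := by
  change c3 (ZMod.castHom (dvd_mul_right 3 r) (ZMod 3) (-1)) *
    χ (ZMod.castHom (dvd_mul_left r 3) (ZMod r) (-1)) = _
  have h1 : (ZMod.castHom (dvd_mul_right 3 r) (ZMod 3)) (-1) = 2 := by
    rw [map_neg, map_one]; decide
  have h2 : (ZMod.castHom (dvd_mul_left r 3) (ZMod r)) (-1) = -1 := by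
    rw [map_neg, map_one]
  rw [h1, h2, he, c3_two]
  norm_num

private theorem chp_ne_one (r : ℕ) [Fact r.Prime] (h5 : 5 ≤ r) (χ : DirichletCharacter ℂ r)
    (he : χ (-1) = -1) : chp r χ ≠ 1 := by
  intro h
  have h1 := chp_prim r h5 χ he
  have : NeZero (3 * r) := ⟨by omega⟩
  rw [DirichletCharacter.isPrimitive_def, h, DirichletCharacter.conductor_one] at h1
  omega

/-- sums over `ZMod R` -/
private theorem sum_zmod (R : ℕ) [NeZero R] (F : ZMod R → ℂ) :
    ∑ x ∈ range R, F (x : ZMod R) = ∑ x : ZMod R, F x := by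
  refine Finset.sum_nbij' (fun x => (x : ZMod R)) (fun x => x.val) ?_ ?_ ?_ ?_ ?_
  · intro a _; exact mem_univ _
  · intro a _; exact mem_range.2 (ZMod.val_lt a)
  · intro a ha
    simpa using ZMod.val_natCast_of_lt (mem_range.1 ha)
  · intro a _
    simp
  · intro a _
    rfl

/-- the parametrisation of the residues modulo `3 r` -/
private theorem bij3 (r : ℕ) [Fact r.Prime] (h5 : 5 ≤ r) :
    Function.Bijective (fun y : ZMod 3 × ZMod r =>
      ((r * y.1.val + 3 * y.2.val : ℕ) : ZMod (3 * r))) := by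
  have hr : r.Prime := Fact.out
  have : NeZero (3 * r) := ⟨by omega⟩
  have hcop : Nat.Coprime 3 r := (Nat.coprime_primes Nat.prime_three hr).2 (by omega)
  rw [Fintype.bijective_iff_injective_and_card]
  constructor
  · rintro ⟨a, t⟩ ⟨a', t'⟩ h
    rw [ZMod.natCast_eq_natCast_iff] at h
    have h3 := h.of_dvd (dvd_mul_right 3 r)
    have hr' := h.of_dvd (dvd_mul_left r 3)
    rw [← ZMod.natCast_eq_natCast_iff] at h3 hr'
    push_cast at h3 hr'
    have hu3 : IsUnit (r : ZMod 3) := by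
      rw [ZMod.isUnit_iff_coprime]; exact hcop.symm
    have hur : IsUnit (3 : ZMod r) := by
      have := (ZMod.isUnit_iff_coprime 3 r).2 hcop
      simpa using this
    have e3 : (3 : ZMod 3) = 0 := by decide
    simp only [ZMod.natCast_val, ZMod.cast_id', id_eq, e3, zero_mul, add_zero] at h3
    simp only [CharP.cast_eq_zero, zero_mul, zero_add, ZMod.natCast_val, ZMod.cast_id', id_eq] at hr'
    exact Prod.ext (hu3.mul_left_cancel h3) (hur.mul_left_cancel hr')
  · simp [ZMod.card]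

/-- `log |1 - ω ζ^t|` -/
private noncomputable def UU (r : ℕ) [Fact r.Prime] (t : ZMod r) : ℝ :=
  Real.log ‖1 - zt true * ZMod.stdAddChar t‖

private theorem zr_pow (R : ℕ) [NeZero R] (k : ℕ) : zr R ^ k = ZMod.stdAddChar (k : ZMod R) := by
  have h := ZMod.stdAddChar_coe (N := R) (k : ℤ)
  push_cast at h
  rw [h, zr, ← Complex.exp_nat_mul]
  congr 1
  ring

private theorem zr_split (r : ℕ) [Fact r.Prime] (a t : ℕ) :
    zr (3 * r) ^ (r * a + 3 * t) = zt true ^ a * ZMod.stdAddChar (t : ZMod r) := by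
  have hr : (r : ℂ) ≠ 0 := by
    have := (Fact.out : r.Prime).ne_zero
    exact_mod_cast this
  rw [← zr_pow, pow_add, pow_mul, pow_mul]
  congr 2
  · rw [zr, zt, if_pos rfl, ← Complex.exp_nat_mul]
    congr 1
    push_cast
    field_simp
  · rw [zr, zr, ← Complex.exp_nat_mul]
    congr 1
    push_cast
    field_simp

private theorem zt_cube : zt true ^ 3 = 1 := by
  rw [zt, if_pos rfl, ← Complex.exp_nat_mul]
  have : ((3 : ℕ) : ℂ) * (2 * Real.pi * Complex.I / 3) = 2 * Real.pi * Complex.I := by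
    push_cast
    ring
  rw [this, Complex.exp_two_pi_mul_I]

private theorem norm_zt : ‖zt true‖ = 1 := by
  have h := congrArg norm zt_cube
  rw [norm_pow, norm_one] at h
  exact (pow_eq_one_iff_of_nonneg (norm_nonneg _) (by norm_num)).1 h

private theorem zt_conj : (starRingEnd ℂ) (zt true) = zt true ^ 2 := by
  have h1 : zt true * (starRingEnd ℂ) (zt true) = 1 := by
    rw [Complex.mul_conj, Complex.normSq_eq_norm_sq, norm_zt]
    norm_num
  have h0 : zt true ≠ 0 := by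
    intro h
    have := norm_zt
    rw [h, norm_zero] at this
    norm_num at this
  apply mul_left_cancel₀ h0
  rw [h1, ← zt_cube]
  ring

private theorem norm_sq_type (r : ℕ) [Fact r.Prime] (t : ZMod r) :
    Real.log ‖1 - zt true ^ 2 * ZMod.stdAddChar t‖ = UU r (-t) := by
  rw [UU]
  congr 1
  rw [← Complex.norm_conj (1 - zt true * ZMod.stdAddChar (-t))]
  congr 1
  rw [map_sub, map_one, map_mul, zt_conj]
  congr 2
  rw [AddChar.map_neg_eq_conj, Complex.conj_conj]

private theorem one_sub_ne (r : ℕ) [Fact r.Prime] (h5 : 5 ≤ r) (t : ZMod r) :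
    1 - zt true * ZMod.stdAddChar t ≠ 0 := by
  intro h
  have hr : r.Prime := Fact.out
  have h1 : zt true * ZMod.stdAddChar t = 1 := (sub_eq_zero.1 h).symm
  have h2 : (ZMod.stdAddChar t : ℂ) ^ r = 1 := by
    rw [← AddChar.map_nsmul_eq_pow]
    simp
  have h3 : zt true ^ r = 1 := by
    have := congrArg (· ^ r) h1
    simpa [mul_pow, h2] using this
  have hp : IsPrimitiveRoot (zt true) 3 := by
    have := Complex.isPrimitiveRoot_exp 3 (by norm_num)
    rw [zt, if_pos rfl]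
    exact_mod_cast this
  have h4 := (hp.pow_eq_one_iff_dvd r).1 h3
  have h5' := (Nat.prime_dvd_prime_iff_eq Nat.prime_three hr).1 h4
  omega

private theorem ell_eq (r : ℕ) [Fact r.Prime] (h5 : 5 ≤ r) (x : ℕ) :
    ell true r (x : ℤ) = UU r (-(2 * (x : ZMod r))) - UU r (x : ZMod r) := by
  have e1 : Complex.exp (2 * Real.pi * Complex.I * ((x : ℤ) : ℂ) / r) =
      ZMod.stdAddChar (x : ZMod r) := by
    have h := ZMod.stdAddChar_coe (N := r) (x : ℤ)
    rw [← h]
    push_cast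
    rfl
  have e2 : (1 + zt true * ZMod.stdAddChar (x : ZMod r)) *
      (1 - zt true * ZMod.stdAddChar (x : ZMod r)) =
      1 - zt true ^ 2 * ZMod.stdAddChar (2 * (x : ZMod r)) := by
    rw [two_mul, AddChar.map_add_eq_mul]
    ring
  have e3 : 1 - zt true ^ 2 * ZMod.stdAddChar (2 * (x : ZMod r)) ≠ 0 := by
    intro h
    have h' := one_sub_ne r h5 (-(2 * (x : ZMod r)))
    apply h'
    have := congrArg (starRingEnd ℂ) h
    rw [map_sub, map_one, map_mul, map_pow, zt_conj, ← AddChar.map_neg_eq_conj, map_zero] at this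
    rw [← this]
    have h4 : (zt true ^ 2) ^ 2 = zt true := by
      calc (zt true ^ 2) ^ 2 = zt true ^ 3 * zt true := by ring
        _ = zt true := by rw [zt_cube, one_mul]
    rw [h4]
  have e4 := one_sub_ne r h5 (x : ZMod r)
  have e5 : 1 + zt true * ZMod.stdAddChar (x : ZMod r) ≠ 0 := by
    intro h
    rw [h, zero_mul] at e2
    exact e3 e2.symm
  rw [← norm_sq_type, ← e2, norm_mul, Real.log_mul (norm_ne_zero_iff.2 e5) (norm_ne_zero_iff.2 e4),
    UU, ell, e1]
  ring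

private theorem S_ne (r : ℕ) [Fact r.Prime] (h5 : 5 ≤ r) (χ : DirichletCharacter ℂ r)
    (he : χ (-1) = -1) : ∑ t : ZMod r, χ t * (UU r t : ℝ) ≠ 0 := by
  have hr : r.Prime := Fact.out
  have : NeZero (3 * r) := ⟨by omega⟩
  have hcop : Nat.Coprime 3 r := (Nat.coprime_primes Nat.prime_three hr).2 (by omega)
  have hT := sum_log_ne (3 * r) (by omega) (chp r χ) (chp_prim r h5 χ he) (chp_ne_one r h5 χ he)
    (chp_even r χ he)
  intro hS
  apply hT
  have h1 : ∑ x ∈ range (3 * r), chp r χ (x : ZMod (3 * r)) *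
      (Real.log ‖1 - zr (3 * r) ^ x‖ : ℝ) =
      ∑ x : ZMod (3 * r), chp r χ x * ((Real.log ‖1 - ZMod.stdAddChar x‖ : ℝ) : ℂ) := by
    rw [← sum_zmod]
    refine Finset.sum_congr rfl fun x _ => ?_
    rw [zr_pow]
  rw [h1, ← (bij3 r h5).sum_comp (fun x : ZMod (3 * r) => chp r χ x * ((Real.log ‖1 - ZMod.stdAddChar x‖ : ℝ) : ℂ)),
    Fintype.sum_prod_type]
  have h2 : ∀ (a : ZMod 3) (t : ZMod r), chp r χ ((r * a.val + 3 * t.val : ℕ) : ZMod (3 * r)) *
      ((Real.log ‖1 - ZMod.stdAddChar ((r * a.val + 3 * t.val : ℕ) : ZMod (3 * r))‖ : ℝ) : ℂ) =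
      c3 (r : ZMod 3) * χ 3 * (c3 a * (χ t *
        (Real.log ‖1 - zt true ^ a.val * ZMod.stdAddChar t‖ : ℝ))) := by
    intro a t
    rw [← zr_pow, zr_split, chp_nat]
    have e3 : (3 : ZMod 3) = 0 := by decide
    have k1 : ((r * a.val + 3 * t.val : ℕ) : ZMod 3) = r * a := by
      push_cast
      rw [e3, zero_mul, add_zero, ZMod.natCast_zmod_val]
    have k2 : ((r * a.val + 3 * t.val : ℕ) : ZMod r) = 3 * t := by
      push_cast
      rw [CharP.cast_eq_zero, zero_mul, zero_add, ZMod.natCast_zmod_val]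
    rw [k1, k2, map_mul, map_mul, ZMod.natCast_zmod_val]
    ring
  have h3 : ∀ a : ZMod 3, ∑ t : ZMod r, (chp r χ ((r * a.val + 3 * t.val : ℕ) : ZMod (3 * r)) *
      ((Real.log ‖1 - ZMod.stdAddChar ((r * a.val + 3 * t.val : ℕ) : ZMod (3 * r))‖ : ℝ) : ℂ)) =
      c3 (r : ZMod 3) * χ 3 * (c3 a * ∑ t : ZMod r, (χ t *
        (Real.log ‖1 - zt true ^ a.val * ZMod.stdAddChar t‖ : ℝ))) := by
    intro a
    rw [Finset.mul_sum, Finset.mul_sum]
    exact Finset.sum_congr rfl fun t _ => h2 a t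
  have h4 : ∑ a : ZMod 3, (c3 (r : ZMod 3) * χ 3 * (c3 a * ∑ t : ZMod r, (χ t *
        (Real.log ‖1 - zt true ^ a.val * ZMod.stdAddChar t‖ : ℝ)))) = 0 := by
    have hU : (univ : Finset (ZMod 3)) = {0, 1, 2} := by decide
    rw [hU, Finset.sum_insert (by decide), Finset.sum_insert (by decide), Finset.sum_singleton]
    have v1 : (1 : ZMod 3).val = 1 := by decide
    have v2 : (2 : ZMod 3).val = 2 := by decide
    rw [c3_zero, c3_one, c3_two, v1, v2]
    have s1 : ∑ t : ZMod r, χ t * ((Real.log ‖1 - zt true ^ 1 * ZMod.stdAddChar t‖ : ℝ) : ℂ) = 0 := by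
      rw [pow_one]
      exact hS
    have s2 : ∑ t : ZMod r, χ t * ((Real.log ‖1 - zt true ^ 2 * ZMod.stdAddChar t‖ : ℝ) : ℂ) = 0 := by
      simp_rw [norm_sq_type]
      rw [← Equiv.sum_comp (Equiv.neg (ZMod r))]
      have : ∀ t : ZMod r, χ ((Equiv.neg (ZMod r)) t) * ((UU r (-((Equiv.neg (ZMod r)) t)) : ℝ) : ℂ) =
          - (χ t * (UU r t : ℝ)) := by
        intro t
        rw [Equiv.neg_apply, neg_neg, ← neg_one_mul t, map_mul, he]
        ring
      simp_rw [this]
      rw [Finset.sum_neg_distrib, hS, neg_zero]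
    rw [s1, s2]
    ring
  rw [← h4]
  exact Finset.sum_congr rfl fun a _ => h3 a

/-- PROOF. Let `χ` be odd modulo `r`, `χ₃` the nontrivial character modulo `3`. `χ' = χ₃ χ` modulo `3 r` is even and primitive:
`sum_log_ne` with `R = 3 r`. Write `x / (3 r) ≡ u x / 3 + v x / r` modulo `1`, `u r + 3 v = 1`; `x` modulo `3 r` corresponds to
`(x mod 3, x mod r)`, and `ω^(-u) ζ^y` is the conjugate of `ω^u ζ^(-y)`, so
`∑_{x mod 3r} χ'(x) log ‖1 - ζ_{3r}^x‖ = ± 2 χ(v)⁻¹ ∑_t χ(t) log ‖1 - ω^u ζ^t‖`, and `u ≡ 2` is reduced to `u ≡ 1` by conjugation.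
Hence `S = ∑_t χ(t) U(t) ≠ 0` for `U(t) = log ‖1 - ω ζ^t‖`. Finally `1 + ω ζ^x = (1 - ω² ζ^(2x)) / (1 - ω ζ^x)`,
`‖1 - ω² ζ^(2x)‖ = ‖1 - ω ζ^(-2x)‖`, so the sum is `∑ χ(x) (U(-2x) - U(x)) = (- χ(2)⁻¹ - 1) S`. -/
theorem sum_ell_ne_true (r : ℕ) [Fact r.Prime] (h5 : 5 ≤ r) (χ : DirichletCharacter ℂ r)
    (he : χ (-1) = -1) (h2 : χ 2 ≠ -1) :
    ∑ x ∈ Ico 1 r, χ (x : ZMod r) * (ell true r x : ℝ) ≠ 0 := by
  have hr : r.Prime := Fact.out
  have hS := S_ne r h5 χ he
  set S := ∑ t : ZMod r, χ t * ((UU r t : ℝ) : ℂ) with hSd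
  have h1 : ∑ x ∈ Ico 1 r, χ (x : ZMod r) * ((ell true r x : ℝ) : ℂ) =
      ∑ x : ZMod r, χ x * ((UU r (-(2 * x)) - UU r x : ℝ) : ℂ) := by
    rw [← sum_zmod, Finset.range_eq_Ico, Finset.sum_eq_sum_Ico_succ_bot hr.pos]
    have h0 : χ ((0 : ℕ) : ZMod r) = 0 := by
      rw [Nat.cast_zero]
      exact MulChar.map_zero χ
    rw [h0, zero_mul, zero_add, zero_add]
    refine Finset.sum_congr rfl fun x _ => ?_
    rw [ell_eq r h5]
  have h3 : χ (-2) * ∑ x : ZMod r, χ x * ((UU r (-(2 * x)) : ℝ) : ℂ) = S := by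
    have hu : IsUnit (-2 : ZMod r) := by
      rw [IsUnit.neg_iff]
      have := (ZMod.isUnit_iff_coprime 2 r).2 ((Nat.coprime_primes Nat.prime_two hr).2 (by omega))
      simpa using this
    have hb : Function.Bijective (fun x : ZMod r => -2 * x) := by
      rw [Finite.injective_iff_bijective.symm]
      intro x y hxy
      exact hu.mul_left_cancel hxy
    rw [hSd, ← hb.sum_comp (fun t : ZMod r => χ t * ((UU r t : ℝ) : ℂ)), Finset.mul_sum]
    refine Finset.sum_congr rfl fun x _ => ?_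
    rw [map_mul, neg_mul]
    ring
  intro h4
  rw [h1] at h4
  push_cast at h4
  simp_rw [mul_sub] at h4
  rw [Finset.sum_sub_distrib, sub_eq_zero] at h4
  rw [h4, ← hSd] at h3
  have h5' : χ (-2) = 1 := by
    have : (χ (-2) - 1) * S = 0 := by rw [sub_mul, h3]; ring
    rcases mul_eq_zero.1 this with h | h
    · exact sub_eq_zero.1 h
    · exact absurd h hS
  apply h2
  have h6 : χ (-2) = - χ 2 := by
    rw [← neg_one_mul (2 : ZMod r), map_mul, he]
    ring
  rw [h6] at h5'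
  rw [← h5', neg_neg]

end Pool.Agent.W_420c7c_h51
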