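import Pool.Agent.W_420c7c_h51.VanC1
import Pool.Agent.W_420c7c_h51.VanC2

set_option autoImplicit false

/-!
# Relations vanish at characters of the right parity
-/

namespace Pool.Agent.W_420c7c_h51

open Finset

private lemma vanD1_ell (σ : Bool) (r : ℕ) (hr : 0 < r) (z : ℤ) :
    ell σ r z = ell σ r (((z : ZMod r).val : ℕ) : ℤ) := by
  have : NeZero r := ⟨hr.ne'⟩
  refine ell_mod σ r hr _ _ ((ZMod.intCast_eq_intCast_iff _ _ r).1 ?_)
  rw [Int.cast_natCast, ZMod.natCast_zmod_val]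

private lemma vanD1_sum (r : ℕ) [NeZero r] (hr : 0 < r) (F : ZMod r → ℂ) (h0 : F 0 = 0) :
    ∑ x ∈ Ico 1 r, F (x : ZMod r) = ∑ a, F a := by
  have h1 : ∑ x ∈ range r, F (x : ZMod r) = ∑ a, F a := by
    refine Finset.sum_nbij' (fun x => (x : ZMod r)) (fun a => a.val) ?_ ?_ ?_ ?_ ?_
    · intro x _; exact Finset.mem_univ _
    · intro a _; exact Finset.mem_range.2 (ZMod.val_lt a)
    · intro x hx; exact ZMod.val_cast_of_lt (Finset.mem_range.1 hx)
    · intro a _; exact ZMod.natCast_zmod_val a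
    · intro x _; rfl
  rw [← h1, Finset.range_eq_Ico, Finset.sum_eq_sum_Ico_succ_bot hr]
  simp [h0]

/-- PROOF. Multiply `hX` by `χ x` and sum over `x`: with `y = x h w mod r` one gets
`(∑_w f w χ(h w)⁻¹) * ∑_y χ y ell σ r y = 0` (`ell_mod`); the second factor is not
zero by `sum_ell_ne_false`, `sum_ell_ne_true`. -/
theorem char_zero (σ : Bool) (r : ℕ) [Fact r.Prime] (h5 : 5 ≤ r) (D : Finset (ℕ × ℕ))
    (f : ℕ × ℕ → ℤ) (h : ℕ × ℕ → ℤ) (hh : ∀ w ∈ D, ¬ (r : ℤ) ∣ h w)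
    (hX : ∀ x ∈ Ico 1 r, ∑ w ∈ D, (f w : ℝ) * ell σ r ((x : ℤ) * h w) = 0)
    (χ : DirichletCharacter ℂ r)
    (hχ : if σ then χ (-1) = -1 ∧ χ 2 ≠ -1 else χ (-1) = 1 ∧ χ 2 ≠ 1) :
    ∑ w ∈ D, (f w : ℂ) * (χ (h w : ZMod r))⁻¹ = 0 := by
  classical
  have hr : 0 < r := by omega
  have : NeZero r := ⟨hr.ne'⟩
  set S : ℂ := ∑ x ∈ Ico 1 r, χ (x : ZMod r) * (ell σ r x : ℝ) with hS
  have hS0 : S ≠ 0 := by
    cases σ with
    | false =>
      simp only [Bool.false_eq_true, if_false] at hχ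
      exact sum_ell_ne_false r h5 χ hχ.1 hχ.2
    | true =>
      simp only [if_true] at hχ
      exact sum_ell_ne_true r h5 χ hχ.1 hχ.2
  set L : ZMod r → ℂ := fun a => ((ell σ r ((a.val : ℕ) : ℤ) : ℝ) : ℂ) with hL
  have hχ0 : χ 0 = 0 := MulChar.map_nonunit χ (by simp)
  have hSL : S = ∑ a, χ a * L a := by
    rw [hS, ← vanD1_sum r hr (fun a => χ a * L a) (by simp [hχ0])]
    refine Finset.sum_congr rfl fun x _ => ?_
    rw [vanD1_ell σ r hr (x : ℤ), Int.cast_natCast]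
  have key : ∀ w ∈ D, ∑ x ∈ Ico 1 r, χ (x : ZMod r) * (ell σ r ((x : ℤ) * h w) : ℝ) =
      (χ (h w : ZMod r))⁻¹ * S := by
    intro w hw
    set u : ZMod r := (h w : ZMod r) with hu
    have hu0 : u ≠ 0 := fun h0 => hh w hw ((ZMod.intCast_zmod_eq_zero_iff_dvd _ r).1 h0)
    have hχu : χ u ≠ 0 := ((IsUnit.mk0 u hu0).map χ).ne_zero
    have h1 : ∑ x ∈ Ico 1 r, χ (x : ZMod r) * (ell σ r ((x : ℤ) * h w) : ℝ) =
        ∑ a, χ a * L (a * u) := by
      rw [← vanD1_sum r hr (fun a => χ a * L (a * u)) (by simp [hχ0])]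
      refine Finset.sum_congr rfl fun x _ => ?_
      rw [vanD1_ell σ r hr ((x : ℤ) * h w), Int.cast_mul, Int.cast_natCast]
    have h2 : ∑ a, χ a * L (a * u) = ∑ a, (χ u)⁻¹ * (χ (a * u) * L (a * u)) := by
      refine Finset.sum_congr rfl fun a _ => ?_
      rw [map_mul]
      field_simp
    have h3 : ∑ a, (χ u)⁻¹ * (χ (a * u) * L (a * u)) = ∑ a, (χ u)⁻¹ * (χ a * L a) :=
      Fintype.sum_equiv (Equiv.mulRight₀ u hu0) _ _ (fun a => rfl)
    rw [h1, h2, h3, ← Finset.mul_sum, hSL]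
  have h0 : (∑ w ∈ D, (f w : ℂ) * (χ (h w : ZMod r))⁻¹) * S = 0 := by
    rw [Finset.sum_mul]
    calc ∑ w ∈ D, (f w : ℂ) * (χ (h w : ZMod r))⁻¹ * S
        = ∑ w ∈ D, ∑ x ∈ Ico 1 r,
            χ (x : ZMod r) * ((f w : ℂ) * (ell σ r ((x : ℤ) * h w) : ℝ)) := by
          refine Finset.sum_congr rfl fun w hw => ?_
          rw [mul_assoc, ← key w hw, Finset.mul_sum]
          exact Finset.sum_congr rfl fun x _ => by ring
      _ = ∑ x ∈ Ico 1 r, χ (x : ZMod r) *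
            ((∑ w ∈ D, (f w : ℝ) * ell σ r ((x : ℤ) * h w) : ℝ) : ℂ) := by
          rw [Finset.sum_comm]
          refine Finset.sum_congr rfl fun x _ => ?_
          rw [← Finset.mul_sum]
          push_cast
          rfl
      _ = 0 := by
          refine Finset.sum_eq_zero fun x hx => ?_
          rw [hX x hx]
          simp
  exact (mul_eq_zero.1 h0).resolve_right hS0

end Pool.Agent.W_420c7c_h51
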